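import Pool.Agent.ALD.SpB

/-! Module ATL: subtrees given by their addresses -/

namespace Pool.Agent.ALD

open BT

theorem at_nil (T : BT) : T.at? [] = some T := by
  cases T <;> rfl

theorem AtL_leaf (x : ℕ) (c : Bool) (a : List Bool) : (leaf x).at? (c :: a) = none := by
  cases c <;> rfl

theorem AtL_size_pos (T : BT) : 0 < T.size := by
  induction T with
  | leaf a => simp [BT.size]
  | node l r ihl ihr => simp only [BT.size]; omega

theorem at_append (T : BT) (a b : List Bool) : T.at? (a ++ b) = (T.at? a).bind (fun S => S.at? b) := by
  induction a generalizing T with
  | nil => rw [List.nil_append, at_nil]; rfl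
  | cons c a ih =>
    cases T with
    | leaf x => rw [List.cons_append, AtL_leaf, AtL_leaf]; rfl
    | node l r =>
      cases c with
      | false => exact ih l
      | true => exact ih r

theorem at_children {T : BT} {a : List Bool} {l r : BT} (h : T.at? a = some (node l r)) :
    T.at? (a ++ [false]) = some l ∧ T.at? (a ++ [true]) = some r := by
  rw [at_append, at_append, h]
  exact ⟨at_nil l, at_nil r⟩

/-- if one of the children exists, the vertex is a node -/
theorem exists_node {T : BT} {a : List Bool} {c : Bool} {S : BT} (h : T.at? (a ++ [c]) = some S) :
    ∃ l r, T.at? a = some (node l r) := by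
  rw [at_append] at h
  cases hT : T.at? a with
  | none => rw [hT] at h; cases h
  | some R =>
    cases R with
    | leaf x => rw [hT] at h; cases c <;> cases h
    | node l r => exact ⟨l, r, rfl⟩

theorem at_labs {T S : BT} {a : List Bool} (h : T.at? a = some S) : ∀ i ∈ S.labs, i ∈ T.labs := by
  induction a generalizing T with
  | nil =>
    rw [at_nil] at h
    cases h
    exact fun i hi => hi
  | cons c a ih =>
    cases T with
    | leaf x => rw [AtL_leaf] at h; cases h
    | node l r =>
      intro i hi
      simp only [BT.labs, List.mem_append]
      cases c with
      | false => exact Or.inl (ih (T := l) h i hi)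
      | true => exact Or.inr (ih (T := r) h i hi)

theorem at_nodup {T S : BT} {a : List Bool} (hT : T.labs.Nodup) (h : T.at? a = some S) :
    S.labs.Nodup := by
  induction a generalizing T with
  | nil =>
    rw [at_nil] at h
    cases h
    exact hT
  | cons c a ih =>
    cases T with
    | leaf x => rw [AtL_leaf] at h; cases h
    | node l r =>
      simp only [BT.labs] at hT
      have h1 := List.nodup_append.1 hT
      cases c with
      | false => exact ih (T := l) h1.1 h
      | true => exact ih (T := r) h1.2.1 h

theorem sz_nil (T : BT) : T.sz [] = T.size := by
  unfold BT.sz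
  rw [at_nil]

theorem sz_pos_iff {T : BT} {a : List Bool} : 0 < T.sz a ↔ ∃ S, T.at? a = some S := by
  unfold BT.sz
  cases hT : T.at? a with
  | none => simp
  | some S => simpa using AtL_size_pos S

theorem sz_of_at {T S : BT} {a : List Bool} (h : T.at? a = some S) : T.sz a = S.size := by
  unfold BT.sz
  rw [h]

theorem AtL_sz_le (T : BT) (b : List Bool) : T.sz b ≤ T.size := by
  induction b generalizing T with
  | nil => rw [sz_nil]
  | cons c b ih =>
    cases T with
    | leaf x => unfold BT.sz; rw [AtL_leaf]; exact Nat.zero_le _
    | node l r =>
      cases c with
      | false =>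
        have : (node l r).sz (false :: b) = l.sz b := rfl
        rw [this]
        simp only [BT.size]
        have := ih l
        omega
      | true =>
        have : (node l r).sz (true :: b) = r.sz b := rfl
        rw [this]
        simp only [BT.size]
        have := ih r
        omega

theorem sz_mono (T : BT) (a b : List Bool) : T.sz (a ++ b) ≤ T.sz a := by
  cases hT : T.at? a with
  | none =>
    have : T.at? (a ++ b) = none := by rw [at_append, hT]; rfl
    unfold BT.sz
    rw [this, hT]
  | some S =>
    have h1 : T.at? (a ++ b) = S.at? b := by rw [at_append, hT]; rfl
    have h2 : T.sz (a ++ b) = S.sz b := by unfold BT.sz; rw [h1]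
    rw [h2, sz_of_at hT]
    exact AtL_sz_le S b

/-- `size = size of the left child + size of the right child` -/
theorem sz_children {T : BT} {a : List Bool} {c : Bool} (h : 0 < T.sz (a ++ [c])) :
    T.sz a = T.sz (a ++ [false]) + T.sz (a ++ [true]) := by
  obtain ⟨S, hS⟩ := sz_pos_iff.1 h
  obtain ⟨l, r, hlr⟩ := exists_node hS
  obtain ⟨h1, h2⟩ := at_children hlr
  rw [sz_of_at hlr, sz_of_at h1, sz_of_at h2]
  rfl

/-- subtrees with addresses that are not comparable have disjoint sets of labels -/
theorem at_disjoint {T S R : BT} (hT : T.labs.Nodup) {a b : List Bool} (hS : T.at? a = some S)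
    (hR : T.at? b = some R) (hab : ¬ a <+: b) (hba : ¬ b <+: a) : List.Disjoint S.labs R.labs := by
  induction a generalizing T b with
  | nil => exact absurd (List.nil_prefix) hab
  | cons c a ih =>
    cases b with
    | nil => exact absurd (List.nil_prefix) hba
    | cons d b =>
      cases T with
      | leaf x => rw [AtL_leaf] at hS; cases hS
      | node l r =>
        simp only [BT.labs] at hT
        have h1 := List.nodup_append.1 hT
        have hdis : List.Disjoint l.labs r.labs := (List.disjoint_of_nodup_append hT)
        by_cases hcd : c = d
        · subst hcd
          have hab' : ¬ a <+: b := fun h => hab (List.cons_prefix_cons.2 ⟨rfl, h⟩)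
          have hba' : ¬ b <+: a := fun h => hba (List.cons_prefix_cons.2 ⟨rfl, h⟩)
          cases c with
          | false => exact ih (T := l) h1.1 hS hR hab' hba'
          | true => exact ih (T := r) h1.2.1 hS hR hab' hba'
        · cases c with
          | false =>
            cases d with
            | false => exact absurd rfl hcd
            | true =>
              intro i hi hj
              exact hdis (at_labs (T := l) hS i hi) (at_labs (T := r) hR i hj)
          | true =>
            cases d with
            | true => exact absurd rfl hcd
            | false =>
              intro i hi hj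
              exact hdis (at_labs (T := l) hR i hj) (at_labs (T := r) hS i hi)

theorem mem_verts_iff (T : BT) (a : List Bool) : a ∈ T.verts ↔ ∃ S, T.at? a = some S := by
  induction T generalizing a with
  | leaf x =>
    cases a with
    | nil => simp [BT.verts, at_nil]
    | cons c a =>
      simp only [BT.verts, List.mem_singleton]
      constructor
      · intro h; cases h
      · rintro ⟨S, hS⟩; rw [AtL_leaf] at hS; cases hS
  | node l r ihl ihr =>
    cases a with
    | nil => simp [BT.verts, at_nil]
    | cons c a =>
      simp only [BT.verts, List.mem_cons, List.mem_append, List.mem_map]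
      cases c with
      | false =>
        have : (node l r).at? (false :: a) = l.at? a := rfl
        rw [this, ← ihl]
        constructor
        · rintro (h | ⟨x, hx, hxa⟩ | ⟨x, hx, hxa⟩)
          · cases h
          · cases hxa; exact hx
          · cases hxa
        · intro h
          exact Or.inr (Or.inl ⟨a, h, rfl⟩)
      | true =>
        have : (node l r).at? (true :: a) = r.at? a := rfl
        rw [this, ← ihr]
        constructor
        · rintro (h | ⟨x, hx, hxa⟩ | ⟨x, hx, hxa⟩)
          · cases h
          · cases hxa
          · cases hxa; exact hx
        · intro h
          exact Or.inr (Or.inr ⟨a, h, rfl⟩)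

end Pool.Agent.ALD
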