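import Pool.Agent.ALD.AtL

/-! Module ATS: dictionary between addresses and spines -/

namespace Pool.Agent.ALD

open BT

theorem atS_labs_ne : ∀ T : BT, ∃ i, i ∈ T.labs
  | leaf a => ⟨a, by simp [labs]⟩
  | node l _ => by
    obtain ⟨i, hi⟩ := atS_labs_ne l
    exact ⟨i, by simp [labs, hi]⟩

theorem atS_sz_false (l r : BT) (a : List Bool) : (node l r).sz (false :: a) = l.sz a := by
  simp [sz, at?]

theorem atS_sz_true (l r : BT) (a : List Bool) : (node l r).sz (true :: a) = r.sz a := by
  simp [sz, at?]

/-- Dictionary between addresses and spines. For a vertex `y` there is a leaf label `i` below it, whose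
spine begins with the sizes of the siblings along the path to `y`. Induction on `T`. -/
theorem exists_spine {T : BT} (hT : T.labs.Nodup) {y : List Bool} {S : BT} (h : T.at? y = some S) :
    ∃ i ∈ S.labs, ∃ p s : List ℕ, T.sp i = p ++ s ∧ p.length = y.length ∧ 1 + s.sum = S.size ∧
      (∀ k, k ≤ y.length → 1 + ((p ++ s).drop k).sum = T.sz (y.take k)) ∧
      (∀ k (hk : k < y.length), p[k]? = some (T.sz (y.take k ++ [!(y[k])]))) := by
  induction T generalizing y with
  | leaf a =>
    cases y with
    | nil =>
      rw [at_nil] at h
      obtain rfl := Option.some.inj h
      refine ⟨a, by simp [labs], [], [], rfl, rfl, rfl, ?_, ?_⟩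
      · intro k hk
        obtain rfl : k = 0 := Nat.le_zero.mp hk
        rfl
      · intro k hk
        exact absurd hk (Nat.not_lt_zero k)
    | cons c y => simp [at?] at h
  | node l r ihl ihr =>
    have hT' := hT
    rw [labs, List.nodup_append] at hT'
    obtain ⟨hl, hr, hd⟩ := hT'
    cases y with
    | nil =>
      rw [at_nil] at h
      obtain rfl := Option.some.inj h
      obtain ⟨i, hi⟩ := atS_labs_ne (node l r)
      have hs := sp_sum hi
      refine ⟨i, hi, [], (node l r).sp i, rfl, rfl, hs, ?_, ?_⟩
      · intro k hk
        obtain rfl : k = 0 := Nat.le_zero.mp hk
        rw [List.drop_zero, List.nil_append, hs, List.take_zero, sz_nil]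
      · intro k hk
        exact absurd hk (Nat.not_lt_zero k)
    | cons c y =>
      cases c with
      | false =>
        have h' : l.at? y = some S := by simpa [at?] using h
        obtain ⟨i, hi, p, s, h1, h2, h3, h4, h5⟩ := ihl hl h'
        have hil : i ∈ l.labs := at_labs h' i hi
        have hsp : (node l r).sp i = (r.size :: p) ++ s := by
          rw [sp, if_pos hil, h1, List.cons_append]
        have h0 := h4 0 (Nat.zero_le _)
        rw [List.drop_zero, List.take_zero, sz_nil] at h0
        refine ⟨i, hi, r.size :: p, s, hsp, by simp [h2], h3, ?_, ?_⟩
        · intro k hk
          cases k with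
          | zero =>
            rw [List.drop_zero, List.take_zero, sz_nil, List.cons_append, List.sum_cons, size]
            omega
          | succ k =>
            rw [List.cons_append, List.drop_succ_cons, List.take_succ_cons, atS_sz_false]
            exact h4 k (by simpa using hk)
        · intro k hk
          cases k with
          | zero =>
            rw [List.take_zero]
            simp [sz, at?]
          | succ k =>
            have hk' : k < y.length := by simpa using hk
            have := h5 k hk'
            rw [List.take_succ_cons, List.cons_append, atS_sz_false]
            simpa using this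
      | true =>
        have h' : r.at? y = some S := by simpa [at?] using h
        obtain ⟨i, hi, p, s, h1, h2, h3, h4, h5⟩ := ihr hr h'
        have hir : i ∈ r.labs := at_labs h' i hi
        have hil : i ∉ l.labs := fun hx => hd i hx i hir rfl
        have hsp : (node l r).sp i = (l.size :: p) ++ s := by
          rw [sp, if_neg hil, h1, List.cons_append]
        have h0 := h4 0 (Nat.zero_le _)
        rw [List.drop_zero, List.take_zero, sz_nil] at h0
        refine ⟨i, hi, l.size :: p, s, hsp, by simp [h2], h3, ?_, ?_⟩
        · intro k hk
          cases k with
          | zero =>
            rw [List.drop_zero, List.take_zero, sz_nil, List.cons_append, List.sum_cons, size]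
            omega
          | succ k =>
            rw [List.cons_append, List.drop_succ_cons, List.take_succ_cons, atS_sz_true]
            exact h4 k (by simpa using hk)
        · intro k hk
          cases k with
          | zero =>
            rw [List.take_zero]
            simp [sz, at?]
          | succ k =>
            have hk' : k < y.length := by simpa using hk
            have := h5 k hk'
            rw [List.take_succ_cons, List.cons_append, atS_sz_true]
            simpa using this

end Pool.Agent.ALD
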