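import Pool.Agent.ALD.Defs

/-!
Auxiliary definitions for the project ALD (not used in the final statement).
-/

open MeasureTheory Filter Topology

noncomputable section

namespace Pool.Agent.ALD

open BT

namespace BT

/-- relabelling -/
def map (σ : ℕ → ℕ) : BT → BT
  | leaf a => leaf (σ a)
  | node l r => node (map σ l) (map σ r)

/-- forget the labels (all labels become `0`) -/
def shape (T : BT) : BT := map (fun _ => 0) T

/-- The spine of the leaf `i`: the list, from top to bottom, of the sizes of the subtrees hanging off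
the path from the top vertex to the leaf `i` (meaningful if `i` is a label of the tree). -/
def sp : BT → ℕ → List ℕ
  | leaf _, _ => []
  | node l r, i => if i ∈ l.labs then r.size :: l.sp i else l.size :: r.sp i

/-- the subtree with address `a` -/
def at? : BT → List Bool → Option BT
  | T, [] => some T
  | node l _, false :: a => l.at? a
  | node _ r, true :: a => r.at? a
  | leaf _, _ :: _ => none

/-- number of leaves of the subtree with address `a` (`0` if there is none) -/
def sz (T : BT) (a : List Bool) : ℕ :=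
  match T.at? a with
  | some S => S.size
  | none => 0

/-- trace of the leaf set of `T` on a set of labels -/
def tr (I : Finset ℕ) (T : BT) : Finset ℕ := I.filter (fun i => i ∈ T.labs)

/-- `A` is the trace on `I` of the leaf set of some vertex of `T` -/
def HasTr (I A : Finset ℕ) : BT → Prop
  | leaf a => tr I (leaf a) = A
  | node l r => tr I (node l r) = A ∨ HasTr I A l ∨ HasTr I A r

/-- Total number of leaves of the subtrees hanging off the edge of the restricted tree `T|_I` whose
lower end has trace `A`. -/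
def Y (I A : Finset ℕ) : BT → ℕ
  | leaf _ => 0
  | node l r => (if tr I l = A ∧ tr I r = ∅ then r.size else 0) +
      (if tr I r = A ∧ tr I l = ∅ then l.size else 0) + Y I A l + Y I A r

/-- For each vertex of `T`, the trace on `I` of the lowest vertex above it (or itself) with nonempty
trace. Only used if `tr I T ≠ ∅`. -/
def nus (I : Finset ℕ) : BT → List (Finset ℕ)
  | leaf a => [tr I (leaf a)]
  | node l r => tr I (node l r) ::
      ((if tr I l = ∅ then List.replicate (2 * l.size - 1) (tr I r) else nus I l) ++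
       (if tr I r = ∅ then List.replicate (2 * r.size - 1) (tr I l) else nus I r))

end BT

/-- `Dec l l' j`: the list `l'` is obtained from `l` by decreasing the entries by `j` in total and
dropping the entries that become `0`. -/
inductive Dec : List ℕ → List ℕ → ℕ → Prop
  | nil : Dec [] [] 0
  | drop (m : ℕ) {l l' : List ℕ} {j : ℕ} : Dec l l' j → Dec (m :: l) l' (j + m)
  | keep (m m' : ℕ) {l l' : List ℕ} {j : ℕ} : 1 ≤ m' → m' ≤ m → Dec l l' j →
      Dec (m :: l) (m' :: l') (j + (m - m'))

/-- `U n = C(2n, n) / 4^n` -/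
def U (n : ℕ) : ℝ := (n.centralBinom : ℝ) / 4 ^ n

/-- the jump law `q m = U (m - 1) - U m` (`= 2 Cat(m-1) / 4^m` for `m ≥ 1`, and `q 0 = 0`) -/
def q (m : ℕ) : ℝ := U (m - 1) - U m

/-- sum of `f c` over the compositions `c` of `N`, weighted by the product of `q` over the parts -/
def wsum : ℕ → (List ℕ → ℝ) → ℝ
  | 0, f => f []
  | (N + 1), f => ∑ m : Fin (N + 1), q (m + 1) * wsum (N - m) (fun l => f ((m + 1) :: l))
termination_by N => N
decreasing_by omega

/-- sum of `F` over all planar shapes with `N + 1` leaves (all labels `0`) -/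
def shsum : ℕ → (BT → ℝ) → ℝ
  | 0, F => F (leaf 0)
  | (N + 1), F => ∑ i : Fin (N + 1), shsum i (fun l => shsum (N - i) (fun r => F (node l r)))
termination_by N => N
decreasing_by all_goals omega

/-- sum over the leaves of a tree of `f` of the spine -/
def spsum : (List ℕ → ℝ) → BT → ℝ
  | f, leaf _ => f []
  | f, node l r => spsum (fun c => f (r.size :: c)) l + spsum (fun c => f (l.size :: c)) r

/-- `g_M (m) = min(m, M) / (2 M U(M))`: it has mean one under `q`; the sum of `g_M` over the subtrees
hanging off a path is the length of the path measured at scale `M`. Also `g_1 (m) = 1` for `m ≥ 1` -/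
def gM (M m : ℕ) : ℝ := (min m M : ℕ) / (2 * M * U M)

/-- difference of two consecutive scales -/
def xi (M m : ℕ) : ℝ := gM M m - gM (2 * M) m

/-- indicator function with real values -/
def ind {α : Type*} (p : α → Prop) (x : α) : ℝ := by
  classical exact if p x then 1 else 0

/-- Dirichlet form of the chain: `E (F(X_0) - F(X_1))^2` -/
def Dir (n : ℕ) (F : BT → ℝ) : ℝ :=
  avg n (fun T => (∑ i ∈ Finset.range n,
    ((T.reins i).map (fun T' => (F T - F T') ^ 2)).sum / ((T.reins i).length : ℝ)) / (n : ℝ))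

/-- probability that the chain is in `B` at one of the times `t 0, …, t (m-1)` -/
def hitP (n : ℕ) (a : ℝ) (m : ℕ) (t : Fin m → ℝ) (B : BT → Prop) : ℝ :=
  fddExp n a m t (ind (fun z : Fin m → BT => ∃ i, B (z i)))

/-- `HB C Tm κ n B`: for all clock rates `a ≤ C n²` and all finite sets of times in `[0, Tm]`, the
probability that the chain on trees with `n` leaves is in `B` at one of these times is at most
`κ`. -/
def HB (C Tm κ : ℝ) (n : ℕ) (B : BT → Prop) : Prop :=
  ∀ (a : ℝ) (m : ℕ) (t : Fin m → ℝ), 0 < a → a ≤ C * (n : ℝ) ^ 2 → Monotone t →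
    (∀ i, 0 ≤ t i ∧ t i ≤ Tm) → hitP n a m t B ≤ κ

/-- the trees that can be brought into `B` by at most `r` moves -/
def nb (n : ℕ) : ℕ → (BT → Prop) → BT → Prop
  | 0, B, T => B T
  | (r + 1), B, T => nb n r B T ∨ ∃ i < n, ∃ T' ∈ T.reins i, nb n r B T'

/-- At all scales `M = 2^j ≤ n / x0`, the `M`-length and the `2M`-length of the path from the top to
any vertex with at least `M` leaves below are close. -/
def Good (n : ℕ) (x0 : ℝ) (T : BT) : Prop :=
  ∀ i < n, ∀ (j : ℕ) (p s : List ℕ), T.sp i = p ++ s → (2 : ℝ) ^ j * x0 ≤ n → 2 ^ j ≤ 1 + s.sum →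
    |(p.map (xi (2 ^ j))).sum| < ((2 : ℝ) ^ j / n) ^ (1 / 8 : ℝ) * Real.sqrt n

/-- the same for one list -/
def GoodL (n : ℕ) (x0 : ℝ) (l : List ℕ) : Prop :=
  ∀ (j : ℕ) (p s : List ℕ), l = p ++ s → (2 : ℝ) ^ j * x0 ≤ n → 2 ^ j ≤ 1 + s.sum →
    |(p.map (xi (2 ^ j))).sum| < ((2 : ℝ) ^ j / n) ^ (1 / 8 : ℝ) * Real.sqrt n

/-- Above any vertex with at least `ε n` leaves below, the hanging subtrees of size at most `ε' n`
have total mass at most `θ n`. -/
def SmallMass (n : ℕ) (ε θ ε' : ℝ) (T : BT) : Prop :=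
  ∀ i < n, ∀ p s : List ℕ, T.sp i = p ++ s → ε * n ≤ 1 + s.sum →
    ((p.filter (fun m : ℕ => decide ((m : ℝ) ≤ ε' * n))).sum : ℝ) ≤ θ * n

/-- There is a path of at most `δ √n` edges, with at least `ε n` leaves below its lower end, off which
at least `12` subtrees with at least `ε n` leaves hang. -/
def ManyBig (n : ℕ) (ε δ : ℝ) (T : BT) : Prop :=
  ∃ i < n, ∃ p w s : List ℕ, T.sp i = p ++ w ++ s ∧ ε * n ≤ 1 + s.sum ∧
    (w.length : ℝ) ≤ δ * Real.sqrt n ∧ 12 ≤ (w.filter (fun m : ℕ => decide (ε * n ≤ (m : ℝ)))).length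

/-- both children of the vertex `a` have at least `ε n` leaves -/
def IsBP (n : ℕ) (ε : ℝ) (T : BT) (a : List Bool) : Prop :=
  ε * n ≤ (T.sz (a ++ [false]) : ℝ) ∧ ε * n ≤ (T.sz (a ++ [true]) : ℝ)

/-- The two internal segments `[p, p ++ b :: w]` and `[p', p' ++ b' :: w']` between branch points with
large subtrees, with different lower ends, carry a total mass larger than `η n`. -/
def Polar (n : ℕ) (ε η : ℝ) (T : BT) : Prop :=
  ∀ (p p' w w' : List Bool) (b b' : Bool), p ++ b :: w ≠ p' ++ b' :: w' →
    IsBP n ε T p → IsBP n ε T p' → IsBP n ε T (p ++ b :: w) → IsBP n ε T (p' ++ b' :: w') →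
    η * n < ((T.sz (p ++ [b]) : ℝ) - T.sz (p ++ b :: w)) +
      ((T.sz (p' ++ [b']) : ℝ) - T.sz (p' ++ b' :: w'))

/-- the set of points of the planted tree -/
def PtSet (T : BT) : Set (List Bool) := {b | b = [] ∨ ∃ a ∈ T.verts, b = false :: a}

/-- discrete star with `k` long arms around `x`: `2δ`-approximate -/
def StarAt (n k : ℕ) (ℓ δ : ℝ) (T : BT) (x : List Bool) : Prop :=
  x ∈ PtSet T ∧ ∃ y : Fin k → List Bool, (∀ i, y i ∈ PtSet T) ∧
    (∀ i, ℓ * Real.sqrt n < gd x (y i)) ∧
    ∀ i j, i ≠ j → (gd x (y i) : ℝ) + gd x (y j) - gd (y i) (y j) < δ * Real.sqrt n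

/-- discrete version of: a point of degree at least `5`, or two points of degree at least `4` -/
def BadTree (n : ℕ) (ℓ δ : ℝ) (T : BT) : Prop :=
  (∃ x, StarAt n 5 ℓ δ T x) ∨
    ∃ x x', StarAt n 4 ℓ δ T x ∧ StarAt n 4 ℓ δ T x' ∧ ℓ * Real.sqrt n < gd x x'

end Pool.Agent.ALD
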