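import Pool.Agent.ALD.StepS

/-! Module CAPD: Dirichlet principle -/

noncomputable section

namespace Pool.Agent.ALD

open BT

theorem capD_avg_sub {n : ℕ} (F G : BT → ℝ) :
    avg n (fun T => F T - G T) = avg n F - avg n G := by
  have h1 : (fun T => F T - G T) = fun T => F T + (-1) * G T := by
    funext T
    ring
  rw [h1, avg_add F (fun T => (-1) * G T), avg_mul_left]
  ring

theorem capD_step_sub {n : ℕ} (F G : BT → ℝ) (T : BT) :
    step n (fun S => F S - G S) T = step n F T - step n G T := by
  have h1 : (fun S => F S - G S) = fun S => F S + (-1) * G S := by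
    funext T
    ring
  rw [h1, step_add F (fun S => (-1) * G S), step_mul_left]
  ring

theorem capD_form_nonneg {n : ℕ} (hn : 2 ≤ n) {β : ℝ} (h0 : 0 ≤ β) (h1 : β ≤ 1) (F : BT → ℝ) :
    0 ≤ avg n (fun T => F T ^ 2) - β * avg n (fun T => F T * step n F T) := by
  have h2 := dir_eq hn F
  have h3 := dir_nonneg (n := n) F
  have h4 : 0 ≤ avg n (fun T => F T ^ 2) := avg_nonneg (fun T _ => sq_nonneg _)
  nlinarith [mul_nonneg h0 h3, mul_nonneg (sub_nonneg.2 h1) h4]

/-- Let `β = a / (1 + a)` and, for functions `f, g`, `𝓔(f, g) = avg (f g) - β avg (f · step g)`. It is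
symmetric (`avg_mul_step`) and nonnegative on the diagonal, since
`𝓔(f, f) = (1 - β) avg f² + (β / 2) Dir f` (`dir_eq`, `dir_nonneg`).
Let `k = h - β · step h`: `k = 0` off `B` and `k ≥ 0` on `B` (there `h = 1` and `β · step h ≤ β ≤ 1`).
* `𝓔(F, h) = avg (F k) ≥ avg (h k) = 𝓔(h, h)` because `F ≥ 1 = h` on `B`.
* `0 ≤ 𝓔(F - h, F - h) = 𝓔(F, F) - 2 𝓔(F, h) + 𝓔(h, h)`, hence `𝓔(h, h) ≤ 𝓔(F, F)`.
* `avg (1 · k) = avg h - β avg (step h) = (1 - β) avg h` by `avg_step`, and `avg k = avg (h k) =
𝓔(h, h)` (as `k` lives on `B` where `h = 1`).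
So `avg h = 𝓔(h, h) / (1 - β) ≤ 𝓔(F, F) / (1 - β) = avg F² + (β / (1 - β)) / 2 · Dir F` and
`β / (1 - β) = a`. -/
theorem cap_le {n : ℕ} (hn : 2 ≤ n) {a : ℝ} (ha : 0 < a) {B : BT → Prop} {h F : BT → ℝ}
    (h01 : ∀ T ∈ trees n, 0 ≤ h T ∧ h T ≤ 1) (hB : ∀ T ∈ trees n, B T → h T = 1)
    (hB' : ∀ T ∈ trees n, ¬ B T → h T = a / (1 + a) * step n h T)
    (hF : ∀ T ∈ trees n, B T → 1 ≤ F T) :
    avg n h ≤ avg n (fun T => F T ^ 2) + a / 2 * Dir n F := by
  set β : ℝ := a / (1 + a) with hβ
  have ha1 : 0 < 1 + a := by linarith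
  have hβ0 : 0 ≤ β := by positivity
  have hβ1 : β < 1 := by
    rw [hβ, div_lt_one ha1]
    linarith
  have hβm : (1 - β) * (1 + a) = 1 := by
    rw [hβ]
    field_simp
    ring
  have hβa : β = a * (1 - β) := by
    rw [hβ]
    field_simp
    ring
  have hstep : ∀ T ∈ trees n, step n h T ≤ 1 := by
    intro T hT
    rw [← step_const hn 1 T hT]
    exact step_mono hn (fun S hS => (h01 S hS).2) T hT
  -- the form at `F - h`
  have e1 := capD_form_nonneg hn hβ0 hβ1.le (fun T => F T - h T)
  have e2 : avg n (fun T => (F T - h T) ^ 2) =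
      avg n (fun T => F T ^ 2) - 2 * avg n (fun T => F T * h T) + avg n (fun T => h T ^ 2) := by
    have : (fun T => (F T - h T) ^ 2) = fun T => (F T ^ 2 - 2 * (F T * h T)) + h T ^ 2 := by
      funext T
      ring
    rw [this, avg_add (fun T => F T ^ 2 - 2 * (F T * h T)) (fun T => h T ^ 2),
      capD_avg_sub (fun T => F T ^ 2) (fun T => 2 * (F T * h T)),
      avg_mul_left 2 (fun T => F T * h T)]
  have e3 : avg n (fun T => (F T - h T) * step n (fun S => F S - h S) T) =
      avg n (fun T => F T * step n F T) - 2 * avg n (fun T => F T * step n h T) +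
        avg n (fun T => h T * step n h T) := by
    have h1 : (fun T => (F T - h T) * step n (fun S => F S - h S) T) =
        fun T => ((F T * step n F T - F T * step n h T) - h T * step n F T) +
          h T * step n h T := by
      funext T
      rw [capD_step_sub]
      ring
    rw [h1, avg_add (fun T => (F T * step n F T - F T * step n h T) - h T * step n F T)
      (fun T => h T * step n h T),
      capD_avg_sub (fun T => F T * step n F T - F T * step n h T) (fun T => h T * step n F T),
      capD_avg_sub (fun T => F T * step n F T) (fun T => F T * step n h T),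
      avg_mul_step hn F h]
    ring
  rw [e2, e3] at e1
  -- comparison of `F` and `h`
  have e4 : avg n (fun T => h T ^ 2) - β * avg n (fun T => h T * step n h T) ≤
      avg n (fun T => F T * h T) - β * avg n (fun T => F T * step n h T) := by
    rw [← avg_mul_left, ← avg_mul_left, ← capD_avg_sub (fun T => h T ^ 2),
      ← capD_avg_sub (fun T => F T * h T)]
    apply avg_mono
    intro T hT
    by_cases hBT : B T
    · have h1 := hB T hT hBT
      have h2 := hF T hT hBT
      have h3 := hstep T hT
      rw [h1]
      have h4 : 0 ≤ 1 - β * step n h T := by nlinarith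
      nlinarith [mul_nonneg (sub_nonneg.2 h2) h4]
    · have h1 := hB' T hT hBT
      have h2 : h T - β * step n h T = 0 := by rw [h1]; ring
      have h3 : h T ^ 2 - β * (h T * step n h T) = h T * (h T - β * step n h T) := by ring
      have h4 : F T * h T - β * (F T * step n h T) = F T * (h T - β * step n h T) := by ring
      rw [h3, h4, h2]
      simp
  have e5 : (1 - β) * avg n h =
      avg n (fun T => h T ^ 2) - β * avg n (fun T => h T * step n h T) := by
    have h1 : avg n (fun T => h T - β * step n h T) =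
        avg n (fun T => h T ^ 2 - β * (h T * step n h T)) := by
      apply avg_congr
      intro T hT
      by_cases hBT : B T
      · rw [hB T hT hBT]
        ring
      · have h1 := hB' T hT hBT
        have h2 : h T - β * step n h T = 0 := by rw [h1]; ring
        have h3 : h T ^ 2 - β * (h T * step n h T) = h T * (h T - β * step n h T) := by ring
        rw [h3, h2]
        simp
    rw [capD_avg_sub h (fun T => β * step n h T), avg_mul_left β (step n h), avg_step hn,
      capD_avg_sub (fun T => h T ^ 2) (fun T => β * (h T * step n h T)),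
      avg_mul_left β (fun T => h T * step n h T)] at h1
    linarith
  have e6 := dir_eq hn F
  have e7 : (1 - β) * avg n h ≤ avg n (fun T => F T ^ 2) -
      β * avg n (fun T => F T * step n F T) := by linarith
  have e8 : avg n (fun T => F T * step n F T) = avg n (fun T => F T ^ 2) - Dir n F / 2 := by
    linarith
  rw [e8] at e7
  have e9 := mul_le_mul_of_nonneg_left e7 ha1.le
  have e10 : (1 + a) * ((1 - β) * avg n h) = avg n h := by
    rw [← mul_assoc, mul_comm (1 + a), hβm, one_mul]
  have e11 : (1 + a) * (avg n (fun T => F T ^ 2) - β * (avg n (fun T => F T ^ 2) - Dir n F / 2)) =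
      ((1 - β) * (1 + a)) * avg n (fun T => F T ^ 2) + (1 + a) * β * (Dir n F / 2) := by ring
  have e12 : (1 + a) * β = a := by
    rw [hβ]
    field_simp
  rw [e10, e11, hβm, e12] at e9
  linarith

end Pool.Agent.ALD
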