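import Pool.Agent.ALD.StepF

/-! Module CAPH: existence of the equilibrium potential -/

noncomputable section

namespace Pool.Agent.ALD

open BT

/-- Iterate `h₀ = 1_B`, `h_{k+1} = max 1_B (β · step h_k)` (put `h = 0` outside `trees n`): the
sequence is nondecreasing in `k` and bounded by one on `trees n` (`step_mono`, `step_const`); its
limit `h = ⨆ h_k` satisfies `h = max 1_B (β · step h)` by `step_tendsto`; on `B` this is `1` because
`β · step h ≤ β ≤ 1`. (Alternatively: Banach fixed point theorem.) -/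
theorem exists_cap {n : ℕ} (hn : 2 ≤ n) {β : ℝ} (hβ0 : 0 ≤ β) (hβ1 : β < 1) (B : BT → Prop) :
    ∃ h : BT → ℝ, (∀ T ∈ trees n, 0 ≤ h T ∧ h T ≤ 1) ∧ (∀ T ∈ trees n, B T → h T = 1) ∧
      (∀ T ∈ trees n, ¬ B T → h T = β * step n h T) := by
  classical
  let Φ : (BT → ℝ) → BT → ℝ := fun h T =>
    if T ∈ trees n then (if B T then 1 else β * step n h T) else 0
  have hΦ1 : ∀ h T, T ∈ trees n → B T → Φ h T = 1 := by
    intro h T hT hB
    simp only [Φ, if_pos hT, if_pos hB]
  have hΦ2 : ∀ h T, T ∈ trees n → ¬ B T → Φ h T = β * step n h T := by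
    intro h T hT hB
    simp only [Φ, if_pos hT, if_neg hB]
  have hΦ0 : ∀ h T, T ∉ trees n → Φ h T = 0 := by
    intro h T hT
    simp only [Φ, if_neg hT]
  have hΦ01 : ∀ h : BT → ℝ, (∀ T, 0 ≤ h T ∧ h T ≤ 1) → ∀ T, 0 ≤ Φ h T ∧ Φ h T ≤ 1 := by
    intro h hh T
    by_cases hT : T ∈ trees n
    · by_cases hB : B T
      · rw [hΦ1 h T hT hB]
        norm_num
      · rw [hΦ2 h T hT hB]
        have h1 : 0 ≤ step n h T := by
          rw [← step_const hn 0 T hT]
          exact step_mono hn (fun S _ => (hh S).1) T hT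
        have h2 : step n h T ≤ 1 := by
          rw [← step_const hn 1 T hT]
          exact step_mono hn (fun S _ => (hh S).2) T hT
        exact ⟨mul_nonneg hβ0 h1, mul_le_one₀ hβ1.le h1 h2⟩
    · rw [hΦ0 h T hT]
      norm_num
  have hΦm : ∀ h g : BT → ℝ, (∀ T, h T ≤ g T) → ∀ T, Φ h T ≤ Φ g T := by
    intro h g hhg T
    by_cases hT : T ∈ trees n
    · by_cases hB : B T
      · rw [hΦ1 h T hT hB, hΦ1 g T hT hB]
      · rw [hΦ2 h T hT hB, hΦ2 g T hT hB]
        exact mul_le_mul_of_nonneg_left (step_mono hn (fun S _ => hhg S) T hT) hβ0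
    · rw [hΦ0 h T hT, hΦ0 g T hT]
  let H : ℕ → BT → ℝ := fun k => Φ^[k] (fun _ => 0)
  have hH0 : H 0 = fun _ => 0 := rfl
  have hHs : ∀ k, H (k + 1) = Φ (H k) := fun k => Function.iterate_succ_apply' Φ k _
  have hH01 : ∀ k T, 0 ≤ H k T ∧ H k T ≤ 1 := by
    intro k
    induction k with
    | zero =>
      intro T
      rw [hH0]
      norm_num
    | succ k ih =>
      rw [hHs]
      exact hΦ01 _ ih
  have hHm : ∀ k T, H k T ≤ H (k + 1) T := by
    intro k
    induction k with
    | zero =>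
      intro T
      rw [hH0]
      exact (hH01 1 T).1
    | succ k ih =>
      rw [hHs (k + 1)]
      rw [hHs k] at ih ⊢
      exact hΦm _ _ ih
  have hmono : ∀ T, Monotone (fun k => H k T) := fun T => monotone_nat_of_le_succ (fun k => hHm k T)
  have hbdd : ∀ T, BddAbove (Set.range (fun k => H k T)) := by
    intro T
    refine ⟨1, ?_⟩
    rintro x ⟨k, rfl⟩
    exact (hH01 k T).2
  have hlim : ∀ T, Filter.Tendsto (fun k => H k T) Filter.atTop (nhds (⨆ k, H k T)) := fun T =>
    tendsto_atTop_ciSup (hmono T) (hbdd T)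
  refine ⟨fun T => ⨆ k, H k T, ?_, ?_, ?_⟩
  · intro T _
    exact ⟨le_of_tendsto_of_tendsto' tendsto_const_nhds (hlim T) (fun k => (hH01 k T).1),
      le_of_tendsto' (hlim T) (fun k => (hH01 k T).2)⟩
  · intro T hT hB
    apply tendsto_nhds_unique ((Filter.tendsto_add_atTop_iff_nat 1).2 (hlim T))
    have : (fun k => H (k + 1) T) = fun _ => (1 : ℝ) := by
      funext k
      rw [hHs, hΦ1 _ T hT hB]
    rw [this]
    exact tendsto_const_nhds
  · intro T hT hB
    apply tendsto_nhds_unique ((Filter.tendsto_add_atTop_iff_nat 1).2 (hlim T))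
    have : (fun k => H (k + 1) T) = fun k => β * step n (H k) T := by
      funext k
      rw [hHs, hΦ2 _ T hT hB]
    rw [this]
    exact (step_tendsto hlim T).const_mul β

end Pool.Agent.ALD
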