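import Pool.Agent.ALD.PoiF

/-! Module POIL: superharmonic functions and the Poisson clock -/

noncomputable section

namespace Pool.Agent.ALD

open BT

theorem poiL_iter {n : ℕ} (hn : 2 ≤ n) {b : ℝ} (hb : 0 ≤ b) {h : BT → ℝ}
    (hsup : ∀ T ∈ trees n, step n h T ≤ b * h T) (k : ℕ) :
    ∀ T ∈ trees n, ((step n)^[k] h) T ≤ b ^ k * h T := by
  induction k with
  | zero => intro T _; simp
  | succ k ih =>
    intro T hT
    rw [Function.iterate_succ_apply']
    have h1 := step_mono hn (F := (step n)^[k] h) (G := fun S => b ^ k * h S) ih T hT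
    rw [step_mul_left] at h1
    calc step n ((step n)^[k] h) T ≤ b ^ k * step n h T := h1
      _ ≤ b ^ k * (b * h T) := mul_le_mul_of_nonneg_left (hsup T hT) (pow_nonneg hb k)
      _ = b ^ (k + 1) * h T := by ring

/-- If `β · step h ≤ h` with `β = a / (1 + a)` and `0 ≤ h ≤ 1` then `step^k h ≤ β^{-k} h`, hence
`pois s h ≤ e^{-as} Σ (as/β)^k / k! · h = e^{as (1/β - 1)} h = e^s h`. -/
theorem pois_le {n : ℕ} (hn : 2 ≤ n) {a s : ℝ} (ha : 0 < a) (hs : 0 ≤ s) {h : BT → ℝ}
    (h01 : ∀ T ∈ trees n, 0 ≤ h T ∧ h T ≤ 1)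
    (hsup : ∀ T ∈ trees n, a / (1 + a) * step n h T ≤ h T) :
    ∀ T ∈ trees n, pois n a s h T ≤ Real.exp s * h T := by
  intro T hT
  have hb : (0 : ℝ) ≤ (1 + a) / a := by positivity
  have hsup' : ∀ T ∈ trees n, step n h T ≤ (1 + a) / a * h T := by
    intro T hT
    have h1 := mul_le_mul_of_nonneg_left (hsup T hT) hb
    have h2 : (1 + a) / a * (a / (1 + a) * step n h T) = step n h T := by
      field_simp
    rwa [h2] at h1
  have hit := fun k => poiL_iter hn hb hsup' k T hT
  have hbd : ∀ T ∈ trees n, |h T| ≤ 1 := fun T hT =>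
    abs_le.2 ⟨by linarith [(h01 T hT).1], (h01 T hT).2⟩
  have hx : 0 ≤ a * s := by positivity
  have hsum := pois_summable hn ha.le hs hbd hT
  have hS : HasSum (fun k : ℕ => Real.exp (-(a * s)) * ((1 + a) * s) ^ k / (k.factorial : ℝ))
      (Real.exp s) := by
    have h1 := (poiF_hasSum (x := (1 + a) * s)).mul_left (Real.exp s)
    rw [mul_one] at h1
    have e : (fun k : ℕ => Real.exp (-(a * s)) * ((1 + a) * s) ^ k / (k.factorial : ℝ)) =
        fun k : ℕ => Real.exp s * (Real.exp (-((1 + a) * s)) * ((1 + a) * s) ^ k /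
          (k.factorial : ℝ)) := by
      funext k
      have : Real.exp (-(a * s)) = Real.exp s * Real.exp (-((1 + a) * s)) := by
        rw [← Real.exp_add]
        congr 1
        ring
      rw [this]
      ring
    rw [e]
    exact h1
  have hS2 := hS.mul_right (h T)
  have hle : pois n a s h T ≤ ∑' k : ℕ,
      Real.exp (-(a * s)) * ((1 + a) * s) ^ k / (k.factorial : ℝ) * h T := by
    unfold pois
    refine Summable.tsum_le_tsum (fun k => ?_) hsum hS2.summable
    calc Real.exp (-(a * s)) * (a * s) ^ k / (k.factorial : ℝ) * ((step n)^[k] h) T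
        ≤ Real.exp (-(a * s)) * (a * s) ^ k / (k.factorial : ℝ) * (((1 + a) / a) ^ k * h T) :=
          mul_le_mul_of_nonneg_left (hit k) (poiF_term_nonneg hx k)
      _ = Real.exp (-(a * s)) * ((1 + a) * s) ^ k / (k.factorial : ℝ) * h T := by
          have : (a * s) ^ k * ((1 + a) / a) ^ k = ((1 + a) * s) ^ k := by
            rw [← mul_pow]
            congr 1
            field_simp
          rw [← this]
          ring
  rwa [hS2.tsum_eq] at hle

end Pool.Agent.ALD
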