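import Pool.Agent.ALD.PoiC
import Pool.Agent.ALD.PoiL
import Pool.Agent.ALD.CapH
import Pool.Agent.ALD.CapD

/-! Module CAPT: the hitting probability of the chain is bounded by the capacity -/

noncomputable section

namespace Pool.Agent.ALD

open BT

theorem capT_ind01 {α : Type*} (p : α → Prop) (x : α) : 0 ≤ ind p x ∧ ind p x ≤ 1 := by
  unfold ind
  split_ifs <;> norm_num

theorem capT_ind_of {α : Type*} {p : α → Prop} {x : α} (h : ¬ p x) : ind p x = 0 := by
  unfold ind
  rw [if_neg h]

theorem capT_ind_congr {α β : Type*} {p : α → Prop} {q : β → Prop} {x : α} {y : β}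
    (h : p x ↔ q y) : ind p x = ind q y := by
  unfold ind
  by_cases hp : p x
  · rw [if_pos hp, if_pos (h.1 hp)]
  · rw [if_neg hp, if_neg (fun hq => hp (h.2 hq))]

theorem capT_iter_mul {n : ℕ} (c : ℝ) (F : BT → ℝ) (k : ℕ) :
    (step n)^[k] (fun S => c * F S) = fun T => c * ((step n)^[k] F) T := by
  induction k with
  | zero => rfl
  | succ k ih =>
    rw [Function.iterate_succ_apply', ih]
    funext T
    rw [step_mul_left, Function.iterate_succ_apply']

theorem capT_pois_mul {n : ℕ} (c a t : ℝ) (F : BT → ℝ) (T : BT) :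
    pois n a t (fun S => c * F S) T = c * pois n a t F T := by
  unfold pois
  rw [← tsum_mul_left]
  congr 1
  funext k
  rw [capT_iter_mul]
  ring

/-- Induction on `m`: if `S = z 0` is in `B` the inner expectation is `1 = h S ≤ e^{..} h S`, otherwise
`∃ i, B (Fin.cons S z i)` is `∃ i, B (z i)` and the induction hypothesis applies; then `pois_le`. -/
theorem chainExp_le {n : ℕ} (hn : 2 ≤ n) {a : ℝ} (ha : 0 < a) {B : BT → Prop} {h : BT → ℝ}
    (h01 : ∀ T ∈ trees n, 0 ≤ h T ∧ h T ≤ 1) (hB : ∀ T ∈ trees n, B T → h T = 1)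
    (hsup : ∀ T ∈ trees n, a / (1 + a) * step n h T ≤ h T) (Tm : ℝ) (m : ℕ) (t : Fin m → ℝ)
    (ht : Monotone t) (u : ℝ) (hu : u ≤ Tm) (hut : ∀ i, u ≤ t i) (htT : ∀ i, t i ≤ Tm) :
    ∀ T ∈ trees n, chainExp n a m t (ind (fun z : Fin m → BT => ∃ i, B (z i))) u T ≤
      Real.exp (Tm - u) * h T := by
  induction m generalizing u with
  | zero =>
    intro T hT
    have h1 : chainExp n a 0 t (ind (fun z : Fin 0 → BT => ∃ i, B (z i))) u T = 0 := by
      unfold chainExp
      apply capT_ind_of
      rintro ⟨i, -⟩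
      exact i.elim0
    rw [h1]
    exact mul_nonneg (Real.exp_pos _).le (h01 T hT).1
  | succ m ih =>
    intro T hT
    set K : ℝ := Real.exp (Tm - t 0) with hK
    have hK1 : 1 ≤ K := Real.one_le_exp (by linarith [htT 0])
    set f : (Fin (m + 1) → BT) → ℝ := ind (fun z : Fin (m + 1) → BT => ∃ i, B (z i)) with hf
    set G : BT → ℝ := fun S => chainExp n a m (Fin.tail t) (fun z => f (Fin.cons S z)) (t 0) S
      with hG
    have htail : Monotone (Fin.tail t) := by
      intro i j hij
      exact ht (Fin.succ_le_succ_iff.2 hij)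
    have h0t : ∀ i, t 0 ≤ Fin.tail t i := fun i => ht (Fin.zero_le _)
    have hGb : ∀ S ∈ trees n, |G S| ≤ 1 := by
      intro S hS
      apply chainExp_bound hn ha.le m (Fin.tail t) htail _ _ zero_le_one (t 0) h0t S hS
      intro z _
      rw [abs_le]
      have := capT_ind01 (fun z : Fin (m + 1) → BT => ∃ i, B (z i)) (Fin.cons S z)
      constructor
      · linarith [this.1]
      · exact this.2
    have hGK : ∀ S ∈ trees n, G S ≤ K * h S := by
      intro S hS
      by_cases hBS : B S
      · rw [hB S hS hBS, mul_one]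
        exact ((abs_le.1 (hGb S hS)).2).trans hK1
      · have h1 : (fun z : Fin m → BT => f (Fin.cons S z)) =
            ind (fun z : Fin m → BT => ∃ i, B (z i)) := by
          funext z
          apply capT_ind_congr
          constructor
          · rintro ⟨i, hi⟩
            refine Fin.cases (fun hi => ?_) (fun j hj => ?_) i hi
            · exact absurd hi hBS
            · exact ⟨j, by simpa using hj⟩
          · rintro ⟨j, hj⟩
            exact ⟨j.succ, by simpa using hj⟩
        have h2 := ih (Fin.tail t) htail (t 0) (htT 0) h0t (fun i => htT _) S hS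
        rw [← h1] at h2
        exact h2
    have hs : 0 ≤ t 0 - u := by linarith [hut 0]
    have h3 : chainExp n a (m + 1) t f u T = pois n a (t 0 - u) G T := rfl
    rw [h3]
    have h4 := pois_mono hn ha.le hs (F := G) (G := fun S => K * h S) (K := K)
      (fun S hS => (hGb S hS).trans hK1)
      (fun S hS => by
        rw [abs_of_nonneg (mul_nonneg (by linarith) (h01 S hS).1)]
        have := (h01 S hS).2
        nlinarith) hGK T hT
    rw [capT_pois_mul] at h4
    have h5 := pois_le hn ha hs h01 hsup T hT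
    have h6 : Real.exp (Tm - u) = K * Real.exp (t 0 - u) := by
      rw [hK, ← Real.exp_add]
      congr 1
      ring
    rw [h6, mul_assoc]
    exact h4.trans (mul_le_mul_of_nonneg_left h5 (by linarith))

/-- combine `exists_cap` (with `β = a / (1 + a)`), `cap_le` and `chainExp_le` -/
theorem hitP_le {n : ℕ} (hn : 2 ≤ n) {a Tm : ℝ} (hTm : 0 ≤ Tm) {m : ℕ} {t : Fin m → ℝ} (ha : 0 < a)
    (ht : Monotone t) (ht' : ∀ i, 0 ≤ t i ∧ t i ≤ Tm) {B : BT → Prop} {F : BT → ℝ}
    (hF : ∀ T ∈ trees n, B T → 1 ≤ F T) :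
    hitP n a m t B ≤ Real.exp Tm * (avg n (fun T => F T ^ 2) + a / 2 * Dir n F) := by
  have ha1 : 0 < 1 + a := by linarith
  have hβ0 : 0 ≤ a / (1 + a) := by positivity
  have hβ1 : a / (1 + a) < 1 := by
    rw [div_lt_one ha1]
    linarith
  obtain ⟨h, h01, hB, hB'⟩ := exists_cap hn hβ0 hβ1 B
  have hsup : ∀ T ∈ trees n, a / (1 + a) * step n h T ≤ h T := by
    intro T hT
    by_cases hBT : B T
    · rw [hB T hT hBT]
      have h1 : 0 ≤ step n h T := by
        rw [← step_const hn 0 T hT]
        exact step_mono hn (fun S hS => (h01 S hS).1) T hT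
      have h2 : step n h T ≤ 1 := by
        rw [← step_const hn 1 T hT]
        exact step_mono hn (fun S hS => (h01 S hS).2) T hT
      exact mul_le_one₀ hβ1.le h1 h2
    · exact (hB' T hT hBT).ge
  have h1 := cap_le hn ha h01 hB hB' hF
  have h2 := chainExp_le hn ha h01 hB hsup Tm m t ht 0 hTm (fun i => (ht' i).1)
    (fun i => (ht' i).2)
  have h3 : hitP n a m t B ≤ avg n (fun T => Real.exp Tm * h T) := by
    unfold hitP fddExp
    apply avg_mono
    intro T hT
    have := h2 T hT
    rwa [sub_zero] at this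
  rw [avg_mul_left] at h3
  exact h3.trans (mul_le_mul_of_nonneg_left h1 (Real.exp_pos _).le)

end Pool.Agent.ALD
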