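import Pool.Agent.ALD.Disc

/-! Module OPEA: matching of points of two close spaces -/

open MeasureTheory Filter Topology

noncomputable section

namespace Pool.Agent.ALD

open BT

/-- an approximate star with `k` arms longer than `ℓ` around `x` -/
def MStar (k : ℕ) (ℓ δ : ℝ) (X : RWTree) (x : X.pt) : Prop :=
  ∃ y : Fin k → X.pt, (∀ i, ℓ < dist x (y i)) ∧
    ∀ i j, i ≠ j → dist x (y i) + dist x (y j) - dist (y i) (y j) < δ

/-- spaces with an approximate star with five arms or two approximate stars with four arms -/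
def VSet (ℓ δ : ℝ) : Set RWTree :=
  {X | (∃ x, MStar 5 ℓ δ X x) ∨ ∃ x x', MStar 4 ℓ δ X x ∧ MStar 4 ℓ δ X x' ∧ ℓ < dist x x'}

/-- If `dist X Y < r` there are isometric embeddings in a common space with Hausdorff distance of the
images at most `r`; the images are compact and nonempty, so for each point of `X` there is a point of `Y`
whose image is at distance `< 2 r` (`Metric.exists_dist_lt_of_hausdorffDist_lt`). -/
theorem exists_match {X Y : RWTree} {r : ℝ} (hr : 0 < r) (h : dist X Y < r) :
    ∃ φ : X.pt → Y.pt, ∀ p p', |dist (φ p) (φ p') - dist p p'| ≤ 4 * r := by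
  obtain ⟨Z, _, f, g, hf, hg, -, hH, -, -⟩ := ghpClose_of_dist_lt h
  have hcf : IsCompact (Set.range f) := isCompact_range hf.continuous
  have hcg : IsCompact (Set.range g) := isCompact_range hg.continuous
  have hfin : Metric.hausdorffEDist (Set.range f) (Set.range g) ≠ ⊤ :=
    Metric.hausdorffEDist_ne_top_of_nonempty_of_bounded ⟨f X.root, X.root, rfl⟩
      ⟨g Y.root, Y.root, rfl⟩ hcf.isBounded hcg.isBounded
  have hlt : Metric.hausdorffDist (Set.range f) (Set.range g) < 2 * r := by linarith
  have hex : ∀ p : X.pt, ∃ y : Y.pt, dist (f p) (g y) < 2 * r := by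
    intro p
    obtain ⟨z, ⟨y, rfl⟩, hz⟩ :=
      Metric.exists_dist_lt_of_hausdorffDist_lt (Set.mem_range_self p) hlt hfin
    exact ⟨y, hz⟩
  choose φ hφ using hex
  refine ⟨φ, fun p p' => ?_⟩
  rw [← hg.dist_eq, ← hf.dist_eq]
  have h1 := hφ p
  have h2 := hφ p'
  have h3 := dist_triangle4 (g (φ p)) (f p) (f p') (g (φ p'))
  have h4 := dist_triangle4 (f p) (g (φ p)) (g (φ p')) (f p')
  rw [dist_comm (g (φ p)) (f p)] at h3
  rw [dist_comm (g (φ p')) (f p')] at h4
  rw [abs_le]
  constructor <;> linarith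

end Pool.Agent.ALD
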