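import Pool.Agent.ALD.CompA
import Pool.Agent.ALD.OpeA

/-! Module COMP: bad real trees are in all the sets VSet -/

open MeasureTheory Filter Topology

noncomputable section

namespace Pool.Agent.ALD

theorem comp_aux {k : ℕ} {X : RWTree} {x : X.pt} (y : Fin k → X.pt) (hy : ∀ i, y i ≠ x) :
    ∃ r : ℝ, 0 < r ∧ ∀ i, r ≤ dist x (y i) := by
  rcases isEmpty_or_nonempty (Fin k) with h | h
  · exact ⟨1, one_pos, fun i => (h.false i).elim⟩
  · obtain ⟨i0, hi0⟩ := Finite.exists_min (fun i => dist x (y i))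
    exact ⟨dist x (y i0), dist_pos.mpr (hy i0).symm, fun i => hi0 i⟩

theorem comp_aux2 {k : ℕ} {X : RWTree} (hX : IsRTree X) {x : X.pt}
    (hk : (k : ℕ∞) ≤ degree X x) :
    ∃ r : ℝ, 0 < r ∧ ∀ ℓ : ℝ, ℓ < r → ∀ δ : ℝ, 0 < δ → MStar k ℓ δ X x := by
  obtain ⟨y, hy, hyy⟩ := exists_star hX hk
  obtain ⟨r, hr, hry⟩ := comp_aux y hy
  refine ⟨r, hr, fun ℓ hℓ δ hδ => ⟨y, fun i => lt_of_lt_of_le hℓ (hry i), fun i j hij => ?_⟩⟩
  rw [hyy i j hij]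
  linarith

/-- if the conclusion of the theorem fails for the real tree `X` then `X` is in all the sets
`VSet ℓ δ`, for `ℓ` small enough (of the form `1 / (q + 1)`) -/
theorem mem_VSet_of_bad {X : RWTree} (hX : IsRTree X)
    (h : ¬ ((∀ x, degree X x ≤ 4) ∧ ∀ x x', degree X x = 4 → degree X x' = 4 → x = x')) :
    ∃ q : ℕ, ∀ δ : ℝ, 0 < δ → X ∈ VSet (1 / ((q : ℝ) + 1)) δ := by
  by_cases h1 : ∀ x, degree X x ≤ 4
  · have h2 : ¬ ∀ x x', degree X x = 4 → degree X x' = 4 → x = x' := fun h2 => h ⟨h1, h2⟩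
    push Not at h2
    obtain ⟨x, x', hx, hx', hne⟩ := h2
    obtain ⟨r, hr, hs⟩ := comp_aux2 (k := 4) hX (x := x) (by rw [hx]; rfl)
    obtain ⟨r', hr', hs'⟩ := comp_aux2 (k := 4) hX (x := x') (by rw [hx']; rfl)
    have hd : 0 < dist x x' := dist_pos.mpr hne
    obtain ⟨q, hq⟩ := exists_nat_one_div_lt (lt_min (lt_min hr hr') hd)
    rw [lt_min_iff, lt_min_iff] at hq
    exact ⟨q, fun δ hδ => Or.inr ⟨x, x', hs _ hq.1.1 δ hδ, hs' _ hq.1.2 δ hδ, hq.2⟩⟩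
  · push Not at h1
    obtain ⟨x, hx⟩ := h1
    have h5 : ((5 : ℕ) : ℕ∞) ≤ degree X x := by
      have := Order.add_one_le_of_lt hx
      have e : ((5 : ℕ) : ℕ∞) = (4 : ℕ∞) + 1 := by norm_num
      rw [e]; exact this
    obtain ⟨r, hr, hs⟩ := comp_aux2 (k := 5) hX h5
    obtain ⟨q, hq⟩ := exists_nat_one_div_lt hr
    exact ⟨q, fun δ hδ => Or.inl ⟨x, hs _ hq δ hδ⟩⟩

end Pool.Agent.ALD
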