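import Pool.Agent.ALD.Disc

/-! Module COMPA: points of large degree in real trees are centres of stars -/

open MeasureTheory Filter Topology

noncomputable section

namespace Pool.Agent.ALD

/-- If the geodesic from `y` to `z` avoids `x` then its image is a connected subset of the complement of
`x`; otherwise the distances add up. -/
theorem dist_add_of_ne_component {X : RWTree} (hX : IsRTree X) {x : X.pt} (y z : {y : X.pt // y ≠ x})
    (h : (y : ConnectedComponents {y : X.pt // y ≠ x}) ≠ z) :
    dist (y : X.pt) z = dist x (y : X.pt) + dist x (z : X.pt) := by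
  obtain ⟨γ, h0, h1, hγ⟩ := hX.1 (y : X.pt) (z : X.pt)
  have hD0 : 0 ≤ dist (y : X.pt) (z : X.pt) := dist_nonneg
  by_cases hx : ∃ t ∈ Set.Icc 0 (dist (y : X.pt) (z : X.pt)), γ t = x
  · obtain ⟨t, ht, htx⟩ := hx
    have e1 : dist x (y : X.pt) = t := by
      have := hγ t ht 0 ⟨le_refl _, hD0⟩
      rw [htx, h0, sub_zero, abs_of_nonneg ht.1] at this
      exact this
    have e2 : dist x (z : X.pt) = dist (y : X.pt) (z : X.pt) - t := by
      have := hγ t ht _ ⟨hD0, le_refl _⟩
      rw [htx, h1, abs_sub_comm, abs_of_nonneg (by linarith [ht.2])] at this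
      exact this
    rw [e1, e2]; ring
  · exfalso
    push Not at hx
    apply h
    have hc : ContinuousOn γ (Set.Icc 0 (dist (y : X.pt) (z : X.pt))) := by
      rw [Metric.continuousOn_iff]
      intro b hb ε hε
      refine ⟨ε, hε, fun a ha hab => ?_⟩
      rw [hγ a ha b hb]
      rwa [Real.dist_eq] at hab
    let g : Set.Icc 0 (dist (y : X.pt) (z : X.pt)) → {y : X.pt // y ≠ x} :=
      fun t => ⟨γ t, hx t t.2⟩
    have hg : Continuous g :=
      Continuous.subtype_mk (continuousOn_iff_continuous_restrict.mp hc) _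
    haveI : PreconnectedSpace (Set.Icc 0 (dist (y : X.pt) (z : X.pt))) :=
      Subtype.preconnectedSpace isPreconnected_Icc
    have hconn : IsPreconnected (Set.range g) := isPreconnected_range hg
    rw [ConnectedComponents.coe_eq_coe']
    refine hconn.subset_connectedComponent ?_ ?_
    · exact ⟨⟨_, hD0, le_refl _⟩, Subtype.ext h1⟩
    · exact ⟨⟨0, le_refl _, hD0⟩, Subtype.ext h0⟩

/-- choose one point in each of `k` components -/
theorem exists_star {X : RWTree} (hX : IsRTree X) {x : X.pt} {k : ℕ} (hk : (k : ℕ∞) ≤ degree X x) :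
    ∃ y : Fin k → X.pt, (∀ i, y i ≠ x) ∧
      ∀ i j, i ≠ j → dist (y i) (y j) = dist x (y i) + dist x (y j) := by
  have h1 : ((k : ℕ) : Cardinal) ≤ Cardinal.mk (ConnectedComponents {y : X.pt // y ≠ x}) := by
    have := hk
    unfold degree ENat.card at this
    rwa [Cardinal.natCast_le_toENat_iff] at this
  have h2 : Nonempty (Fin k ↪ ConnectedComponents {y : X.pt // y ≠ x}) := by
    rw [← Cardinal.le_def, Cardinal.mk_fin]
    exact h1
  obtain ⟨e⟩ := h2
  have hs : ∀ i, ∃ y : {y : X.pt // y ≠ x}, (y : ConnectedComponents {y : X.pt // y ≠ x}) = e i :=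
    fun i => ConnectedComponents.surjective_coe (e i)
  choose y hy using hs
  refine ⟨fun i => y i, fun i => (y i).2, fun i j hij => ?_⟩
  refine dist_add_of_ne_component hX (y i) (y j) ?_
  rw [hy, hy]
  exact fun h => hij (e.injective h)

end Pool.Agent.ALD
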