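import Pool.Agent.ALD.PoiC

/-! Module HITB: monotonicity and union bound for hitP and HB -/

noncomputable section

namespace Pool.Agent.ALD

open BT

theorem hitB_ind_nonneg {α : Type*} (p : α → Prop) (x : α) : 0 ≤ ind p x := by
  unfold ind
  split_ifs <;> norm_num

theorem hitB_ind_le_one {α : Type*} (p : α → Prop) (x : α) : ind p x ≤ 1 := by
  unfold ind
  split_ifs <;> norm_num

theorem hitB_ind_abs {α : Type*} (p : α → Prop) (x : α) : |ind p x| ≤ 1 := by
  rw [abs_of_nonneg (hitB_ind_nonneg p x)]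
  exact hitB_ind_le_one p x

theorem hitB_ind_mono {α : Type*} {p p' : α → Prop} {x : α} (h : p x → p' x) :
    ind p x ≤ ind p' x := by
  unfold ind
  split_ifs with h1 h2
  · exact le_refl _
  · exact absurd (h h1) h2
  · norm_num
  · exact le_refl _

theorem hitB_ind_or {α : Type*} {p p' p'' : α → Prop} {x : α} (h : p'' x → p x ∨ p' x) :
    ind p'' x ≤ ind p x + ind p' x := by
  unfold ind
  split_ifs with h1 h2 h3
  · norm_num
  · norm_num
  · norm_num
  · rcases h h1 with h4 | h4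
    · exact absurd h4 h2
    · contradiction
  all_goals norm_num

theorem hitP_mono {n : ℕ} (hn : 2 ≤ n) {a : ℝ} (ha : 0 ≤ a) {m : ℕ} {t : Fin m → ℝ}
    (ht : Monotone t) (ht0 : ∀ i, 0 ≤ t i) {B B' : BT → Prop} (h : ∀ T ∈ trees n, B T → B' T) :
    hitP n a m t B ≤ hitP n a m t B' := by
  unfold hitP
  refine fddExp_mono hn ha (K := 1) m t ht ht0 _ _ (fun z _ => hitB_ind_abs _ z)
    (fun z _ => hitB_ind_abs _ z) (fun z hz => ?_)
  exact hitB_ind_mono (fun ⟨i, hi⟩ => ⟨i, h _ (hz i) hi⟩)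

theorem hitP_or {n : ℕ} (hn : 2 ≤ n) {a : ℝ} (ha : 0 ≤ a) {m : ℕ} {t : Fin m → ℝ}
    (ht : Monotone t) (ht0 : ∀ i, 0 ≤ t i) (B B' : BT → Prop) :
    hitP n a m t (fun T => B T ∨ B' T) ≤ hitP n a m t B + hitP n a m t B' := by
  unfold hitP
  have h1 : fddExp n a m t (ind (fun z : Fin m → BT => ∃ i, B (z i) ∨ B' (z i))) ≤
      fddExp n a m t (fun z => ind (fun z : Fin m → BT => ∃ i, B (z i)) z +
        ind (fun z : Fin m → BT => ∃ i, B' (z i)) z) := by
    refine fddExp_mono hn ha (K := 2) m t ht ht0 _ _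
      (fun z _ => le_trans (hitB_ind_abs _ z) (by norm_num)) (fun z _ => ?_) (fun z hz => ?_)
    · refine le_trans (abs_add_le _ _) ?_
      have h1 := hitB_ind_abs (fun z : Fin m → BT => ∃ i, B (z i)) z
      have h2 := hitB_ind_abs (fun z : Fin m → BT => ∃ i, B' (z i)) z
      linarith
    · refine hitB_ind_or (fun ⟨i, hi⟩ => ?_)
      rcases hi with hi | hi
      · exact Or.inl ⟨i, hi⟩
      · exact Or.inr ⟨i, hi⟩
  refine le_trans h1 (le_of_eq ?_)
  unfold fddExp
  rw [← avg_add]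
  refine avg_congr (fun T hT => ?_)
  exact chainExp_add hn ha (K := 1) m t ht _ _ (fun z _ => hitB_ind_abs _ z)
    (fun z _ => hitB_ind_abs _ z) 0 ht0 T hT

theorem HB.mono {C Tm κ κ' : ℝ} {n : ℕ} (hn : 2 ≤ n) {B B' : BT → Prop} (h : HB C Tm κ n B)
    (hB : ∀ T ∈ trees n, B' T → B T) (hκ : κ ≤ κ') : HB C Tm κ' n B' := by
  intro a m t ha haC ht ht'
  exact le_trans (hitP_mono hn ha.le ht (fun i => (ht' i).1) hB)
    (le_trans (h a m t ha haC ht ht') hκ)

theorem HB.or {C Tm κ κ' : ℝ} {n : ℕ} (hn : 2 ≤ n) {B B' : BT → Prop} (h : HB C Tm κ n B)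
    (h' : HB C Tm κ' n B') : HB C Tm (κ + κ') n (fun T => B T ∨ B' T) := by
  intro a m t ha haC ht ht'
  exact le_trans (hitP_or hn ha.le ht (fun i => (ht' i).1) B B')
    (add_le_add (h a m t ha haC ht ht') (h' a m t ha haC ht ht'))

theorem hitB_false {n : ℕ} (hn : 2 ≤ n) {a : ℝ} (ha : 0 ≤ a) {m : ℕ} {t : Fin m → ℝ}
    (ht : Monotone t) (ht0 : ∀ i, 0 ≤ t i) : hitP n a m t (fun _ => False) ≤ 0 := by
  unfold hitP fddExp
  have h1 : avg n (chainExp n a m t (ind (fun _ : Fin m → BT => ∃ _ : Fin m, False)) 0) ≤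
      avg n (fun _ => (0 : ℝ)) := by
    refine avg_mono (fun T hT => ?_)
    have h2 := chainExp_bound hn ha (K := 0) m t ht
      (ind (fun _ : Fin m → BT => ∃ _ : Fin m, False)) (fun z _ => by
        unfold ind
        simp) (le_refl _) 0 ht0 T hT
    exact (abs_le.1 h2).2
  rwa [avg_const (by omega)] at h1

theorem HB.biUnion {C Tm : ℝ} {n : ℕ} (hn : 2 ≤ n) {ι : Type*} (s : Finset ι) (κ : ι → ℝ)
    (B : ι → BT → Prop) (h : ∀ i ∈ s, HB C Tm (κ i) n (B i)) :
    HB C Tm (∑ i ∈ s, κ i) n (fun T => ∃ i ∈ s, B i T) := by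
  classical
  induction s using Finset.induction_on with
  | empty =>
    intro a m t ha haC ht ht'
    rw [Finset.sum_empty]
    refine le_trans (hitP_mono hn ha.le ht (fun i => (ht' i).1) (B' := fun _ => False) ?_)
      (hitB_false hn ha.le ht (fun i => (ht' i).1))
    rintro T _ ⟨i, hi, _⟩
    simp at hi
  | insert i s hi ih =>
    rw [Finset.sum_insert hi]
    have h1 := h i (Finset.mem_insert_self i s)
    have h2 := ih (fun j hj => h j (Finset.mem_insert_of_mem hj))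
    refine HB.mono hn (HB.or hn h1 h2) ?_ (le_refl _)
    rintro T _ ⟨j, hj, hB⟩
    rcases Finset.mem_insert.1 hj with rfl | hj
    · exact Or.inl hB
    · exact Or.inr ⟨j, hj, hB⟩

end Pool.Agent.ALD
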