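import Pool.Agent.ALD.Base

/-! Module PERM: extension of injective tuples to permutations -/

namespace Pool.Agent.ALD

open BT

private theorem Perm_aux1 {n m : ℕ} (f g : Fin m → Fin n) (hf : Function.Injective f)
    (hg : Function.Injective g) : ∃ σ : Equiv.Perm (Fin n), ∀ j, σ (f j) = g j := by
  classical
  let e : {x // x ∈ Set.range f} ≃ {x // x ∈ Set.range g} :=
    (Equiv.ofInjective f hf).symm.trans (Equiv.ofInjective g hg)
  refine ⟨Equiv.extendSubtype e, fun j => ?_⟩
  rw [Equiv.extendSubtype_apply_of_mem e (f j) ⟨j, rfl⟩]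
  have : (Equiv.ofInjective f hf).symm ⟨f j, ⟨j, rfl⟩⟩ = j := by
    rw [Equiv.symm_apply_eq]; rfl
  simp [e, this]

private theorem Perm_aux2 {n : ℕ} (τ : Equiv.Perm (Fin n)) :
    ∃ σ : Equiv.Perm ℕ, (∀ i, i < n ↔ σ i < n) ∧ ∀ j : Fin n, σ (j : ℕ) = (τ j : ℕ) := by
  refine ⟨τ.extendDomain (Fin.equivSubtype : Fin n ≃ {i // i < n}), ?_, ?_⟩
  · intro i
    by_cases hi : i < n
    · have h := Equiv.Perm.extendDomain_apply_subtype (p := fun i => i < n) τ
        (Fin.equivSubtype : Fin n ≃ {i // i < n}) (b := i) hi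
      rw [h]
      simp only [hi, true_iff]
      exact ((Fin.equivSubtype : Fin n ≃ {i // i < n}) _).2
    · have h := Equiv.Perm.extendDomain_apply_not_subtype (p := fun i => i < n) τ
        (Fin.equivSubtype : Fin n ≃ {i // i < n}) (b := i) hi
      rw [h]
  · intro j
    have h := Equiv.Perm.extendDomain_apply_subtype (p := fun i => i < n) τ
      (Fin.equivSubtype : Fin n ≃ {i // i < n}) (b := (j : ℕ)) j.isLt
    rw [h]
    have h2 : (Fin.equivSubtype : Fin n ≃ {i // i < n}).symm ⟨(j : ℕ), j.isLt⟩ = j := by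
      rw [Equiv.symm_apply_eq]; rfl
    rw [h2]
    rfl

/-- extension of the partial bijection `I j ↦ j` to a permutation of `range n` (and the identity
outside) -/
theorem exists_perm {n k : ℕ} (I : Fin k → ℕ) (hI : Function.Injective I) (hn : ∀ j, I j < n) :
    ∃ σ : Equiv.Perm ℕ, (∀ i, i < n ↔ σ i < n) ∧ ∀ j : Fin k, σ (I j) = j := by
  have hinj : Function.Injective (fun j : Fin k => (⟨I j, hn j⟩ : Fin n)) := by
    intro a b hab
    exact hI (by simpa using hab)
  have hk : k ≤ n := by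
    simpa using Fintype.card_le_of_injective _ hinj
  obtain ⟨τ, hτ⟩ := Perm_aux1 (fun j : Fin k => (⟨I j, hn j⟩ : Fin n)) (Fin.castLE hk) hinj
    (Fin.castLE_injective hk)
  obtain ⟨σ, h1, h2⟩ := Perm_aux2 τ
  refine ⟨σ, h1, fun j => ?_⟩
  have h3 := h2 ⟨I j, hn j⟩
  rw [hτ j] at h3
  simpa using h3

/-- the same, with one more label `i` sent to `n - 1` -/
theorem exists_perm' {n k i : ℕ} (I : Fin k → ℕ) (hI : Function.Injective I) (hn : ∀ j, I j < n)
    (hi : i < n) (hI' : ∀ j, I j ≠ i) (hk : k + 1 ≤ n) :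
    ∃ σ : Equiv.Perm ℕ, (∀ i, i < n ↔ σ i < n) ∧ (∀ j : Fin k, σ (I j) = j) ∧ σ i = n - 1 := by
  let f : Fin (k + 1) → Fin n := Fin.snoc (fun j : Fin k => (⟨I j, hn j⟩ : Fin n)) ⟨i, hi⟩
  let g : Fin (k + 1) → Fin n :=
    Fin.snoc (fun j : Fin k => Fin.castLE (by omega : k ≤ n) j) ⟨n - 1, by omega⟩
  have hf : Function.Injective f := by
    intro a b
    refine Fin.lastCases ?_ (fun a => ?_) a <;> refine Fin.lastCases ?_ (fun b => ?_) b
    · intro _; rfl
    · intro h
      simp only [f, Fin.snoc_last, Fin.snoc_castSucc, Fin.mk.injEq] at h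
      exact absurd h.symm (hI' b)
    · intro h
      simp only [f, Fin.snoc_last, Fin.snoc_castSucc, Fin.mk.injEq] at h
      exact absurd h (hI' a)
    · intro h
      simp only [f, Fin.snoc_castSucc, Fin.mk.injEq] at h
      rw [hI h]
  have hg : Function.Injective g := by
    intro a b
    refine Fin.lastCases ?_ (fun a => ?_) a <;> refine Fin.lastCases ?_ (fun b => ?_) b
    · intro _; rfl
    · intro h
      have h' := congrArg Fin.val h
      simp only [g, Fin.snoc_last, Fin.snoc_castSucc, Fin.val_castLE] at h'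
      have := b.isLt
      omega
    · intro h
      have h' := congrArg Fin.val h
      simp only [g, Fin.snoc_last, Fin.snoc_castSucc, Fin.val_castLE] at h'
      have := a.isLt
      omega
    · intro h
      have h' := congrArg Fin.val h
      simp only [g, Fin.snoc_castSucc, Fin.val_castLE] at h'
      rw [Fin.ext h']
  obtain ⟨τ, hτ⟩ := Perm_aux1 f g hf hg
  obtain ⟨σ, h1, h2⟩ := Perm_aux2 τ
  refine ⟨σ, h1, fun j => ?_, ?_⟩
  · have h3 := h2 ⟨I j, hn j⟩
    have h4 := hτ j.castSucc
    simp only [f, g, Fin.snoc_castSucc] at h4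
    rw [h4] at h3
    simpa using h3
  · have h3 := h2 ⟨i, hi⟩
    have h4 := hτ (Fin.last k)
    simp only [f, g, Fin.snoc_last] at h4
    rw [h4] at h3
    simpa using h3

end Pool.Agent.ALD
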