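import Pool.Agent.ALD.SymA

/-! Module SYMM: the moves of the chain are reversible -/

namespace Pool.Agent.ALD

open BT

private theorem symm_flat {α β : Type*} (l : List α) (f : α → List β) (g : β → ℝ) :
    ((l.flatMap f).map g).sum = (l.map (fun x => ((f x).map g).sum)).sum := by
  induction l with
  | nil => simp
  | cons a l ih => simp [ih]

private theorem symm_comm {α β : Type*} (l : List α) (l' : List β) (f : α → β → ℝ) :
    (l.map (fun a => (l'.map (fun b => f a b)).sum)).sum =
      (l'.map (fun b => (l.map (fun a => f a b)).sum)).sum := by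
  induction l with
  | nil => simp
  | cons a l ih =>
    simp only [List.map_cons, List.sum_cons, ih]
    rw [← List.sum_map_add]

/-- For the last label: `trees n` is the concatenation of the lists `ins (n - 1) S`, `S ∈ trees (n - 1)`,
and `reins (n - 1) T = ins (n - 1) S` for each `T` in this list (`del_of_mem_ins`). -/
theorem sum_reins_last {n : ℕ} (hn : 2 ≤ n) (Ψ : BT → BT → ℝ) :
    ((trees n).map (fun T => ((T.reins (n - 1)).map (fun T' => Ψ T T')).sum)).sum =
    ((trees (n - 1)).map (fun S => ((ins (n - 1) S).map (fun T =>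
      ((ins (n - 1) S).map (fun T' => Ψ T T')).sum)).sum)).sum := by
  obtain ⟨m, rfl⟩ : ∃ m, n = m + 2 := ⟨n - 2, by omega⟩
  have e : m + 2 - 1 = m + 1 := by omega
  rw [e, trees, symm_flat]
  congr 1
  apply List.map_congr_left
  intro S hS
  congr 1
  apply List.map_congr_left
  intro T hT
  have hj : (m + 1) ∉ S.labs := by
    rw [mem_labs_of_mem_trees hS]; omega
  have : T.reins (m + 1) = ins (m + 1) S := by
    unfold BT.reins
    rw [del_of_mem_ins hj hT]
  rw [this]

private theorem symm_last {n : ℕ} (hn : 2 ≤ n) (Ψ : BT → BT → ℝ) :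
    ((trees n).map (fun T => ((T.reins (n - 1)).map (fun T' => Ψ T T')).sum)).sum =
    ((trees n).map (fun T => ((T.reins (n - 1)).map (fun T' => Ψ T' T)).sum)).sum := by
  rw [sum_reins_last hn, sum_reins_last hn (fun T T' => Ψ T' T)]
  congr 1
  apply List.map_congr_left
  intro S _
  exact symm_comm _ _ _

private theorem symm_conj {n i : ℕ} (hn : 2 ≤ n) (hi : i < n) (Ψ : BT → BT → ℝ) :
    ((trees n).map (fun T => ((T.reins i).map (fun T' => Ψ T T')).sum)).sum =
    ((trees n).map (fun T => ((T.reins (n - 1)).map (fun T' =>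
      Ψ (T.map (Equiv.swap i (n - 1))) (T'.map (Equiv.swap i (n - 1))))).sum)).sum := by
  have hσ : ∀ j, j < n ↔ (Equiv.swap i (n - 1)) j < n := by
    intro j
    rw [Equiv.swap_apply_def]
    split_ifs with h1 h2
    · subst h1; omega
    · subst h2; omega
    · rfl
  rw [← sum_trees_map (Equiv.swap i (n - 1)) hσ]
  congr 1
  apply List.map_congr_left
  intro T _
  have e : i = (Equiv.swap i (n - 1)) (n - 1) := by simp
  have h := reins_map (Equiv.swap i (n - 1)).injective (n - 1) T
  rw [← e] at h
  rw [h, List.map_map]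
  rfl

/-- For `i = n - 1` from `sum_reins_last` (exchange the two finite sums over the same list); in general
conjugate with the transposition of `i` and `n - 1` (`sum_trees_map`, `reins_map`). -/
theorem sum_reins_symm {n i : ℕ} (hn : 2 ≤ n) (hi : i < n) (Ψ : BT → BT → ℝ) :
    ((trees n).map (fun T => ((T.reins i).map (fun T' => Ψ T T')).sum)).sum =
    ((trees n).map (fun T => ((T.reins i).map (fun T' => Ψ T' T)).sum)).sum := by
  rw [symm_conj hn hi, symm_conj hn hi (fun T T' => Ψ T' T), symm_last hn]

end Pool.Agent.ALD
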