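import Pool.Agent.ALD.PolE
import Pool.Agent.ALD.Symm

/-! Module POLR: energy of one move of the last label -/

noncomputable section

namespace Pool.Agent.ALD

open BT

theorem polR_fPol_ins {k n m j : ℕ} (hj : j ∉ Finset.range k) {A A' : Finset ℕ} (hA : A.Nonempty)
    (hA' : A'.Nonempty) {S T : BT} (hT : T ∈ ins j S) :
    fPol n m (Finset.range k) A A' T =
      ind (fun T => HasTr (Finset.range k) A T ∧ HasTr (Finset.range k) A' T) S *
        Lam n m (Y (Finset.range k) A T + Y (Finset.range k) A' T) := by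
  unfold fPol
  congr 1
  by_cases h : HasTr (Finset.range k) A S ∧ HasTr (Finset.range k) A' S
  · rw [polG_ind_pos (p := fun T => HasTr (Finset.range k) A T ∧ HasTr (Finset.range k) A' T) h,
      polG_ind_pos (p := fun T => HasTr (Finset.range k) A T ∧ HasTr (Finset.range k) A' T)
        ⟨(hasTr_of_mem_ins hj hA hT).2 h.1, (hasTr_of_mem_ins hj hA' hT).2 h.2⟩]
  · rw [polG_ind_neg (p := fun T => HasTr (Finset.range k) A T ∧ HasTr (Finset.range k) A' T) h,
      polG_ind_neg (p := fun T => HasTr (Finset.range k) A T ∧ HasTr (Finset.range k) A' T)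
        (fun hh => h ⟨(hasTr_of_mem_ins hj hA hT).1 hh.1, (hasTr_of_mem_ins hj hA' hT).1 hh.2⟩)]

/-- the double sum over two insertions in the same tree -/
theorem polR_double {k n m j N : ℕ} (hj : j ∉ Finset.range k) {A A' : Finset ℕ} (hA : A.Nonempty)
    (hA' : A'.Nonempty) (hAA : A ≠ A') {S : BT} (hS : S.labs.Nodup) (hs : S.size = N)
    (hN : 2 ≤ N) :
    ((ins j S).map (fun T => ((ins j S).map (fun T' =>
      (fPol n m (Finset.range k) A A' T - fPol n m (Finset.range k) A A' T') ^ 2)).sum)).sum ≤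
    ind (fun T => HasTr (Finset.range k) A T ∧ HasTr (Finset.range k) A' T) S *
      (8 * (4 * (N : ℝ) - 2) * (((Y (Finset.range k) A S + Y (Finset.range k) A' S : ℕ) : ℝ) + 1) *
        (Lam n m (Y (Finset.range k) A S + Y (Finset.range k) A' S + 1) -
          Lam n m (Y (Finset.range k) A S + Y (Finset.range k) A' S)) ^ 2) := by
  by_cases h : HasTr (Finset.range k) A S ∧ HasTr (Finset.range k) A' S
  · have hi := polG_ind_pos
      (p := fun T => HasTr (Finset.range k) A T ∧ HasTr (Finset.range k) A' T) h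
    rw [hi, one_mul]
    have e1 : ∀ T ∈ ins j S, fPol n m (Finset.range k) A A' T =
        Lam n m (Y (Finset.range k) A T + Y (Finset.range k) A' T) := by
      intro T hT
      rw [polR_fPol_ins hj hA hA' hT, hi, one_mul]
    set W := Y (Finset.range k) A S + Y (Finset.range k) A' S with hW
    set D : ℕ → ℝ := fun w => 4 * ((W : ℝ) + 1) * (Lam n m w - Lam n m (W + 1)) ^ 2 +
        (4 * (N : ℝ) - 2 - 4 * ((W : ℝ) + 1)) * (Lam n m w - Lam n m W) ^ 2 with hD
    have e2 : ((ins j S).map (fun T => ((ins j S).map (fun T' =>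
      (fPol n m (Finset.range k) A A' T - fPol n m (Finset.range k) A A' T') ^ 2)).sum)) =
      ((ins j S).map (fun T => D (Y (Finset.range k) A T + Y (Finset.range k) A' T))) := by
      apply List.map_congr_left
      intro T hT
      have e3 : ((ins j S).map (fun T' =>
        (fPol n m (Finset.range k) A A' T - fPol n m (Finset.range k) A A' T') ^ 2)) =
        ((ins j S).map (fun T' => (fun z : ℕ =>
          (Lam n m (Y (Finset.range k) A T + Y (Finset.range k) A' T) - Lam n m z) ^ 2)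
            (Y (Finset.range k) A T' + Y (Finset.range k) A' T'))) := by
        apply List.map_congr_left
        intro T' hT'
        rw [e1 T hT, e1 T' hT']
      rw [e3]
      refine (sum_ins_pair hS hj hA hA' hAA h.1 h.2
        (fun z : ℕ =>
          (Lam n m (Y (Finset.range k) A T + Y (Finset.range k) A' T) - Lam n m z) ^ 2)).trans ?_
      rw [hs]
    rw [e2]
    refine (le_of_eq (sum_ins_pair hS hj hA hA' hAA h.1 h.2 D)).trans ?_
    rw [hs, ← hW]
    simp only [hD]
    have hN' : (2 : ℝ) ≤ N := by exact_mod_cast hN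
    have hW0 : (0 : ℝ) ≤ W := Nat.cast_nonneg W
    have e4 : (Lam n m W - Lam n m (W + 1)) ^ 2 = (Lam n m (W + 1) - Lam n m W) ^ 2 := by ring
    rw [e4]
    set d := (Lam n m (W + 1) - Lam n m W) ^ 2 with hd
    have hd0 : 0 ≤ d := sq_nonneg _
    have e5 : 4 * ((W : ℝ) + 1) * (4 * ((W : ℝ) + 1) * (Lam n m (W + 1) - Lam n m (W + 1)) ^ 2 +
        (4 * (N : ℝ) - 2 - 4 * ((W : ℝ) + 1)) * d) +
      (4 * (N : ℝ) - 2 - 4 * ((W : ℝ) + 1)) * (4 * ((W : ℝ) + 1) * d +
        (4 * (N : ℝ) - 2 - 4 * ((W : ℝ) + 1)) * (Lam n m W - Lam n m W) ^ 2) =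
      8 * (4 * (N : ℝ) - 2 - 4 * ((W : ℝ) + 1)) * ((W : ℝ) + 1) * d := by
      rw [sub_self, sub_self]
      ring
    rw [e5]
    have h6 : 0 ≤ ((W : ℝ) + 1) * d := mul_nonneg (by linarith) hd0
    nlinarith
  · have hi := polG_ind_neg
      (p := fun T => HasTr (Finset.range k) A T ∧ HasTr (Finset.range k) A' T) h
    rw [hi, zero_mul]
    have e2 : ((ins j S).map (fun T => ((ins j S).map (fun T' =>
      (fPol n m (Finset.range k) A A' T - fPol n m (Finset.range k) A A' T') ^ 2)).sum)) =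
      ((ins j S).map (fun _ => (0 : ℝ))) := by
      apply List.map_congr_left
      intro T hT
      have e3 : ((ins j S).map (fun T' =>
        (fPol n m (Finset.range k) A A' T - fPol n m (Finset.range k) A A' T') ^ 2)) =
        ((ins j S).map (fun _ => (0 : ℝ))) := by
        apply List.map_congr_left
        intro T' hT'
        rw [polR_fPol_ins hj hA hA' hT, polR_fPol_ins hj hA hA' hT', hi]
        ring
      rw [e3]
      simp
    rw [e2]
    simp

/-- Energy of one move of the last label. By `sum_reins_last` average over `S ∈ trees (n - 1)` and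
`T, T' ∈ ins (n - 1) S`. For fixed `S` with both traces (`hasTr_of_mem_ins`) and `W = Y + Y'` at `S`, a
fraction `(2 W + 2) / (2 n - 3)` of the `T ∈ ins (n-1) S` has `W(T) = W + 1` and the others have
`W(T) = W` (`sum_ins_pair`), so the average of `(f T - f T')²` is at most
`2 (2 W + 2) / (2 n - 3) · (Lam (W+1) - Lam W)²`. Sum over the values of `W ≤ n` with `pair_law` for
`n - 1` and use `sum_Lam_diff`: the result is at most
`(2k-3)/(2n-5) · 4/(2n-3) · 4 / L ≤ 64 k / (n² L)` for `n ≥ k + 1 ≥ 4`. -/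
theorem energy_fPol {k n m : ℕ} (hk : 3 ≤ k) (hkn : k + 1 ≤ n) (hm : 1 ≤ m)
    (hL : 1 ≤ Real.log ((n : ℝ) / (2 * m))) {A A' : Finset ℕ} (hA : A.Nonempty)
    (hA' : A'.Nonempty) (hAA : A ≠ A') :
    avg n (fun T => ((T.reins (n - 1)).map (fun T' =>
      (fPol n m (Finset.range k) A A' T - fPol n m (Finset.range k) A A' T') ^ 2)).sum /
        ((T.reins (n - 1)).length : ℝ)) ≤
      64 * k / ((n : ℝ) ^ 2 * Real.log ((n : ℝ) / (2 * m))) := by
  obtain ⟨N, rfl⟩ : ∃ N, n = N + 2 := ⟨n - 2, by omega⟩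
  have hN1 : N + 2 - 1 = N + 1 := by omega
  rw [hN1]
  have hk' : (3 : ℝ) ≤ k := by exact_mod_cast hk
  have hkN : (k : ℝ) ≤ (N : ℝ) + 1 := by
    have : k ≤ N + 1 := by omega
    exact_mod_cast this
  have hj : N + 1 ∉ Finset.range k := by
    simp only [Finset.mem_range, not_lt]
    omega
  set L := Real.log (((N + 2 : ℕ) : ℝ) / (2 * m)) with hLd
  have hL0 : 0 < L := by linarith
  set f := fPol (N + 2) m (Finset.range k) A A' with hf
  set E : ℝ := ((trees (N + 1)).length : ℝ) with hE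
  have hE0 : 0 < E := by
    have := length_trees_pos (n := N + 1) (by omega)
    rw [hE]
    exact_mod_cast this
  have hlen : ((trees (N + 2)).length : ℝ) = (4 * (N : ℝ) + 2) * E := by
    rw [length_trees_succ]
    push_cast
    ring
  have hc0 : (0 : ℝ) < 4 * (N : ℝ) + 2 := by linarith
  -- replace the length of `reins`
  have h1 : avg (N + 2) (fun T => ((T.reins (N + 1)).map (fun T' => (f T - f T') ^ 2)).sum /
        ((T.reins (N + 1)).length : ℝ)) =
      avg (N + 2) (fun T => (4 * (N : ℝ) + 2)⁻¹ *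
        ((T.reins (N + 1)).map (fun T' => (f T - f T') ^ 2)).sum) := by
    apply avg_congr
    intro T hT
    have := length_reins (n := N + 2) (i := N + 1) (by omega) hT (by omega)
    have h2 : ((T.reins (N + 1)).length : ℝ) = 4 * (N : ℝ) + 2 := by
      have h3 : (T.reins (N + 1)).length = 4 * N + 2 := by omega
      rw [h3]
      push_cast
      ring
    rw [h2, div_eq_inv_mul]
  rw [h1, avg_mul_left]
  have h2 := sum_reins_last (n := N + 2) (by omega) (fun T T' => (f T - f T') ^ 2)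
  rw [hN1] at h2
  -- bound of the sum
  set G : ℕ → ℝ := fun y => 8 * (4 * ((N + 1 : ℕ) : ℝ) - 2) *
    (((y : ℝ) + 1) * (Lam (N + 2) m (y + 1) - Lam (N + 2) m y) ^ 2) with hG
  have hG0 : ∀ y, 0 ≤ G y := by
    intro y
    rw [hG]
    simp only
    apply mul_nonneg
    · push_cast
      linarith
    · apply mul_nonneg
      · have : (0 : ℝ) ≤ y := Nat.cast_nonneg y
        linarith
      · exact sq_nonneg _
  have h3 : ((trees (N + 1)).map (fun S => ((ins (N + 1) S).map (fun T =>
      ((ins (N + 1) S).map (fun T' => (f T - f T') ^ 2)).sum)).sum)).sum ≤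
      ((trees (N + 1)).map (fun S => ∑ y ∈ Finset.range (N + 3),
        G y * ind (polGPr k A A' y) S)).sum := by
    apply polG_sum_le
    intro S hS
    have hSn := nodup_labs_of_mem_trees hS
    have hSs := size_of_mem_trees hS
    have hle := pair_le hS hA hA' hAA (I := Finset.range k) (by
      intro a ha
      simp only [Finset.mem_range] at ha ⊢
      omega)
    have h4 := polR_double (n := N + 2) (m := m) hj hA hA' hAA hSn hSs (by omega)
    refine h4.trans (le_of_eq ?_)
    have h5 := polE_expand (k := k) (n := N + 2) G (A := A) (A' := A') (T := S) (by omega)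
    rw [← h5, hG]
    simp only
    ring
  have h4 : ((trees (N + 1)).map (fun S => ∑ y ∈ Finset.range (N + 3),
        G y * ind (polGPr k A A' y) S)).sum =
      E * ∑ y ∈ Finset.range (N + 3), G y * avg (N + 1) (ind (polGPr k A A' y)) := by
    have h5 : avg (N + 1) (fun S => ∑ y ∈ Finset.range (N + 3),
        G y * ind (polGPr k A A' y) S) =
        ∑ y ∈ Finset.range (N + 3), G y * avg (N + 1) (ind (polGPr k A A' y)) := by
      rw [polE_avg_sum]
      apply Finset.sum_congr rfl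
      intro y _
      rw [avg_mul_left]
    rw [← h5]
    unfold avg
    rw [← hE]
    field_simp
  have h5 : ∑ y ∈ Finset.range (N + 3), G y * avg (N + 1) (ind (polGPr k A A' y)) ≤
      8 * (4 * ((N + 1 : ℕ) : ℝ) - 2) * (4 / L) *
        ((2 * (k : ℝ) - 3) / (2 * ((N + 1 : ℕ) : ℝ) - 3)) := by
    have h6 : ∀ y ∈ Finset.range (N + 3), G y * avg (N + 1) (ind (polGPr k A A' y)) ≤
        G y * ((2 * (k : ℝ) - 3) / (2 * ((N + 1 : ℕ) : ℝ) - 3)) := by
      intro y _
      apply mul_le_mul_of_nonneg_left _ (hG0 y)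
      exact pair_law hk (by omega) hA hA' hAA y
    refine (Finset.sum_le_sum h6).trans ?_
    rw [← Finset.sum_mul]
    apply mul_le_mul_of_nonneg_right
    · rw [hG]
      simp only
      rw [← Finset.mul_sum]
      apply mul_le_mul_of_nonneg_left (sum_Lam_diff hm hL)
      push_cast
      linarith
    · apply div_nonneg
      · linarith
      · push_cast
        linarith
  -- final computation
  have h6 : avg (N + 2) (fun T => ((T.reins (N + 1)).map (fun T' => (f T - f T') ^ 2)).sum) ≤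
      (8 * (4 * ((N + 1 : ℕ) : ℝ) - 2) * (4 / L) *
        ((2 * (k : ℝ) - 3) / (2 * ((N + 1 : ℕ) : ℝ) - 3))) / (4 * (N : ℝ) + 2) := by
    unfold avg
    rw [h2, hlen]
    rw [div_le_div_iff₀ (mul_pos hc0 hE0) hc0]
    have h7 := (h3.trans (le_of_eq h4)).trans (mul_le_mul_of_nonneg_left h5 hE0.le)
    calc ((trees (N + 1)).map (fun S => ((ins (N + 1) S).map (fun T =>
          ((ins (N + 1) S).map (fun T' => (f T - f T') ^ 2)).sum)).sum)).sum * (4 * (N : ℝ) + 2)
        ≤ (E * (8 * (4 * ((N + 1 : ℕ) : ℝ) - 2) * (4 / L) *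
          ((2 * (k : ℝ) - 3) / (2 * ((N + 1 : ℕ) : ℝ) - 3)))) * (4 * (N : ℝ) + 2) :=
          mul_le_mul_of_nonneg_right h7 hc0.le
      _ = (8 * (4 * ((N + 1 : ℕ) : ℝ) - 2) * (4 / L) *
          ((2 * (k : ℝ) - 3) / (2 * ((N + 1 : ℕ) : ℝ) - 3))) * ((4 * (N : ℝ) + 2) * E) := by
          ring
  refine (mul_le_mul_of_nonneg_left h6 (inv_nonneg.mpr hc0.le)).trans ?_
  push_cast
  have hN2 : (2 : ℝ) ≤ N := by
    have : 2 ≤ N := by omega
    exact_mod_cast this
  have e7 : (4 * (N : ℝ) + 2)⁻¹ * (8 * (4 * ((N : ℝ) + 1) - 2) * (4 / L) *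
        ((2 * (k : ℝ) - 3) / (2 * ((N : ℝ) + 1) - 3)) / (4 * (N : ℝ) + 2)) =
      32 * (2 * (k : ℝ) - 3) / ((4 * (N : ℝ) + 2) * (2 * (N : ℝ) - 1) * L) := by
    have a1 : (4 * (N : ℝ) + 2) ≠ 0 := ne_of_gt hc0
    have a2 : (2 * ((N : ℝ) + 1) - 3) = 2 * (N : ℝ) - 1 := by ring
    have a3 : (4 * ((N : ℝ) + 1) - 2) = 4 * (N : ℝ) + 2 := by ring
    have a4 : (2 * (N : ℝ) - 1) ≠ 0 := by linarith
    have a5 : L ≠ 0 := ne_of_gt hL0
    rw [a2, a3]
    field_simp
    ring
  rw [e7]
  have hden1 : 0 < (4 * (N : ℝ) + 2) * (2 * (N : ℝ) - 1) * L := by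
    apply mul_pos _ hL0
    apply mul_pos hc0
    linarith
  have hden2 : 0 < ((N : ℝ) + 2) ^ 2 * L := by
    apply mul_pos _ hL0
    positivity
  rw [div_le_div_iff₀ hden1 hden2]
  have key : 32 * (2 * (k : ℝ) - 3) * ((N : ℝ) + 2) ^ 2 ≤
      64 * k * ((4 * (N : ℝ) + 2) * (2 * (N : ℝ) - 1)) := by
    have b1 : ((N : ℝ) + 2) ^ 2 ≤ (4 * (N : ℝ) + 2) * (2 * (N : ℝ) - 1) := by nlinarith
    have b2 : 32 * (2 * (k : ℝ) - 3) ≤ 64 * k := by linarith
    have b3 : (0 : ℝ) ≤ ((N : ℝ) + 2) ^ 2 := sq_nonneg _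
    calc 32 * (2 * (k : ℝ) - 3) * ((N : ℝ) + 2) ^ 2 ≤ 64 * k * ((N : ℝ) + 2) ^ 2 :=
          mul_le_mul_of_nonneg_right b2 b3
      _ ≤ 64 * k * ((4 * (N : ℝ) + 2) * (2 * (N : ℝ) - 1)) :=
          mul_le_mul_of_nonneg_left b1 (by linarith)
  nlinarith [mul_le_mul_of_nonneg_right key hL0.le]

end Pool.Agent.ALD
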