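import Pool.Agent.ALD.PolM
import Pool.Agent.ALD.PolR
import Pool.Agent.ALD.Perm

/-! Module POLV: second moment and energy for any marked labels -/

noncomputable section

namespace Pool.Agent.ALD

open BT

theorem polV_image {k : ℕ} {I : Fin k → ℕ} {σ : Equiv.Perm ℕ} (hs : ∀ j : Fin k, σ (I j) = j) :
    (Finset.univ.image I).image σ = Finset.range k := by
  ext x
  simp only [Finset.mem_image, Finset.mem_univ, true_and, Finset.mem_range]
  constructor
  · rintro ⟨y, ⟨j, rfl⟩, rfl⟩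
    rw [hs j]
    exact j.2
  · intro hx
    exact ⟨I ⟨x, hx⟩, ⟨⟨x, hx⟩, rfl⟩, hs ⟨x, hx⟩⟩

theorem polV_image' {k : ℕ} {I : Fin k → ℕ} {σ : Equiv.Perm ℕ} (hs : ∀ j : Fin k, σ (I j) = j)
    (A : Finset (Fin k)) :
    (A.image I).image σ = A.image (fun j : Fin k => (j : ℕ)) := by
  rw [Finset.image_image]
  apply Finset.image_congr
  intro j _
  exact hs j

theorem polV_fT {n m k : ℕ} {I : Fin k → ℕ} {σ : Equiv.Perm ℕ} (hs : ∀ j : Fin k, σ (I j) = j)
    (A A' : Finset (Fin k)) (T : BT) :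
    fT n m k I A A' T = fPol n m (Finset.range k) (A.image (fun j : Fin k => (j : ℕ)))
      (A'.image (fun j : Fin k => (j : ℕ))) (T.map σ) := by
  have h1 := hasTr_map (σ := σ) σ.injective (Finset.univ.image I) (A.image I) T
  have h2 := hasTr_map (σ := σ) σ.injective (Finset.univ.image I) (A'.image I) T
  have h3 := Y_map (σ := σ) σ.injective (Finset.univ.image I) (A.image I) T
  have h4 := Y_map (σ := σ) σ.injective (Finset.univ.image I) (A'.image I) T
  rw [polV_image hs, polV_image' hs] at h1 h2 h3 h4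
  unfold fT fPol
  rw [h3, h4]
  congr 1
  unfold ind
  by_cases hc : HasTr (Finset.univ.image I) (A.image I) T ∧
    HasTr (Finset.univ.image I) (A'.image I) T
  · rw [if_pos hc, if_pos ⟨h1.2 hc.1, h2.2 hc.2⟩]
  · rw [if_neg hc, if_neg (fun h => hc ⟨h1.1 h.1, h2.1 h.2⟩)]

theorem polV_nonempty {k : ℕ} {A : Finset (Fin k)} (hA : A.Nonempty) :
    (A.image (fun j : Fin k => (j : ℕ))).Nonempty := hA.image _

theorem polV_ne {k : ℕ} {A A' : Finset (Fin k)} (hAA : A ≠ A') :
    A.image (fun j : Fin k => (j : ℕ)) ≠ A'.image (fun j : Fin k => (j : ℕ)) := by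
  intro h
  exact hAA (Finset.image_injective Fin.val_injective h)

/-- `exists_perm`, `avg_map`, `hasTr_map`, `Y_map`, `avg_fPol_sq` -/
theorem avg_fT_sq {k n m : ℕ} (hk : 3 ≤ k) (hkn : k ≤ n) (hm : 1 ≤ m)
    (hL : 1 ≤ Real.log ((n : ℝ) / (2 * m))) {A A' : Finset (Fin k)} (hA : A.Nonempty)
    (hA' : A'.Nonempty) (hAA : A ≠ A') {I : Fin k → ℕ} (hI : Function.Injective I)
    (hIn : ∀ j, I j < n) :
    avg n (fun T => fT n m k I A A' T ^ 2) ≤
      128 * k / Real.log ((n : ℝ) / (2 * m)) ^ 2 := by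
  obtain ⟨σ, hσ, hs⟩ := exists_perm I hI hIn
  have h := avg_map σ hσ (fun T => fPol n m (Finset.range k)
    (A.image (fun j : Fin k => (j : ℕ))) (A'.image (fun j : Fin k => (j : ℕ))) T ^ 2)
  have h2 : (fun T => fT n m k I A A' T ^ 2) = (fun T => fPol n m (Finset.range k)
    (A.image (fun j : Fin k => (j : ℕ))) (A'.image (fun j : Fin k => (j : ℕ))) (T.map σ) ^ 2) := by
    funext T
    rw [polV_fT hs A A' T]
  rw [h2, h]
  exact avg_fPol_sq hk hkn hm hL (polV_nonempty hA) (polV_nonempty hA') (polV_ne hAA)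

/-- `exists_perm'`, `avg_map`, `reins_map`, `energy_fPol` -/
theorem energy_fT {k n m i : ℕ} (hk : 3 ≤ k) (hkn : k + 1 ≤ n) (hm : 1 ≤ m)
    (hL : 1 ≤ Real.log ((n : ℝ) / (2 * m))) {A A' : Finset (Fin k)} (hA : A.Nonempty)
    (hA' : A'.Nonempty) (hAA : A ≠ A') {I : Fin k → ℕ} (hI : Function.Injective I)
    (hIn : ∀ j, I j < n) (hi : i < n) (hIi : ∀ j, I j ≠ i) :
    avg n (fun T => ((T.reins i).map (fun T' =>
      (fT n m k I A A' T - fT n m k I A A' T') ^ 2)).sum / ((T.reins i).length : ℝ)) ≤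
      64 * k / ((n : ℝ) ^ 2 * Real.log ((n : ℝ) / (2 * m))) := by
  obtain ⟨σ, hσ, hs, hsi⟩ := exists_perm' I hI hIn hi hIi hkn
  have h := avg_map σ hσ (fun T => ((T.reins (n - 1)).map (fun T' =>
      (fPol n m (Finset.range k) (A.image (fun j : Fin k => (j : ℕ)))
        (A'.image (fun j : Fin k => (j : ℕ))) T -
       fPol n m (Finset.range k) (A.image (fun j : Fin k => (j : ℕ)))
        (A'.image (fun j : Fin k => (j : ℕ))) T') ^ 2)).sum /
        ((T.reins (n - 1)).length : ℝ))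
  have h2 : (fun T => ((T.reins i).map (fun T' =>
      (fT n m k I A A' T - fT n m k I A A' T') ^ 2)).sum / ((T.reins i).length : ℝ)) =
      (fun T : BT => (((T.map σ).reins (n - 1)).map (fun T' =>
      (fPol n m (Finset.range k) (A.image (fun j : Fin k => (j : ℕ)))
        (A'.image (fun j : Fin k => (j : ℕ))) (T.map σ) -
       fPol n m (Finset.range k) (A.image (fun j : Fin k => (j : ℕ)))
        (A'.image (fun j : Fin k => (j : ℕ))) T') ^ 2)).sum /
        (((T.map σ).reins (n - 1)).length : ℝ)) := by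
    funext T
    rw [← hsi, reins_map σ.injective i T, List.map_map, List.length_map]
    congr 3
    funext T'
    simp only [Function.comp]
    rw [polV_fT hs A A' T, polV_fT hs A A' T']
  rw [h2, h]
  exact energy_fPol hk hkn hm hL (polV_nonempty hA) (polV_nonempty hA') (polV_ne hAA)

end Pool.Agent.ALD
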