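import Pool.Agent.ALD.StepF
import Pool.Agent.ALD.Symm

/-! Module STEPS: stationarity, symmetry, Dirichlet form -/

noncomputable section

namespace Pool.Agent.ALD

open BT

/-- the double average over a tree and its moves -/
theorem stepS_avg_double {n : ℕ} (hn : 2 ≤ n) (Ψ : BT → BT → ℝ) :
    avg n (fun T => (∑ i ∈ Finset.range n,
      ((T.reins i).map (fun T' => Ψ T T')).sum / ((T.reins i).length : ℝ)) / (n : ℝ)) =
    (∑ i ∈ Finset.range n, ((trees n).map (fun T => ((T.reins i).map (fun T' => Ψ T T')).sum)).sum) /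
      (((4 * n - 6 : ℕ) : ℝ) * n * ((trees n).length : ℝ)) := by
  unfold avg
  have h1 : ∀ T ∈ trees n, (∑ i ∈ Finset.range n,
      ((T.reins i).map (fun T' => Ψ T T')).sum / ((T.reins i).length : ℝ)) / (n : ℝ) =
      (((4 * n - 6 : ℕ) : ℝ) * n)⁻¹ * (∑ i ∈ Finset.range n,
        ((T.reins i).map (fun T' => Ψ T T')).sum) := by
    intro T hT
    have h2 : ∀ i ∈ Finset.range n,
        ((T.reins i).map (fun T' => Ψ T T')).sum / ((T.reins i).length : ℝ) =
        ((T.reins i).map (fun T' => Ψ T T')).sum / ((4 * n - 6 : ℕ) : ℝ) := by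
      intro i hi
      have hl := length_reins hn hT (Finset.mem_range.1 hi)
      have : (T.reins i).length = 4 * n - 6 := by omega
      rw [this]
    rw [Finset.sum_congr rfl h2, ← Finset.sum_div]
    rw [div_div, div_eq_inv_mul]
  rw [List.map_congr_left h1, stepF_sum_mul]
  have h3 : ∀ l : List BT, (l.map (fun T => ∑ i ∈ Finset.range n,
      ((T.reins i).map (fun T' => Ψ T T')).sum)).sum =
      ∑ i ∈ Finset.range n, (l.map (fun T => ((T.reins i).map (fun T' => Ψ T T')).sum)).sum := by
    intro l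
    induction l with
    | nil => simp
    | cons a l ih =>
      simp only [List.map_cons, List.sum_cons, ih, Finset.sum_add_distrib]
  rw [h3]
  rw [← div_div, div_eq_inv_mul (Finset.sum _ _)]

theorem stepS_double_symm {n : ℕ} (hn : 2 ≤ n) (Ψ : BT → BT → ℝ) :
    avg n (fun T => (∑ i ∈ Finset.range n,
      ((T.reins i).map (fun T' => Ψ T T')).sum / ((T.reins i).length : ℝ)) / (n : ℝ)) =
    avg n (fun T => (∑ i ∈ Finset.range n,
      ((T.reins i).map (fun T' => Ψ T' T)).sum / ((T.reins i).length : ℝ)) / (n : ℝ)) := by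
  rw [stepS_avg_double hn Ψ, stepS_avg_double hn (fun T T' => Ψ T' T)]
  congr 1
  refine Finset.sum_congr rfl (fun i hi => ?_)
  exact sum_reins_symm hn (Finset.mem_range.1 hi) Ψ

/-- `sum_reins_symm` with `Ψ T T' = F T'`, and `length_reins` -/
theorem avg_step {n : ℕ} (hn : 2 ≤ n) (F : BT → ℝ) : avg n (step n F) = avg n F := by
  have h := stepS_double_symm hn (fun _ T' => F T')
  have e1 : avg n (step n F) = avg n (fun T => (∑ i ∈ Finset.range n,
      ((T.reins i).map (fun T' => F T')).sum / ((T.reins i).length : ℝ)) / (n : ℝ)) := rfl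
  rw [e1, h]
  refine avg_congr (fun T hT => ?_)
  exact step_const hn (F T) T hT

/-- `sum_reins_symm` with `Ψ T T' = G T * F T'` -/
theorem avg_mul_step {n : ℕ} (hn : 2 ≤ n) (F G : BT → ℝ) :
    avg n (fun T => G T * step n F T) = avg n (fun T => F T * step n G T) := by
  have h := stepS_double_symm hn (fun T T' => G T * F T')
  have e : ∀ (F G : BT → ℝ) (T : BT), G T * step n F T = (∑ i ∈ Finset.range n,
      ((T.reins i).map (fun T' => G T * F T')).sum / ((T.reins i).length : ℝ)) / (n : ℝ) := by
    intro F G T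
    unfold step
    rw [← mul_div_assoc, Finset.mul_sum]
    congr 1
    refine Finset.sum_congr rfl (fun i _ => ?_)
    rw [stepF_sum_mul, mul_div_assoc]
  rw [avg_congr (fun T _ => e F G T), h]
  refine avg_congr (fun T _ => ?_)
  rw [e G F T]
  simp only [mul_comm]

/-- expand the square and use `sum_reins_symm` for `F T' ^ 2` -/
theorem dir_eq {n : ℕ} (hn : 2 ≤ n) (F : BT → ℝ) :
    Dir n F = 2 * (avg n (fun T => F T ^ 2) - avg n (fun T => F T * step n F T)) := by
  have h1 : Dir n F = avg n (fun T => (F T ^ 2 + (-2) * (F T * step n F T)) +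
      step n (fun S => F S ^ 2) T) := by
    unfold Dir
    refine avg_congr (fun T hT => ?_)
    have h2 : (∑ i ∈ Finset.range n,
        ((T.reins i).map (fun T' => (F T - F T') ^ 2)).sum / ((T.reins i).length : ℝ)) / (n : ℝ) =
        step n (fun S => (F T - F S) ^ 2) T := rfl
    have h3 : (fun S => (F T - F S) ^ 2) =
        fun S => (F T ^ 2 + ((-2) * F T) * F S) + F S ^ 2 := by
      funext S
      ring
    rw [h2, h3, step_add (fun S => F T ^ 2 + ((-2) * F T) * F S) (fun S => F S ^ 2),
      step_add (fun _ => F T ^ 2) (fun S => ((-2) * F T) * F S),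
      step_mul_left, step_const hn (F T ^ 2) T hT]
    ring
  rw [h1, avg_add (fun T => F T ^ 2 + (-2) * (F T * step n F T)) (step n (fun S => F S ^ 2)),
    avg_add (fun T => F T ^ 2) (fun T => (-2) * (F T * step n F T)), avg_mul_left,
    avg_step hn]
  ring

theorem dir_nonneg {n : ℕ} (F : BT → ℝ) : 0 ≤ Dir n F := by
  unfold Dir
  refine avg_nonneg (fun T _ => ?_)
  refine div_nonneg (Finset.sum_nonneg (fun i _ => ?_)) (Nat.cast_nonneg _)
  refine div_nonneg (List.sum_nonneg ?_) (Nat.cast_nonneg _)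
  intro x hx
  obtain ⟨T', _, rfl⟩ := List.mem_map.1 hx
  positivity

end Pool.Agent.ALD
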