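import Pool.Agent.ALD.PolF
import Pool.Agent.ALD.PolV
import Pool.Agent.ALD.StepS

/-! Module POLD: Dirichlet form of the averaged test function -/

noncomputable section

namespace Pool.Agent.ALD

open BT

/-- expectation over a uniform tree and a uniform reinsertion of the leaf `i` -/
def polD_ex (n i : ℕ) (Φ : BT → BT → ℝ) : ℝ :=
  avg n (fun T => ((T.reins i).map (fun T' => Φ T T')).sum / ((T.reins i).length : ℝ))

theorem polD_mono {n i : ℕ} {Φ Ψ : BT → BT → ℝ} (h : ∀ T T', Φ T T' ≤ Ψ T T') :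
    polD_ex n i Φ ≤ polD_ex n i Ψ := by
  unfold polD_ex
  apply avg_mono
  intro T _
  apply div_le_div_of_nonneg_right _ (Nat.cast_nonneg _)
  apply List.sum_le_sum
  intro T' _
  exact h T T'

theorem polD_add {n i : ℕ} (Φ Ψ : BT → BT → ℝ) :
    polD_ex n i (fun T T' => Φ T T' + Ψ T T') = polD_ex n i Φ + polD_ex n i Ψ := by
  unfold polD_ex
  rw [← avg_add]
  congr 1
  funext T
  rw [List.sum_map_add, add_div]

theorem polD_mul {n i : ℕ} (c : ℝ) (Φ : BT → BT → ℝ) :
    polD_ex n i (fun T T' => c * Φ T T') = c * polD_ex n i Φ := by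
  unfold polD_ex
  rw [← avg_mul_left]
  congr 1
  funext T
  rw [List.sum_map_mul_left, mul_div_assoc]

theorem polD_zero {n i : ℕ} : polD_ex n i (fun _ _ => 0) = 0 := by
  have := polD_mul (n := n) (i := i) 0 (fun _ _ => 0)
  simpa using this

theorem polD_sum {n i : ℕ} {ι : Type*} (s : Finset ι) (Φ : ι → BT → BT → ℝ) :
    polD_ex n i (fun T T' => ∑ I ∈ s, Φ I T T') = ∑ I ∈ s, polD_ex n i (Φ I) := by
  classical
  induction s using Finset.induction_on with
  | empty => simpa using polD_zero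
  | insert a s ha ih =>
    rw [Finset.sum_insert ha, ← ih, ← polD_add]
    congr 1
    funext T T'
    rw [Finset.sum_insert ha]

theorem polD_left {n i : ℕ} (hn : 2 ≤ n) (hi : i < n) (g : BT → ℝ) :
    polD_ex n i (fun T _ => g T) = avg n g := by
  unfold polD_ex
  apply avg_congr
  intro T hT
  have h := length_reins hn hT hi
  have h0 : ((T.reins i).length : ℝ) ≠ 0 := by
    have : 0 < (T.reins i).length := by omega
    positivity
  rw [List.map_const', List.sum_replicate, nsmul_eq_mul]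
  field_simp

theorem polD_right {n i : ℕ} (hn : 2 ≤ n) (hi : i < n) (g : BT → ℝ) :
    polD_ex n i (fun _ T' => g T') = avg n g := by
  rw [← polD_left hn hi g]
  unfold polD_ex avg
  congr 1
  have key : ∀ Φ : BT → BT → ℝ, ((trees n).map (fun T => ((T.reins i).map (fun T' => Φ T T')).sum /
      ((T.reins i).length : ℝ))).sum = (4 * (n : ℝ) - 6)⁻¹ *
      ((trees n).map (fun T => ((T.reins i).map (fun T' => Φ T T')).sum)).sum := by
    intro Φ
    rw [← List.sum_map_mul_left]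
    congr 1
    apply List.map_congr_left
    intro T hT
    have h := length_reins hn hT hi
    have h0 : ((T.reins i).length : ℝ) = 4 * (n : ℝ) - 6 := by
      have h' : (((T.reins i).length + 6 : ℕ) : ℝ) = ((4 * n : ℕ) : ℝ) := by rw [h]
      push_cast at h'
      linarith
    rw [h0, div_eq_inv_mul]
  rw [key, key, sum_reins_symm hn hi (fun _ T' => g T')]

theorem polD_dir {n : ℕ} (F : BT → ℝ) :
    Dir n F = (∑ i ∈ Finset.range n, polD_ex n i (fun T T' => (F T - F T') ^ 2)) / (n : ℝ) := by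
  unfold Dir
  have h : ∀ s : Finset ℕ, avg n (fun T => ∑ i ∈ s,
      ((T.reins i).map (fun T' => (F T - F T') ^ 2)).sum / ((T.reins i).length : ℝ)) =
      ∑ i ∈ s, polD_ex n i (fun T T' => (F T - F T') ^ 2) := by
    intro s
    induction s using Finset.induction_on with
    | empty =>
      simp only [Finset.sum_empty]
      simp [avg]
    | insert a s ha ih =>
      rw [Finset.sum_insert ha, ← ih]
      unfold polD_ex
      rw [← avg_add]
      congr 1
      funext T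
      rw [Finset.sum_insert ha]
  rw [← h, div_eq_inv_mul, ← avg_mul_left]
  congr 1
  funext T
  rw [div_eq_inv_mul]

/-- tuples with one coordinate equal to `i` -/
theorem polD_card_hit {k n i : ℕ} (hi : i < n) :
    (((Fintype.piFinset (fun _ : Fin k => Finset.range n)).filter
      (fun I => ∃ j, I j = i)).card : ℝ) ≤ k * (n : ℝ) ^ (k - 1) := by
  have h1 : (Fintype.piFinset (fun _ : Fin k => Finset.range n)).filter (fun I => ∃ j, I j = i) ⊆
      Finset.univ.biUnion (fun j : Fin k => Fintype.piFinset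
        (fun j' : Fin k => if j' = j then {i} else Finset.range n)) := by
    intro I hI
    rw [Finset.mem_filter, Fintype.mem_piFinset] at hI
    obtain ⟨hI1, j, hj⟩ := hI
    rw [Finset.mem_biUnion]
    refine ⟨j, Finset.mem_univ j, ?_⟩
    rw [Fintype.mem_piFinset]
    intro j'
    by_cases h : j' = j
    · subst h
      simp [hj]
    · simp only [h, if_false]
      exact hI1 j'
  have h2 := Finset.card_le_card h1
  have h3 : (Finset.univ.biUnion (fun j : Fin k => Fintype.piFinset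
        (fun j' : Fin k => if j' = j then {i} else Finset.range n))).card ≤ k * n ^ (k - 1) := by
    refine Finset.card_biUnion_le.trans ?_
    have : ∀ j : Fin k, (Fintype.piFinset
        (fun j' : Fin k => if j' = j then {i} else Finset.range n)).card = n ^ (k - 1) := by
      intro j
      rw [Fintype.card_piFinset]
      rw [← Finset.mul_prod_erase Finset.univ _ (Finset.mem_univ j)]
      simp only [if_true, Finset.card_singleton, one_mul]
      rw [Finset.prod_congr rfl (g := fun _ => n)]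
      · rw [Finset.prod_const, Finset.card_erase_of_mem (Finset.mem_univ j), Finset.card_univ,
          Fintype.card_fin]
      · intro x hx
        rw [if_neg (Finset.ne_of_mem_erase hx), Finset.card_range]
    rw [Finset.sum_congr rfl (fun j _ => this j)]
    simp
  have h4 := h2.trans h3
  exact_mod_cast h4

theorem polD_card {k n : ℕ} :
    ((Fintype.piFinset (fun _ : Fin k => Finset.range n)).card : ℝ) = (n : ℝ) ^ k := by
  rw [Fintype.card_piFinset]
  simp

theorem polD_one {k n m : ℕ} {ε : ℝ} (hε : 0 < ε) (hk : 3 ≤ k) (hkn : k + 1 ≤ n) (hm : 1 ≤ m)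
    (hL : 1 ≤ Real.log ((n : ℝ) / (2 * m))) {A A' : Finset (Fin k)} (hA : A.Nonempty)
    (hA' : A'.Nonempty) (hAA : A ≠ A') {i : ℕ} (hi : i < n) :
    polD_ex n i (fun T T' => (FT n m k ε A A' T - FT n m k ε A A' T') ^ 2) ≤
      2 * (ε ^ (2 * k))⁻¹ *
      ((64 * k + 512 * k ^ 3) / ((n : ℝ) ^ 2 * Real.log ((n : ℝ) / (2 * m)))) := by
  classical
  set L := Real.log ((n : ℝ) / (2 * m)) with hLdef
  have hn : 2 ≤ n := by omega
  have hnR : (0 : ℝ) < n := by
    have : 0 < n := by omega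
    exact_mod_cast this
  set P := Fintype.piFinset (fun _ : Fin k => Finset.range n) with hP
  set J : (Fin k → ℕ) → ℝ := ind (fun I : Fin k → ℕ => Function.Injective I) with hJ
  set P2 := P.filter (fun I => ∃ j, I j = i) with hP2
  set P1 := P.filter (fun I => ¬ ∃ j, I j = i) with hP1
  set c := ((ε * n) ^ k)⁻¹ with hc
  have hJ0 : ∀ I, 0 ≤ J I := by
    intro I
    simp only [hJ, ind]
    split <;> norm_num
  have hJ1 : ∀ I, J I ≤ 1 := by
    intro I
    simp only [hJ, ind]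
    split <;> norm_num
  have hJsq : ∀ I, J I ^ 2 = J I := by
    intro I
    simp only [hJ, ind]
    split <;> norm_num
  -- pointwise bound
  have hpt : ∀ T T', (FT n m k ε A A' T - FT n m k ε A A' T') ^ 2 ≤
      2 * c ^ 2 * ((P1.card : ℝ) * ∑ I ∈ P1, J I * (fT n m k I A A' T - fT n m k I A A' T') ^ 2) +
      2 * c ^ 2 * ((P2.card : ℝ) * ∑ I ∈ P2, J I *
        (2 * fT n m k I A A' T ^ 2 + 2 * fT n m k I A A' T' ^ 2)) := by
    intro T T'
    have e1 : FT n m k ε A A' T - FT n m k ε A A' T' =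
        c * ((∑ I ∈ P1, J I * (fT n m k I A A' T - fT n m k I A A' T')) +
          ∑ I ∈ P2, J I * (fT n m k I A A' T - fT n m k I A A' T')) := by
      unfold FT
      rw [← mul_sub, ← Finset.sum_sub_distrib, add_comm, Finset.sum_filter_add_sum_filter_not]
      congr 1
      apply Finset.sum_congr rfl
      intro I _
      ring
    have cs1 : (∑ I ∈ P1, J I * (fT n m k I A A' T - fT n m k I A A' T')) ^ 2 ≤
        (P1.card : ℝ) * ∑ I ∈ P1, J I * (fT n m k I A A' T - fT n m k I A A' T') ^ 2 := by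
      refine sq_sum_le_card_mul_sum_sq.trans (le_of_eq ?_)
      congr 1
      apply Finset.sum_congr rfl
      intro I _
      rw [mul_pow, hJsq]
    have cs2 : (∑ I ∈ P2, J I * (fT n m k I A A' T - fT n m k I A A' T')) ^ 2 ≤
        (P2.card : ℝ) * ∑ I ∈ P2, J I *
        (2 * fT n m k I A A' T ^ 2 + 2 * fT n m k I A A' T' ^ 2) := by
      refine sq_sum_le_card_mul_sum_sq.trans ?_
      apply mul_le_mul_of_nonneg_left _ (Nat.cast_nonneg _)
      apply Finset.sum_le_sum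
      intro I _
      rw [mul_pow, hJsq]
      apply mul_le_mul_of_nonneg_left _ (hJ0 I)
      nlinarith [sq_nonneg (fT n m k I A A' T + fT n m k I A A' T')]
    rw [e1, mul_pow]
    have hc2 : 0 ≤ c ^ 2 := sq_nonneg c
    have := sq_nonneg ((∑ I ∈ P1, J I * (fT n m k I A A' T - fT n m k I A A' T')) -
          ∑ I ∈ P2, J I * (fT n m k I A A' T - fT n m k I A A' T'))
    calc c ^ 2 * ((∑ I ∈ P1, J I * (fT n m k I A A' T - fT n m k I A A' T')) +
          ∑ I ∈ P2, J I * (fT n m k I A A' T - fT n m k I A A' T')) ^ 2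
        ≤ c ^ 2 * (2 * (∑ I ∈ P1, J I * (fT n m k I A A' T - fT n m k I A A' T')) ^ 2 +
          2 * (∑ I ∈ P2, J I * (fT n m k I A A' T - fT n m k I A A' T')) ^ 2) := by
          apply mul_le_mul_of_nonneg_left _ hc2
          nlinarith
      _ ≤ c ^ 2 * (2 * ((P1.card : ℝ) * ∑ I ∈ P1, J I *
            (fT n m k I A A' T - fT n m k I A A' T') ^ 2) +
          2 * ((P2.card : ℝ) * ∑ I ∈ P2, J I *
            (2 * fT n m k I A A' T ^ 2 + 2 * fT n m k I A A' T' ^ 2))) := by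
          apply mul_le_mul_of_nonneg_left _ hc2
          linarith
      _ = _ := by ring
  refine (polD_mono hpt).trans ?_
  rw [polD_add, polD_mul, polD_mul, polD_mul, polD_mul, polD_sum, polD_sum]
  -- first part
  have hE2 : ∀ I ∈ P1, polD_ex n i (fun T T' => J I *
      (fT n m k I A A' T - fT n m k I A A' T') ^ 2) ≤ 64 * k / ((n : ℝ) ^ 2 * L) := by
    intro I hI
    rw [polD_mul]
    by_cases hinj : Function.Injective I
    · have hJI : J I = 1 := by
        simp only [hJ, ind]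
        rw [if_pos hinj]
      rw [hJI, one_mul]
      rw [hP1, Finset.mem_filter, hP, Fintype.mem_piFinset] at hI
      apply energy_fT hk hkn hm hL hA hA' hAA hinj (fun j => Finset.mem_range.1 (hI.1 j)) hi
      intro j hj
      exact hI.2 ⟨j, hj⟩
    · have hJI : J I = 0 := by
        simp only [hJ, ind]
        rw [if_neg hinj]
      rw [hJI, zero_mul]
      positivity
  have hE1 : ∀ I ∈ P2, polD_ex n i (fun T T' => J I *
      (2 * fT n m k I A A' T ^ 2 + 2 * fT n m k I A A' T' ^ 2)) ≤ 4 * (128 * k / L ^ 2) := by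
    intro I hI
    rw [polD_mul]
    by_cases hinj : Function.Injective I
    · have hJI : J I = 1 := by
        simp only [hJ, ind]
        rw [if_pos hinj]
      rw [hJI, one_mul]
      rw [hP2, Finset.mem_filter, hP, Fintype.mem_piFinset] at hI
      have h := avg_fT_sq hk (by omega : k ≤ n) hm hL hA hA' hAA hinj
        (fun j => Finset.mem_range.1 (hI.1 j))
      rw [polD_add, polD_mul, polD_mul,
        polD_left hn hi (fun T => fT n m k I A A' T ^ 2),
        polD_right hn hi (fun T => fT n m k I A A' T ^ 2)]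
      linarith
    · have hJI : J I = 0 := by
        simp only [hJ, ind]
        rw [if_neg hinj]
      rw [hJI, zero_mul]
      positivity
  have hs1 := Finset.sum_le_card_nsmul P1 _ _ hE2
  have hs2 := Finset.sum_le_card_nsmul P2 _ _ hE1
  rw [nsmul_eq_mul] at hs1 hs2
  have hcard1 : (P1.card : ℝ) ≤ (n : ℝ) ^ k := by
    rw [← polD_card (k := k) (n := n)]
    exact_mod_cast Finset.card_filter_le _ _
  have hcard2 : (P2.card : ℝ) ≤ k * (n : ℝ) ^ (k - 1) := polD_card_hit hi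
  have hLpos : 0 < L := by linarith
  have hE2pos : 0 ≤ 64 * (k : ℝ) / ((n : ℝ) ^ 2 * L) := by positivity
  have hE1pos : 0 ≤ 4 * (128 * (k : ℝ) / L ^ 2) := by positivity
  have hc2 : 0 ≤ 2 * c ^ 2 := by positivity
  have hb1 : (P1.card : ℝ) * ∑ I ∈ P1, polD_ex n i (fun T T' => J I *
      (fT n m k I A A' T - fT n m k I A A' T') ^ 2) ≤
      (n : ℝ) ^ k * ((n : ℝ) ^ k * (64 * k / ((n : ℝ) ^ 2 * L))) := by
    calc _ ≤ (P1.card : ℝ) * ((P1.card : ℝ) * (64 * k / ((n : ℝ) ^ 2 * L))) :=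
          mul_le_mul_of_nonneg_left hs1 (Nat.cast_nonneg _)
      _ ≤ _ := by
          apply mul_le_mul hcard1 _ (by positivity) (by positivity)
          exact mul_le_mul_of_nonneg_right hcard1 hE2pos
  have hb2 : (P2.card : ℝ) * ∑ I ∈ P2, polD_ex n i (fun T T' => J I *
      (2 * fT n m k I A A' T ^ 2 + 2 * fT n m k I A A' T' ^ 2)) ≤
      (k * (n : ℝ) ^ (k - 1)) * ((k * (n : ℝ) ^ (k - 1)) * (4 * (128 * k / L ^ 2))) := by
    calc _ ≤ (P2.card : ℝ) * ((P2.card : ℝ) * (4 * (128 * k / L ^ 2))) :=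
          mul_le_mul_of_nonneg_left hs2 (Nat.cast_nonneg _)
      _ ≤ _ := by
          apply mul_le_mul hcard2 _ (by positivity) (by positivity)
          exact mul_le_mul_of_nonneg_right hcard2 hE1pos
  refine (add_le_add (mul_le_mul_of_nonneg_left hb1 hc2)
    (mul_le_mul_of_nonneg_left hb2 hc2)).trans ?_
  -- algebra
  obtain ⟨k', rfl⟩ : ∃ k', k = k' + 1 := ⟨k - 1, by omega⟩
  have hk1 : k' + 1 - 1 = k' := by omega
  rw [hk1]
  have hL2 : L⁻¹ ^ 2 ≤ L⁻¹ := by
    have h1 : L⁻¹ ≤ 1 := inv_le_one_of_one_le₀ hL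
    have h0 : 0 ≤ L⁻¹ := by positivity
    nlinarith
  have hcc : c ^ 2 = (ε ^ (2 * (k' + 1)))⁻¹ * ((n : ℝ) ^ (2 * (k' + 1)))⁻¹ := by
    rw [hc, inv_pow, ← pow_mul, mul_pow, mul_inv]
    ring_nf
  rw [hcc]
  have hnk : ((n : ℝ) ^ (2 * (k' + 1)))⁻¹ * ((n : ℝ) ^ (k' + 1) * (n : ℝ) ^ (k' + 1)) = 1 := by
    have : (n : ℝ) ^ (k' + 1) * (n : ℝ) ^ (k' + 1) = (n : ℝ) ^ (2 * (k' + 1)) := by ring
    rw [this]
    exact inv_mul_cancel₀ (by positivity)
  have hnk' : ((n : ℝ) ^ (2 * (k' + 1)))⁻¹ * ((n : ℝ) ^ k' * (n : ℝ) ^ k') = ((n : ℝ) ^ 2)⁻¹ := by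
    have : (n : ℝ) ^ (2 * (k' + 1)) = (n : ℝ) ^ k' * (n : ℝ) ^ k' * (n : ℝ) ^ 2 := by ring
    rw [this, mul_inv, mul_comm, ← mul_assoc, mul_inv_cancel₀ (by positivity), one_mul]
  set e := (ε ^ (2 * (k' + 1)))⁻¹ with he
  have he0 : 0 ≤ e := by positivity
  set K := (((k' + 1 : ℕ)) : ℝ) with hK
  have hK0 : 0 ≤ K := Nat.cast_nonneg _
  have l1 : 2 * (e * ((n : ℝ) ^ (2 * (k' + 1)))⁻¹) * ((n : ℝ) ^ (k' + 1) *
      ((n : ℝ) ^ (k' + 1) * (64 * K / ((n : ℝ) ^ 2 * L)))) =
      2 * e * (64 * K * ((n : ℝ) ^ 2)⁻¹ * L⁻¹) := by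
    have : 2 * (e * ((n : ℝ) ^ (2 * (k' + 1)))⁻¹) * ((n : ℝ) ^ (k' + 1) *
      ((n : ℝ) ^ (k' + 1) * (64 * K / ((n : ℝ) ^ 2 * L)))) =
      2 * e * (((n : ℝ) ^ (2 * (k' + 1)))⁻¹ * ((n : ℝ) ^ (k' + 1) * (n : ℝ) ^ (k' + 1))) *
        (64 * K * ((n : ℝ) ^ 2)⁻¹ * L⁻¹) := by
      rw [div_eq_mul_inv, mul_inv]
      ring
    rw [this, hnk]
    ring
  have l2 : 2 * (e * ((n : ℝ) ^ (2 * (k' + 1)))⁻¹) * (K * (n : ℝ) ^ k' *
      (K * (n : ℝ) ^ k' * (4 * (128 * K / L ^ 2)))) =
      2 * e * (512 * K ^ 3 * ((n : ℝ) ^ 2)⁻¹ * L⁻¹ ^ 2) := by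
    have : 2 * (e * ((n : ℝ) ^ (2 * (k' + 1)))⁻¹) * (K * (n : ℝ) ^ k' *
      (K * (n : ℝ) ^ k' * (4 * (128 * K / L ^ 2)))) =
      2 * e * (((n : ℝ) ^ (2 * (k' + 1)))⁻¹ * ((n : ℝ) ^ k' * (n : ℝ) ^ k')) *
        (512 * K ^ 3 * L⁻¹ ^ 2) := by
      rw [div_eq_mul_inv, ← inv_pow]
      ring
    rw [this, hnk']
    ring
  rw [l1, l2]
  have l3 : 2 * e * ((64 * K + 512 * K ^ 3) / ((n : ℝ) ^ 2 * L)) =
      2 * e * (64 * K * ((n : ℝ) ^ 2)⁻¹ * L⁻¹) + 2 * e * (512 * K ^ 3 * ((n : ℝ) ^ 2)⁻¹ * L⁻¹) := by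
    rw [div_eq_mul_inv, mul_inv]
    ring
  rw [l3]
  have : 2 * e * (512 * K ^ 3 * ((n : ℝ) ^ 2)⁻¹ * L⁻¹ ^ 2) ≤
      2 * e * (512 * K ^ 3 * ((n : ℝ) ^ 2)⁻¹ * L⁻¹) := by
    apply mul_le_mul_of_nonneg_left _ (by positivity)
    apply mul_le_mul_of_nonneg_left hL2 (by positivity)
  linarith

/-- For each `i < n`: `F T - F T' = (ε n)^{-k} (S₁ + S₂)` with `S₁` the sum over the tuples avoiding `i`
and `S₂` the sum over those containing `i` (at most `k n^(k-1)` tuples).
`S₁² ≤ n^k Σ_{I ∌ i} (f_I T - f_I T')²`: use `energy_fT`.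
`S₂² ≤ k n^(k-1) Σ_{I ∋ i} (2 f_I(T)² + 2 f_I(T')²)`: use `avg_fT_sq` (and `sum_reins_symm` for the
term with `T'`). Sum over `i`: `Σ_i #{I ∋ i} ≤ k n^k`, so
`Dir F ≤ 2 ε^{-2k} (E₂ + 4 k² E₁ / n²)` with `E₂ = 64 k / (n² L)`, `E₁ = 128 k / L²`. -/
theorem dir_FT {k n m : ℕ} {ε : ℝ} (hε : 0 < ε) (hk : 3 ≤ k) (hkn : k + 1 ≤ n) (hm : 1 ≤ m)
    (hL : 1 ≤ Real.log ((n : ℝ) / (2 * m))) {A A' : Finset (Fin k)} (hA : A.Nonempty)
    (hA' : A'.Nonempty) (hAA : A ≠ A') :
    Dir n (FT n m k ε A A') ≤ 2 * (ε ^ (2 * k))⁻¹ *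
      ((64 * k + 512 * k ^ 3) / ((n : ℝ) ^ 2 * Real.log ((n : ℝ) / (2 * m)))) := by
  have hnR : (0 : ℝ) < n := by
    have : 0 < n := by omega
    exact_mod_cast this
  rw [polD_dir, div_le_iff₀ hnR]
  have h := Finset.sum_le_card_nsmul (Finset.range n) _ _ (fun i hi =>
    polD_one hε hk hkn hm hL hA hA' hAA (Finset.mem_range.1 hi))
  rw [nsmul_eq_mul, Finset.card_range] at h
  linarith

end Pool.Agent.ALD
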