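import Pool.Agent.ALD.PolA
import Pool.Agent.ALD.PolD
import Pool.Agent.ALD.CapT

/-! Module POLT: hitting probability of the event ManyTup -/

noncomputable section

namespace Pool.Agent.ALD

open BT

/-- `hitP_le` with `F = FT` and the two bounds (`L ≥ 1`) -/
theorem hitP_manyTup {k n m : ℕ} {ε : ℝ} (hε : 0 < ε) (hk : 3 ≤ k) (hkn : k + 1 ≤ n) (hm : 1 ≤ m)
    (hL : 1 ≤ Real.log ((n : ℝ) / (2 * m))) {A A' : Finset (Fin k)} (hA : A.Nonempty)
    (hA' : A'.Nonempty) (hAA : A ≠ A') {C Tm : ℝ} (hC : 0 ≤ C) (hTm : 0 ≤ Tm) :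
    HB C Tm (Real.exp Tm * (ε ^ (2 * k))⁻¹ * (1 + C) * (1000 * k ^ 3) /
      Real.log ((n : ℝ) / (2 * m))) n (ManyTup n m k ε A A') := by
  intro a m' t ha haC ht htT
  have hn : 0 < n := by omega
  have hn' : (0 : ℝ) < n := by exact_mod_cast hn
  have hm' : (0 : ℝ) < m := by exact_mod_cast hm
  have hk' : (3 : ℝ) ≤ k := by exact_mod_cast hk
  set L := Real.log ((n : ℝ) / (2 * m)) with hLdef
  have hL0 : 0 < L := by linarith
  have hmn : 2 * m < n := by
    have h1 : 0 ≤ (n : ℝ) / (2 * m) := by positivity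
    have h2 : 1 < (n : ℝ) / (2 * m) := (Real.log_pos_iff h1).1 hL0
    rw [lt_div_iff₀ (by positivity)] at h2
    have h3 : ((2 * m : ℕ) : ℝ) < (n : ℝ) := by
      push_cast
      linarith
    exact_mod_cast h3
  have h1 := hitP_le (n := n) (by omega) hTm ha ht htT
    (B := ManyTup n m k ε A A') (F := FT n m k ε A A')
    (fun T _ hT => one_le_FT hε (by omega) hm hmn hT)
  refine h1.trans ?_
  have h2 := avg_FT_sq (n := n) (m := m) hε hk (by omega) hm hL hA hA' hAA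
  have h3 := dir_FT (n := n) (m := m) hε hk hkn hm hL hA hA' hAA
  rw [← hLdef] at h2 h3
  have hE : 0 < Real.exp Tm := Real.exp_pos Tm
  have hei : 0 < (ε ^ (2 * k))⁻¹ := by positivity
  have hk3 : (k : ℝ) ≤ (k : ℝ) ^ 3 := by
    have : (1 : ℝ) ≤ (k : ℝ) ^ 2 := by nlinarith
    nlinarith
  have h4 : a / 2 * Dir n (FT n m k ε A A') ≤
      (C * (n : ℝ) ^ 2) / 2 * (2 * (ε ^ (2 * k))⁻¹ *
        ((64 * k + 512 * k ^ 3) / ((n : ℝ) ^ 2 * L))) := by
    apply mul_le_mul (by linarith) h3 (dir_nonneg _) (by positivity)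
  have h5 : (C * (n : ℝ) ^ 2) / 2 * (2 * (ε ^ (2 * k))⁻¹ *
        ((64 * k + 512 * k ^ 3) / ((n : ℝ) ^ 2 * L))) =
      (ε ^ (2 * k))⁻¹ * (C * (64 * k + 512 * k ^ 3) / L) := by
    field_simp
  have h6 : (128 * k / L ^ 2 : ℝ) ≤ 128 * k / L := by
    apply div_le_div_of_nonneg_left (by positivity) hL0
    nlinarith
  have h7 : avg n (fun T => FT n m k ε A A' T ^ 2) + a / 2 * Dir n (FT n m k ε A A') ≤
      (ε ^ (2 * k))⁻¹ * ((1 + C) * (1000 * k ^ 3) / L) := by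
    calc avg n (fun T => FT n m k ε A A' T ^ 2) + a / 2 * Dir n (FT n m k ε A A')
        ≤ (ε ^ (2 * k))⁻¹ * (128 * k / L) + (ε ^ (2 * k))⁻¹ * (C * (64 * k + 512 * k ^ 3) / L) := by
          rw [← h5]
          exact add_le_add (h2.trans (mul_le_mul_of_nonneg_left h6 hei.le)) h4
      _ = (ε ^ (2 * k))⁻¹ * ((128 * k + C * (64 * k + 512 * k ^ 3)) / L) := by ring
      _ ≤ (ε ^ (2 * k))⁻¹ * ((1 + C) * (1000 * k ^ 3) / L) := by
          apply mul_le_mul_of_nonneg_left _ hei.le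
          apply div_le_div_of_nonneg_right _ hL0.le
          have h8 : C * (64 * k + 512 * (k : ℝ) ^ 3) ≤ C * (1000 * k ^ 3) :=
            mul_le_mul_of_nonneg_left (by nlinarith) hC
          nlinarith
  calc Real.exp Tm * (avg n (fun T => FT n m k ε A A' T ^ 2) + a / 2 * Dir n (FT n m k ε A A'))
      ≤ Real.exp Tm * ((ε ^ (2 * k))⁻¹ * ((1 + C) * (1000 * k ^ 3) / L)) :=
        mul_le_mul_of_nonneg_left h7 hE.le
    _ = Real.exp Tm * (ε ^ (2 * k))⁻¹ * (1 + C) * (1000 * k ^ 3) / L := by ring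

end Pool.Agent.ALD
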