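import Pool.Agent.ALD.PolS
import Pool.Agent.ALD.PolT
import Pool.Agent.ALD.HitB

/-! Module EVPOL: with high probability no two internal segments are light at any time -/

noncomputable section

namespace Pool.Agent.ALD

open BT

/-- Take `m = ⌈η n⌉`; by `polar_of_not_manyTup` the event is contained in the union over `3 ≤ k ≤ 8` and
the finitely many `A, A'` of the events `ManyTup`, each bounded by `hitP_manyTup` with
`log (n / (2m)) ≥ log (1 / (4η))` for `n ≥ n₀ = ⌈1/η⌉` (and `n ≥ 9`). Choose `η` small. -/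
theorem hb_polar (C Tm ε κ : ℝ) (hC : 0 ≤ C) (hTm : 0 ≤ Tm) (hε : 0 < ε) (hκ : 0 < κ) :
    ∃ η : ℝ, 0 < η ∧ ∃ n₀ : ℕ, ∀ n ≥ n₀, HB C Tm κ n (fun T => ¬ Polar n ε η T) := by
  classical
  obtain ⟨s, hs⟩ : ∃ s : Finset (Σ k : ℕ, Finset (Fin k) × Finset (Fin k)), ∀ i, i ∈ s ↔
      (3 ≤ i.1 ∧ i.1 ≤ 8) ∧ i.2.1.Nonempty ∧ i.2.2.Nonempty ∧ i.2.1 ≠ i.2.2 := by
    refine ⟨((Finset.Icc 3 8).sigma
      (fun k => (Finset.univ : Finset (Finset (Fin k) × Finset (Fin k))))).filter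
      (fun i => i.2.1.Nonempty ∧ i.2.2.Nonempty ∧ i.2.1 ≠ i.2.2), fun i => ?_⟩
    rw [Finset.mem_filter, Finset.mem_sigma, Finset.mem_Icc]
    simp only [Finset.mem_univ, and_true]
  obtain ⟨Kc, hKc⟩ : ∃ Kc : (Σ k : ℕ, Finset (Fin k) × Finset (Fin k)) → ℝ, ∀ i, Kc i =
      Real.exp Tm * (ε ^ (2 * i.1))⁻¹ * (1 + C) * (1000 * (i.1 : ℝ) ^ 3) := ⟨_, fun _ => rfl⟩
  have hK0 : 0 ≤ ∑ i ∈ s, Kc i := by
    refine Finset.sum_nonneg (fun i _ => ?_)
    rw [hKc]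
    have := Real.exp_nonneg Tm
    positivity
  set K : ℝ := ∑ i ∈ s, Kc i with hK
  set B : ℝ := max 1 (K / κ) with hB
  have hB1 : 1 ≤ B := le_max_left _ _
  have hBK : K / κ ≤ B := le_max_right _ _
  set η : ℝ := Real.exp (-B) / 4 with hη
  have hη0 : 0 < η := div_pos (Real.exp_pos _) (by norm_num)
  refine ⟨η, hη0, max 9 ⌈1 / η⌉₊, fun n hn => ?_⟩
  have hn9 : 9 ≤ n := (le_max_left _ _).trans hn
  have hn2 : 2 ≤ n := by omega
  have hnη : 1 / η ≤ n := (Nat.le_ceil _).trans (by exact_mod_cast (le_max_right _ _).trans hn)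
  have hnR : (0 : ℝ) < n := by exact_mod_cast (by omega : 0 < n)
  have hη1 : 1 ≤ η * n := by
    rw [div_le_iff₀ hη0] at hnη
    linarith
  set m : ℕ := ⌈η * n⌉₊ with hm
  have hηm : η * n ≤ m := Nat.le_ceil _
  have hm1 : 1 ≤ m := Nat.one_le_iff_ne_zero.2 (by
    have h1 : 0 < m := Nat.ceil_pos.2 (by linarith)
    omega)
  have hm2 : (m : ℝ) ≤ 2 * (η * n) := by
    have h1 := Nat.ceil_lt_add_one (a := η * n) (by linarith)
    rw [← hm] at h1
    linarith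
  have hmR : (0 : ℝ) < m := by exact_mod_cast hm1
  have hL : B ≤ Real.log ((n : ℝ) / (2 * m)) := by
    rw [Real.le_log_iff_exp_le (by positivity), le_div_iff₀ (by positivity)]
    have h1 : Real.exp B * (4 * η) = 1 := by
      rw [hη, mul_div_cancel₀ _ (by norm_num : (4 : ℝ) ≠ 0), ← Real.exp_add]
      simp
    calc Real.exp B * (2 * m) ≤ Real.exp B * (2 * (2 * (η * n))) := by
          apply mul_le_mul_of_nonneg_left _ (Real.exp_nonneg _)
          linarith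
      _ = (Real.exp B * (4 * η)) * n := by ring
      _ = n := by rw [h1, one_mul]
  set L : ℝ := Real.log ((n : ℝ) / (2 * m)) with hLdef
  have hL1 : 1 ≤ L := hB1.trans hL
  have hL0 : 0 < L := by linarith
  have hall : HB C Tm (∑ i ∈ s, Kc i / L) n (fun T => ∃ i ∈ s, ManyTup n m i.1 ε i.2.1 i.2.2 T) := by
    refine HB.biUnion hn2 s (fun i => Kc i / L) (fun i => ManyTup n m i.1 ε i.2.1 i.2.2) ?_
    intro i hi
    obtain ⟨h5, h2, h3, h4⟩ := (hs i).1 hi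
    rw [hKc]
    exact hitP_manyTup hε h5.1 (by omega) hm1 hL1 h2 h3 h4 hC hTm
  refine HB.mono hn2 hall ?_ ?_
  · intro T hT hnP
    by_contra hcon
    apply hnP
    refine polar_of_not_manyTup hε hn2 hηm hT ?_
    intro k hk A A' hA hA' hAA hM
    exact hcon ⟨⟨k, A, A'⟩, (hs _).2 ⟨Finset.mem_Icc.1 hk, hA, hA', hAA⟩, hM⟩
  · rw [← Finset.sum_div, ← hK, div_le_iff₀ hL0]
    rw [div_le_iff₀ hκ] at hBK
    have h1 : B * κ ≤ L * κ := mul_le_mul_of_nonneg_right hL hκ.le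
    linarith

end Pool.Agent.ALD
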