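import Pool.Agent.ALD.GM

/-! Module GMS: the functions gM and xi, sums against q -/

noncomputable section

namespace Pool.Agent.ALD

/-- `Σ_{m ≤ N} q m · min(m, M) = Σ_{j < M} Σ_{j < m ≤ N} q m = Σ_{j < M} (U j - U N)` -/
theorem GMS_sum_min {M N : ℕ} (hMN : M ≤ N) :
    ∑ m ∈ Finset.Icc 1 N, q m * ((min m M : ℕ) : ℝ) = 2 * M * U M - M * U N := by
  induction M with
  | zero => simp
  | succ M ih =>
    have h1 : ∀ m ∈ Finset.Icc 1 N, q m * ((min m (M + 1) : ℕ) : ℝ) =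
        q m * ((min m M : ℕ) : ℝ) + (if M + 1 ≤ m then q m else 0) := by
      intro m _
      by_cases h : M + 1 ≤ m
      · rw [if_pos h, min_eq_right h, min_eq_right (by omega)]
        push_cast; ring
      · rw [if_neg h, min_eq_left (by omega), min_eq_left (by omega), add_zero]
    rw [Finset.sum_congr rfl h1, Finset.sum_add_distrib, ih (by omega), ← Finset.sum_filter]
    have h2 : (Finset.Icc 1 N).filter (fun m => M + 1 ≤ m) = Finset.Icc (M + 1) N := by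
      ext m; simp only [Finset.mem_filter, Finset.mem_Icc]; omega
    rw [h2, sum_q_Icc (by omega) (by omega)]
    have h3 := sum_U (M + 1)
    have h4 := sum_U M
    rw [Finset.sum_range_succ, h4] at h3
    rw [Nat.add_sub_cancel]
    push_cast at h3 ⊢
    linarith

/-- `Σ_{m ≤ N} q m · min(m, M) = Σ_{j < M} Σ_{j < m ≤ N} q m = Σ_{j < M} (U j - U N) = 2 M U M - M U N` -/
theorem sum_q_gM {M N : ℕ} (hM : 1 ≤ M) (hMN : M ≤ N) :
    ∑ m ∈ Finset.Icc 1 N, q m * gM M m = 1 - U N / (2 * U M) := by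
  have hMp : (0 : ℝ) < M := by exact_mod_cast hM
  have hU := U_pos M
  have h : ∀ m ∈ Finset.Icc 1 N, q m * gM M m = (q m * ((min m M : ℕ) : ℝ)) / (2 * M * U M) := by
    intro m _
    unfold gM
    ring
  rw [Finset.sum_congr rfl h, ← Finset.sum_div, GMS_sum_min hMN]
  field_simp

/-- `Σ q m · min(m, M) ≤ 2 M U M` -/
theorem sum_q_min_le (M N : ℕ) :
    ∑ m ∈ Finset.Icc 1 N, q m * ((min m M : ℕ) : ℝ) ≤ 2 * M * U M := by
  have h1 : ∑ m ∈ Finset.Icc 1 N, q m * ((min m M : ℕ) : ℝ) ≤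
      ∑ m ∈ Finset.Icc 1 (max M N), q m * ((min m M : ℕ) : ℝ) := by
    apply Finset.sum_le_sum_of_subset_of_nonneg
    · apply Finset.Icc_subset_Icc_right
      exact le_max_right _ _
    · intro m _ _
      exact mul_nonneg (q_nonneg m) (by positivity)
  rw [GMS_sum_min (le_max_left M N)] at h1
  have h2 : 0 ≤ (M : ℝ) * U (max M N) := mul_nonneg (by positivity) (U_pos _).le
  linarith

theorem sum_q_gM_le {M : ℕ} (hM : 1 ≤ M) (N : ℕ) :
    ∑ m ∈ Finset.Icc 1 N, q m * gM M m ≤ 1 := by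
  have hMp : (0 : ℝ) < M := by exact_mod_cast hM
  have hU := U_pos M
  have h : ∀ m ∈ Finset.Icc 1 N, q m * gM M m = (q m * ((min m M : ℕ) : ℝ)) / (2 * M * U M) := by
    intro m _
    unfold gM
    ring
  rw [Finset.sum_congr rfl h, ← Finset.sum_div, div_le_one (GM_den_pos hM)]
  exact sum_q_min_le M N

/-- `gM² ≤ √M · gM`, `(x - y)² ≤ x² + y²` for `x, y ≥ 0`, and `√M + √(2M) ≤ 3 √M` -/
theorem sum_q_xi_sq {M : ℕ} (hM : 1 ≤ M) (N : ℕ) :
    ∑ m ∈ Finset.Icc 1 N, q m * xi M m ^ 2 ≤ 3 * Real.sqrt M := by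
  have hMp : (0 : ℝ) < M := by exact_mod_cast hM
  have hs : 0 < Real.sqrt M := Real.sqrt_pos.mpr hMp
  have h1 : ∀ m ∈ Finset.Icc 1 N, q m * xi M m ^ 2 ≤
      Real.sqrt M * (q m * gM M m) + Real.sqrt ((2 * M : ℕ) : ℝ) * (q m * gM (2 * M) m) := by
    intro m _
    have ha := gM_nonneg M m
    have hb := gM_nonneg (2 * M) m
    have hc := gM_le_sqrt hM m
    have hd := gM_le_sqrt (M := 2 * M) (by omega) m
    have h : xi M m ^ 2 ≤ Real.sqrt M * gM M m + Real.sqrt ((2 * M : ℕ) : ℝ) * gM (2 * M) m := by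
      unfold xi
      nlinarith [mul_nonneg ha hb, mul_nonneg ha (sub_nonneg.mpr hc),
        mul_nonneg hb (sub_nonneg.mpr hd)]
    calc q m * xi M m ^ 2 ≤ q m * (Real.sqrt M * gM M m +
          Real.sqrt ((2 * M : ℕ) : ℝ) * gM (2 * M) m) := mul_le_mul_of_nonneg_left h (q_nonneg m)
      _ = _ := by ring
  refine (Finset.sum_le_sum h1).trans ?_
  rw [Finset.sum_add_distrib, ← Finset.mul_sum, ← Finset.mul_sum]
  have h2 := sum_q_gM_le hM N
  have h3 := sum_q_gM_le (M := 2 * M) (by omega) N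
  have h4 : Real.sqrt ((2 * M : ℕ) : ℝ) ≤ 2 * Real.sqrt M := by
    rw [show (2 : ℝ) * Real.sqrt M = Real.sqrt (4 * M) by
      rw [Real.sqrt_mul (by norm_num), show (4 : ℝ) = 2 ^ 2 by norm_num,
        Real.sqrt_sq (by norm_num)]]
    apply Real.sqrt_le_sqrt
    push_cast
    linarith
  have h5 : Real.sqrt M * ∑ m ∈ Finset.Icc 1 N, q m * gM M m ≤ Real.sqrt M * 1 :=
    mul_le_mul_of_nonneg_left h2 hs.le
  have h6 : Real.sqrt ((2 * M : ℕ) : ℝ) * ∑ m ∈ Finset.Icc 1 N, q m * gM (2 * M) m ≤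
      Real.sqrt ((2 * M : ℕ) : ℝ) * 1 :=
    mul_le_mul_of_nonneg_left h3 (Real.sqrt_nonneg _)
  linarith

end Pool.Agent.ALD
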