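import Pool.Agent.ALD.WS

/-! Module WFM: first moments -/

noncomputable section

namespace Pool.Agent.ALD

theorem wFM_swap (N : ℕ) (F : ℕ → ℕ → ℝ) :
    ∑ m ∈ Finset.Icc 1 N, ∑ k ∈ Finset.Icc 1 (N - m), F m k =
      ∑ k ∈ Finset.Icc 1 N, ∑ m ∈ Finset.Icc 1 (N - k), F m k := by
  refine Finset.sum_comm' ?_
  intro x y
  simp only [Finset.mem_Icc]
  omega

/-- Strong induction: with `Q N = Σ_{m ≤ N} q m φ m`, `wsum_eq` gives
`Σ_{m ≤ N} q m (φ m U (N - m) + Q (N - m))`, and
`Σ_m q m Σ_{m' ≤ N - m} q m' φ m' = Σ_{m'} q m' φ m' (1 - U (N - m'))` by `sum_q`. -/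
theorem wsum_sum (N : ℕ) (φ : ℕ → ℝ) :
    wsum N (fun l => (l.map φ).sum) = ∑ m ∈ Finset.Icc 1 N, q m * φ m := by
  induction N using Nat.strong_induction_on with
  | _ N ih =>
    rcases Nat.eq_zero_or_pos N with rfl | hN
    · rw [wsum_zero]
      simp
    · rw [wsum_eq hN]
      have h1 : ∀ m ∈ Finset.Icc 1 N, q m * wsum (N - m) (fun l => ((m :: l).map φ).sum) =
          q m * φ m * U (N - m) + ∑ k ∈ Finset.Icc 1 (N - m), q m * (q k * φ k) := by
        intro m hm
        obtain ⟨hm1, hm2⟩ := Finset.mem_Icc.mp hm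
        have h2 : (fun l : List ℕ => ((m :: l).map φ).sum) = fun l => φ m + (l.map φ).sum := by
          funext l
          simp
        rw [h2, wsum_add, wsum_const, ih (N - m) (by omega), mul_add, Finset.mul_sum]
        ring
      rw [Finset.sum_congr rfl h1, Finset.sum_add_distrib, wFM_swap, ← Finset.sum_add_distrib]
      refine Finset.sum_congr rfl fun m hm => ?_
      rw [← Finset.sum_mul, sum_q]
      ring

/-- Markov's inequality -/
theorem wsum_markov {N : ℕ} {φ : ℕ → ℝ} (hφ : ∀ m, 0 ≤ φ m) {θ : ℝ} (hθ : 0 < θ) :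
    wsum N (ind (fun l : List ℕ => θ ≤ (l.map φ).sum)) ≤
      (∑ m ∈ Finset.Icc 1 N, q m * φ m) / θ := by
  have h1 : wsum N (ind (fun l : List ℕ => θ ≤ (l.map φ).sum)) ≤
      wsum N (fun l => 1 / θ * (l.map φ).sum) := by
    refine wsum_mono fun l _ _ => ?_
    have h0 : 0 ≤ (l.map φ).sum := by
      refine List.sum_nonneg fun x hx => ?_
      obtain ⟨m, _, rfl⟩ := List.mem_map.mp hx
      exact hφ m
    unfold ind
    split_ifs with h
    · rw [one_div_mul_eq_div, le_div_iff₀ hθ]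
      linarith
    · positivity
  refine h1.trans (le_of_eq ?_)
  rw [wsum_mul_left, wsum_sum]
  ring

end Pool.Agent.ALD
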