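import Pool.Agent.ALD.GP
import Pool.Agent.ALD.WFM
import Pool.Agent.ALD.GMS
import Pool.Agent.ALD.HitB

/-! Module EVSM: small hanging subtrees carry little mass, at all times -/

noncomputable section

namespace Pool.Agent.ALD

open BT

/-- the test function: tent of height `M` -/
def evSM_phi (M m : ℕ) : ℝ := max 0 (min (m : ℝ) (2 * M - m))

theorem evSM_nonneg (M m : ℕ) : 0 ≤ evSM_phi M m := le_max_left _ _

theorem evSM_zero (M : ℕ) : evSM_phi M 0 = 0 := by
  unfold evSM_phi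
  have : (0:ℝ) ≤ 2 * M := by positivity
  simp

theorem evSM_lip (M m : ℕ) : |evSM_phi M (m + 1) - evSM_phi M m| ≤ 1 := by
  unfold evSM_phi
  have h1 := abs_max_sub_max_le_max (0:ℝ) (min ((m + 1 : ℕ) : ℝ) (2 * M - ((m + 1 : ℕ) : ℝ))) 0
    (min (m : ℝ) (2 * M - m))
  have h2 := abs_min_sub_min_le_max ((m + 1 : ℕ) : ℝ) (2 * M - ((m + 1 : ℕ) : ℝ)) (m : ℝ) (2 * M - m)
  refine h1.trans (max_le (by norm_num) (h2.trans (max_le ?_ ?_)))
  · push_cast
    rw [show (m:ℝ) + 1 - m = 1 by ring, abs_one]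
  · push_cast
    rw [show 2 * (M:ℝ) - (m + 1) - (2 * M - m) = -1 by ring, abs_neg, abs_one]

theorem evSM_eq {M m : ℕ} (h : m ≤ M) : evSM_phi M m = m := by
  unfold evSM_phi
  have h' : (m:ℝ) ≤ M := by exact_mod_cast h
  rw [min_eq_left (by linarith), max_eq_right (by positivity)]

theorem evSM_le (M m : ℕ) : evSM_phi M m ≤ ((min m M : ℕ) : ℝ) := by
  unfold evSM_phi
  push_cast
  refine max_le (by positivity) (le_min (min_le_left _ _) ?_)
  rcases le_total (m:ℝ) M with h | h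
  · exact (min_le_left _ _).trans h
  · exact (min_le_right _ _).trans (by linarith)

theorem evSM_filter (M : ℕ) (x : ℝ) (hx : x ≤ M) (p : List ℕ) :
    (((p.filter (fun m : ℕ => decide ((m : ℝ) ≤ x))).sum : ℕ) : ℝ) ≤ (p.map (evSM_phi M)).sum := by
  induction p with
  | nil => simp
  | cons m p ih =>
    rw [List.map_cons, List.sum_cons]
    by_cases h : (m:ℝ) ≤ x
    · have hm : m ≤ M := by
        have : (m:ℝ) ≤ M := h.trans hx
        exact_mod_cast this
      rw [List.filter_cons_of_pos (by simpa using h), List.sum_cons]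
      push_cast
      rw [evSM_eq hm]
      push_cast at ih
      linarith
    · rw [List.filter_cons_of_neg (by simpa using h)]
      have := evSM_nonneg M m
      linarith

theorem evSM_sum_nonneg (M : ℕ) (p : List ℕ) : 0 ≤ (p.map (evSM_phi M)).sum := by
  refine List.sum_nonneg fun x hx => ?_
  obtain ⟨m, _, rfl⟩ := List.mem_map.mp hx
  exact evSM_nonneg M m

theorem evSM_wsum (n M : ℕ) (hn : 1 ≤ n) (hM : 1 ≤ M) (h : ℝ) (hh : 0 < h) :
    wsum (n - 1) (ind (fun l : List ℕ => h * n / 2 ≤ (l.map (evSM_phi M)).sum)) / U (n - 1) ≤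
      8 / h * Real.sqrt (M / n) := by
  have hn0 : (0:ℝ) < n := by exact_mod_cast hn
  have hM0 : (0:ℝ) < M := by exact_mod_cast hM
  have h1 := wsum_markov (N := n - 1) (φ := evSM_phi M) (evSM_nonneg M)
    (θ := h * n / 2) (by positivity)
  have h2 : ∑ m ∈ Finset.Icc 1 (n - 1), q m * evSM_phi M m ≤ 2 * M * U M :=
    (Finset.sum_le_sum fun m _ => mul_le_mul_of_nonneg_left (evSM_le M m) (q_nonneg m)).trans
      (sum_q_min_le M (n - 1))
  have h3 : 2 * (M:ℝ) * U M ≤ 2 * Real.sqrt M := by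
    have h4 := U_upper M
    have h5 : 1 / Real.sqrt ((M:ℝ) + 1) ≤ 1 / Real.sqrt M :=
      one_div_le_one_div_of_le (Real.sqrt_pos.mpr hM0) (Real.sqrt_le_sqrt (by linarith))
    calc 2 * (M:ℝ) * U M ≤ 2 * M * (1 / Real.sqrt M) :=
          mul_le_mul_of_nonneg_left (h4.trans h5) (by positivity)
      _ = 2 * Real.sqrt M := by
          rw [mul_assoc, mul_one_div, Real.div_sqrt]
  have h6 : 1 / (2 * Real.sqrt n) ≤ U (n - 1) := (U_lower hn).trans (U_antitone (Nat.sub_le n 1))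
  have hsn : 0 < Real.sqrt n := Real.sqrt_pos.mpr hn0
  have hU := U_pos (n - 1)
  have h7 : wsum (n - 1) (ind (fun l : List ℕ => h * n / 2 ≤ (l.map (evSM_phi M)).sum)) ≤
      2 * Real.sqrt M / (h * n / 2) := by
    refine h1.trans (div_le_div_of_nonneg_right (h2.trans h3) (by positivity))
  rw [div_le_iff₀ hU]
  refine h7.trans ?_
  have h8 : 8 / h * Real.sqrt (M / n) * (1 / (2 * Real.sqrt n)) = 2 * Real.sqrt M / (h * n / 2) := by
    rw [Real.sqrt_div' _ hn0.le]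
    have h9 : (n:ℝ) = Real.sqrt n * Real.sqrt n := (Real.mul_self_sqrt hn0.le).symm
    rw [show 2 * Real.sqrt M / (h * n / 2) = 2 * Real.sqrt M / (h * (Real.sqrt n * Real.sqrt n) / 2) by
      rw [← h9]]
    field_simp
    ring
  rw [← h8]
  exact mul_le_mul_of_nonneg_left h6 (by positivity)

/-- We may assume `ε, θ ≤ 1`. Let `M = ⌈ε' n⌉`, `φ m = m` for `m ≤ M`, `2M - m` for `M ≤ m ≤ 2M`, `0`
beyond (in `ℝ`): `φ 0 = 0`, `φ ≥ 0`, `φ` is 1-Lipschitz and `φ m ≤ min m M`. Apply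
`general_principle` with `a₀ = ⌈ε n⌉`, `r = ⌈min ε θ · n / 8⌉`,
`Bad p k := a₀ ≤ 1 + k ∧ θ n < Σ_p φ`, `Bad' l := θ n / 2 ≤ Σ_l φ` (robustness: `Dec.lip`, changes at
most `2 (r - 1) ≤ θ n / 4`). By `wsum_markov` and `sum_q_min_le`:
`wsum (n-1) (ind Bad') ≤ 2 M U M / (θ n / 2) ≤ 4 √M / (θ n)` and `U (n-1) ≥ 1 / (2 √n)`, so the bound is
`e^{Tm} (1 + 64 C / min(ε, θ)²) · (2 / ε) · 8 √(M / n) / θ`, which is at most `κ` if `M / n ≤ 2 ε'` is
small. `n₀` is used for `⌈ε' n⌉ ≤ 2 ε' n` and `a₀ - (r - 1) ≥ ε n / 2`. -/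
theorem hb_sm (C Tm ε θ κ : ℝ) (hC : 0 ≤ C) (hTm : 0 ≤ Tm) (hε : 0 < ε) (hθ : 0 < θ) (hκ : 0 < κ) :
    ∃ ε' : ℝ, 0 < ε' ∧ ∃ n₀ : ℕ, ∀ n ≥ n₀, HB C Tm κ n (fun T => ¬ SmallMass n ε θ ε' T) := by
  set e := min ε 1 with he
  set h := min θ 1 with hh
  have he0 : 0 < e := lt_min hε one_pos
  have hh0 : 0 < h := lt_min hθ one_pos
  set δ := min e h with hδ
  have hδ0 : 0 < δ := lt_min he0 hh0
  set A := Real.exp Tm * (1 + 64 * C / δ ^ 2) * (16 / (e * h)) with hA
  have hA0 : 0 < A := by positivity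
  refine ⟨(κ / A) ^ 2 / 2, by positivity, ?_⟩
  set ε' := (κ / A) ^ 2 / 2 with hε'
  have hε'0 : 0 < ε' := by positivity
  obtain ⟨n₀, hn₀⟩ := exists_nat_ge (1 / ε')
  refine ⟨max 2 n₀, fun n hn => ?_⟩
  have hn2 : 2 ≤ n := le_trans (le_max_left _ _) hn
  have hnn₀ : n₀ ≤ n := le_trans (le_max_right _ _) hn
  have hn0 : (0:ℝ) < n := by
    have : 0 < n := by omega
    exact_mod_cast this
  have hεn : 1 ≤ ε' * n := by
    have h1 : 1 / ε' ≤ n := hn₀.trans (by exact_mod_cast hnn₀)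
    rw [div_le_iff₀ hε'0] at h1
    linarith
  set M := ⌈ε' * n⌉₊ with hM
  have hMle : ε' * n ≤ M := Nat.le_ceil _
  have hMlt : (M:ℝ) < ε' * n + 1 := Nat.ceil_lt_add_one (by positivity)
  have hM1 : 1 ≤ M := Nat.one_le_iff_ne_zero.mpr (by
    intro h0
    rw [h0] at hMle
    push_cast at hMle
    linarith)
  set r := ⌈δ * n / 8⌉₊ with hr
  have hr1 : 1 ≤ r := Nat.ceil_pos.mpr (by positivity)
  have hrlt : (r:ℝ) < δ * n / 8 + 1 := Nat.ceil_lt_add_one (by positivity)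
  have hrle : δ * n / 8 ≤ r := Nat.le_ceil _
  set a₀ := ⌈e * n⌉₊ with ha₀
  have ha₀le : e * n ≤ a₀ := Nat.le_ceil _
  have hδe : δ ≤ e := min_le_left _ _
  have hδh : δ ≤ h := min_le_right _ _
  have har : r ≤ a₀ := Nat.ceil_le_ceil (by nlinarith)
  have hrcast : ((r - 1 : ℕ) : ℝ) = (r:ℝ) - 1 := by
    push_cast [Nat.cast_sub hr1]
    ring
  intro a m t ha haC ht ht'
  have hmono := hitP_mono hn2 ha.le ht (fun i => (ht' i).1)
    (B := fun T => ¬ SmallMass n ε θ ε' T)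
    (B' := fun T => ∃ i < n, ∃ p s : List ℕ, T.sp i = p ++ s ∧
      (a₀ ≤ 1 + s.sum ∧ h * n < (p.map (evSM_phi M)).sum)) (by
      intro T _ hT
      unfold SmallMass at hT
      push Not at hT
      obtain ⟨i, hi, p, s, h1, h2, h3⟩ := hT
      refine ⟨i, hi, p, s, h1, ?_, ?_⟩
      · rw [ha₀, Nat.ceil_le, Nat.cast_add, Nat.cast_one]
        refine le_trans ?_ h2
        exact mul_le_mul_of_nonneg_right (min_le_left _ _) hn0.le
      · refine lt_of_le_of_lt ?_ (lt_of_lt_of_le h3 (evSM_filter M (ε' * n) hMle p))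
        exact mul_le_mul_of_nonneg_right (min_le_left _ _) hn0.le)
  refine hmono.trans ?_
  have hgp := general_principle hTm hn2 hr1 har
    (fun p k => a₀ ≤ 1 + k ∧ h * n < (p.map (evSM_phi M)).sum)
    (fun l => h * n / 2 ≤ (l.map (evSM_phi M)).sum)
    (fun p k hpk => hpk.1) (by
      intro p s l R j₁ j₂ hbad hd1 hd2 hj1 hj2
      have e1 := hd1.lip (evSM_zero M) (evSM_lip M)
      have e2 := hd2.lip (evSM_zero M) (evSM_lip M)
      rw [List.map_append, List.sum_append] at e1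
      have e3 := evSM_sum_nonneg M s
      have e4 := hbad.2
      have e5 : (j₁:ℝ) ≤ δ * n / 8 := by
        have : (j₁:ℝ) ≤ ((r - 1 : ℕ) : ℝ) := by exact_mod_cast hj1
        rw [hrcast] at this
        linarith
      have e6 : (j₂:ℝ) ≤ δ * n / 8 := by
        have : (j₂:ℝ) ≤ ((r - 1 : ℕ) : ℝ) := by exact_mod_cast hj2
        rw [hrcast] at this
        linarith
      have e7 := (abs_le.mp e1).2
      have e8 := (abs_le.mp e2).1
      have e9 : δ * n ≤ h * n := mul_le_mul_of_nonneg_right hδh hn0.le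
      have e10 : 0 < h * n := by positivity
      show h * n / 2 ≤ (l.map (evSM_phi M)).sum
      linarith) ha ht ht'
  refine hgp.trans ?_
  have b1 : 1 + a / (r:ℝ) ^ 2 ≤ 1 + 64 * C / δ ^ 2 := by
    have hr0 : 0 < δ * n / 8 := by positivity
    have : a / (r:ℝ) ^ 2 ≤ C * n ^ 2 / (δ * n / 8) ^ 2 := by
      apply div_le_div₀ (by positivity) haC (by positivity)
      exact pow_le_pow_left₀ hr0.le hrle 2
    have e : C * (n:ℝ) ^ 2 / (δ * n / 8) ^ 2 = 64 * C / δ ^ 2 := by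
      field_simp
      ring
    rw [e] at this
    linarith
  have b2 : (n:ℝ) / ((a₀:ℝ) - (r - 1)) ≤ 2 / e := by
    have e1 : e * n / 2 ≤ (a₀:ℝ) - (r - 1) := by
      have : δ * n ≤ e * n := mul_le_mul_of_nonneg_right hδe hn0.le
      have : 0 < e * n := by positivity
      linarith
    have e2 : 0 < e * n / 2 := by positivity
    rw [div_le_div_iff₀ (by linarith) he0]
    nlinarith
  have b3 := evSM_wsum n M (by omega) hM1 h hh0
  have b4 : Real.sqrt (M / n) ≤ κ / A := by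
    rw [show κ / A = Real.sqrt ((κ / A) ^ 2) by rw [Real.sqrt_sq (by positivity)]]
    apply Real.sqrt_le_sqrt
    rw [div_le_iff₀ hn0]
    have : (κ / A) ^ 2 = 2 * ε' := by rw [hε']; ring
    rw [this]
    linarith
  have hw0 : 0 ≤ wsum (n - 1) (ind (fun l : List ℕ => h * n / 2 ≤ (l.map (evSM_phi M)).sum)) /
      U (n - 1) := by
    refine div_nonneg (wsum_nonneg fun l _ _ => ?_) (U_pos _).le
    unfold ind
    split_ifs <;> norm_num
  have b5 : (n:ℝ) / ((a₀:ℝ) - (r - 1)) *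
      (wsum (n - 1) (ind (fun l : List ℕ => h * n / 2 ≤ (l.map (evSM_phi M)).sum)) / U (n - 1)) ≤
      2 / e * (8 / h * (κ / A)) := by
    refine mul_le_mul b2 (b3.trans (mul_le_mul_of_nonneg_left b4 (by positivity))) hw0 (by positivity)
  have b6 : 0 ≤ (n:ℝ) / ((a₀:ℝ) - (r - 1)) *
      (wsum (n - 1) (ind (fun l : List ℕ => h * n / 2 ≤ (l.map (evSM_phi M)).sum)) / U (n - 1)) := by
    refine mul_nonneg (div_nonneg hn0.le ?_) hw0
    have : δ * n ≤ e * n := mul_le_mul_of_nonneg_right hδe hn0.le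
    have : 0 < e * n := by positivity
    linarith
  calc Real.exp Tm * (1 + a / (r:ℝ) ^ 2) * ((n:ℝ) / ((a₀:ℝ) - (r - 1)) *
      (wsum (n - 1) (ind (fun l : List ℕ => h * n / 2 ≤ (l.map (evSM_phi M)).sum)) / U (n - 1)))
      ≤ Real.exp Tm * (1 + 64 * C / δ ^ 2) * (2 / e * (8 / h * (κ / A))) := by
        refine mul_le_mul (mul_le_mul_of_nonneg_left b1 (Real.exp_pos _).le) b5 b6 (by positivity)
    _ = A * (κ / A) := by
        rw [hA]
        field_simp
        ring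
    _ = κ := by field_simp

end Pool.Agent.ALD
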