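import Pool.Agent.ALD.DetS
import Pool.Agent.ALD.HitB
import Pool.Agent.ALD.EvPol
import Pool.Agent.ALD.EvSM

/-! Module DETB: iteration -/

noncomputable section

namespace Pool.Agent.ALD

open BT

private theorem detB_filter (c d : ℝ) (h : c ≤ d) (p : List ℕ) :
    (p.filter (fun m : ℕ => decide ((m : ℝ) ≤ c))).sum ≤
      (p.filter (fun m : ℕ => decide ((m : ℝ) ≤ d))).sum := by
  induction p with
  | nil => simp
  | cons a p ih =>
    by_cases h1 : (a : ℝ) ≤ c
    · have h2 : (a : ℝ) ≤ d := h1.trans h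
      simp only [List.filter_cons, h1, h2, decide_true, if_true, List.sum_cons]
      omega
    · by_cases h2 : (a : ℝ) ≤ d
      · simp only [List.filter_cons, h1, h2, decide_true, decide_false, if_true, List.sum_cons]
        simp only [Bool.false_eq_true, if_false]
        omega
      · simp only [List.filter_cons, h1, h2, decide_false, Bool.false_eq_true, if_false]
        exact ih

private theorem detB_small {n : ℕ} {ε θ ε' ε'' : ℝ} {T : BT} (h : SmallMass n ε θ ε' T)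
    (h' : ε'' ≤ ε') : SmallMass n ε θ ε'' T := by
  intro i hi p s hps hs
  have h1 := h i hi p s hps hs
  have h2 : ε'' * (n : ℝ) ≤ ε' * n := mul_le_mul_of_nonneg_right h' (Nat.cast_nonneg n)
  have h3 := detB_filter (ε'' * n) (ε' * n) h2 p
  have h4 : ((p.filter (fun m : ℕ => decide ((m : ℝ) ≤ ε'' * n))).sum : ℝ) ≤
      ((p.filter (fun m : ℕ => decide ((m : ℝ) ≤ ε' * n))).sum : ℝ) := by exact_mod_cast h3
  exact h4.trans h1

private theorem detB_bp {n : ℕ} {ε ε' : ℝ} {T : BT} {a : List Bool} (h : IsBP n ε T a)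
    (h' : ε' ≤ ε) : IsBP n ε' T a := by
  have h2 : ε' * (n : ℝ) ≤ ε * n := mul_le_mul_of_nonneg_right h' (Nat.cast_nonneg n)
  exact ⟨h2.trans h.1, h2.trans h.2⟩

/-- Iteration: induction on `N`. For `N = 0` take `B` empty. For the step use the bound `κ / 3` for `N`,
`hb_polar` with `ε_N` and `κ / 3`, `hb_sm` with `ε_N`, `θ = η / 4` and `κ / 3`, and
`ε_{N+1} = min ε_N ε'` (`SmallMass` is monotone in `ε'`, `IsBP` in `ε`); `HB.or`. -/
theorem iterate (C Tm : ℝ) (hC : 0 ≤ C) (hTm : 0 ≤ Tm) (N : ℕ) : ∀ ε κ : ℝ, 0 < ε → 0 < κ →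
    ∃ ε' : ℝ, 0 < ε' ∧ ε' ≤ ε ∧ ∃ n₀ : ℕ, ∀ n ≥ n₀, ∃ B : BT → Prop, HB C Tm κ n B ∧
      ∀ T ∈ trees n, ¬ B T → ∀ (p w p' w' : List Bool) (b b' : Bool),
        p ++ b :: w ≠ p' ++ b' :: w' → IsBP n ε T p → IsBP n ε T p' →
        IsBP n ε T (p ++ b :: w) → IsBP n ε T (p' ++ b' :: w') →
        St n ε' N T p w p' w' b b' := by
  induction N with
  | zero =>
    intro ε κ hε hκ
    refine ⟨ε, hε, le_rfl, 2, fun n hn => ⟨fun _ => False, ?_, ?_⟩⟩
    · have h := HB.biUnion (C := C) (Tm := Tm) hn (∅ : Finset ℕ) (fun _ => 0)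
        (fun _ _ => False) (by simp)
      refine HB.mono hn h (fun T _ hF => hF.elim) ?_
      simpa using hκ.le
    · intro T _ _ p w p' w' b b' _ _ _ _ _
      exact ⟨∅, ∅, by simp, by simp, by simp⟩
  | succ N ih =>
    intro ε κ hε hκ
    obtain ⟨εN, hεN, hεNε, n0, h0⟩ := ih ε (κ / 3) hε (by positivity)
    obtain ⟨η, hη, n1, h1⟩ := hb_polar C Tm εN (κ / 3) hC hTm hεN (by positivity)
    obtain ⟨ε', hε', n2, h2⟩ := hb_sm C Tm εN (η / 4) (κ / 3) hC hTm hεN (by positivity)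
      (by positivity)
    refine ⟨min εN ε', lt_min hεN hε', (min_le_left _ _).trans hεNε, max 2 (max n0 (max n1 n2)),
      fun n hn => ?_⟩
    have hn2 : 2 ≤ n := le_trans (le_max_left _ _) hn
    have hn' := le_trans (le_max_right _ _) hn
    have hn0 : n0 ≤ n := le_trans (le_max_left _ _) hn'
    have hn'' := le_trans (le_max_right _ _) hn'
    have hn1 : n1 ≤ n := le_trans (le_max_left _ _) hn''
    have hn3 : n2 ≤ n := le_trans (le_max_right _ _) hn''
    obtain ⟨B, hB, hB'⟩ := h0 n hn0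
    have hor := HB.or hn2 (HB.or hn2 hB (h1 n hn1)) (h2 n hn3)
    refine ⟨_, HB.mono hn2 hor (fun T _ hT => hT) (by linarith), ?_⟩
    intro T hT hBT p w p' w' b b' hne hp hp' hq hq'
    push Not at hBT
    obtain ⟨⟨hb1, hb2⟩, hb3⟩ := hBT
    exact st_step hn2 hεN hη (min_le_left _ _) hT hb2 (detB_small hb3 (min_le_right _ _)) hne
      (detB_bp hp hεNε) (detB_bp hp' hεNε) (detB_bp hq hεNε) (detB_bp hq' hεNε)
      (hB' T hT hb1 p w p' w' b b' hne hp hp' hq hq')

end Pool.Agent.ALD
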