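import Pool.Agent.ALD.GMS

/-! Module EXPM: the exponential inequality -/

noncomputable section

namespace Pool.Agent.ALD

/-- the exponent -/
def lam (n M : ℕ) : ℝ := (1 / 16) * ((n : ℝ) * M) ^ (-(1 / 4) : ℝ)

theorem expM_lam_nonneg (n M : ℕ) : 0 ≤ lam n M := by
  unfold lam
  positivity

/-- `lam n M = (1/16) / √(√(n M))` -/
theorem expM_lam_eq (n M : ℕ) : lam n M = (1 / 16) / Real.sqrt (Real.sqrt ((n : ℝ) * M)) := by
  unfold lam
  have h0 : (0 : ℝ) ≤ (n : ℝ) * M := by positivity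
  rw [Real.rpow_neg h0, Real.sqrt_eq_rpow, Real.sqrt_eq_rpow, ← Real.rpow_mul h0]
  norm_num
  rw [mul_comm, div_eq_mul_inv]
  ring

/-- `λ √(2M) ≤ √2 / 16 · (M / n)^(1/4) ≤ √2 / 16` -/
theorem lam_mul_sqrt {n M : ℕ} (hM : 1 ≤ M) (hMn : M ≤ n) :
    lam n M * Real.sqrt (2 * M) ≤ Real.sqrt 2 / 16 := by
  have hM' : (1 : ℝ) ≤ M := by exact_mod_cast hM
  have hMn' : (M : ℝ) ≤ n := by exact_mod_cast hMn
  have h1 : (M : ℝ) ≤ Real.sqrt ((n : ℝ) * M) := by
    apply Real.le_sqrt_of_sq_le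
    nlinarith
  have h2 : Real.sqrt M ≤ Real.sqrt (Real.sqrt ((n : ℝ) * M)) := Real.sqrt_le_sqrt h1
  have h3 : 0 < Real.sqrt M := Real.sqrt_pos.mpr (by linarith)
  have h4 : 0 < Real.sqrt (Real.sqrt ((n : ℝ) * M)) := lt_of_lt_of_le h3 h2
  rw [expM_lam_eq, Real.sqrt_mul (by norm_num : (0 : ℝ) ≤ 2)]
  rw [div_mul_eq_mul_div, div_le_iff₀ h4]
  have h5 : 0 ≤ Real.sqrt 2 := Real.sqrt_nonneg 2
  nlinarith [mul_le_mul_of_nonneg_left h2 h5]

/-- `λ² √M = (1/256) / √n` -/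
theorem expM_lam_sq {n M : ℕ} (hM : 1 ≤ M) (hMn : M ≤ n) :
    lam n M ^ 2 * Real.sqrt M = (1 / 256) / Real.sqrt n := by
  have hM' : (1 : ℝ) ≤ M := by exact_mod_cast hM
  have hMn' : (M : ℝ) ≤ n := by exact_mod_cast hMn
  have hn : (0 : ℝ) < n := by linarith
  have h3 : 0 < Real.sqrt M := Real.sqrt_pos.mpr (by linarith)
  have h4 : 0 < Real.sqrt n := Real.sqrt_pos.mpr hn
  rw [expM_lam_eq, div_pow, Real.sq_sqrt (Real.sqrt_nonneg _), Real.sqrt_mul hn.le]
  field_simp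
  norm_num

theorem expM_exp_le {y : ℝ} (hy : |y| ≤ 1) : Real.exp y ≤ 1 + y + y ^ 2 := by
  have h := Real.abs_exp_sub_one_sub_id_le hy
  rw [abs_le] at h
  linarith [h.2]

/-- Write `λ = lam n M`. By `|λ ξ| ≤ 1` (`xi_abs_le`) and `e^y ≤ 1 + y + y²` for `|y| ≤ 1`,
the sum is at most `(1 - U N) + λ |Σ_{m ≤ N} q ξ| + 3 λ² √M`.
* `3 λ² √M = (3 / 256) / √n ≤ U N / 4` as `U N ≥ 1 / (2 √N) ≥ 1 / (2 √n)`.
* If `N ≥ 2M`: `|Σ q ξ| = U N · |1 / (2 U(2M)) - 1 / (2 U M)| ≤ U N · √(2M)` (`sum_q_gM`), and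
  `λ √(2M) ≤ 1/4`.
* If `N < 2M`: `|Σ q ξ| ≤ 1` (both sums are in `[0, 1]`), `λ ≤ (1/16) M^(-1/2)` and
  `U N ≥ U (2M) ≥ 1 / (2 √(2M))`, so `λ ≤ U N / 4`.
Total at most `1 - U N + U N / 4 + U N / 4 ≤ 1`. -/
theorem exp_xi_le {n M N : ℕ} (hM : 1 ≤ M) (hMn : M ≤ n) (hN : 1 ≤ N) (hNn : N ≤ n)
    {σ : ℝ} (hσ : σ = 1 ∨ σ = -1) :
    ∑ m ∈ Finset.Icc 1 N, q m * Real.exp (lam n M * (σ * xi M m)) ≤ 1 := by
  have hM' : (1 : ℝ) ≤ M := by exact_mod_cast hM
  have hMn' : (M : ℝ) ≤ n := by exact_mod_cast hMn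
  have hN' : (1 : ℝ) ≤ N := by exact_mod_cast hN
  have hNn' : (N : ℝ) ≤ n := by exact_mod_cast hNn
  have hlam := expM_lam_nonneg n M
  have hσ2 : σ ^ 2 = 1 := by rcases hσ with h | h <;> rw [h] <;> norm_num
  have hσa : |σ| = 1 := by rcases hσ with h | h <;> rw [h] <;> norm_num
  have hs2 : Real.sqrt 2 ≤ 2 := by
    rw [Real.sqrt_le_left (by norm_num)]; norm_num
  have hls : lam n M * Real.sqrt (2 * M) ≤ 1 / 8 := by
    have := lam_mul_sqrt hM hMn
    linarith
  -- termwise bound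
  have hterm : ∀ m ∈ Finset.Icc 1 N, q m * Real.exp (lam n M * (σ * xi M m)) ≤
      q m + (lam n M * σ) * (q m * xi M m) + lam n M ^ 2 * (q m * xi M m ^ 2) := by
    intro m _
    have h1 : |lam n M * (σ * xi M m)| ≤ 1 := by
      rw [abs_mul, abs_mul, hσa, one_mul, abs_of_nonneg hlam]
      calc lam n M * |xi M m| ≤ lam n M * Real.sqrt (2 * M) :=
            mul_le_mul_of_nonneg_left (xi_abs_le hM m) hlam
        _ ≤ 1 := by linarith
    have h2 := mul_le_mul_of_nonneg_left (expM_exp_le h1) (q_nonneg m)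
    calc q m * Real.exp (lam n M * (σ * xi M m))
        ≤ q m * (1 + lam n M * (σ * xi M m) + (lam n M * (σ * xi M m)) ^ 2) := h2
      _ = q m + (lam n M * σ) * (q m * xi M m) + (lam n M ^ 2 * σ ^ 2) * (q m * xi M m ^ 2) := by
          ring
      _ = _ := by rw [hσ2, mul_one]
  have hsum := Finset.sum_le_sum hterm
  rw [Finset.sum_add_distrib, Finset.sum_add_distrib, ← Finset.mul_sum, ← Finset.mul_sum,
    sum_q] at hsum
  -- the quadratic term
  have hUN := U_lower hN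
  have hUpos := U_pos N
  have hsqN : 0 < Real.sqrt N := Real.sqrt_pos.mpr (by linarith)
  have hsqn : 0 < Real.sqrt n := Real.sqrt_pos.mpr (by linarith)
  have hsqM : 0 < Real.sqrt M := Real.sqrt_pos.mpr (by linarith)
  have hNn2 : Real.sqrt N ≤ Real.sqrt n := Real.sqrt_le_sqrt hNn'
  have hquad : lam n M ^ 2 * ∑ m ∈ Finset.Icc 1 N, q m * xi M m ^ 2 ≤ U N / 4 := by
    have h1 := mul_le_mul_of_nonneg_left (sum_q_xi_sq hM N) (sq_nonneg (lam n M))
    have h2 := expM_lam_sq hM hMn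
    have h3 : 1 / (2 * Real.sqrt n) ≤ 1 / (2 * Real.sqrt N) := by
      apply one_div_le_one_div_of_le (by positivity)
      linarith
    have h4 : (1 / 256 : ℝ) / Real.sqrt n = (1 / 128) * (1 / (2 * Real.sqrt n)) := by
      field_simp
      norm_num
    calc lam n M ^ 2 * ∑ m ∈ Finset.Icc 1 N, q m * xi M m ^ 2
        ≤ lam n M ^ 2 * (3 * Real.sqrt M) := h1
      _ = 3 * (lam n M ^ 2 * Real.sqrt M) := by ring
      _ = 3 * ((1 / 128) * (1 / (2 * Real.sqrt n))) := by rw [h2, h4]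
      _ ≤ 3 * ((1 / 128) * U N) := by
          have := h3.trans hUN
          linarith
      _ ≤ U N / 4 := by linarith
  -- the linear term
  have hsx : ∑ m ∈ Finset.Icc 1 N, q m * xi M m =
      ∑ m ∈ Finset.Icc 1 N, q m * gM M m - ∑ m ∈ Finset.Icc 1 N, q m * gM (2 * M) m := by
    rw [← Finset.sum_sub_distrib]
    apply Finset.sum_congr rfl
    intro m _
    unfold xi
    ring
  have hlin : lam n M * |∑ m ∈ Finset.Icc 1 N, q m * xi M m| ≤ U N / 4 := by
    rcases Nat.lt_or_ge N (2 * M) with hlt | hge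
    · -- both sums in [0, 1]
      have h1 : |∑ m ∈ Finset.Icc 1 N, q m * xi M m| ≤ 1 := by
        have ha := sum_q_gM_le hM N
        have hb := sum_q_gM_le (M := 2 * M) (by omega) N
        have hc : 0 ≤ ∑ m ∈ Finset.Icc 1 N, q m * gM M m :=
          Finset.sum_nonneg (fun m _ => mul_nonneg (q_nonneg m) (gM_nonneg M m))
        have hd : 0 ≤ ∑ m ∈ Finset.Icc 1 N, q m * gM (2 * M) m :=
          Finset.sum_nonneg (fun m _ => mul_nonneg (q_nonneg m) (gM_nonneg (2 * M) m))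
        rw [hsx, abs_le]
        constructor <;> linarith
      have h2 : U (2 * M) ≤ U N := U_antitone hlt.le
      have h3 := U_lower (n := 2 * M) (by omega)
      push_cast at h3
      have h4 : 0 < Real.sqrt (2 * M) := Real.sqrt_pos.mpr (by linarith)
      have h5 : lam n M ≤ (1 / 8) / Real.sqrt (2 * M) := by
        rw [le_div_iff₀ h4]
        exact hls
      have h6 : (1 / 8 : ℝ) / Real.sqrt (2 * M) = (1 / 4) * (1 / (2 * Real.sqrt (2 * M))) := by
        field_simp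
        norm_num
      calc lam n M * |∑ m ∈ Finset.Icc 1 N, q m * xi M m| ≤ lam n M * 1 :=
            mul_le_mul_of_nonneg_left h1 hlam
        _ = lam n M := mul_one _
        _ ≤ (1 / 4) * (1 / (2 * Real.sqrt (2 * M))) := by rw [← h6]; exact h5
        _ ≤ (1 / 4) * U N := by
            have := h3.trans h2
            linarith
        _ = U N / 4 := by ring
    · have ha := sum_q_gM hM (show M ≤ N by omega)
      have hb := sum_q_gM (M := 2 * M) (by omega) hge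
      have hUM := U_lower hM
      have hU2M := U_lower (n := 2 * M) (by omega)
      push_cast at hU2M
      have h4 : 0 < Real.sqrt (2 * M) := Real.sqrt_pos.mpr (by linarith)
      have hle : Real.sqrt M ≤ Real.sqrt (2 * M) := Real.sqrt_le_sqrt (by linarith)
      have hpM := U_pos M
      have hp2M := U_pos (2 * M)
      have h7 : 1 / (2 * U M) ≤ Real.sqrt (2 * M) := by
        rw [div_le_iff₀ (by positivity)]
        rw [div_le_iff₀ (by positivity)] at hUM
        nlinarith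
      have h8 : 1 / (2 * U (2 * M)) ≤ Real.sqrt (2 * M) := by
        rw [div_le_iff₀ (by positivity)]
        rw [div_le_iff₀ (by positivity)] at hU2M
        nlinarith
      have h9 : 0 ≤ 1 / (2 * U M) := by positivity
      have h10 : 0 ≤ 1 / (2 * U (2 * M)) := by positivity
      have h11 : ∑ m ∈ Finset.Icc 1 N, q m * xi M m =
          U N * (1 / (2 * U (2 * M)) - 1 / (2 * U M)) := by
        rw [hsx, ha, hb]
        ring
      have h12 : |∑ m ∈ Finset.Icc 1 N, q m * xi M m| ≤ U N * Real.sqrt (2 * M) := by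
        rw [h11, abs_mul, abs_of_pos hUpos]
        apply mul_le_mul_of_nonneg_left _ hUpos.le
        rw [abs_le]
        constructor <;> linarith
      calc lam n M * |∑ m ∈ Finset.Icc 1 N, q m * xi M m|
          ≤ lam n M * (U N * Real.sqrt (2 * M)) := mul_le_mul_of_nonneg_left h12 hlam
        _ = U N * (lam n M * Real.sqrt (2 * M)) := by ring
        _ ≤ U N * (1 / 8) := mul_le_mul_of_nonneg_left hls hUpos.le
        _ ≤ U N / 4 := by linarith
  have hlin' : lam n M * σ * ∑ m ∈ Finset.Icc 1 N, q m * xi M m ≤ U N / 4 := by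
    calc lam n M * σ * ∑ m ∈ Finset.Icc 1 N, q m * xi M m
        ≤ |lam n M * σ * ∑ m ∈ Finset.Icc 1 N, q m * xi M m| := le_abs_self _
      _ = lam n M * |∑ m ∈ Finset.Icc 1 N, q m * xi M m| := by
          rw [abs_mul, abs_mul, hσa, abs_of_nonneg hlam, mul_one]
      _ ≤ U N / 4 := hlin
  linarith

end Pool.Agent.ALD
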