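import Pool.Agent.ALD.WS

/-! Module WMS: maximal inequality for compositions -/

noncomputable section

namespace Pool.Agent.ALD

theorem wMS_ind_le_one {α : Type*} (p : α → Prop) (x : α) : ind p x ≤ 1 := by
  unfold ind
  split_ifs <;> norm_num

theorem wMS_ind_nonneg {α : Type*} (p : α → Prop) (x : α) : 0 ≤ ind p x := by
  unfold ind
  split_ifs <;> norm_num

theorem wMS_ind_le_ind {α β : Type*} {p : α → Prop} {r : β → Prop} {x : α} {y : β}
    (h : p x → r y) : ind p x ≤ ind r y := by
  unfold ind
  split_ifs with h1 h2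
  · exact le_rfl
  · exact absurd (h h1) h2
  · norm_num
  · exact le_rfl

/-- Strong induction on `N`, for all `s₀`. If `τ ≤ s₀` and `a' ≤ 1 + N`: the indicator is one, its
`wsum` is `U N ≤ U (a' - 1) ≤ U (a' - 1) e^{λ (s₀ - τ)}` (`wsum_const`). Otherwise only splits `m :: p'`
matter: for `N = 0` the value is `0`; for `N ≥ 1` use `wsum_eq`, the induction hypothesis with
`s₀ + f m`, and the hypothesis for `N`. -/
theorem wsum_max {f : ℕ → ℝ} {lm τ : ℝ} (hlm : 0 ≤ lm) {a' : ℕ} (ha' : 1 ≤ a') (N : ℕ)
    (hq : ∀ N', 1 ≤ N' → N' ≤ N → ∑ m ∈ Finset.Icc 1 N', q m * Real.exp (lm * f m) ≤ 1) (s₀ : ℝ) :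
    wsum N (ind (fun l : List ℕ => ∃ p s : List ℕ, l = p ++ s ∧ a' ≤ 1 + s.sum ∧
      τ ≤ s₀ + (p.map f).sum)) ≤ U (a' - 1) * Real.exp (lm * (s₀ - τ)) := by
  induction N using Nat.strong_induction_on generalizing s₀ with
  | _ N IH =>
  by_cases hc : τ ≤ s₀ ∧ a' ≤ 1 + N
  · obtain ⟨h1, h2⟩ := hc
    calc wsum N (ind (fun l : List ℕ => ∃ p s : List ℕ, l = p ++ s ∧ a' ≤ 1 + s.sum ∧
          τ ≤ s₀ + (p.map f).sum)) ≤ wsum N (fun _ => (1 : ℝ)) :=
          wsum_mono (fun l _ _ => wMS_ind_le_one _ _)
      _ = U N := by rw [wsum_const, one_mul]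
      _ ≤ U (a' - 1) := U_antitone (by omega)
      _ = U (a' - 1) * 1 := (mul_one _).symm
      _ ≤ U (a' - 1) * Real.exp (lm * (s₀ - τ)) := by
          apply mul_le_mul_of_nonneg_left _ (U_pos _).le
          exact Real.one_le_exp (mul_nonneg hlm (by linarith))
  · rcases Nat.eq_zero_or_pos N with h0 | hN
    · subst h0
      rw [wsum_zero]
      have h1 : ind (fun l : List ℕ => ∃ p s : List ℕ, l = p ++ s ∧ a' ≤ 1 + s.sum ∧
          τ ≤ s₀ + (p.map f).sum) [] = 0 := by
        unfold ind
        rw [if_neg]
        rintro ⟨p, s, h1, h2, h3⟩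
        have h4 := List.append_eq_nil_iff.mp h1.symm
        obtain ⟨rfl, rfl⟩ := h4
        simp at h2 h3
        exact hc ⟨h3, by omega⟩
      rw [h1]
      exact mul_nonneg (U_pos _).le (Real.exp_pos _).le
    · rw [wsum_eq hN]
      calc ∑ m ∈ Finset.Icc 1 N, q m * wsum (N - m) (fun l =>
              ind (fun l : List ℕ => ∃ p s : List ℕ, l = p ++ s ∧ a' ≤ 1 + s.sum ∧
                τ ≤ s₀ + (p.map f).sum) (m :: l))
          ≤ ∑ m ∈ Finset.Icc 1 N, (U (a' - 1) * Real.exp (lm * (s₀ - τ))) *
              (q m * Real.exp (lm * f m)) := by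
            apply Finset.sum_le_sum
            intro m hm
            rw [Finset.mem_Icc] at hm
            have h1 : wsum (N - m) (fun l =>
              ind (fun l : List ℕ => ∃ p s : List ℕ, l = p ++ s ∧ a' ≤ 1 + s.sum ∧
                τ ≤ s₀ + (p.map f).sum) (m :: l)) ≤
                wsum (N - m) (ind (fun l : List ℕ => ∃ p s : List ℕ, l = p ++ s ∧
                  a' ≤ 1 + s.sum ∧ τ ≤ (s₀ + f m) + (p.map f).sum)) := by
              apply wsum_mono
              intro l hl _
              apply wMS_ind_le_ind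
              rintro ⟨p, s, h1, h2, h3⟩
              cases p with
              | nil =>
                exfalso
                simp only [List.nil_append] at h1
                subst h1
                simp only [List.sum_cons, hl] at h2
                simp only [List.map_nil, List.sum_nil, add_zero] at h3
                exact hc ⟨h3, by omega⟩
              | cons b p =>
                simp only [List.cons_append, List.cons.injEq] at h1
                obtain ⟨rfl, rfl⟩ := h1
                refine ⟨p, s, rfl, h2, ?_⟩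
                simp only [List.map_cons, List.sum_cons] at h3
                linarith
            have h2 := IH (N - m) (by omega) (fun N' h3 h4 => hq N' h3 (by omega)) (s₀ + f m)
            have h3 := h1.trans h2
            calc q m * _ ≤ q m * (U (a' - 1) * Real.exp (lm * (s₀ + f m - τ))) :=
                  mul_le_mul_of_nonneg_left h3 (q_nonneg m)
              _ = (U (a' - 1) * Real.exp (lm * (s₀ - τ))) * (q m * Real.exp (lm * f m)) := by
                  rw [show lm * (s₀ + f m - τ) = lm * (s₀ - τ) + lm * f m by ring, Real.exp_add]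
                  ring
        _ = (U (a' - 1) * Real.exp (lm * (s₀ - τ))) *
              ∑ m ∈ Finset.Icc 1 N, q m * Real.exp (lm * f m) := by rw [Finset.mul_sum]
        _ ≤ (U (a' - 1) * Real.exp (lm * (s₀ - τ))) * 1 :=
            mul_le_mul_of_nonneg_left (hq N hN le_rfl)
              (mul_nonneg (U_pos _).le (Real.exp_pos _).le)
        _ = U (a' - 1) * Real.exp (lm * (s₀ - τ)) := mul_one _

end Pool.Agent.ALD
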