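import Pool.Agent.ALD.GP
import Pool.Agent.ALD.ExpM
import Pool.Agent.ALD.WMS
import Pool.Agent.ALD.HitB

/-! Module EVMS: the event at one scale -/

noncomputable section

namespace Pool.Agent.ALD

open BT

/-- the event at scale `M` -/
def MSEvent (n M : ℕ) (T : BT) : Prop :=
  ∃ i < n, ∃ p s : List ℕ, T.sp i = p ++ s ∧ M ≤ 1 + s.sum ∧
    ((M : ℝ) / n) ^ (1 / 8 : ℝ) * Real.sqrt n ≤ |(p.map (xi M)).sum|

private theorem evMS_x {n M : ℕ} (hM : 1 ≤ M) (hMn : M ≤ n) : (1 : ℝ) ≤ (n : ℝ) / M := by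
  have h1 : (0 : ℝ) < M := by exact_mod_cast hM
  rw [le_div_iff₀ h1, one_mul]
  exact_mod_cast hMn

private theorem evMS_tau {n M : ℕ} (hM : 1 ≤ M) (hMn : M ≤ n) :
    Real.sqrt M ≤ ((M : ℝ) / n) ^ (1 / 8 : ℝ) * Real.sqrt n := by
  have h1 : (0 : ℝ) < M := by exact_mod_cast hM
  have h2 : (0 : ℝ) < n := by exact_mod_cast (lt_of_lt_of_le hM hMn)
  have h3 : (M : ℝ) / n ≤ 1 := by
    rw [div_le_one h2]
    exact_mod_cast hMn
  have h4 : (0 : ℝ) < (M : ℝ) / n := by positivity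
  have h5 : ((M : ℝ) / n) ^ (1 / 2 : ℝ) ≤ ((M : ℝ) / n) ^ (1 / 8 : ℝ) :=
    Real.rpow_le_rpow_of_exponent_ge h4 h3 (by norm_num)
  rw [← Real.sqrt_eq_rpow, Real.sqrt_div h1.le] at h5
  have h6 : 0 < Real.sqrt n := Real.sqrt_pos.mpr h2
  calc Real.sqrt M = Real.sqrt M / Real.sqrt n * Real.sqrt n := by field_simp
    _ ≤ _ := mul_le_mul_of_nonneg_right h5 h6.le

private theorem evMS_lam {n M : ℕ} (hM : 1 ≤ M) (hMn : M ≤ n) :
    lam n M * (0 - ((M : ℝ) / n) ^ (1 / 8 : ℝ) * Real.sqrt n / 2) =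
      -((n : ℝ) / M) ^ (1 / 8 : ℝ) / 32 := by
  have h1 : (0 : ℝ) < M := by exact_mod_cast hM
  have h2 : (0 : ℝ) < n := by exact_mod_cast (lt_of_lt_of_le hM hMn)
  set u : ℝ := (n : ℝ) ^ (1 / 8 : ℝ) with hu
  set v : ℝ := (M : ℝ) ^ (1 / 8 : ℝ) with hv
  have hu0 : 0 < u := Real.rpow_pos_of_pos h2 _
  have hv0 : 0 < v := Real.rpow_pos_of_pos h1 _
  have e1 : (n : ℝ) ^ (-(1 / 4) : ℝ) = (u ^ 2)⁻¹ := by
    rw [hu, ← Real.rpow_natCast, ← Real.rpow_mul h2.le, ← Real.rpow_neg h2.le]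
    norm_num
  have e2 : (M : ℝ) ^ (-(1 / 4) : ℝ) = (v ^ 2)⁻¹ := by
    rw [hv, ← Real.rpow_natCast, ← Real.rpow_mul h1.le, ← Real.rpow_neg h1.le]
    norm_num
  have e3 : Real.sqrt n = u ^ 4 := by
    rw [Real.sqrt_eq_rpow, hu, ← Real.rpow_natCast, ← Real.rpow_mul h2.le]
    norm_num
  unfold lam
  rw [Real.mul_rpow h2.le h1.le, Real.div_rpow h1.le h2.le, Real.div_rpow h2.le h1.le, e1, e2,
    e3, ← hu, ← hv]
  field_simp
  ring

private theorem evMS_side (C Tm : ℝ) (hC : 0 ≤ C) (hTm : 0 ≤ Tm) {n M : ℕ} (hn : 2 ≤ n)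
    (hM : 1 ≤ M) (hMn : M ≤ n) {σ : ℝ} (hσ : σ = 1 ∨ σ = -1) :
    HB C Tm (4 * Real.exp Tm * (1 + 16 * C) * ((n : ℝ) / M) ^ 4 *
        Real.exp (-((n : ℝ) / M) ^ (1 / 8 : ℝ) / 32)) n
      (fun T => ∃ i < n, ∃ p s : List ℕ, T.sp i = p ++ s ∧ (M ≤ 1 + s.sum ∧
        ((M : ℝ) / n) ^ (1 / 8 : ℝ) * Real.sqrt n ≤ σ * (p.map (xi M)).sum)) := by
  intro a m t ha haC ht ht'
  have hM0 : (0 : ℝ) < M := by exact_mod_cast hM
  have hn0 : (0 : ℝ) < n := by exact_mod_cast (by omega : 0 < n)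
  have hx1 := evMS_x hM hMn
  set x : ℝ := (n : ℝ) / M with hx
  set τ : ℝ := ((M : ℝ) / n) ^ (1 / 8 : ℝ) * Real.sqrt n with hτ
  have hτM : Real.sqrt M ≤ τ := evMS_tau hM hMn
  set r : ℕ := (M + 3) / 4 with hr
  have hr1 : 1 ≤ r := by omega
  have hrM : r ≤ M := by omega
  set a' : ℕ := M - (r - 1) with ha'
  have ha'1 : 1 ≤ a' := by omega
  have hsM : 0 < Real.sqrt M := Real.sqrt_pos.mpr hM0
  have hσσ : σ * σ = 1 := by rcases hσ with h | h <;> rw [h] <;> norm_num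
  have hσabs : |σ| = 1 := by rcases hσ with h | h <;> rw [h] <;> norm_num
  have key := general_principle hTm hn hr1 hrM
    (fun (p : List ℕ) (k : ℕ) => M ≤ 1 + k ∧ τ ≤ σ * (p.map (xi M)).sum)
    (fun l : List ℕ => ∃ p s : List ℕ, l = p ++ s ∧ a' ≤ 1 + s.sum ∧
      τ / 2 ≤ 0 + (p.map (fun m => σ * xi M m)).sum) (fun p k h => h.1) ?_ ha ht ht'
  · refine key.trans ?_
    -- the sum over compositions
    have hw : wsum (n - 1) (ind (fun l : List ℕ => ∃ p s : List ℕ, l = p ++ s ∧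
        a' ≤ 1 + s.sum ∧ τ / 2 ≤ 0 + (p.map (fun m => σ * xi M m)).sum)) ≤
        U (a' - 1) * Real.exp (-x ^ (1 / 8 : ℝ) / 32) := by
      have h1 := wsum_max (f := fun m => σ * xi M m) (lm := lam n M) (τ := τ / 2)
        (by unfold lam; positivity) ha'1 (n - 1)
        (fun N' h2 h3 => exp_xi_le hM hMn h2 (by omega) hσ) 0
      rw [evMS_lam hM hMn] at h1
      exact h1
    have hUn : 0 < U (n - 1) := U_pos _
    -- bounds
    have hr4 : (M : ℝ) / 4 ≤ r := by
      have : M ≤ 4 * r := by omega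
      have : (M : ℝ) ≤ 4 * r := by exact_mod_cast this
      linarith
    have hr4' : ((r : ℝ) - 1) ≤ (M : ℝ) / 4 := by
      have : 4 * r ≤ M + 4 := by omega
      have : 4 * (r : ℝ) ≤ M + 4 := by exact_mod_cast this
      linarith
    have b1 : 1 + a / (r : ℝ) ^ 2 ≤ (1 + 16 * C) * x ^ 2 := by
      have h1 : a / (r : ℝ) ^ 2 ≤ C * (n : ℝ) ^ 2 / ((M : ℝ) / 4) ^ 2 := by
        apply div_le_div₀ (by positivity) haC (by positivity)
        exact pow_le_pow_left₀ (by positivity) hr4 2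
      have h2 : C * (n : ℝ) ^ 2 / ((M : ℝ) / 4) ^ 2 = 16 * C * x ^ 2 := by
        rw [hx]
        field_simp
        ring
      have h3 : 1 ≤ x ^ 2 := one_le_pow₀ hx1
      linarith
    have b2 : (n : ℝ) / ((M : ℝ) - (r - 1)) ≤ 4 / 3 * x := by
      have h1 : (3 : ℝ) * M / 4 ≤ (M : ℝ) - (r - 1) := by linarith
      have h2 : (n : ℝ) / ((M : ℝ) - (r - 1)) ≤ (n : ℝ) / (3 * M / 4) :=
        div_le_div_of_nonneg_left hn0.le (by positivity) h1
      have h3 : (n : ℝ) / (3 * M / 4) = 4 / 3 * x := by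
        rw [hx]
        field_simp
      linarith
    have b3 : U (a' - 1) / U (n - 1) ≤ 3 * x := by
      have h1 : U (a' - 1) ≤ 1 / Real.sqrt (3 * M / 4) := by
        refine (U_upper _).trans ?_
        apply one_div_le_one_div_of_le
        · exact Real.sqrt_pos.mpr (by positivity)
        · apply Real.sqrt_le_sqrt
          have h2 : ((a' - 1 : ℕ) : ℝ) + 1 = a' := by
            have : a' - 1 + 1 = a' := by omega
            exact_mod_cast this
          have h3 : (a' : ℝ) = M - (r - 1) := by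
            have : a' + r = M + 1 := by omega
            have : (a' : ℝ) + r = M + 1 := by exact_mod_cast this
            linarith
          rw [h2, h3]
          linarith
      have h2 : 1 / (2 * Real.sqrt n) ≤ U (n - 1) := by
        refine le_trans ?_ (U_lower (by omega : 1 ≤ n - 1))
        apply one_div_le_one_div_of_le
        · have : (0 : ℝ) < ((n - 1 : ℕ) : ℝ) := by exact_mod_cast (by omega : 0 < n - 1)
          have := Real.sqrt_pos.mpr this
          positivity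
        · have : Real.sqrt ((n - 1 : ℕ) : ℝ) ≤ Real.sqrt n :=
            Real.sqrt_le_sqrt (by exact_mod_cast (by omega : n - 1 ≤ n))
          linarith
      have hsn : 0 < Real.sqrt n := Real.sqrt_pos.mpr hn0
      have hs3 : 0 < Real.sqrt (3 * M / 4) := Real.sqrt_pos.mpr (by positivity)
      have h3 : U (a' - 1) / U (n - 1) ≤ (1 / Real.sqrt (3 * M / 4)) / (1 / (2 * Real.sqrt n)) :=
        div_le_div₀ (by positivity) h1 (by positivity) h2
      refine h3.trans ?_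
      have e9 : (1 / Real.sqrt (3 * M / 4)) / (1 / (2 * Real.sqrt n)) =
          2 * Real.sqrt n / Real.sqrt (3 * M / 4) := by field_simp
      rw [e9, div_le_iff₀ hs3]
      -- `2 √n ≤ 3 x √(3M/4)`
      have h4 : Real.sqrt n = Real.sqrt x * Real.sqrt M := by
        rw [← Real.sqrt_mul (by positivity), hx]
        congr 1
        field_simp
      have h5 : Real.sqrt x ≤ x := by
        rw [Real.sqrt_le_left (by positivity)]
        nlinarith
      have h6 : 2 * Real.sqrt M ≤ 3 * Real.sqrt (3 * M / 4) := by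
        have e2 : (2 : ℝ) * Real.sqrt M = Real.sqrt (4 * M) := by
          rw [Real.sqrt_mul (by norm_num), show (4 : ℝ) = 2 ^ 2 by norm_num,
            Real.sqrt_sq (by norm_num)]
        have e3 : (3 : ℝ) * Real.sqrt (3 * M / 4) = Real.sqrt (9 * (3 * M / 4)) := by
          rw [Real.sqrt_mul (by norm_num) (3 * M / 4 : ℝ), show (9 : ℝ) = 3 ^ 2 by norm_num,
            Real.sqrt_sq (by norm_num)]
        rw [e2, e3]
        apply Real.sqrt_le_sqrt
        linarith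
      rw [h4]
      calc 2 * (Real.sqrt x * Real.sqrt M) = Real.sqrt x * (2 * Real.sqrt M) := by ring
        _ ≤ x * (3 * Real.sqrt (3 * M / 4)) := mul_le_mul h5 h6 (by positivity) (by positivity)
        _ = _ := by ring
    have hexp : 0 < Real.exp (-x ^ (1 / 8 : ℝ) / 32) := Real.exp_pos _
    have b4 : wsum (n - 1) (ind (fun l : List ℕ => ∃ p s : List ℕ, l = p ++ s ∧
        a' ≤ 1 + s.sum ∧ τ / 2 ≤ 0 + (p.map (fun m => σ * xi M m)).sum)) / U (n - 1) ≤
        3 * x * Real.exp (-x ^ (1 / 8 : ℝ) / 32) := by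
      refine (div_le_div_of_nonneg_right hw hUn.le).trans ?_
      calc U (a' - 1) * Real.exp (-x ^ (1 / 8 : ℝ) / 32) / U (n - 1)
          = U (a' - 1) / U (n - 1) * Real.exp (-x ^ (1 / 8 : ℝ) / 32) := by ring
        _ ≤ _ := mul_le_mul_of_nonneg_right b3 hexp.le
    have hden : 0 < (n : ℝ) / ((M : ℝ) - (r - 1)) := by
      apply div_pos hn0
      have : (3 : ℝ) * M / 4 ≤ (M : ℝ) - (r - 1) := by linarith
      have : (0 : ℝ) < 3 * M / 4 := by positivity
      linarith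
    calc Real.exp Tm * (1 + a / (r : ℝ) ^ 2) *
        ((n : ℝ) / ((M : ℝ) - (r - 1)) * (wsum (n - 1) (ind (fun l : List ℕ =>
          ∃ p s : List ℕ, l = p ++ s ∧
        a' ≤ 1 + s.sum ∧ τ / 2 ≤ 0 + (p.map (fun m => σ * xi M m)).sum)) / U (n - 1)))
        ≤ Real.exp Tm * ((1 + 16 * C) * x ^ 2) *
          (4 / 3 * x * (3 * x * Real.exp (-x ^ (1 / 8 : ℝ) / 32))) := by
          apply mul_le_mul
          · exact mul_le_mul_of_nonneg_left b1 (Real.exp_pos _).le
          · calc (n : ℝ) / ((M : ℝ) - (r - 1)) * (wsum (n - 1) (ind (fun l : List ℕ =>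
                ∃ p s : List ℕ, l = p ++ s ∧ a' ≤ 1 + s.sum ∧
                τ / 2 ≤ 0 + (p.map (fun m => σ * xi M m)).sum)) / U (n - 1))
                ≤ (n : ℝ) / ((M : ℝ) - (r - 1)) *
                  (3 * x * Real.exp (-x ^ (1 / 8 : ℝ) / 32)) :=
                  mul_le_mul_of_nonneg_left b4 hden.le
              _ ≤ _ := mul_le_mul_of_nonneg_right b2 (by positivity)
          · apply mul_nonneg hden.le
            apply div_nonneg _ hUn.le
            apply wsum_nonneg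
            intro l _ _
            unfold ind
            split_ifs <;> norm_num
          · positivity
      _ = 4 * Real.exp Tm * (1 + 16 * C) * x ^ 4 * Real.exp (-x ^ (1 / 8 : ℝ) / 32) := by
          ring
  · -- robustness
    rintro p s l R j₁ j₂ ⟨hB1, hB2⟩ hD1 hD2 hj1 hj2
    obtain ⟨p', s', k₁, k₂, hR, hp, hs, hk⟩ := hD1.split_left
    subst hR
    obtain ⟨p'', s'', k₃, k₄, hl, hp', hs', hk'⟩ := hD2.split_right
    refine ⟨p'', s'', hl, ?_, ?_⟩
    · have e1 := hs.sum_eq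
      have e2 := hs'.sum_eq
      omega
    · have e1 := hp.lip (xi_zero M) (xi_lip hM)
      have e2 := hp'.lip (xi_zero M) (xi_lip hM)
      have e3 : (p''.map (fun m => σ * xi M m)).sum = σ * (p''.map (xi M)).sum := by
        rw [← List.sum_map_mul_left]
      rw [e3, zero_add]
      have e4 : |σ * (p.map (xi M)).sum - σ * (p''.map (xi M)).sum| ≤
          1 / Real.sqrt M * (k₁ + k₃) := by
        rw [← mul_sub, abs_mul, hσabs, one_mul]
        calc |(p.map (xi M)).sum - (p''.map (xi M)).sum|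
            ≤ |(p.map (xi M)).sum - (p'.map (xi M)).sum| +
              |(p'.map (xi M)).sum - (p''.map (xi M)).sum| := abs_sub_le _ _ _
          _ ≤ 1 / Real.sqrt M * k₁ + 1 / Real.sqrt M * k₃ := by
              rw [abs_sub_comm (p'.map (xi M)).sum]
              exact add_le_add e1 e2
          _ = _ := by ring
      have e5 : ((k₁ : ℝ) + k₃) ≤ M / 2 := by
        have h1 : 2 * (k₁ + k₃) ≤ M := by omega
        have h2 : 2 * ((k₁ : ℝ) + k₃) ≤ M := by exact_mod_cast h1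
        linarith
      have e6 : 1 / Real.sqrt M * (k₁ + k₃) ≤ Real.sqrt M / 2 := by
        calc 1 / Real.sqrt M * ((k₁ : ℝ) + k₃) ≤ 1 / Real.sqrt M * (M / 2) :=
              mul_le_mul_of_nonneg_left e5 (by positivity)
          _ = Real.sqrt M / 2 := by
              have h1 : Real.sqrt M * Real.sqrt M = M := Real.mul_self_sqrt hM0.le
              field_simp
              nlinarith
      have e7 := (abs_le.mp e4).2
      linarith

/-- Two applications (signs `σ = ±1`) of `general_principle` with `a₀ = M`, `r = (M + 3) / 4` (natural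
division: `M / 4 ≤ r`, `r - 1 ≤ M / 4`), `τ = (M/n)^(1/8) √n`,
`Bad p k := M ≤ 1 + k ∧ τ ≤ σ Σ_p ξ`, `Bad' l := ∃ p s, l = p ++ s ∧ a' ≤ 1 + s.sum ∧ τ / 2 ≤ σ Σ_p ξ`,
`a' = M - (r - 1)`. Robustness: split with `Dec.split_left`, `Dec.split_right`, then `Dec.lip` with
`L = 1 / √M` (`xi_lip`): the sums change by at most `2 (r - 1) / √M ≤ √M / 2 ≤ τ / 2`.
By `wsum_max` and `exp_xi_le`: `wsum (n-1) (ind Bad') ≤ U (a' - 1) exp (- lam · τ / 2)` where
`lam · τ / 2 = (1/32) (n/M)^(1/8)`. Finally `U (a' - 1) ≤ 1 / √a' ≤ √(4 / (3M))`,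
`U (n-1) ≥ 1 / (2 √n)`, `M - (r - 1) ≥ 3M/4`, `a / r² ≤ 16 C (n/M)²`; everything is at most a constant
times `(n/M)^4 exp(- (n/M)^(1/8) / 32)` because `n / M ≥ 1`. -/
theorem hb_ms (C Tm : ℝ) (hC : 0 ≤ C) (hTm : 0 ≤ Tm) : ∃ K₀ : ℝ, 0 < K₀ ∧ ∀ n M : ℕ, 2 ≤ n → 1 ≤ M →
    M ≤ n → HB C Tm (K₀ * ((n : ℝ) / M) ^ 4 * Real.exp (-((n : ℝ) / M) ^ (1 / 8 : ℝ) / 32)) n
      (MSEvent n M) := by
  refine ⟨8 * Real.exp Tm * (1 + 16 * C), by positivity, fun n M hn hM hMn => ?_⟩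
  have h1 := evMS_side C Tm hC hTm hn hM hMn (Or.inl rfl)
  have h2 := evMS_side C Tm hC hTm hn hM hMn (Or.inr rfl)
  refine (h1.or hn h2).mono hn ?_ (le_of_eq (by ring))
  rintro T - ⟨i, hi, p, s, hs, hs1, hs2⟩
  rcases le_total 0 (p.map (xi M)).sum with h3 | h3
  · left
    rw [abs_of_nonneg h3] at hs2
    exact ⟨i, hi, p, s, hs, hs1, by rw [one_mul]; exact hs2⟩
  · right
    rw [abs_of_nonpos h3] at hs2
    exact ⟨i, hi, p, s, hs, hs1, by rw [neg_one_mul]; exact hs2⟩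

end Pool.Agent.ALD
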