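import Pool.Agent.ALD.EvX
import Pool.Agent.ALD.EvMS

/-! Module EVGOOD: with high probability the trees are good at all times -/

noncomputable section

namespace Pool.Agent.ALD

open BT

theorem evGood_geom (s : Finset ℕ) (X : ℝ) (hX : 0 ≤ X) (hs : ∀ j ∈ s, (2:ℝ) ^ j ≤ X) :
    ∑ j ∈ s, (2:ℝ) ^ j ≤ 2 * X := by
  rcases s.eq_empty_or_nonempty with rfl | hne
  · simpa using hX
  · obtain ⟨J, hJ, hmax⟩ := s.exists_max_image id hne
    have hsub : s ⊆ Finset.range (J + 1) := by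
      intro j hj
      have : j ≤ J := hmax j hj
      exact Finset.mem_range.mpr (by omega)
    calc ∑ j ∈ s, (2:ℝ) ^ j ≤ ∑ j ∈ Finset.range (J + 1), (2:ℝ) ^ j :=
          Finset.sum_le_sum_of_subset_of_nonneg hsub (fun _ _ _ => by positivity)
      _ = 2 ^ (J + 1) - 1 := by
          rw [geom_sum_eq (by norm_num)]
          norm_num
      _ ≤ 2 * X := by
          have := hs J hJ
          rw [pow_succ]
          linarith

/-- Union (`HB.biUnion`) of the events `MSEvent n (2^j)` over `j` in `range (n + 1)` with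
`2^j x0 ≤ n`: by `hb_ms` and `exists_bound_pow_exp` the bounds are `≤ K₀ K 2^j / n`, their sum is at
most `2 K₀ K / x0` (geometric sum); choose `x0` large. -/
theorem hb_good (C Tm κ : ℝ) (hC : 0 ≤ C) (hTm : 0 ≤ Tm) (hκ : 0 < κ) :
    ∃ x0 : ℝ, 1 ≤ x0 ∧ ∀ n : ℕ, 2 ≤ n → HB C Tm κ n (fun T => ¬ Good n x0 T) := by
  classical
  obtain ⟨K₀, hK₀, hms⟩ := hb_ms C Tm hC hTm
  obtain ⟨K, hK, hexp⟩ := exists_bound_pow_exp
  refine ⟨max 1 (2 * K₀ * K / κ), le_max_left _ _, fun n hn => ?_⟩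
  set x0 := max 1 (2 * K₀ * K / κ) with hx0
  have hx1 : 1 ≤ x0 := le_max_left _ _
  have hx2 : 2 * K₀ * K / κ ≤ x0 := le_max_right _ _
  have hn0 : (0:ℝ) < n := by
    have : 0 < n := by omega
    exact_mod_cast this
  set s := (Finset.range (n + 1)).filter (fun j : ℕ => (2:ℝ) ^ j * x0 ≤ n) with hsdef
  have hle : ∀ j : ℕ, (2:ℝ) ^ j * x0 ≤ n → (2:ℝ) ^ j ≤ n := by
    intro j hj
    have : (0:ℝ) < 2 ^ j := by positivity
    nlinarith
  have hbi := HB.biUnion (C := C) (Tm := Tm) hn s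
    (fun j => K₀ * ((n : ℝ) / ((2 ^ j : ℕ) : ℝ)) ^ 4 *
      Real.exp (-((n : ℝ) / ((2 ^ j : ℕ) : ℝ)) ^ (1 / 8 : ℝ) / 32))
    (fun j => MSEvent n (2 ^ j)) (fun j hj => by
      obtain ⟨_, hj2⟩ := Finset.mem_filter.mp hj
      refine hms n (2 ^ j) hn Nat.one_le_two_pow ?_
      exact_mod_cast hle j hj2)
  refine HB.mono hn hbi ?_ ?_
  · intro T _ hT
    unfold Good at hT
    push Not at hT
    obtain ⟨i, hi, j, p, t, h1, h2, h3, h4⟩ := hT
    have hjn : (2:ℕ) ^ j ≤ n := by exact_mod_cast hle j h2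
    have hj : j < 2 ^ j := Nat.lt_two_pow_self
    refine ⟨j, Finset.mem_filter.mpr ⟨Finset.mem_range.mpr (by omega), h2⟩, i, hi, p, t, h1, h3, ?_⟩
    push_cast
    exact h4
  · have h1 : ∀ j ∈ s, K₀ * ((n : ℝ) / ((2 ^ j : ℕ) : ℝ)) ^ 4 *
        Real.exp (-((n : ℝ) / ((2 ^ j : ℕ) : ℝ)) ^ (1 / 8 : ℝ) / 32) ≤ K₀ * K / n * 2 ^ j := by
      intro j hj
      obtain ⟨_, hj2⟩ := Finset.mem_filter.mp hj
      have h2j : (0:ℝ) < 2 ^ j := by positivity
      have hx : 1 ≤ (n:ℝ) / ((2 ^ j : ℕ) : ℝ) := by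
        push_cast
        rw [le_div_iff₀ h2j, one_mul]
        exact hle j hj2
      have h3 := hexp _ hx
      rw [mul_assoc]
      refine (mul_le_mul_of_nonneg_left h3 hK₀.le).trans (le_of_eq ?_)
      push_cast
      field_simp
    refine (Finset.sum_le_sum h1).trans ?_
    rw [← Finset.mul_sum]
    have h4 : ∑ j ∈ s, (2:ℝ) ^ j ≤ 2 * (n / x0) := by
      refine evGood_geom s _ (by positivity) ?_
      intro j hj
      obtain ⟨_, hj2⟩ := Finset.mem_filter.mp hj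
      rw [le_div_iff₀ (by linarith)]
      exact hj2
    have h5 : K₀ * K / n * ∑ j ∈ s, (2:ℝ) ^ j ≤ K₀ * K / n * (2 * (n / x0)) :=
      mul_le_mul_of_nonneg_left h4 (by positivity)
    refine h5.trans ?_
    have h6 : K₀ * K / n * (2 * (n / x0)) = 2 * K₀ * K / x0 := by
      have : x0 ≠ 0 := by linarith
      field_simp
    rw [h6, div_le_iff₀ (by linarith)]
    rw [div_le_iff₀ hκ] at hx2
    linarith

end Pool.Agent.ALD
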