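import Pool.Agent.ALD.KbB

/-! Module EVKB: no short path has many large hanging subtrees, at all times -/

noncomputable section

namespace Pool.Agent.ALD

open BT

/-- choose `δ` small, then combine the two lemmas -/
theorem hb_kb (C Tm ε κ x0 : ℝ) (hC : 0 ≤ C) (hTm : 0 ≤ Tm) (hε : 0 < ε) (hκ : 0 < κ)
    (hx : 1 ≤ x0) :
    ∃ δ₀ : ℝ, 0 < δ₀ ∧ ∀ δ : ℝ, 0 < δ → δ ≤ δ₀ → ∃ n₀ : ℕ, ∀ n ≥ n₀,
      HB C Tm κ n (fun T => Good n x0 T ∧ ManyBig n ε δ T) := by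
  set ε1 : ℝ := min ε 1 with hε1
  have hε1' : 0 < ε1 := lt_min hε one_pos
  have hε1'' : ε1 ≤ 1 := min_le_right _ _
  have hε1ε : ε1 ≤ ε := min_le_left _ _
  obtain ⟨K₁, hK₁, hK⟩ := hb_kbEvent C Tm ε1 hC hTm hε1' hε1''
  have hx0 : 0 < x0 := by linarith
  refine ⟨min (min 1 (κ / K₁)) (min (1 / x0) ε1), ?_, ?_⟩
  · exact lt_min (lt_min one_pos (div_pos hκ hK₁)) (lt_min (by positivity) hε1')
  intro δ hδ hδ0
  have hδ1 : δ ≤ 1 := hδ0.trans ((min_le_left _ _).trans (min_le_left _ _))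
  have hδκ : δ ≤ κ / K₁ := hδ0.trans ((min_le_left _ _).trans (min_le_right _ _))
  have hδx : δ ≤ 1 / x0 := hδ0.trans ((min_le_right _ _).trans (min_le_left _ _))
  have hδε : δ ≤ ε1 := hδ0.trans ((min_le_right _ _).trans (min_le_right _ _))
  have hδ8 : δ ^ 8 ≤ δ := by
    have := pow_le_pow_of_le_one hδ.le hδ1 (show 1 ≤ 8 by norm_num)
    simpa using this
  have hδ8pos : 0 < δ ^ 8 := pow_pos hδ 8
  obtain ⟨n₀, hn₀⟩ := hK δ hδ hδ1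
  refine ⟨max n₀ (max 2 ⌈1 / δ ^ 8⌉₊), fun n hn => ?_⟩
  have hn1 : n₀ ≤ n := (le_max_left _ _).trans hn
  have hn2 : 2 ≤ n := (le_max_left _ _).trans ((le_max_right _ _).trans hn)
  have hn3 : ⌈1 / δ ^ 8⌉₊ ≤ n := (le_max_right _ _).trans ((le_max_right _ _).trans hn)
  have hn4 : 1 / δ ^ 8 ≤ (n : ℝ) := (Nat.le_ceil _).trans (by exact_mod_cast hn3)
  have hn5 : 1 ≤ δ ^ 8 * n := by
    rw [div_le_iff₀ hδ8pos] at hn4
    linarith
  obtain ⟨j, hj, hj'⟩ := exists_nat_pow_near hn5 (show (1 : ℝ) < 2 by norm_num)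
  have hM1 : δ ^ 8 * n < ((2 ^ (j + 1) : ℕ) : ℝ) := by
    push_cast
    exact hj'
  have hM2 : ((2 ^ (j + 1) : ℕ) : ℝ) ≤ 2 * δ ^ 8 * n := by
    push_cast
    rw [pow_succ]
    linarith
  have hδx8 : δ ^ 8 * x0 ≤ 1 := by
    calc δ ^ 8 * x0 ≤ (1 / x0) * x0 := mul_le_mul_of_nonneg_right (hδ8.trans hδx) hx0.le
      _ = 1 := by field_simp
  refine (hn₀ n hn1 _ hM1 hM2).mono hn2 ?_ ?_
  · rintro T hT ⟨hG, hMB⟩
    refine kbEvent_of_manyBig hx hε1' hδ hδ1 hδx8 (hδ8.trans hδε) hn2 hj hj' hT hG ?_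
    obtain ⟨i, hi, p, w, s, hsp, h1, h2, h3⟩ := hMB
    have hmul : ε1 * (n : ℝ) ≤ ε * n := mul_le_mul_of_nonneg_right hε1ε (Nat.cast_nonneg n)
    refine ⟨i, hi, p, w, s, hsp, hmul.trans h1, h2, h3.trans ?_⟩
    have h4 : (w.filter (fun m : ℕ => decide (ε * n ≤ (m : ℝ)))).Sublist
        (w.filter (fun m : ℕ => decide (ε1 * n ≤ (m : ℝ)))) := by
      apply List.monotone_filter_right
      intro m hm
      rw [decide_eq_true_eq] at hm ⊢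
      exact hmul.trans hm
    exact h4.length_le
  · rw [le_div_iff₀ hK₁] at hδκ
    linarith

end Pool.Agent.ALD
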