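import Pool.Agent.ALD.MeeC

/-! Module MEET: the configuration found in all bad trees -/

noncomputable section

namespace Pool.Agent.ALD

open BT

/-- The configuration found in all bad trees. For two stars with four arms: `star_three` at both centres;
the lower points are different since their distances to the centres are at most `2 δ √n` and the
centres are at distance `> ℓ √n ≥ 4 δ √n`. -/
theorem badTree_conf {n : ℕ} {ℓ δ : ℝ} (hδ : 0 < δ) (hδℓ : 8 * δ ≤ ℓ)
    (hn : 4 ≤ ℓ * Real.sqrt n) {T : BT} (h : BadTree n ℓ δ T) :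
    ∃ (z z' w w' : List Bool) (b b' : Bool), z ++ b :: w ≠ z' ++ b' :: w' ∧
      DeepBP T (ℓ / 4 * Real.sqrt n) z ∧ DeepBP T (ℓ / 4 * Real.sqrt n) z' ∧
      DeepBP T (ℓ / 4 * Real.sqrt n) (z ++ b :: w) ∧
      DeepBP T (ℓ / 4 * Real.sqrt n) (z' ++ b' :: w') ∧
      ((b :: w).length : ℝ) ≤ δ * Real.sqrt n ∧ ((b' :: w').length : ℝ) ≤ δ * Real.sqrt n := by
  rcases h with ⟨x, hx⟩ | ⟨x, x', hx, hx', hd⟩
  · obtain ⟨z, w, w', b, b', h1, h2, h3, h4, h5, h6⟩ := star_five hδ (by linarith) hn hx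
    exact ⟨z, z, w, w', b, b', h1, h2, h2, h3, h4, h5, h6⟩
  · obtain ⟨z, w, b, h1, h2, h3, h4⟩ := star_three (le_refl 4) hδ (by linarith) hn hx
    obtain ⟨z', w', b', h1', h2', h3', h4'⟩ := star_three (le_refl 4) hδ (by linarith) hn hx'
    refine ⟨z, z', w, w', b, b', ?_, h1, h1', h2, h2', h3, h3'⟩
    intro heq
    rw [← heq] at h4'
    have h5 := gd_triangle x (false :: (z ++ b :: w)) x'
    rw [gd_comm (false :: (z ++ b :: w)) x'] at h5
    have h6 : (gd x x' : ℝ) ≤ gd x (false :: (z ++ b :: w)) + gd x' (false :: (z ++ b :: w)) := by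
      exact_mod_cast h5
    have h7 : 0 ≤ Real.sqrt n := Real.sqrt_nonneg _
    nlinarith

end Pool.Agent.ALD
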