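import Pool.Agent.ALD.DetA
import Pool.Agent.ALD.DetB
import Pool.Agent.ALD.Meet
import Pool.Agent.ALD.EvGood
import Pool.Agent.ALD.EvKB

/-! Module DMAIN: the discrete theorem -/

noncomputable section

namespace Pool.Agent.ALD

open BT

/-- Choose `x0` from `hb_good` (with `κ / 3`), `ε₀` from `isBP_of_deepBP` (with `ℓ / 4`), `ε'` from
`iterate` with `N = 23`, `ε = ε₀`, `κ / 3`, then `δ` from `hb_kb` with `ε'`, `κ / 3`, and `δ ≤ ℓ / 8`. If
`T ∈ trees n` is a `BadTree` and good and not in the set `B` of `iterate`, then `badTree_conf`,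
`isBP_of_deepBP`, `iterate` and `manyBig_of_st` give `ManyBig n ε' δ T`. So
`BadTree ⊆ ¬ Good ∪ B ∪ (Good ∩ ManyBig)`: `HB.or`, `HB.mono`. -/
theorem hb_badTree (C Tm ℓ κ : ℝ) (hC : 0 ≤ C) (hTm : 0 ≤ Tm) (hℓ : 0 < ℓ) (hκ : 0 < κ) :
    ∃ δ : ℝ, 0 < δ ∧ ∃ n₀ : ℕ, ∀ n ≥ n₀, HB C Tm κ n (BadTree n ℓ δ) := by
  obtain ⟨x0, hx0, hG⟩ := hb_good C Tm (κ / 3) hC hTm (by linarith)
  obtain ⟨ε, hε, n1, hBP⟩ := isBP_of_deepBP hx0 (show 0 < ℓ / 4 by linarith)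
  obtain ⟨ε', hε', hεε, n2, hIt⟩ := iterate C Tm hC hTm 23 ε (κ / 3) hε (by linarith)
  obtain ⟨δ₀, hδ₀, hKB⟩ := hb_kb C Tm ε' (κ / 3) x0 hC hTm hε' (by linarith) hx0
  obtain ⟨n3, hKB'⟩ := hKB (min δ₀ (ℓ / 8)) (lt_min hδ₀ (by linarith)) (min_le_left _ _)
  obtain ⟨n4, hn4⟩ := exists_nat_ge ((4 / ℓ) ^ 2)
  set δ := min δ₀ (ℓ / 8) with hδdef
  have hδ : 0 < δ := lt_min hδ₀ (by linarith)
  have hδℓ : 8 * δ ≤ ℓ := by
    have := min_le_right δ₀ (ℓ / 8)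
    rw [← hδdef] at this
    linarith
  refine ⟨δ, hδ, max (max n1 n2) (max (max n3 n4) 2), fun n hn => ?_⟩
  have hn1 : n1 ≤ n := le_trans (le_trans (le_max_left _ _) (le_max_left _ _)) hn
  have hn2 : n2 ≤ n := le_trans (le_trans (le_max_right _ _) (le_max_left _ _)) hn
  have hn3 : n3 ≤ n := le_trans (le_trans (le_trans (le_max_left _ _) (le_max_left _ _))
    (le_max_right _ _)) hn
  have hn4' : n4 ≤ n := le_trans (le_trans (le_trans (le_max_right _ _) (le_max_left _ _))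
    (le_max_right _ _)) hn
  have hn5 : 2 ≤ n := le_trans (le_trans (le_max_right _ _) (le_max_right _ _)) hn
  have hsq : 4 ≤ ℓ * Real.sqrt n := by
    have h1 : (4 / ℓ) ^ 2 ≤ (n : ℝ) := hn4.trans (by exact_mod_cast hn4')
    have h2 : 4 / ℓ ≤ Real.sqrt n := by
      apply Real.le_sqrt_of_sq_le h1
    rw [div_le_iff₀ hℓ] at h2
    linarith
  obtain ⟨B, hB, hB'⟩ := hIt n hn2
  have h1 := HB.or hn5 (HB.or hn5 (hG n hn5) hB) (hKB' n hn3)
  refine HB.mono hn5 h1 (fun T hT hbad => ?_) (by linarith)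
  by_cases hGood : Good n x0 T
  · by_cases hBT : B T
    · exact Or.inl (Or.inr hBT)
    · refine Or.inr ⟨hGood, ?_⟩
      obtain ⟨z, z', w, w', b, b', hne, d1, d2, d3, d4, l1, l2⟩ :=
        badTree_conf hδ hδℓ hsq hbad
      have e1 := hBP n hn1 T hT hGood z d1
      have e2 := hBP n hn1 T hT hGood z' d2
      have e3 := hBP n hn1 T hT hGood _ d3
      have e4 := hBP n hn1 T hT hGood _ d4
      have hSt := hB' T hT hBT z w z' w' b b' hne e1 e2 e3 e4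
      have hmono : ∀ a, IsBP n ε T a → IsBP n ε' T a := by
        intro a ha
        have hn0 : (0 : ℝ) ≤ n := Nat.cast_nonneg _
        have : ε' * n ≤ ε * n := mul_le_mul_of_nonneg_right hεε hn0
        exact ⟨this.trans ha.1, this.trans ha.2⟩
      exact manyBig_of_st hn5 hε' hT (hmono _ e3) (hmono _ e4) l1 l2 hSt
  · exact Or.inl (Or.inl hGood)

end Pool.Agent.ALD
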