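import Pool.Agent.ALD.Base

/-! Module DECL: the relation Dec on lists -/

namespace Pool.Agent.ALD

theorem Dec.sum_eq {l l' : List ℕ} {j : ℕ} (h : Dec l l' j) : l.sum = l'.sum + j := by
  induction h with
  | nil => rfl
  | drop m _ ih => simp only [List.sum_cons, ih]; omega
  | keep m m' h1 h2 _ ih => simp only [List.sum_cons, ih]; omega

theorem Dec.append {p p' s s' : List ℕ} {j k : ℕ} (h : Dec p p' j) (h' : Dec s s' k) :
    Dec (p ++ s) (p' ++ s') (j + k) := by
  induction h with
  | nil => simpa using h'
  | @drop m l l' j _ ih =>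
    have := Dec.drop m ih
    have e : j + k + m = j + m + k := by omega
    rw [e] at this
    simpa using this
  | @keep m m' l l' j h1 h2 _ ih =>
    have := Dec.keep m m' h1 h2 ih
    have e : j + k + (m - m') = j + (m - m') + k := by omega
    rw [e] at this
    simpa using this

theorem Dec.split_left {p s l' : List ℕ} {j : ℕ} (h : Dec (p ++ s) l' j) :
    ∃ p' s' j₁ j₂, l' = p' ++ s' ∧ Dec p p' j₁ ∧ Dec s s' j₂ ∧ j = j₁ + j₂ := by
  induction p generalizing l' j with
  | nil => exact ⟨[], l', 0, j, by simp, Dec.nil, by simpa using h, by omega⟩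
  | cons a p ih =>
    rw [List.cons_append] at h
    cases h with
    | @drop _ _ _ j0 h0 =>
      obtain ⟨p', s', j₁, j₂, e1, d1, d2, e2⟩ := ih h0
      exact ⟨p', s', j₁ + a, j₂, e1, Dec.drop a d1, d2, by omega⟩
    | @keep _ m' _ l0 j0 h1 h2 h0 =>
      obtain ⟨p', s', j₁, j₂, e1, d1, d2, e2⟩ := ih h0
      exact ⟨m' :: p', s', j₁ + (a - m'), j₂, by rw [e1]; rfl, Dec.keep a m' h1 h2 d1, d2, by omega⟩

theorem Dec.split_right {l p' s' : List ℕ} {j : ℕ} (h : Dec l (p' ++ s') j) :
    ∃ p s j₁ j₂, l = p ++ s ∧ Dec p p' j₁ ∧ Dec s s' j₂ ∧ j = j₁ + j₂ := by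
  generalize hq : p' ++ s' = q at h
  induction h generalizing p' with
  | nil =>
    rw [List.append_eq_nil_iff] at hq
    obtain ⟨rfl, rfl⟩ := hq
    exact ⟨[], [], 0, 0, rfl, Dec.nil, Dec.nil, rfl⟩
  | @drop m l l' j h0 ih =>
    obtain ⟨p, s, j₁, j₂, e1, d1, d2, e2⟩ := ih hq
    exact ⟨m :: p, s, j₁ + m, j₂, by rw [e1]; rfl, Dec.drop m d1, d2, by omega⟩
  | @keep m m' l l' j h1 h2 h0 ih =>
    cases p' with
    | nil =>
      simp only [List.nil_append] at hq
      refine ⟨[], m :: l, 0, j + (m - m'), rfl, Dec.nil, ?_, by omega⟩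
      rw [hq]
      exact Dec.keep m m' h1 h2 h0
    | cons a p' =>
      simp only [List.cons_append, List.cons.injEq] at hq
      obtain ⟨rfl, hq⟩ := hq
      obtain ⟨p, s, j₁, j₂, e1, d1, d2, e2⟩ := ih hq
      exact ⟨m :: p, s, j₁ + (m - a), j₂, by rw [e1]; rfl, Dec.keep m a h1 h2 d1, d2, by omega⟩

private theorem DecL_aux1 {f : ℕ → ℝ} {L : ℝ} (hL : ∀ m, |f (m + 1) - f m| ≤ L) (a k : ℕ) :
    |f (a + k) - f a| ≤ L * k := by
  induction k with
  | zero => simp
  | succ k ih =>
    have h1 := hL (a + k)
    have h2 : |f (a + (k + 1)) - f a| ≤ |f (a + k + 1) - f (a + k)| + |f (a + k) - f a| := by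
      have e : f (a + (k + 1)) - f a = (f (a + k + 1) - f (a + k)) + (f (a + k) - f a) := by
        rw [← add_assoc]; ring
      rw [e]
      exact abs_add_le _ _
    push_cast
    linarith

/-- `f 0 = 0` takes care of the dropped entries -/
theorem Dec.lip {f : ℕ → ℝ} {L : ℝ} (hf : f 0 = 0) (hL : ∀ m, |f (m + 1) - f m| ≤ L)
    {l l' : List ℕ} {j : ℕ} (h : Dec l l' j) :
    |(l.map f).sum - (l'.map f).sum| ≤ L * j := by
  induction h with
  | nil => simp
  | @drop m l l' j _ ih =>
    have h1 := DecL_aux1 hL 0 m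
    rw [zero_add, hf, sub_zero] at h1
    simp only [List.map_cons, List.sum_cons]
    have e : f m + (l.map f).sum - (l'.map f).sum = f m + ((l.map f).sum - (l'.map f).sum) := by
      ring
    rw [e]
    have h2 := abs_add_le (f m) ((l.map f).sum - (l'.map f).sum)
    push_cast
    linarith
  | @keep m m' l l' j h1 h2 _ ih =>
    have h3 := DecL_aux1 hL m' (m - m')
    rw [Nat.add_sub_cancel' h2] at h3
    simp only [List.map_cons, List.sum_cons]
    have e : f m + (l.map f).sum - (f m' + (l'.map f).sum) =
        (f m - f m') + ((l.map f).sum - (l'.map f).sum) := by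
      ring
    rw [e]
    have h4 := abs_add_le (f m - f m') ((l.map f).sum - (l'.map f).sum)
    rw [Nat.cast_add]
    linarith

/-- entries `≥ b + j` stay `≥ b` -/
theorem Dec.count_le {b j : ℕ} (hb : 1 ≤ b) {l l' : List ℕ} {k : ℕ} (h : Dec l l' k) (hk : k ≤ j) :
    (l.filter (fun m => decide (b + j ≤ m))).length ≤
      (l'.filter (fun m => decide (b ≤ m))).length := by
  induction h with
  | nil => simp
  | @drop m l l' k0 _ ih =>
    have h1 : ¬ (b + j ≤ m) := by omega
    simp only [List.filter_cons, h1, decide_false, Bool.false_eq_true, if_false]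
    exact ih (by omega)
  | @keep m m' l l' k0 h1 h2 _ ih =>
    have ih' := ih (by omega)
    simp only [List.filter_cons]
    by_cases h3 : b + j ≤ m
    · have h4 : b ≤ m' := by omega
      simp only [h3, h4, decide_true, if_true, List.length_cons]
      omega
    · by_cases h4 : b ≤ m'
      · simp only [h3, h4, decide_true, decide_false, Bool.false_eq_true, if_false, if_true,
          List.length_cons]
        omega
      · simp only [h3, h4, decide_false, Bool.false_eq_true, if_false]
        exact ih'

theorem Dec.count_le' {b : ℕ} {l l' : List ℕ} {j : ℕ} (h : Dec l l' j) :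
    (l'.filter (fun m => decide (b ≤ m))).length ≤
      (l.filter (fun m => decide (b ≤ m))).length := by
  induction h with
  | nil => simp
  | @drop m l l' k0 _ ih =>
    simp only [List.filter_cons]
    split_ifs
    · simp only [List.length_cons]; omega
    · exact ih
  | @keep m m' l l' k0 h1 h2 _ ih =>
    simp only [List.filter_cons]
    by_cases h4 : b ≤ m'
    · have h5 : b ≤ m := by omega
      simp only [h4, h5, decide_true, if_true, List.length_cons]
      omega
    · by_cases h5 : b ≤ m
      · simp only [h4, h5, decide_true, decide_false, Bool.false_eq_true, if_false, if_true,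
          List.length_cons]
        omega
      · simp only [h4, h5, decide_false, Bool.false_eq_true, if_false]
        exact ih

end Pool.Agent.ALD
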