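import Mathlib

/-!
The Aldous chain on rooted binary trees with `n` labelled leaves, the space of rooted weighted
compact metric spaces with the rooted Gromov-Hausdorff-Prokhorov distance, and what it means to be
an Aldous diffusion.
-/

open MeasureTheory Filter Topology

open scoped NNReal

noncomputable section

namespace Pool.Agent.ALD

/-- Rooted binary trees (drawn in the plane) whose leaves are labelled by natural numbers. The tree
is planted: there is an edge above the top vertex, whose upper end is the root. -/
inductive BT where
  | leaf : ℕ → BT
  | node : BT → BT → BT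

namespace BT

/-- number of leaves -/
def size : BT → ℕ
  | leaf _ => 1
  | node l r => l.size + r.size

/-- leaf labels, from left to right -/
def labs : BT → List ℕ
  | leaf a => [a]
  | node l r => l.labs ++ r.labs

/-- The list of all trees obtained from `T` by attaching a new leaf labelled `j` in the middle of an
edge. There is one edge above each vertex of `T`, and for each edge the new leaf may be drawn on the
left or on the right: for `m` leaves this gives `2 (2 m - 1)` trees. -/
def ins (j : ℕ) : BT → List BT
  | leaf a => [node (leaf j) (leaf a), node (leaf a) (leaf j)]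
  | node l r => node (leaf j) (node l r) :: node (node l r) (leaf j) ::
      ((ins j l).map (fun x => node x r) ++ (ins j r).map (fun x => node l x))

/-- Keep only the leaves whose label satisfies `p`, and contract away the vertices left with one
child. -/
def res (p : ℕ → Bool) : BT → Option BT
  | leaf a => if p a then some (leaf a) else none
  | node l r => match res p l, res p r with
    | some x, some y => some (node x y)
    | some x, none => some x
    | none, some y => some y
    | none, none => none

/-- delete the leaf labelled `j` and contract its parent -/
def del (j : ℕ) (T : BT) : Option BT := res (fun a => decide (a ≠ j)) T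

/-- the list of all outcomes of: delete the leaf `j`, then attach it again on a uniform edge -/
def reins (j : ℕ) (T : BT) : List BT :=
  match T.del j with
  | some S => ins j S
  | none => [T]

/-- addresses of the vertices (other than the root), as lists of left (`false`) and right (`true`)
turns -/
def verts : BT → List (List Bool)
  | leaf _ => [[]]
  | node l r => [] :: (l.verts.map (List.cons false) ++ r.verts.map (List.cons true))

/-- addresses of the leaves -/
def leafs : BT → List (List Bool)
  | leaf _ => [[]]
  | node l r => l.leafs.map (List.cons false) ++ r.leafs.map (List.cons true)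

end BT

open BT

/-- the list of all planar binary trees whose leaves are labelled `0, 1, …, n - 1` -/
def trees : ℕ → List BT
  | 0 => []
  | 1 => [leaf 0]
  | (n + 2) => (trees (n + 1)).flatMap (ins (n + 1))

/-- expectation under the uniform distribution on `trees n` -/
def avg (n : ℕ) (F : BT → ℝ) : ℝ := ((trees n).map F).sum / ((trees n).length : ℝ)

/-- transition operator of the Aldous chain: a uniform leaf `i < n` is deleted and attached again on
a uniform edge -/
def step (n : ℕ) (F : BT → ℝ) (T : BT) : ℝ :=
  (∑ i ∈ Finset.range n, ((T.reins i).map F).sum / ((T.reins i).length : ℝ)) / (n : ℝ)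

/-- transition operator over a time span `t` of the Aldous chain run according to a Poisson clock
of rate `a` -/
def pois (n : ℕ) (a t : ℝ) (F : BT → ℝ) (T : BT) : ℝ :=
  ∑' k : ℕ, Real.exp (-(a * t)) * (a * t) ^ k / (k.factorial : ℝ) * ((step n)^[k] F) T

/-- expectation of `f (X_{t 0}, …, X_{t (m-1)})` when the chain (with clock rate `a`) is at `T` at
time `u` -/
def chainExp (n : ℕ) (a : ℝ) : (m : ℕ) → (Fin m → ℝ) → ((Fin m → BT) → ℝ) → ℝ → BT → ℝ
  | 0, _, f, _, _ => f Fin.elim0
  | (m + 1), t, f, u, T => pois n a (t 0 - u)
      (fun S => chainExp n a m (Fin.tail t) (fun z => f (Fin.cons S z)) (t 0) S) T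

/-- expectation of `f (X_{t 0}, …, X_{t (m-1)})` for the chain with clock rate `a` started at time
`0` from the uniform distribution -/
def fddExp (n : ℕ) (a : ℝ) (m : ℕ) (t : Fin m → ℝ) (f : (Fin m → BT) → ℝ) : ℝ :=
  avg n (chainExp n a m t f 0)

/-- A rooted weighted compact metric space: a compact metric space with a root and a Borel
probability measure. -/
structure RWTree where
  /-- the points -/
  pt : Type
  /-- the metric -/
  met : MetricSpace pt
  /-- compactness -/
  cpt : CompactSpace pt
  /-- the root -/
  root : pt
  /-- the Borel measure -/
  mass : @Measure pt (borel pt)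
  /-- it is a probability measure -/
  prob : @IsProbabilityMeasure pt (borel pt) mass

instance (X : RWTree) : MetricSpace X.pt := X.met

instance (X : RWTree) : CompactSpace X.pt := X.cpt

/-- `X` and `Y` embed isometrically in a common metric space so that the roots are within distance
`r`, the images within Hausdorff distance `r` and the image measures within Prokhorov distance
`r`. -/
def GHPClose (r : ℝ) (X Y : RWTree) : Prop :=
  ∃ (Z : Type) (_ : MetricSpace Z) (f : X.pt → Z) (g : Y.pt → Z), Isometry f ∧ Isometry g ∧
    dist (f X.root) (g Y.root) ≤ r ∧
    Metric.hausdorffDist (Set.range f) (Set.range g) ≤ r ∧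
    (∀ A : Set Z, IsClosed A →
      X.mass (f ⁻¹' A) ≤ Y.mass (g ⁻¹' (Metric.cthickening r A)) + ENNReal.ofReal r) ∧
    (∀ A : Set Z, IsClosed A →
      Y.mass (g ⁻¹' A) ≤ X.mass (f ⁻¹' (Metric.cthickening r A)) + ENNReal.ofReal r)

/-- the rooted Gromov-Hausdorff-Prokhorov distance -/
def dGHP (X Y : RWTree) : ℝ := sInf {r : ℝ | 0 ≤ r ∧ GHPClose r X Y}

/-- real trees: geodesic metric spaces satisfying the four point condition -/
def IsRTree (X : RWTree) : Prop :=
  (∀ x y : X.pt, ∃ γ : ℝ → X.pt, γ 0 = x ∧ γ (dist x y) = y ∧
    ∀ s ∈ Set.Icc 0 (dist x y), ∀ t ∈ Set.Icc 0 (dist x y), dist (γ s) (γ t) = |s - t|) ∧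
  (∀ a b c d : X.pt, dist a b + dist c d ≤ max (dist a c + dist b d) (dist a d + dist b c))

/-- the degree of a point: the number of connected components of its complement -/
def degree (X : RWTree) (x : X.pt) : ℕ∞ := ENat.card (ConnectedComponents {y : X.pt // y ≠ x})

/-- length of the longest common initial segment of two addresses -/
def lcp : List Bool → List Bool → ℕ
  | (a :: s), (b :: t) => if a = b then lcp s t + 1 else 0
  | _, _ => 0

/-- graph distance between two vertices given by their addresses -/
def gd (s t : List Bool) : ℕ := (s.length - lcp s t) + (t.length - lcp s t)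

/-- The vertex set of the planted tree `T`: the root has address `[]` and the vertex of `T` with
address `a` has address `false :: a`. -/
def Pt (T : BT) : Type := {b : List Bool // b = [] ∨ ∃ a ∈ T.verts, b = false :: a}

/-- the scale `1 / √n` (and `1` for `n = 0`) -/
def scale (n : ℕ) : ℝ := if n = 0 then 1 else (Real.sqrt n)⁻¹

end Pool.Agent.ALD
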