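import Pool.Agent.ALD.ResL

/-! Module DELI: deletion and insertion of one leaf -/

namespace Pool.Agent.ALD

open BT

private theorem delI_self {j : ℕ} {T : BT} (h : j ∉ T.labs) :
    T.res (fun a => decide (a ≠ j)) = some T := by
  apply res_all
  intro a ha
  have : a ≠ j := fun h' => h (h' ▸ ha)
  simpa using this

private theorem delI_leaf (j : ℕ) : (leaf j).res (fun a => decide (a ≠ j)) = none := by
  simp [BT.res]

private theorem delI_node (p : ℕ → Bool) (l r : BT) :
    (node l r).res p = match l.res p, r.res p with
    | some x, some y => some (node x y)
    | some x, none => some x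
    | none, some y => some y
    | none, none => none := by
  rw [BT.res]
  cases l.res p <;> cases r.res p <;> rfl

theorem del_of_mem_ins {j : ℕ} {S T : BT} (hj : j ∉ S.labs) (h : T ∈ ins j S) :
    T.del j = some S := by
  unfold BT.del
  induction S generalizing T with
  | leaf a =>
    have hja : a ≠ j := by
      intro h'; apply hj; simp [BT.labs, h']
    simp only [BT.ins, List.mem_cons, List.not_mem_nil, or_false] at h
    rcases h with rfl | rfl <;> simp [BT.res, hja]
  | node l r hl hr =>
    have hjl : j ∉ l.labs := by
      intro h'; apply hj; simp [BT.labs, h']
    have hjr : j ∉ r.labs := by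
      intro h'; apply hj; simp [BT.labs, h']
    simp only [BT.ins, List.mem_cons, List.mem_append, List.mem_map] at h
    rcases h with rfl | rfl | ⟨x, hx, rfl⟩ | ⟨x, hx, rfl⟩
    · rw [delI_node, delI_leaf, delI_self hj]
    · rw [delI_node, delI_leaf, delI_self hj]
    · rw [delI_node, hl hjl hx, delI_self hjr]
    · rw [delI_node, hr hjr hx, delI_self hjl]

private theorem delI_head (j : ℕ) (r : BT) : node (leaf j) r ∈ ins j r := by
  cases r <;> simp [BT.ins]

private theorem delI_head' (j : ℕ) (r : BT) : node r (leaf j) ∈ ins j r := by
  cases r <;> simp [BT.ins]

private theorem delI_eq_leaf {j : ℕ} {T : BT} (hT : T.labs.Nodup) (h : ∀ a ∈ T.labs, a = j) :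
    T = leaf j := by
  cases T with
  | leaf a => rw [h a (by simp [BT.labs])]
  | node l r =>
    exfalso
    have h1 : 0 < l.labs.length := by rw [length_labs]; exact size_pos l
    have h2 : 0 < r.labs.length := by rw [length_labs]; exact size_pos r
    obtain ⟨a, ha⟩ := List.exists_mem_of_length_pos h1
    obtain ⟨b, hb⟩ := List.exists_mem_of_length_pos h2
    have ha' := h a (by simp [BT.labs, ha])
    have hb' := h b (by simp [BT.labs, hb])
    rw [BT.labs, List.nodup_append] at hT
    exact hT.2.2 a ha b hb (ha'.trans hb'.symm)

/-- if the leaf `j` is a child of the top vertex this is one of the two first elements of the list;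
otherwise delete inside the left or right subtree, which still has other leaves -/
theorem mem_ins_of_del {j : ℕ} {S T : BT} (hT : T.labs.Nodup) (hj : j ∈ T.labs)
    (h : T.del j = some S) : T ∈ ins j S := by
  unfold BT.del at h
  induction T generalizing S with
  | leaf a =>
    simp only [BT.labs, List.mem_singleton] at hj
    subst hj
    rw [delI_leaf] at h
    exact absurd h (by simp)
  | node l r hl hr =>
    rw [BT.labs, List.nodup_append] at hT
    obtain ⟨hTl, hTr, hTd⟩ := hT
    rw [BT.labs, List.mem_append] at hj
    rw [delI_node] at h
    rcases hj with hj | hj
    · have hjr : j ∉ r.labs := fun h' => hTd j hj j h' rfl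
      rw [delI_self hjr] at h
      cases hl' : l.res (fun a => decide (a ≠ j)) with
      | none =>
        rw [hl'] at h
        simp only [Option.some.injEq] at h
        subst h
        rw [res_eq_none_iff] at hl'
        have : l = leaf j := delI_eq_leaf hTl (by
          intro a ha
          have := hl' a ha
          simpa using this)
        subst this
        exact delI_head j r
      | some x =>
        rw [hl'] at h
        simp only [Option.some.injEq] at h
        subst h
        have := hl hTl hj hl'
        simp only [BT.ins, List.mem_cons, List.mem_append, List.mem_map]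
        exact Or.inr (Or.inr (Or.inl ⟨l, this, rfl⟩))
    · have hjl : j ∉ l.labs := fun h' => hTd j h' j hj rfl
      rw [delI_self hjl] at h
      cases hr' : r.res (fun a => decide (a ≠ j)) with
      | none =>
        rw [hr'] at h
        simp only [Option.some.injEq] at h
        subst h
        rw [res_eq_none_iff] at hr'
        have : r = leaf j := delI_eq_leaf hTr (by
          intro a ha
          have := hr' a ha
          simpa using this)
        subst this
        exact delI_head' j l
      | some x =>
        rw [hr'] at h
        simp only [Option.some.injEq] at h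
        subst h
        have := hr hTr hj hr'
        simp only [BT.ins, List.mem_cons, List.mem_append, List.mem_map]
        exact Or.inr (Or.inr (Or.inr ⟨r, this, rfl⟩))

theorem exists_del {j : ℕ} {T : BT} (hT : T.labs.Nodup) (h2 : 2 ≤ T.size) :
    ∃ S, T.del j = some S := by
  unfold BT.del
  cases h : T.res (fun a => decide (a ≠ j)) with
  | some S => exact ⟨S, rfl⟩
  | none =>
    exfalso
    rw [res_eq_none_iff] at h
    have : T = leaf j := delI_eq_leaf hT (by
      intro a ha
      have := h a ha
      simpa using this)
    subst this
    simp [BT.size] at h2

theorem nodup_ins {j : ℕ} {S : BT} (hj : j ∉ S.labs) (hS : S.labs.Nodup) : (ins j S).Nodup := by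
  induction S with
  | leaf a =>
    have hja : a ≠ j := by
      intro h'; apply hj; simp [BT.labs, h']
    simp [BT.ins, hja, Ne.symm hja]
  | node l r hl hr =>
    have hjl : j ∉ l.labs := by
      intro h'; apply hj; simp [BT.labs, h']
    have hjr : j ∉ r.labs := by
      intro h'; apply hj; simp [BT.labs, h']
    rw [BT.labs, List.nodup_append] at hS
    obtain ⟨hSl, hSr, hSd⟩ := hS
    have nl : ∀ x : BT, l ≠ node l x := by
      intro x h
      have := congrArg BT.size h
      have h' := size_pos x
      simp only [BT.size] at this
      omega
    have nr : ∀ x : BT, r ≠ node x r := by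
      intro x h
      have := congrArg BT.size h
      have h' := size_pos x
      simp only [BT.size] at this
      omega
    simp only [BT.ins, List.nodup_cons, List.mem_cons, List.mem_append, List.mem_map, not_or,
      not_exists, not_and]
    refine ⟨⟨?_, ?_, ?_⟩, ⟨?_, ?_⟩, ?_⟩
    · simp
    · intro x _ h
      simp only [BT.node.injEq] at h
      exact nr _ h.2
    · intro x _ h
      simp only [BT.node.injEq] at h
      apply hjl
      rw [h.1]
      simp [BT.labs]
    · intro x _ h
      simp only [BT.node.injEq] at h
      apply hjr
      rw [h.2]
      simp [BT.labs]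
    · intro x _ h
      simp only [BT.node.injEq] at h
      exact nl _ h.1
    · rw [List.nodup_append]
      refine ⟨?_, ?_, ?_⟩
      · apply List.Nodup.map _ (hl hjl hSl)
        intro x y h
        simpa using h
      · apply List.Nodup.map _ (hr hjr hSr)
        intro x y h
        simpa using h
      · intro a ha b hb hab
        simp only [List.mem_map] at ha hb
        obtain ⟨x, hx, rfl⟩ := ha
        obtain ⟨y, hy, rfl⟩ := hb
        simp only [BT.node.injEq] at hab
        have := size_of_mem_ins hx
        rw [hab.1] at this
        omega

end Pool.Agent.ALD
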