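import Pool.Agent.ALD.GdB

/-! Module GDC: long paths carry mass (deterministic, one list) -/

noncomputable section

namespace Pool.Agent.ALD

lemma gdC_case1 {n : ℕ} (hn : 1 ≤ n) {x0 : ℝ} (hx : 1 ≤ x0) {l : List ℕ} (hG : GoodL n x0 l)
    (hl : ∀ m ∈ l, 1 ≤ m) {β ℓ : ℝ} (hβ : 0 < β) (hℓ : 0 < ℓ) (hβℓ : 3200 * β ^ (1 / 8 : ℝ) ≤ ℓ)
    {k : ℕ} (hk0 : (2 : ℝ) ^ k * x0 ≤ n) (hk1 : (2 : ℝ) ^ k ≤ β * n)
    (hk2 : β * n ≤ (2 : ℝ) ^ (k + 1)) {p w s : List ℕ}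
    (h : l = p ++ w ++ s) (hs : 2 ^ k ≤ 1 + s.sum) (hw : ℓ / 2 * Real.sqrt n ≤ w.length) :
    3 / 8 * ℓ * Real.sqrt β * n ≤ (w.sum : ℝ) := by
  have hn' : (0 : ℝ) < n := by exact_mod_cast hn
  have hsn : 0 ≤ Real.sqrt n := Real.sqrt_nonneg _
  have hwin := good_window hn hG hl hk0 (by linarith) h hs
  have hsum := sum_gM_le (M := 2 ^ (k + 1)) Nat.one_le_two_pow w
  have h1 : ((2 : ℝ) ^ k / n) ^ (1 / 8 : ℝ) ≤ β ^ (1 / 8 : ℝ) := by
    apply Real.rpow_le_rpow (by positivity) _ (by norm_num)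
    rw [div_le_iff₀ hn']
    exact hk1
  have h2 : ((2 : ℝ) ^ k / n) ^ (1 / 8 : ℝ) * Real.sqrt n ≤ ℓ / 3200 * Real.sqrt n := by
    apply mul_le_mul_of_nonneg_right _ hsn
    linarith
  have h3 : 3 / 8 * ℓ * Real.sqrt n ≤ (w.map (gM (2 ^ (k + 1)))).sum := by
    have h4 := (abs_le.mp hwin).2
    nlinarith
  have e2 : (((2 : ℕ) ^ (k + 1) : ℕ) : ℝ) = (2 : ℝ) ^ (k + 1) := by push_cast; ring
  rw [e2] at hsum
  have hpos : 0 < Real.sqrt ((2 : ℝ) ^ (k + 1)) := Real.sqrt_pos.mpr (by positivity)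
  have h5 := h3.trans hsum
  rw [le_div_iff₀ hpos] at h5
  have h6 : Real.sqrt β * Real.sqrt n ≤ Real.sqrt ((2 : ℝ) ^ (k + 1)) := by
    rw [← Real.sqrt_mul hβ.le]
    exact Real.sqrt_le_sqrt hk2
  have h7 : Real.sqrt n * Real.sqrt n = n := Real.mul_self_sqrt hn'.le
  calc 3 / 8 * ℓ * Real.sqrt β * n = 3 / 8 * ℓ * Real.sqrt β * (Real.sqrt n * Real.sqrt n) := by
        rw [h7]
    _ = 3 / 8 * ℓ * Real.sqrt n * (Real.sqrt β * Real.sqrt n) := by ring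
    _ ≤ 3 / 8 * ℓ * Real.sqrt n * Real.sqrt ((2 : ℝ) ^ (k + 1)) :=
        mul_le_mul_of_nonneg_left h6 (by positivity)
    _ ≤ _ := h5

/-- A long path carries a positive proportion of the mass. Choose `β ≤ 1 / x0` with
`400 β^(1/8) ≤ ℓ / 8` and `k` with `2^k ≤ β n < 2^(k+1)` (`n₀ ≥ 1 / β`). If `2^k ≤ 1 + s.sum`:
`w.length ≤ 26 β^(1/8) √n + w.sum / √(2^(k+1))`, so `w.sum ≥ (ℓ / 2) √n √(β n) = (ℓ √β / 2) n`. If
`1 + s.sum < 2^k`, split `w = w₁ ++ w₂` with `w₁` the longest beginning such that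
`2^k ≤ 1 + (w₂ ++ s).sum` (if `1 + (w ++ s).sum < 2^k` apply `good_height` to `w ++ s`:
contradiction for large `n`); after at most one more entry the rest has `1 + sum < 2^k` and
`good_height` bounds its length by `(ℓ/8) √n`; so `w₁.length ≥ (ℓ / 2) √n` and the first case applies to
`w₁`. -/
theorem good_mass {x0 ℓ : ℝ} (hx : 1 ≤ x0) (hℓ : 0 < ℓ) : ∃ ε : ℝ, 0 < ε ∧ ∃ n₀ : ℕ, ∀ n ≥ n₀,
    ∀ l : List ℕ, GoodL n x0 l → (∀ m ∈ l, 1 ≤ m) → l.sum + 1 = n → ∀ p w s : List ℕ,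
      l = p ++ w ++ s → ℓ * Real.sqrt n ≤ w.length → ε * n ≤ (w.sum : ℝ) := by
  set β : ℝ := min (1 / x0) ((ℓ / 3200) ^ 8) with hβdef
  have hx0 : 0 < x0 := by linarith
  have hβ : 0 < β := lt_min (by positivity) (by positivity)
  have hβ1 : β * x0 ≤ 1 := by
    have : β ≤ 1 / x0 := min_le_left _ _
    rw [le_div_iff₀ hx0] at this
    exact this
  have hβℓ : 3200 * β ^ (1 / 8 : ℝ) ≤ ℓ := by
    have h1 : β ≤ (ℓ / 3200) ^ 8 := min_le_right _ _
    have h2 : β ^ (1 / 8 : ℝ) ≤ ((ℓ / 3200) ^ 8) ^ (1 / 8 : ℝ) :=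
      Real.rpow_le_rpow hβ.le h1 (by norm_num)
    rw [← Real.rpow_natCast, ← Real.rpow_mul (by positivity)] at h2
    norm_num at h2 ⊢
    linarith
  refine ⟨3 / 8 * ℓ * Real.sqrt β, by positivity, max 1 (max ⌈1 / β⌉₊ ⌈(8 / (3 * ℓ)) ^ 2⌉₊), ?_⟩
  intro n hn l hG hl hsum p w s h hw
  have hn1 : 1 ≤ n := (le_max_left _ _).trans hn
  have hn' : (0 : ℝ) < n := by exact_mod_cast hn1
  have hsn : 0 ≤ Real.sqrt n := Real.sqrt_nonneg _
  have hn2 : 1 ≤ β * n := by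
    have h1 : (1 / β : ℝ) ≤ n :=
      (Nat.le_ceil _).trans (by exact_mod_cast ((le_max_left _ _).trans (le_max_right _ _)).trans hn)
    rw [div_le_iff₀ hβ] at h1
    linarith
  have hn3 : 1 ≤ 3 / 8 * ℓ * Real.sqrt n := by
    have h1 : ((8 / (3 * ℓ)) ^ 2 : ℝ) ≤ n :=
      (Nat.le_ceil _).trans (by exact_mod_cast ((le_max_right _ _).trans (le_max_right _ _)).trans hn)
    have h2 := Real.sqrt_le_sqrt h1
    rw [Real.sqrt_sq (by positivity), div_le_iff₀ (by positivity)] at h2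
    linarith
  obtain ⟨k, hk1, hk2⟩ := exists_nat_pow_near hn2 (by norm_num : (1 : ℝ) < 2)
  have hk0 : (2 : ℝ) ^ k * x0 ≤ n := by
    calc (2 : ℝ) ^ k * x0 ≤ β * n * x0 := mul_le_mul_of_nonneg_right hk1 hx0.le
      _ = β * x0 * n := by ring
      _ ≤ 1 * n := mul_le_mul_of_nonneg_right hβ1 hn'.le
      _ = n := one_mul _
  have hA : 400 * (((2 : ℝ) ^ k / n) ^ (1 / 8 : ℝ) * Real.sqrt n) ≤ ℓ / 8 * Real.sqrt n := by
    have h1 : ((2 : ℝ) ^ k / n) ^ (1 / 8 : ℝ) ≤ β ^ (1 / 8 : ℝ) := by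
      apply Real.rpow_le_rpow (by positivity) _ (by norm_num)
      rw [div_le_iff₀ hn']
      exact hk1
    have h2 : ((2 : ℝ) ^ k / n) ^ (1 / 8 : ℝ) * Real.sqrt n ≤ ℓ / 3200 * Real.sqrt n := by
      apply mul_le_mul_of_nonneg_right _ hsn
      linarith
    linarith
  have hpow : 2 ^ k ≤ 2 ^ (k + 1) := Nat.pow_le_pow_right (by norm_num) (by omega)
  by_cases hc : 2 ^ k ≤ 1 + s.sum
  · refine gdC_case1 hn1 hx hG hl hβ hℓ hβℓ hk0 hk1 hk2.le h hc ?_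
    have : 0 ≤ ℓ * Real.sqrt n := by positivity
    linarith
  · push Not at hc
    by_cases hc2 : 2 ^ k ≤ 1 + (w ++ s).sum
    · obtain ⟨w₁, m, w₂, e, h3, h4⟩ := gdB_split (2 ^ k) s w hc hc2
      have h5 := good_height hn1 hx hG hl k hk0 (p := p ++ w₁ ++ [m]) (s := w₂ ++ s)
        (by rw [h, e]; simp) (by omega)
      have h6 : (w.length : ℝ) = w₁.length + 1 + w₂.length := by
        rw [e]; push_cast [List.length_append, List.length_cons]; ring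
      have h7 : ((w₂ ++ s).length : ℝ) = w₂.length + s.length := by
        push_cast [List.length_append]; ring
      have h8 : (0 : ℝ) ≤ s.length := Nat.cast_nonneg _
      have h9 : ℓ / 2 * Real.sqrt n ≤ w₁.length := by
        rw [h7] at h5
        rw [h6] at hw
        linarith
      have h10 := gdC_case1 hn1 hx hG hl hβ hℓ hβℓ hk0 hk1 hk2.le (p := p) (w := w₁)
        (s := m :: w₂ ++ s) (by rw [h, e]; simp) h3 h9
      have h11 : w₁.sum ≤ w.sum := by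
        rw [e, List.sum_append]; omega
      have h12 : ((w₁.sum : ℕ) : ℝ) ≤ ((w.sum : ℕ) : ℝ) := Nat.cast_le.mpr h11
      exact h10.trans h12
    · push Not at hc2
      exfalso
      have h5 := good_height hn1 hx hG hl k hk0 (p := p) (s := w ++ s)
        (by rw [h]; simp) (by omega)
      have h7 : ((w ++ s).length : ℝ) = w.length + s.length := by
        push_cast [List.length_append]; ring
      have h8 : (0 : ℝ) ≤ s.length := Nat.cast_nonneg _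
      rw [h7] at h5
      have h9 : 0 < ℓ * Real.sqrt n := by
        have : 0 < Real.sqrt n := Real.sqrt_pos.mpr hn'
        positivity
      linarith

end Pool.Agent.ALD
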