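import Pool.Agent.ALD.DelI

/-! Module TRCH: the list `trees n` contains exactly once each planar binary tree with leaves 0, ..., n - 1 -/

namespace Pool.Agent.ALD

open BT

private theorem trCh_eq_leaf {j : ℕ} {T : BT} (h : T.labs.Perm [j]) : T = leaf j := by
  have h' : T.labs = [j] := List.perm_singleton.mp h
  cases T with
  | leaf a => simpa [BT.labs] using h'
  | node l r =>
    exfalso
    have h1 : 0 < l.labs.length := by rw [length_labs]; exact size_pos l
    have h2 : 0 < r.labs.length := by rw [length_labs]; exact size_pos r
    have := congrArg List.length h'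
    simp only [BT.labs, List.length_append, List.length_singleton] at this
    omega

private theorem trCh_filter (n : ℕ) :
    (List.range (n + 1)).filter (fun a => decide (a ≠ n)) = List.range n := by
  rw [List.range_succ, List.filter_append]
  have h1 : (List.range n).filter (fun a => decide (a ≠ n)) = List.range n := by
    rw [List.filter_eq_self]
    intro a ha
    have := List.mem_range.mp ha
    simp only [ne_eq, decide_not, Bool.not_eq_eq_eq_not, Bool.not_true, decide_eq_false_iff_not]
    omega
  rw [h1]
  simp

/-- Induction on `n`. For `T` with labels a permutation of `range (n + 2)`: delete the label `n + 1`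
(`exists_del`, `labs_res`), use the induction hypothesis and `mem_ins_of_del`. -/
theorem mem_trees_iff {n : ℕ} (hn : 1 ≤ n) (T : BT) :
    T ∈ trees n ↔ T.labs.Perm (List.range n) := by
  induction n, hn using Nat.le_induction generalizing T with
  | base =>
    constructor
    · intro h
      simp only [trees, List.mem_singleton] at h
      subst h
      simp [BT.labs, List.range_succ]
    · intro h
      have h' : T.labs.Perm [0] := by simpa [List.range_succ] using h
      rw [trCh_eq_leaf h']
      simp [trees]
  | succ n hn ih =>
    obtain ⟨m, rfl⟩ : ∃ m, n = m + 1 := ⟨n - 1, by omega⟩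
    rw [trees, List.mem_flatMap]
    constructor
    · rintro ⟨S, hS, hT⟩
      have h1 := labs_of_mem_ins hT
      have h2 := (ih S).mp hS
      have h3 : ((m + 1) :: S.labs).Perm ((m + 1) :: List.range (m + 1)) := h2.cons _
      have h4 : ((m + 1) :: List.range (m + 1)).Perm (List.range (m + 1 + 1)) := by
        rw [List.range_succ (n := m + 1)]
        exact (List.perm_append_comm (l₁ := [m + 1]) (l₂ := List.range (m + 1)))
      exact h1.trans (h3.trans h4)
    · intro h
      have hnd : T.labs.Nodup := h.nodup_iff.mpr List.nodup_range
      have hmem : (m + 1) ∈ T.labs := h.mem_iff.mpr (by simp)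
      have hsz : T.size = m + 2 := by
        rw [← length_labs, h.length_eq]; simp
      obtain ⟨S, hS⟩ := exists_del (j := m + 1) hnd (by omega)
      refine ⟨S, ?_, mem_ins_of_del hnd hmem hS⟩
      rw [ih S]
      unfold BT.del at hS
      rw [labs_res hS]
      have := h.filter (fun a => decide (a ≠ m + 1))
      rw [trCh_filter] at this
      exact this

theorem nodup_labs_of_mem_trees {n : ℕ} {T : BT} (h : T ∈ trees n) : T.labs.Nodup := by
  cases n with
  | zero => simp [trees] at h
  | succ n =>
    rw [mem_trees_iff (by omega)] at h
    exact h.nodup_iff.mpr List.nodup_range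

theorem mem_labs_of_mem_trees {n : ℕ} {T : BT} (h : T ∈ trees n) (i : ℕ) : i ∈ T.labs ↔ i < n := by
  cases n with
  | zero => simp [trees] at h
  | succ n =>
    rw [mem_trees_iff (by omega)] at h
    rw [h.mem_iff]
    simp

theorem size_of_mem_trees {n : ℕ} {T : BT} (h : T ∈ trees n) : T.size = n := by
  cases n with
  | zero => simp [trees] at h
  | succ n =>
    rw [mem_trees_iff (by omega)] at h
    rw [← length_labs, h.length_eq]
    simp

/-- Induction on `n`: `nodup_ins`, and for different `S` the lists `ins (n + 1) S` are disjoint by
`del_of_mem_ins`. -/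
theorem nodup_trees (n : ℕ) : (trees n).Nodup := by
  match n with
  | 0 => simp [trees]
  | 1 => simp [trees]
  | (n + 2) =>
    have ih := nodup_trees (n + 1)
    rw [trees, List.nodup_flatMap]
    have hj : ∀ S ∈ trees (n + 1), (n + 1) ∉ S.labs := by
      intro S hS
      rw [mem_labs_of_mem_trees hS]
      omega
    refine ⟨fun S hS => nodup_ins (hj S hS) (nodup_labs_of_mem_trees hS), ?_⟩
    rw [List.pairwise_iff_getElem]
    intro a b ha hb hab
    simp only [Function.onFun]
    intro T hT1 hT2
    have e1 := del_of_mem_ins (hj _ (List.getElem_mem ha)) hT1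
    have e2 := del_of_mem_ins (hj _ (List.getElem_mem hb)) hT2
    rw [e1] at e2
    have := (List.Nodup.getElem_inj_iff ih).mp (Option.some.inj e2)
    omega

theorem length_trees_succ (n : ℕ) :
    (trees (n + 2)).length = (4 * n + 2) * (trees (n + 1)).length := by
  rw [trees, List.length_flatMap]
  have : ∀ S ∈ trees (n + 1), (ins (n + 1) S).length = 4 * n + 2 := by
    intro S hS
    have h1 := length_ins (n + 1) S
    rw [size_of_mem_trees hS] at h1
    omega
  rw [List.map_congr_left this]
  simp [mul_comm]

theorem length_trees_pos {n : ℕ} (hn : 1 ≤ n) : 0 < (trees n).length := by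
  induction n, hn using Nat.le_induction with
  | base => simp [trees]
  | succ n hn ih =>
    obtain ⟨m, rfl⟩ : ∃ m, n = m + 1 := ⟨n - 1, by omega⟩
    rw [length_trees_succ]
    positivity

end Pool.Agent.ALD
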