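import Pool.Agent.ALD.MeeB
import Pool.Agent.ALD.GdC
import Pool.Agent.ALD.AtS
import Pool.Agent.ALD.TrCh

/-! Module DETA: in a good tree deep vertices have large subtrees (deterministic) -/

noncomputable section

namespace Pool.Agent.ALD

open BT

/-- `Good` gives `GoodL` for the spine of each leaf -/
theorem goodL_of_good {n : ℕ} {x0 : ℝ} {T : BT} (h : Good n x0 T) {i : ℕ} (hi : i < n) :
    GoodL n x0 (T.sp i) := by
  intro j p s hps hj hs
  exact h i hi j p s hps hj hs

/-- Take `ε, n₀` from `good_mass`. For a child `c` of `v` and a descendant `y` at depth `≥ ℓ √n` below `c`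
take the leaf `i` below `y` and the spine `p ++ s` from `exists_spine`; split
`p = p.take c.length ++ p.drop c.length`; `good_mass` gives `(p.drop c.length).sum ≥ ε n`, and
`T.sz c = 1 + ((p ++ s).drop c.length).sum`. -/
theorem isBP_of_deepBP {x0 ℓ : ℝ} (hx : 1 ≤ x0) (hℓ : 0 < ℓ) : ∃ ε : ℝ, 0 < ε ∧ ∃ n₀ : ℕ, ∀ n ≥ n₀,
    ∀ T ∈ trees n, Good n x0 T → ∀ v : List Bool, DeepBP T (ℓ * Real.sqrt n) v →
      IsBP n ε T v := by
  obtain ⟨ε, hε, n₀, h⟩ := good_mass hx hℓ
  refine ⟨ε, hε, n₀, fun n hn T hT hG v hv => ?_⟩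
  have key : ∀ c : List Bool, Deep T (ℓ * Real.sqrt n) c → ε * n ≤ (T.sz c : ℝ) := by
    rintro c ⟨y, ⟨S, hS⟩, hcy, hlen⟩
    have hnd := nodup_labs_of_mem_trees hT
    obtain ⟨i, hi, p, s, hsp, hpl, _, hk, _⟩ := exists_spine hnd hS
    have hiT : i ∈ T.labs := at_labs hS i hi
    have hin : i < n := (mem_labs_of_mem_trees hT i).1 hiT
    have hsum := sp_sum hiT
    rw [size_of_mem_trees hT] at hsum
    have hcl : c.length ≤ y.length := hcy.length_le
    have h1 := h n hn (T.sp i) (goodL_of_good hG hin) (sp_pos hiT) (by omega)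
      (p.take c.length) (p.drop c.length) s (by rw [List.take_append_drop, hsp]) (by
        rw [List.length_drop, hpl, Nat.cast_sub hcl]; exact hlen)
    have h2 := hk c.length hcl
    have h3 : y.take c.length = c := by
      obtain ⟨t, ht⟩ := hcy
      rw [← ht]; simp
    rw [h3, List.drop_append_of_le_length (by omega), List.sum_append] at h2
    have h4 : (p.drop c.length).sum ≤ T.sz c := by omega
    have h5 : ((p.drop c.length).sum : ℝ) ≤ (T.sz c : ℝ) := by exact_mod_cast h4
    exact h1.trans h5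
  exact ⟨key _ hv.1, key _ hv.2⟩

end Pool.Agent.ALD
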