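import Pool.Agent.ALD.AtS
import Pool.Agent.ALD.TrCh

/-! Module DETS: finding many large subtrees off a short path (deterministic) -/

noncomputable section

namespace Pool.Agent.ALD

open BT

/-- the subtree hanging off the path to `v` at depth `k` has at least `ε n` leaves -/
def Marked (n : ℕ) (ε : ℝ) (T : BT) (v : List Bool) (k : ℕ) : Prop :=
  k < v.length ∧ ε * n ≤ (T.sz (v.take k ++ [!(v.getD k false)]) : ℝ)

/-- `N` marked depths in total strictly inside the two segments `[p, p ++ b :: w]`,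
`[p', p' ++ b' :: w']` -/
def St (n : ℕ) (ε : ℝ) (N : ℕ) (T : BT) (p w p' w' : List Bool) (b b' : Bool) : Prop :=
  ∃ V V' : Finset ℕ, (∀ k ∈ V, p.length < k ∧ Marked n ε T (p ++ b :: w) k) ∧
    (∀ k ∈ V', p'.length < k ∧ Marked n ε T (p' ++ b' :: w') k) ∧ N ≤ V.card + V'.card

/-- Counting in a list. -/
private theorem detS_count (P : ℕ → Bool) : ∀ (w : List ℕ) (K : Finset ℕ),
    (∀ k ∈ K, ∃ m, w[k]? = some m ∧ P m = true) → K.card ≤ (w.filter P).length := by
  intro w
  induction w with
  | nil =>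
    intro K hK
    have h : K = ∅ := by
      rw [Finset.eq_empty_iff_forall_notMem]
      intro k hk
      obtain ⟨m, hm, -⟩ := hK k hk
      simp at hm
    rw [h]; simp
  | cons x w ih =>
    intro K hK
    have h1 : ((K.erase 0).image (fun k => k - 1)).card = (K.erase 0).card := by
      apply Finset.card_image_of_injOn
      intro a ha b hb hab
      have ha' := Finset.ne_of_mem_erase (Finset.mem_coe.1 ha)
      have hb' := Finset.ne_of_mem_erase (Finset.mem_coe.1 hb)
      simp only at hab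
      omega
    have h2 : (K.erase 0).card ≤ (w.filter P).length := by
      rw [← h1]
      apply ih
      intro k hk
      obtain ⟨j, hj, rfl⟩ := Finset.mem_image.1 hk
      have hj0 := Finset.ne_of_mem_erase hj
      obtain ⟨m, hm, hm'⟩ := hK j (Finset.mem_of_mem_erase hj)
      refine ⟨m, ?_, hm'⟩
      obtain ⟨i, rfl⟩ : ∃ i, j = i + 1 := ⟨j - 1, by omega⟩
      simpa using hm
    by_cases h0 : 0 ∈ K
    · have h3 := Finset.card_erase_of_mem h0
      obtain ⟨m, hm, hm'⟩ := hK 0 h0
      simp only [List.getElem?_cons_zero, Option.some.injEq] at hm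
      rw [← hm] at hm'
      rw [List.filter_cons_of_pos hm', List.length_cons]
      omega
    · rw [Finset.erase_eq_of_notMem h0] at h2
      refine h2.trans ?_
      rw [List.filter_cons]
      split_ifs
      · rw [List.length_cons]; omega
      · exact le_rfl

private theorem detS_sum_filter (P : ℕ → Bool) : ∀ (a b : List ℕ), (∀ m ∈ b, P m = true) →
    b.sum ≤ ((a ++ b).filter P).sum := by
  intro a b hb
  rw [List.filter_append, List.sum_append, List.filter_eq_self.2 hb]
  omega

private theorem detS_bp_sz {n : ℕ} {ε : ℝ} {T : BT} {a : List Bool} (h : IsBP n ε T a) :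
    ε * n ≤ (T.sz a : ℝ) := by
  refine h.1.trans ?_
  exact_mod_cast sz_mono T a [false]

/-- A heavy segment contains a new mark. -/
private theorem detS_new {n : ℕ} {ε ε' η : ℝ} (hn : 2 ≤ n) (hε : 0 < ε) (hη : 0 < η) {T : BT}
    (hT : T ∈ trees n) (hS : SmallMass n ε (η / 4) ε' T) {y : List Bool} (hy : IsBP n ε T y)
    {u : ℕ} (hu : u < y.length)
    (hm : η * n / 2 < (T.sz (y.take (u + 1)) : ℝ) - T.sz y) :
    ∃ k, u < k ∧ Marked n ε' T y k := by
  have hnR : (0 : ℝ) < n := by exact_mod_cast (by omega : 0 < n)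
  have hszy : 0 < T.sz y := by
    have h1 := detS_bp_sz hy
    have h2 : 0 < ε * n := mul_pos hε hnR
    exact_mod_cast h2.trans_le h1
  obtain ⟨S, hSy⟩ := sz_pos_iff.1 hszy
  obtain ⟨i, hi, p0, s, hsp, hlen, hsum, hdrop, hget⟩ :=
    exists_spine (nodup_labs_of_mem_trees hT) hSy
  have hin : i < n := (mem_labs_of_mem_trees hT i).1 (at_labs hSy i hi)
  have hSsz : T.sz y = S.size := sz_of_at hSy
  have h1 : ε * n ≤ 1 + (s.sum : ℝ) := by
    have h2 := detS_bp_sz hy
    rw [hSsz, ← hsum, Nat.cast_add, Nat.cast_one] at h2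
    exact h2
  have h2 := hS i hin p0 s hsp h1
  have h3 : 1 + ((p0 ++ s).drop (u + 1)).sum = T.sz (y.take (u + 1)) := hdrop (u + 1) (by omega)
  have h4 : (p0 ++ s).drop (u + 1) = p0.drop (u + 1) ++ s :=
    List.drop_append_of_le_length (by omega)
  rw [h4, List.sum_append] at h3
  have h5 : η * n / 2 < ((p0.drop (u + 1)).sum : ℝ) := by
    have h6 : (T.sz (y.take (u + 1)) : ℝ) = 1 + (((p0.drop (u + 1)).sum : ℝ) + s.sum) := by
      rw [← h3]; push_cast; ring
    have h7 : (T.sz y : ℝ) = 1 + s.sum := by rw [hSsz, ← hsum]; push_cast; ring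
    rw [h6, h7] at hm
    linarith
  have h6 : ∃ m ∈ p0.drop (u + 1), ε' * n < (m : ℝ) := by
    by_contra hcon
    push Not at hcon
    have h7 := detS_sum_filter (fun m : ℕ => decide ((m : ℝ) ≤ ε' * n)) (p0.take (u + 1))
      (p0.drop (u + 1)) (fun m hm => by simpa using hcon m hm)
    rw [List.take_append_drop] at h7
    have h8 : ((p0.drop (u + 1)).sum : ℝ) ≤
        ((p0.filter (fun m : ℕ => decide ((m : ℝ) ≤ ε' * n))).sum : ℝ) := by exact_mod_cast h7
    have h9 : 0 < η * n := mul_pos hη hnR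
    linarith
  obtain ⟨m, hm1, hm2⟩ := h6
  obtain ⟨j, hj, hjm⟩ := List.mem_iff_getElem.1 hm1
  rw [List.length_drop] at hj
  have hk : u + 1 + j < y.length := by omega
  refine ⟨u + 1 + j, by omega, hk, ?_⟩
  have h7 := hget (u + 1 + j) hk
  rw [List.getElem_drop] at hjm
  rw [List.getElem?_eq_getElem (by omega), Option.some.injEq, hjm] at h7
  rw [List.getD_eq_getElem _ _ hk, ← h7]
  exact hm2.le

/-- The lowest mark (or the upper end of the segment) is a branch point. -/
private theorem detS_top {n : ℕ} {ε : ℝ} {T : BT} {p w : List Bool} {b : Bool}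
    (h1 : IsBP n ε T p) (h3 : IsBP n ε T (p ++ b :: w)) {V : Finset ℕ}
    (hV : ∀ k ∈ V, p.length < k ∧ Marked n ε T (p ++ b :: w) k) :
    ∃ u, u < (p ++ b :: w).length ∧ (∀ k ∈ V, k ≤ u) ∧ p.length ≤ u ∧
      ∃ (a : List Bool) (c : Bool) (w1 : List Bool), p ++ b :: w = a ++ c :: w1 ∧
        a ++ [c] = (p ++ b :: w).take (u + 1) ∧ IsBP n ε T a := by
  set y := p ++ b :: w with hy
  have hlen : y.length = p.length + (w.length + 1) := by rw [hy]; simp
  obtain ⟨u, hu, hmax⟩ := Finset.exists_max_image (insert p.length V) id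
    ⟨p.length, Finset.mem_insert_self _ _⟩
  simp only [id] at hmax
  have hu1 : p.length ≤ u := hmax p.length (Finset.mem_insert_self _ _)
  have hu2 : u < y.length := by
    rcases Finset.mem_insert.1 hu with h | h
    · rw [h]; omega
    · exact (hV u h).2.1
  have hdec : y = y.take u ++ y[u] :: y.drop (u + 1) := by
    rw [List.cons_getElem_drop_succ, List.take_append_drop]
  refine ⟨u, hu2, fun k hk => hmax k (Finset.mem_insert_of_mem hk), hu1, y.take u, y[u],
    y.drop (u + 1), hdec, List.take_concat_get' _ _ hu2, ?_⟩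
  rcases Finset.mem_insert.1 hu with h | h
  · have h4 : y.take u = p := by rw [h, hy]; simp
    rw [h4]; exact h1
  · have h5 := (hV u h).2.2
    rw [List.getD_eq_getElem _ _ hu2] at h5
    have h6 : ε * n ≤ (T.sz (y.take u ++ [y[u]]) : ℝ) := by
      refine (detS_bp_sz h3).trans ?_
      have h7 := sz_mono T (y.take u ++ [y[u]]) (y.drop (u + 1))
      have h8 : y.take u ++ [y[u]] ++ y.drop (u + 1) = y := by
        rw [List.append_assoc, List.singleton_append, ← hdec]
      rw [h8] at h7
      exact_mod_cast h7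
    unfold IsBP
    generalize y[u] = c at h5 h6
    cases c
    · exact ⟨h6, h5⟩
    · exact ⟨h5, h6⟩

private theorem detS_mono {n : ℕ} {ε ε' : ℝ} (hε' : ε' ≤ ε) {T : BT} {v : List Bool} {k : ℕ}
    (h : Marked n ε T v k) : Marked n ε' T v k :=
  ⟨h.1, (mul_le_mul_of_nonneg_right hε' (Nat.cast_nonneg n)).trans h.2⟩

/-- One more mark. Let `p₂ = p ++ b :: w`, `u` the maximum of `V ∪ {|p|}`, and similarly `p₂'`, `u'`. The
vertices `p₂.take u` and `p₂'.take u'` are branch points (`IsBP n ε`): by assumption if `u = |p|`,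
and otherwise because `u` is marked and the child towards `p₂` has at least `sz p₂ ≥ ε n` leaves
(`sz_mono`). By `Polar`, one of the two segments `[p₂.take u, p₂]`, `[p₂'.take u', p₂']`, say the
first, has mass `sz (p₂.take (u+1)) - sz p₂ > η n / 2`. Take the spine of a leaf below `p₂`
(`exists_spine` with `y = p₂`): the mass is the sum of the entries number `u + 1, …, |p₂| - 1`. By
`SmallMass` (with `θ = η / 4`; `1 + s.sum = sz p₂ ≥ ε n`) the entries `≤ ε' n` contribute at most
`η n / 4`, so there is an entry `> ε' n` at some depth `k` with `u < k < |p₂|`: it is marked (for `ε'`)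
and not in `V`. -/
theorem st_step {n N : ℕ} {ε ε' η : ℝ} (hn : 2 ≤ n) (hε : 0 < ε) (hη : 0 < η) (hε' : ε' ≤ ε) {T : BT}
    (hT : T ∈ trees n) (hP : Polar n ε η T) (hS : SmallMass n ε (η / 4) ε' T)
    {p w p' w' : List Bool} {b b' : Bool} (hne : p ++ b :: w ≠ p' ++ b' :: w')
    (h1 : IsBP n ε T p) (h2 : IsBP n ε T p') (h3 : IsBP n ε T (p ++ b :: w))
    (h4 : IsBP n ε T (p' ++ b' :: w')) (h : St n ε N T p w p' w' b b') :
    St n ε' (N + 1) T p w p' w' b b' := by
  obtain ⟨V, V', hV, hV', hN⟩ := h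
  obtain ⟨u, hu, humax, hpu, a, c, w1, hdec, htake, hbp⟩ := detS_top h1 h3 hV
  obtain ⟨u', hu', humax', hpu', a', c', w1', hdec', htake', hbp'⟩ := detS_top h2 h4 hV'
  have h5 := hP a a' w1 w1' c c' (by rw [← hdec, ← hdec']; exact hne) hbp hbp'
    (by rw [← hdec]; exact h3) (by rw [← hdec']; exact h4)
  rw [← hdec, ← hdec', htake, htake'] at h5
  by_cases hc : η * n / 2 < (T.sz ((p ++ b :: w).take (u + 1)) : ℝ) - T.sz (p ++ b :: w)
  · obtain ⟨k, hk, hkm⟩ := detS_new hn hε hη hT hS h3 hu hc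
    refine ⟨insert k V, V', ?_, fun j hj => ⟨(hV' j hj).1, detS_mono hε' (hV' j hj).2⟩, ?_⟩
    · intro j hj
      rcases Finset.mem_insert.1 hj with h6 | h6
      · rw [h6]; exact ⟨by omega, hkm⟩
      · exact ⟨(hV j h6).1, detS_mono hε' (hV j h6).2⟩
    · have h6 : k ∉ V := fun h => by have := humax k h; omega
      rw [Finset.card_insert_of_notMem h6]
      omega
  · have hc' : η * n / 2 < (T.sz ((p' ++ b' :: w').take (u' + 1)) : ℝ) -
        T.sz (p' ++ b' :: w') := by
      push Not at hc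
      linarith
    obtain ⟨k, hk, hkm⟩ := detS_new hn hε hη hT hS h4 hu' hc'
    refine ⟨V, insert k V', fun j hj => ⟨(hV j hj).1, detS_mono hε' (hV j hj).2⟩, ?_, ?_⟩
    · intro j hj
      rcases Finset.mem_insert.1 hj with h6 | h6
      · rw [h6]; exact ⟨by omega, hkm⟩
      · exact ⟨(hV' j h6).1, detS_mono hε' (hV' j h6).2⟩
    · have h6 : k ∉ V' := fun h => by have := humax' k h; omega
      rw [Finset.card_insert_of_notMem h6]
      omega

private theorem detS_many {n : ℕ} {ε δ : ℝ} (hn : 2 ≤ n) (hε : 0 < ε) {T : BT} (hT : T ∈ trees n)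
    {p w : List Bool} {b : Bool} (h3 : IsBP n ε T (p ++ b :: w))
    (h5 : ((b :: w).length : ℝ) ≤ δ * Real.sqrt n) {V : Finset ℕ}
    (hV : ∀ k ∈ V, p.length < k ∧ Marked n ε T (p ++ b :: w) k) (hc : 12 ≤ V.card) :
    ManyBig n ε δ T := by
  have hnR : (0 : ℝ) < n := by exact_mod_cast (by omega : 0 < n)
  set y := p ++ b :: w with hy
  have hlen : y.length = p.length + (b :: w).length := by rw [hy]; simp
  have hszy : 0 < T.sz y := by
    have h1 := detS_bp_sz h3
    have h2 : 0 < ε * n := mul_pos hε hnR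
    exact_mod_cast h2.trans_le h1
  obtain ⟨S, hSy⟩ := sz_pos_iff.1 hszy
  obtain ⟨i, hi, p0, s, hsp, hlen0, hsum, hdrop, hget⟩ :=
    exists_spine (nodup_labs_of_mem_trees hT) hSy
  have hin : i < n := (mem_labs_of_mem_trees hT i).1 (at_labs hSy i hi)
  refine ⟨i, hin, p0.take p.length, p0.drop p.length, s, ?_, ?_, ?_, ?_⟩
  · rw [List.take_append_drop, hsp]
  · have h2 := detS_bp_sz h3
    rw [sz_of_at hSy, ← hsum, Nat.cast_add, Nat.cast_one] at h2
    exact h2
  · rw [List.length_drop, hlen0, hlen, Nat.add_sub_cancel_left]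
    exact h5
  · have h6 : (V.image (fun k => k - p.length)).card = V.card := by
      apply Finset.card_image_of_injOn
      intro a ha c hc' hac
      have h7 := (hV a (Finset.mem_coe.1 ha)).1
      have h8 := (hV c (Finset.mem_coe.1 hc')).1
      simp only at hac
      omega
    refine (hc.trans h6.ge).trans (detS_count _ _ _ ?_)
    intro k hk
    obtain ⟨j, hj, rfl⟩ := Finset.mem_image.1 hk
    obtain ⟨h7, h8, h9⟩ := hV j hj
    have h10 := hget j h8
    refine ⟨T.sz (y.take j ++ [!y[j]]), ?_, ?_⟩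
    · rw [List.getElem?_drop, ← h10]
      congr 1
      omega
    · rw [List.getD_eq_getElem _ _ h8] at h9
      simpa using h9

/-- `23` marks: one of the two segments has at least `12`. Take the spine of a leaf below its lower end
(`exists_spine`) and the window of its entries number `|p|, …, |p₂| - 1`. -/
theorem manyBig_of_st {n : ℕ} {ε δ : ℝ} (hn : 2 ≤ n) (hε : 0 < ε) {T : BT} (hT : T ∈ trees n)
    {p w p' w' : List Bool} {b b' : Bool} (h3 : IsBP n ε T (p ++ b :: w))
    (h4 : IsBP n ε T (p' ++ b' :: w')) (h5 : ((b :: w).length : ℝ) ≤ δ * Real.sqrt n)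
    (h6 : ((b' :: w').length : ℝ) ≤ δ * Real.sqrt n) (h : St n ε 23 T p w p' w' b b') :
    ManyBig n ε δ T := by
  obtain ⟨V, V', hV, hV', hN⟩ := h
  rcases (by omega : 12 ≤ V.card ∨ 12 ≤ V'.card) with hc | hc
  · exact detS_many hn hε hT h3 h5 hV hc
  · exact detS_many hn hε hT h4 h6 hV' hc

end Pool.Agent.ALD
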