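import Pool.Agent.ALD.Defs

/-! Module GHPB: some radius works -/

open MeasureTheory Filter Topology

noncomputable section

namespace Pool.Agent.ALD

/-- some radius works: glue at the roots and take `r` larger than the diameters and `1` -/
theorem ghpClose_exists (X Y : RWTree) : ∃ r : ℝ, 0 ≤ r ∧ GHPClose r X Y := by
  set f : X.pt → X.pt × Y.pt := fun x => (x, Y.root) with hf
  set g : Y.pt → X.pt × Y.pt := fun y => (X.root, y) with hg
  set r : ℝ := max 1 (Metric.hausdorffDist (Set.range f) (Set.range g)) with hr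
  have hr1 : (1 : ℝ) ≤ r := le_max_left _ _
  have h1 : (1 : ENNReal) ≤ ENNReal.ofReal r := by
    rw [← ENNReal.ofReal_one]
    exact ENNReal.ofReal_le_ofReal hr1
  refine ⟨r, le_trans zero_le_one hr1, X.pt × Y.pt, inferInstance, f, g, ?_, ?_, ?_, le_max_right _ _,
    ?_, ?_⟩
  · intro x y
    simp [hf, Prod.edist_eq]
  · intro x y
    simp [hg, Prod.edist_eq]
  · simp only [hf, hg, dist_self]
    linarith
  · intro A _
    have h2 := X.prob
    have h3 : X.mass (f ⁻¹' A) ≤ 1 := prob_le_one
    exact h3.trans (h1.trans le_add_self)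
  · intro A _
    have h2 := Y.prob
    have h3 : Y.mass (g ⁻¹' A) ≤ 1 := prob_le_one
    exact h3.trans (h1.trans le_add_self)

end Pool.Agent.ALD
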