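import Pool.Agent.ALD.GhpA
import Pool.Agent.ALD.GhpB

/-! Module GHP: the rooted Gromov-Hausdorff-Prokhorov distance is a pseudometric (from GHPA, GHPB). -/

open MeasureTheory Filter Topology

noncomputable section

namespace Pool.Agent.ALD

private theorem ghp_bdd (X Y : RWTree) : BddBelow {r : ℝ | 0 ≤ r ∧ GHPClose r X Y} :=
  ⟨0, fun _ hr => hr.1⟩

private theorem ghp_nonempty (X Y : RWTree) : {r : ℝ | 0 ≤ r ∧ GHPClose r X Y}.Nonempty :=
  ghpClose_exists X Y

private theorem ghp_nonneg (X Y : RWTree) : 0 ≤ dGHP X Y :=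
  Real.sInf_nonneg fun _ hr => hr.1

theorem dGHP_self (X : RWTree) : dGHP X X = 0 := by
  apply le_antisymm
  · exact csInf_le (ghp_bdd X X) ⟨le_refl 0, ghpClose_refl X⟩
  · exact ghp_nonneg X X

theorem dGHP_comm (X Y : RWTree) : dGHP X Y = dGHP Y X := by
  have : {r : ℝ | 0 ≤ r ∧ GHPClose r X Y} = {r : ℝ | 0 ≤ r ∧ GHPClose r Y X} := by
    ext r
    exact ⟨fun h => ⟨h.1, ghpClose_symm h.2⟩, fun h => ⟨h.1, ghpClose_symm h.2⟩⟩
  rw [dGHP, dGHP, this]

theorem dGHP_triangle (X Y W : RWTree) : dGHP X W ≤ dGHP X Y + dGHP Y W := by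
  apply le_of_forall_pos_le_add
  intro ε hε
  obtain ⟨r, hr, hr'⟩ := exists_lt_of_csInf_lt (ghp_nonempty X Y)
    (show sInf {r : ℝ | 0 ≤ r ∧ GHPClose r X Y} < dGHP X Y + ε / 2 by
      have : sInf {r : ℝ | 0 ≤ r ∧ GHPClose r X Y} = dGHP X Y := rfl
      rw [this]
      linarith)
  obtain ⟨s, hs, hs'⟩ := exists_lt_of_csInf_lt (ghp_nonempty Y W)
    (show sInf {r : ℝ | 0 ≤ r ∧ GHPClose r Y W} < dGHP Y W + ε / 2 by
      have : sInf {r : ℝ | 0 ≤ r ∧ GHPClose r Y W} = dGHP Y W := rfl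
      rw [this]
      linarith)
  have h : dGHP X W ≤ r + s := csInf_le (ghp_bdd X W)
    ⟨add_nonneg hr.1 hs.1, ghpClose_triangle hr.1 hs.1 hr.2 hs.2⟩
  linarith

/-- rooted weighted compact metric spaces with the rooted Gromov-Hausdorff-Prokhorov distance -/
instance : PseudoMetricSpace RWTree where
  dist := dGHP
  dist_self := dGHP_self
  dist_comm := dGHP_comm
  dist_triangle := dGHP_triangle
  edist := fun X Y => ENNReal.ofReal (dGHP X Y)
  edist_dist := fun _ _ => rfl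

theorem dist_eq_dGHP (X Y : RWTree) : dist X Y = dGHP X Y := rfl

/-- if the distance is smaller than `r` then the spaces are `r`-close -/
theorem ghpClose_of_dist_lt {r : ℝ} {X Y : RWTree} (h : dist X Y < r) : GHPClose r X Y := by
  rw [dist_eq_dGHP] at h
  obtain ⟨s, hs, hs'⟩ := exists_lt_of_csInf_lt (ghp_nonempty X Y) h
  exact ghpClose_mono hs'.le hs.2

end Pool.Agent.ALD
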