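import Pool.Agent.ALD.Lcp
import Pool.Agent.ALD.Ghp

/-!
Module DISC: the rooted weighted metric space of a tree with `n` leaves (graph distance divided by
`√n`, uniform measure on the leaves), and the definition of an Aldous diffusion.
-/

open MeasureTheory Filter Topology

open scoped NNReal

noncomputable section

namespace Pool.Agent.ALD

open BT

theorem scale_pos (n : ℕ) : 0 < scale n := by
  unfold scale
  split_ifs with h
  · exact one_pos
  · have : (0 : ℝ) < n := by exact_mod_cast Nat.pos_of_ne_zero h
    exact inv_pos.mpr (Real.sqrt_pos.mpr this)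

/-- graph distance times `scale n` on the vertex set of a planted tree -/
@[reducible] def ptMetric (n : ℕ) (T : BT) : MetricSpace (Pt T) where
  dist x y := scale n * (gd x.1 y.1 : ℝ)
  dist_self x := by rw [gd_self]; simp
  dist_comm x y := by rw [gd_comm]
  dist_triangle x y z := by
    have h := gd_triangle x.1 y.1 z.1
    have h' : (gd x.1 z.1 : ℝ) ≤ gd x.1 y.1 + gd y.1 z.1 := by exact_mod_cast h
    calc scale n * (gd x.1 z.1 : ℝ) ≤ scale n * (gd x.1 y.1 + gd y.1 z.1) :=
          mul_le_mul_of_nonneg_left h' (scale_pos n).le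
      _ = _ := by ring
  eq_of_dist_eq_zero {x y} h := by
    have h1 : (gd x.1 y.1 : ℝ) = 0 := by
      rcases mul_eq_zero.mp h with h | h
      · exact absurd h (scale_pos n).ne'
      · exact h
    exact Subtype.ext (eq_of_gd_eq_zero (by exact_mod_cast h1))

instance (T : BT) : Finite (Pt T) := by
  have h : Set.Finite {b : List Bool | b = [] ∨ ∃ a ∈ T.verts, b = false :: a} := by
    have : {b : List Bool | b = [] ∨ ∃ a ∈ T.verts, b = false :: a} ⊆
        insert [] ((fun a => false :: a) '' {a | a ∈ T.verts}) := by
      rintro b (rfl | ⟨a, ha, rfl⟩)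
      · exact Set.mem_insert _ _
      · exact Set.mem_insert_of_mem _ ⟨a, ha, rfl⟩
    exact Set.Finite.subset ((T.verts.finite_toSet.image _).insert _) this
  exact h.to_subtype

theorem leafs_sub_verts {T : BT} {b : List Bool} (h : b ∈ T.leafs) : b ∈ T.verts := by
  induction T generalizing b with
  | leaf a => simpa [BT.leafs, BT.verts] using h
  | node l r ihl ihr =>
    simp only [BT.leafs, List.mem_append, List.mem_map] at h
    simp only [BT.verts, List.mem_cons, List.mem_append, List.mem_map]
    rcases h with ⟨a, ha, rfl⟩ | ⟨a, ha, rfl⟩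
    · exact Or.inr (Or.inl ⟨a, ihl ha, rfl⟩)
    · exact Or.inr (Or.inr ⟨a, ihr ha, rfl⟩)

/-- the point of `Pt T` corresponding to a leaf address -/
def leafPt (T : BT) (b : {b : List Bool // b ∈ T.leafs}) : Pt T :=
  ⟨false :: b.1, Or.inr ⟨b.1, leafs_sub_verts b.2, rfl⟩⟩

instance (T : BT) : Fintype {b : List Bool // b ∈ T.leafs} :=
  List.Subtype.fintype T.leafs

/-- the uniform probability measure on the leaves -/
def leafMass (n : ℕ) (T : BT) : @Measure (Pt T) (@borel (Pt T) (ptMetric n T).toUniformSpace.toTopologicalSpace) :=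
  letI : MeasurableSpace (Pt T) := @borel (Pt T) (ptMetric n T).toUniformSpace.toTopologicalSpace
  ((T.size : ENNReal)⁻¹) • ∑ b : {b : List Bool // b ∈ T.leafs}, Measure.dirac (leafPt T b)

theorem length_leafs (T : BT) : T.leafs.length = T.size := by
  induction T with
  | leaf a => simp [BT.leafs, BT.size]
  | node l r ihl ihr => simp [BT.leafs, BT.size, ihl, ihr]

theorem nodup_leafs (T : BT) : T.leafs.Nodup := by
  induction T with
  | leaf a => simp [BT.leafs]
  | node l r ihl ihr =>
    simp only [BT.leafs]
    rw [List.nodup_append']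
    refine ⟨ihl.map (List.cons_injective), ihr.map (List.cons_injective), ?_⟩
    intro b hb hb'
    simp only [List.mem_map] at hb hb'
    obtain ⟨a, _, rfl⟩ := hb
    obtain ⟨a', _, h⟩ := hb'
    simp at h

theorem card_leafs (T : BT) : Fintype.card {b : List Bool // b ∈ T.leafs} = T.size := by
  rw [← length_leafs, ← List.toFinset_card_of_nodup (nodup_leafs T)]
  rw [Fintype.card_of_subtype T.leafs.toFinset]
  intro x
  simp

theorem size_pos' (T : BT) : 0 < T.size := by
  induction T with
  | leaf a => simp [BT.size]
  | node l r ihl ihr => simp only [BT.size]; omega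

theorem leafMass_prob (n : ℕ) (T : BT) :
    @IsProbabilityMeasure (Pt T) (@borel (Pt T) (ptMetric n T).toUniformSpace.toTopologicalSpace)
      (leafMass n T) := by
  letI : MeasurableSpace (Pt T) := @borel (Pt T) (ptMetric n T).toUniformSpace.toTopologicalSpace
  refine ⟨?_⟩
  have h : (leafMass n T) Set.univ = (T.size : ENNReal)⁻¹ *
      (∑ b : {b : List Bool // b ∈ T.leafs}, Measure.dirac (leafPt T b)) Set.univ := rfl
  rw [h, Measure.finset_sum_apply]
  simp only [measure_univ, Finset.sum_const, Finset.card_univ, card_leafs, nsmul_eq_mul, mul_one]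
  apply ENNReal.inv_mul_cancel
  · exact_mod_cast (size_pos' T).ne'
  · exact ENNReal.natCast_ne_top _

/-- The rooted weighted metric space of the planted tree `T`: its vertices with the graph distance
divided by `√n`, and the uniform measure on its leaves. -/
def toRW (n : ℕ) (T : BT) : RWTree where
  pt := Pt T
  met := ptMetric n T
  cpt := @Finite.compactSpace (Pt T) (ptMetric n T).toUniformSpace.toTopologicalSpace _
  root := ⟨[], Or.inl rfl⟩
  mass := leafMass n T
  prob := leafMass_prob n T

/-- `X` is an Aldous diffusion (up to a linear change of time): its values are real trees, its paths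
are continuous for the rooted Gromov-Hausdorff-Prokhorov distance, and its finite-dimensional
distributions are the limits of those of the rescaled Aldous chain on trees with `n` leaves, started
from the uniform distribution and run according to a Poisson clock of deterministic rate
`a n = O(n²)`. -/
structure IsAldousDiffusion {Ω : Type*} [MeasurableSpace Ω] (P : Measure Ω)
    (X : ℝ≥0 → Ω → RWTree) : Prop where
  rtree : ∀ᵐ ω ∂P, ∀ t, IsRTree (X t ω)
  cont : ∀ᵐ ω ∂P, Continuous fun t => X t ω
  meas : ∀ (m : ℕ) (t : Fin m → ℝ≥0),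
    @Measurable Ω (Fin m → RWTree) _ (borel (Fin m → RWTree)) (fun ω i => X (t i) ω)
  fdd : ∃ (a : ℕ → ℝ) (C : ℝ), (∀ n, 2 ≤ n → 0 < a n ∧ a n ≤ C * (n : ℝ) ^ 2) ∧
    ∀ (m : ℕ) (t : Fin m → ℝ≥0), StrictMono t →
      ∀ f : BoundedContinuousFunction (Fin m → RWTree) ℝ,
        Tendsto (fun n => fddExp n (a n) m (fun i => (t i : ℝ))
          (fun z => f (fun i => toRW n (z i)))) atTop (𝓝 (∫ ω, f (fun i => X (t i) ω) ∂P))

end Pool.Agent.ALD
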