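import Mathlib

/-! Module EVX: an elementary bound -/

noncomputable section

namespace Pool.Agent.ALD

/-- `x^5 exp(-x^(1/8)/32)` is bounded on `[1, ∞)` -/
theorem exists_bound_pow_exp : ∃ K : ℝ, 0 < K ∧ ∀ x : ℝ, 1 ≤ x →
    x ^ 4 * Real.exp (-x ^ (1 / 8 : ℝ) / 32) ≤ K / x := by
  refine ⟨32 ^ 40 * (Nat.factorial 40 : ℝ), by positivity, fun x hx => ?_⟩
  have hx0 : 0 < x := by linarith
  set y : ℝ := x ^ (1 / 8 : ℝ) / 32 with hy
  have hy0 : 0 ≤ y := by positivity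
  have h1 : y ^ 40 / (Nat.factorial 40 : ℝ) ≤ Real.exp y := Real.pow_div_factorial_le_exp y hy0 40
  have h2 : y ^ 40 = x ^ 5 / 32 ^ 40 := by
    rw [hy, div_pow]
    congr 1
    rw [← Real.rpow_natCast, ← Real.rpow_mul hx0.le, ← Real.rpow_natCast]
    norm_num
  have h3 : -x ^ (1 / 8 : ℝ) / 32 = -y := by rw [hy]; ring
  rw [h3, Real.exp_neg, le_div_iff₀ hx0]
  have hexp : 0 < Real.exp y := Real.exp_pos y
  rw [h2] at h1
  have hF : (0 : ℝ) < (Nat.factorial 40 : ℝ) := by positivity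
  have h4 : x ^ 5 ≤ 32 ^ 40 * (Nat.factorial 40 : ℝ) * Real.exp y := by
    rw [div_div, div_le_iff₀ (by positivity)] at h1
    linarith
  have h5 : x ^ 4 * (Real.exp y)⁻¹ * x = x ^ 5 / Real.exp y := by
    rw [div_eq_mul_inv]; ring
  rw [h5, div_le_iff₀ hexp]
  exact h4

end Pool.Agent.ALD
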