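import Pool.Agent.ALD.UQ

/-! Module GM: the functions gM and xi, pointwise bounds (all from 1/(2 sqrt M) <= U M) -/

noncomputable section

namespace Pool.Agent.ALD

theorem sqrt_le_two_mul_U {M : ℕ} (hM : 1 ≤ M) : Real.sqrt M ≤ 2 * M * U M := by
  have h := U_lower hM
  have hMp : (0 : ℝ) < M := by exact_mod_cast hM
  have hs : 0 < Real.sqrt M := Real.sqrt_pos.mpr hMp
  have h2 : Real.sqrt M * Real.sqrt M = M := Real.mul_self_sqrt hMp.le
  calc Real.sqrt M = 2 * M * (1 / (2 * Real.sqrt M)) := by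
        field_simp
        nlinarith [h2]
    _ ≤ 2 * M * U M := by
        apply mul_le_mul_of_nonneg_left h
        positivity

theorem GM_den_pos {M : ℕ} (hM : 1 ≤ M) : 0 < 2 * M * U M := by
  have hMp : (0 : ℝ) < M := by exact_mod_cast hM
  have := U_pos M
  positivity

theorem gM_zero (M : ℕ) : gM M 0 = 0 := by
  simp [gM]

theorem gM_nonneg (M m : ℕ) : 0 ≤ gM M m := by
  unfold gM
  have := (U_pos M).le
  positivity

theorem gM_le_sqrt {M : ℕ} (hM : 1 ≤ M) (m : ℕ) : gM M m ≤ Real.sqrt M := by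
  unfold gM
  have hMp : (0 : ℝ) < M := by exact_mod_cast hM
  have hs : 0 < Real.sqrt M := Real.sqrt_pos.mpr hMp
  have h2 : Real.sqrt M * Real.sqrt M = M := Real.mul_self_sqrt hMp.le
  rw [div_le_iff₀ (GM_den_pos hM)]
  have h1 : ((min m M : ℕ) : ℝ) ≤ M := by exact_mod_cast min_le_right m M
  calc ((min m M : ℕ) : ℝ) ≤ M := h1
    _ = Real.sqrt M * Real.sqrt M := h2.symm
    _ ≤ Real.sqrt M * (2 * M * U M) := mul_le_mul_of_nonneg_left (sqrt_le_two_mul_U hM) hs.le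

theorem gM_le_div {M : ℕ} (hM : 1 ≤ M) (m : ℕ) : gM M m ≤ m / Real.sqrt M := by
  unfold gM
  have hMp : (0 : ℝ) < M := by exact_mod_cast hM
  have hs : 0 < Real.sqrt M := Real.sqrt_pos.mpr hMp
  have h1 : ((min m M : ℕ) : ℝ) ≤ m := by exact_mod_cast min_le_left m M
  apply div_le_div₀ (by positivity) h1 hs (sqrt_le_two_mul_U hM)

/-- `2 * 1 * U 1 = 1` -/
theorem gM_one {m : ℕ} (hm : 1 ≤ m) : gM 1 m = 1 := by
  unfold gM
  have hU : U 1 = 1 / 2 := by
    have := U_succ 0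
    rw [U_zero] at this
    rw [this]; norm_num
  rw [min_eq_right hm, hU]
  norm_num

theorem GM_diff_nonneg (M m : ℕ) : 0 ≤ gM M (m + 1) - gM M m := by
  unfold gM
  rw [← sub_div]
  have h1 : ((min m M : ℕ) : ℝ) ≤ ((min (m + 1) M : ℕ) : ℝ) := by
    exact_mod_cast min_le_min_right M (Nat.le_succ m)
  have := (U_pos M).le
  apply div_nonneg (by linarith) (by positivity)

theorem GM_diff_le {M : ℕ} (hM : 1 ≤ M) (m : ℕ) : gM M (m + 1) - gM M m ≤ 1 / Real.sqrt M := by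
  unfold gM
  have hMp : (0 : ℝ) < M := by exact_mod_cast hM
  have hs : 0 < Real.sqrt M := Real.sqrt_pos.mpr hMp
  rw [← sub_div]
  have h1 : ((min (m + 1) M : ℕ) : ℝ) - ((min m M : ℕ) : ℝ) ≤ 1 := by
    have : min (m + 1) M ≤ min m M + 1 := by omega
    have : ((min (m + 1) M : ℕ) : ℝ) ≤ ((min m M : ℕ) : ℝ) + 1 := by exact_mod_cast this
    linarith
  exact div_le_div₀ (by norm_num) h1 hs (sqrt_le_two_mul_U hM)

theorem gM_lip {M : ℕ} (hM : 1 ≤ M) (m : ℕ) : |gM M (m + 1) - gM M m| ≤ 1 / Real.sqrt M := by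
  rw [abs_of_nonneg (GM_diff_nonneg M m)]
  exact GM_diff_le hM m

theorem xi_zero (M : ℕ) : xi M 0 = 0 := by
  simp [xi, gM_zero]

theorem GM_sqrt_le {M : ℕ} : Real.sqrt M ≤ Real.sqrt ((2 * M : ℕ) : ℝ) := by
  apply Real.sqrt_le_sqrt
  exact_mod_cast (by omega : M ≤ 2 * M)

/-- both functions are nondecreasing with slopes at most `1 / √M` -/
theorem xi_lip {M : ℕ} (hM : 1 ≤ M) (m : ℕ) : |xi M (m + 1) - xi M m| ≤ 1 / Real.sqrt M := by
  unfold xi
  have hMp : (0 : ℝ) < M := by exact_mod_cast hM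
  have hs : 0 < Real.sqrt M := Real.sqrt_pos.mpr hMp
  have h1 := GM_diff_nonneg M m
  have h2 := GM_diff_le hM m
  have h3 := GM_diff_nonneg (2 * M) m
  have h4 := GM_diff_le (M := 2 * M) (by omega) m
  have h5 : 1 / Real.sqrt ((2 * M : ℕ) : ℝ) ≤ 1 / Real.sqrt M :=
    one_div_le_one_div_of_le hs GM_sqrt_le
  rw [abs_le]
  constructor <;> linarith

theorem xi_abs_le {M : ℕ} (hM : 1 ≤ M) (m : ℕ) : |xi M m| ≤ Real.sqrt (2 * M) := by
  unfold xi
  have h1 := gM_nonneg M m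
  have h2 := gM_le_sqrt hM m
  have h3 := gM_nonneg (2 * M) m
  have h4 := gM_le_sqrt (M := 2 * M) (by omega) m
  have h5 := GM_sqrt_le (M := M)
  push_cast at h4 h5
  rw [abs_le]
  constructor <;> linarith

end Pool.Agent.ALD
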