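import Pool.Agent.ALD.UR

/-! Module WS: the weighted sum over compositions -/

noncomputable section

namespace Pool.Agent.ALD

theorem wsum_zero (f : List ℕ → ℝ) : wsum 0 f = f [] := by
  rw [wsum]

theorem wsum_eq {N : ℕ} (hN : 1 ≤ N) (f : List ℕ → ℝ) :
    wsum N f = ∑ m ∈ Finset.Icc 1 N, q m * wsum (N - m) (fun l => f (m :: l)) := by
  obtain ⟨k, rfl⟩ : ∃ k, N = k + 1 := ⟨N - 1, by omega⟩
  rw [uR_sum, wsum, Finset.sum_range]
  refine Finset.sum_congr rfl fun j _ => ?_
  rw [Nat.add_sub_add_right]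

theorem wsum_mono {N : ℕ} {f g : List ℕ → ℝ}
    (h : ∀ l : List ℕ, l.sum = N → (∀ m ∈ l, 1 ≤ m) → f l ≤ g l) : wsum N f ≤ wsum N g := by
  induction N using Nat.strong_induction_on generalizing f g with
  | _ N ih =>
    rcases Nat.eq_zero_or_pos N with rfl | hN
    · rw [wsum_zero, wsum_zero]
      exact h [] rfl (by simp)
    · rw [wsum_eq hN, wsum_eq hN]
      refine Finset.sum_le_sum fun m hm => ?_
      obtain ⟨hm1, hm2⟩ := Finset.mem_Icc.mp hm
      refine mul_le_mul_of_nonneg_left (ih (N - m) (by omega) ?_) (q_nonneg m)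
      intro l hl hl1
      refine h (m :: l) ?_ ?_
      · rw [List.sum_cons, hl]
        omega
      · intro x hx
        rcases List.mem_cons.mp hx with rfl | hx
        · exact hm1
        · exact hl1 x hx

/-- only lists with sum `N` and positive entries matter -/
theorem wsum_congr {N : ℕ} {f g : List ℕ → ℝ}
    (h : ∀ l : List ℕ, l.sum = N → (∀ m ∈ l, 1 ≤ m) → f l = g l) : wsum N f = wsum N g :=
  le_antisymm (wsum_mono fun l h1 h2 => (h l h1 h2).le) (wsum_mono fun l h1 h2 => (h l h1 h2).ge)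

theorem wsum_add (N : ℕ) (f g : List ℕ → ℝ) :
    wsum N (fun l => f l + g l) = wsum N f + wsum N g := by
  induction N using Nat.strong_induction_on generalizing f g with
  | _ N ih =>
    rcases Nat.eq_zero_or_pos N with rfl | hN
    · rw [wsum_zero, wsum_zero, wsum_zero]
    · rw [wsum_eq hN, wsum_eq hN, wsum_eq hN, ← Finset.sum_add_distrib]
      refine Finset.sum_congr rfl fun m hm => ?_
      obtain ⟨hm1, hm2⟩ := Finset.mem_Icc.mp hm
      rw [ih (N - m) (by omega)]
      ring

theorem wsum_mul_left (N : ℕ) (c : ℝ) (f : List ℕ → ℝ) :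
    wsum N (fun l => c * f l) = c * wsum N f := by
  induction N using Nat.strong_induction_on generalizing f with
  | _ N ih =>
    rcases Nat.eq_zero_or_pos N with rfl | hN
    · rw [wsum_zero, wsum_zero]
    · rw [wsum_eq hN, wsum_eq hN, Finset.mul_sum]
      refine Finset.sum_congr rfl fun m hm => ?_
      obtain ⟨hm1, hm2⟩ := Finset.mem_Icc.mp hm
      rw [ih (N - m) (by omega)]
      ring

/-- by `renewal` -/
theorem wsum_const (N : ℕ) (c : ℝ) : wsum N (fun _ => c) = c * U N := by
  induction N using Nat.strong_induction_on with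
  | _ N ih =>
    rcases Nat.eq_zero_or_pos N with rfl | hN
    · rw [wsum_zero, U_zero, mul_one]
    · rw [wsum_eq hN, renewal hN, Finset.mul_sum]
      refine Finset.sum_congr rfl fun m hm => ?_
      obtain ⟨hm1, hm2⟩ := Finset.mem_Icc.mp hm
      rw [ih (N - m) (by omega)]
      ring

theorem wsum_nonneg {N : ℕ} {f : List ℕ → ℝ}
    (h : ∀ l : List ℕ, l.sum = N → (∀ m ∈ l, 1 ≤ m) → 0 ≤ f l) : 0 ≤ wsum N f := by
  have h1 : wsum N (fun _ => 0) ≤ wsum N f := wsum_mono h
  rwa [wsum_const, zero_mul] at h1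

end Pool.Agent.ALD
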