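import Pool.Agent.ALD.ShS
import Pool.Agent.ALD.WS

/-! Module SHSP: the law of the spine for shapes -/

noncomputable section

namespace Pool.Agent.ALD

open BT

private theorem shSp_wsum_succ (N : ℕ) (f : List ℕ → ℝ) :
    wsum (N + 1) f = ∑ m : Fin (N + 1), q (m + 1) * wsum (N - m) (fun l => f ((m + 1) :: l)) := by
  rw [wsum]

/-- Strong induction on `N`: `spsum f (node l r) = spsum (f ∘ cons r.size) l + spsum (f ∘ cons l.size) r`;
the size of the sibling is constant on `shsum`, the two terms give the same contribution, and
`2 Cat(j) 4^i = q (j + 1) 4^(N+1)` for `i + j = N` (`q_succ_catalan`). -/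
theorem shsum_spsum (N : ℕ) (f : List ℕ → ℝ) : shsum N (spsum f) = 4 ^ N * wsum N f := by
  induction N using Nat.strong_induction_on generalizing f with
  | _ N ih =>
    match N with
    | 0 => rw [shsum_zero, wsum_zero]; simp [spsum]
    | N + 1 =>
      rw [shsum_succ, shSp_wsum_succ]
      have h1 : ∀ i : Fin (N + 1),
          shsum i (fun l => shsum (N - i) (fun r => spsum f (node l r))) =
          (catalan (N - i) : ℝ) * (4 ^ (i : ℕ) * wsum i (fun c => f ((N - i + 1) :: c))) +
          (catalan (i : ℕ) : ℝ) * (4 ^ (N - (i : ℕ)) * wsum (N - i) (fun c => f ((i + 1) :: c))) := by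
        intro i
        have hi := i.2
        have h2 : shsum i (fun l => shsum (N - i) (fun r => spsum f (node l r))) =
            shsum i (fun l => (catalan (N - i) : ℝ) * spsum (fun c => f ((N - i + 1) :: c)) l +
              (4 ^ (N - (i : ℕ)) * wsum (N - i) (fun c => f ((i + 1) :: c)))) := by
          refine shsum_congr (fun l hl _ => ?_)
          have h3 : shsum (N - i) (fun r => spsum f (node l r)) =
              shsum (N - i) (fun r => spsum (fun c => f ((N - i + 1) :: c)) l +
                spsum (fun c => f ((i + 1) :: c)) r) := by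
            refine shsum_congr (fun r hr _ => ?_)
            simp only [spsum, hl, hr]
          rw [h3, shsum_add, shsum_const, ih (N - i) (by omega)]
          ring
        rw [h2, shsum_add, shsum_mul_left, shsum_const, ih i (by omega)]
        ring
      rw [Finset.sum_congr rfl (fun i _ => h1 i), Finset.sum_add_distrib]
      have h4 : ∑ i : Fin (N + 1),
          (catalan (N - i) : ℝ) * (4 ^ (i : ℕ) * wsum i (fun c => f ((N - i + 1) :: c))) =
          ∑ i : Fin (N + 1),
          (catalan (i : ℕ) : ℝ) * (4 ^ (N - (i : ℕ)) * wsum (N - i) (fun c => f ((i + 1) :: c))) := by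
        refine Fintype.sum_equiv Fin.revPerm _ _ (fun i => ?_)
        have hi := i.2
        have e1 : ((Fin.revPerm i : Fin (N + 1)) : ℕ) = N - i := by
          simp only [Fin.revPerm_apply, Fin.val_rev]; omega
        have e2 : N - (N - (i : ℕ)) = i := by omega
        rw [e1, e2]
      rw [h4, ← two_mul, Finset.mul_sum, Finset.mul_sum]
      refine Finset.sum_congr rfl (fun i _ => ?_)
      have hi := i.2
      rw [q_succ_catalan]
      have h5 : (4 : ℝ) ^ (N + 1) = 4 ^ (N - (i : ℕ)) * 4 ^ ((i : ℕ) + 1) := by
        rw [← pow_add]; congr 1; omega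
      rw [h5]
      have h6 : (4 : ℝ) ^ ((i : ℕ) + 1) ≠ 0 := by positivity
      field_simp

end Pool.Agent.ALD
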