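import Pool.Agent.ALD.SpB

/-! Module SPS: spines of a labelled tree and of its shape -/

noncomputable section

namespace Pool.Agent.ALD

open BT

/-- induction on `T`, generalizing `f` -/
theorem spsum_shape {T : BT} (hT : T.labs.Nodup) (f : List ℕ → ℝ) :
    (T.labs.map (fun i => f (T.sp i))).sum = spsum f (shape T) := by
  induction T generalizing f with
  | leaf a => simp [BT.labs, BT.sp, shape, BT.map, spsum]
  | node l r ihl ihr =>
    rw [BT.labs, List.nodup_append] at hT
    obtain ⟨hl, hr, hd⟩ := hT
    have e : shape (node l r) = node (shape l) (shape r) := rfl
    have e1 : (shape l).size = l.size := size_map _ _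
    have e2 : (shape r).size = r.size := size_map _ _
    rw [e, spsum, e1, e2, ← ihl hl, ← ihr hr, BT.labs, List.map_append, List.sum_append]
    congr 1
    · apply congrArg
      apply List.map_congr_left
      intro i hi
      rw [BT.sp, if_pos hi]
    · apply congrArg
      apply List.map_congr_left
      intro i hi
      rw [BT.sp, if_neg (fun h => hd i h i hi rfl)]

end Pool.Agent.ALD
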