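import Pool.Agent.ALD.SymA

/-! Module STEPF: the uniform average and the transition operator: linearity, monotonicity -/

noncomputable section

namespace Pool.Agent.ALD

open BT

theorem stepF_sum_le {l : List BT} {F G : BT → ℝ} (h : ∀ T ∈ l, F T ≤ G T) :
    (l.map F).sum ≤ (l.map G).sum := by
  induction l with
  | nil => simp
  | cons a l ih =>
    simp only [List.map_cons, List.sum_cons]
    exact add_le_add (h a (by simp)) (ih (fun T hT => h T (by simp [hT])))

theorem stepF_sum_congr {l : List BT} {F G : BT → ℝ} (h : ∀ T ∈ l, F T = G T) :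
    (l.map F).sum = (l.map G).sum := by
  rw [List.map_congr_left h]

theorem stepF_sum_add (l : List BT) (F G : BT → ℝ) :
    (l.map (fun T => F T + G T)).sum = (l.map F).sum + (l.map G).sum := by
  induction l with
  | nil => simp
  | cons a l ih =>
    simp only [List.map_cons, List.sum_cons, ih]
    ring

theorem stepF_sum_mul (l : List BT) (c : ℝ) (F : BT → ℝ) :
    (l.map (fun T => c * F T)).sum = c * (l.map F).sum := by
  induction l with
  | nil => simp
  | cons a l ih =>
    simp only [List.map_cons, List.sum_cons, ih]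
    ring

theorem stepF_sum_const (l : List BT) (c : ℝ) :
    (l.map (fun _ => c)).sum = (l.length : ℝ) * c := by
  induction l with
  | nil => simp
  | cons a l ih =>
    simp only [List.map_cons, List.sum_cons, ih, List.length_cons]
    push_cast
    ring

theorem stepF_ins_ne_nil (j : ℕ) (T : BT) : ins j T ≠ [] := by
  cases T <;> simp [ins]

theorem stepF_trees_ne_nil {n : ℕ} (hn : 1 ≤ n) : trees n ≠ [] := by
  induction n with
  | zero => omega
  | succ n ih =>
    cases n with
    | zero => simp [trees]
    | succ n =>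
      have h := ih (by omega)
      simp only [trees]
      intro h0
      obtain ⟨S, hS⟩ := List.exists_mem_of_ne_nil _ h
      rw [List.flatMap_eq_nil_iff] at h0
      exact stepF_ins_ne_nil _ _ (h0 S hS)

theorem avg_congr {n : ℕ} {F G : BT → ℝ} (h : ∀ T ∈ trees n, F T = G T) : avg n F = avg n G := by
  unfold avg
  rw [stepF_sum_congr h]

theorem avg_mono {n : ℕ} {F G : BT → ℝ} (h : ∀ T ∈ trees n, F T ≤ G T) : avg n F ≤ avg n G := by
  unfold avg
  exact div_le_div_of_nonneg_right (stepF_sum_le h) (Nat.cast_nonneg _)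

theorem avg_nonneg {n : ℕ} {F : BT → ℝ} (h : ∀ T ∈ trees n, 0 ≤ F T) : 0 ≤ avg n F := by
  unfold avg
  refine div_nonneg (List.sum_nonneg ?_) (Nat.cast_nonneg _)
  intro x hx
  obtain ⟨T, hT, rfl⟩ := List.mem_map.1 hx
  exact h T hT

theorem avg_add {n : ℕ} (F G : BT → ℝ) : avg n (fun T => F T + G T) = avg n F + avg n G := by
  unfold avg
  rw [stepF_sum_add, add_div]

theorem avg_mul_left {n : ℕ} (c : ℝ) (F : BT → ℝ) : avg n (fun T => c * F T) = c * avg n F := by
  unfold avg
  rw [stepF_sum_mul, mul_div_assoc]

theorem avg_const {n : ℕ} (hn : 1 ≤ n) (c : ℝ) : avg n (fun _ => c) = c := by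
  unfold avg
  rw [stepF_sum_const]
  have : ((trees n).length : ℝ) ≠ 0 := by
    have := List.length_pos_of_ne_nil (stepF_trees_ne_nil hn)
    positivity
  field_simp

theorem step_congr {n : ℕ} (hn : 2 ≤ n) {F G : BT → ℝ} (h : ∀ T ∈ trees n, F T = G T) :
    ∀ T ∈ trees n, step n F T = step n G T := by
  intro T hT
  unfold step
  congr 1
  refine Finset.sum_congr rfl (fun i hi => ?_)
  rw [stepF_sum_congr (fun T' hT' =>
    h T' (mem_trees_of_mem_reins hn hT (Finset.mem_range.1 hi) hT'))]

theorem step_mono {n : ℕ} (hn : 2 ≤ n) {F G : BT → ℝ} (h : ∀ T ∈ trees n, F T ≤ G T) :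
    ∀ T ∈ trees n, step n F T ≤ step n G T := by
  intro T hT
  unfold step
  refine div_le_div_of_nonneg_right ?_ (Nat.cast_nonneg _)
  refine Finset.sum_le_sum (fun i hi => ?_)
  exact div_le_div_of_nonneg_right (stepF_sum_le (fun T' hT' =>
    h T' (mem_trees_of_mem_reins hn hT (Finset.mem_range.1 hi) hT'))) (Nat.cast_nonneg _)

theorem step_add {n : ℕ} (F G : BT → ℝ) (T : BT) :
    step n (fun S => F S + G S) T = step n F T + step n G T := by
  unfold step
  rw [← add_div, ← Finset.sum_add_distrib]
  congr 1
  refine Finset.sum_congr rfl (fun i _ => ?_)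
  rw [stepF_sum_add, add_div]

theorem step_mul_left {n : ℕ} (c : ℝ) (F : BT → ℝ) (T : BT) :
    step n (fun S => c * F S) T = c * step n F T := by
  unfold step
  rw [← mul_div_assoc, Finset.mul_sum]
  congr 1
  refine Finset.sum_congr rfl (fun i _ => ?_)
  rw [stepF_sum_mul, mul_div_assoc]

theorem step_const {n : ℕ} (hn : 2 ≤ n) (c : ℝ) : ∀ T ∈ trees n, step n (fun _ => c) T = c := by
  intro T hT
  unfold step
  have h1 : ∀ i ∈ Finset.range n,
      ((T.reins i).map (fun _ => c)).sum / ((T.reins i).length : ℝ) = c := by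
    intro i hi
    rw [stepF_sum_const]
    have hl := length_reins hn hT (Finset.mem_range.1 hi)
    have : ((T.reins i).length : ℝ) ≠ 0 := by
      have : 0 < (T.reins i).length := by omega
      positivity
    field_simp
  rw [Finset.sum_congr rfl h1, Finset.sum_const, Finset.card_range, nsmul_eq_mul]
  have : (n : ℝ) ≠ 0 := by positivity
  field_simp

theorem stepF_tendsto_sum {F : ℕ → BT → ℝ} {G : BT → ℝ}
    (h : ∀ T, Filter.Tendsto (fun k => F k T) Filter.atTop (nhds (G T))) (l : List BT) :
    Filter.Tendsto (fun k => (l.map (F k)).sum) Filter.atTop (nhds (l.map G).sum) := by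
  induction l with
  | nil => simp
  | cons a l ih =>
    simp only [List.map_cons, List.sum_cons]
    exact (h a).add ih

/-- pointwise convergence is preserved (finite sums) -/
theorem step_tendsto {n : ℕ} {F : ℕ → BT → ℝ} {G : BT → ℝ}
    (h : ∀ T, Filter.Tendsto (fun k => F k T) Filter.atTop (nhds (G T))) (T : BT) :
    Filter.Tendsto (fun k => step n (F k) T) Filter.atTop (nhds (step n G T)) := by
  unfold step
  refine Filter.Tendsto.div_const ?_ _
  refine tendsto_finsetSum _ (fun i _ => ?_)
  exact (stepF_tendsto_sum h _).div_const _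

end Pool.Agent.ALD
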