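import Pool.Agent.ALD.TrS
import Pool.Agent.ALD.SpS
import Pool.Agent.ALD.ShSp
import Pool.Agent.ALD.StepF

/-! Module SPLAW: the law of the spine of a uniform leaf in a uniform tree -/

noncomputable section

namespace Pool.Agent.ALD

open BT

theorem SpLaw_sum_range {N : ℕ} {T : BT} (hT : T ∈ trees (N + 1)) (f : List ℕ → ℝ) :
    ∑ i ∈ Finset.range (N + 1), f (T.sp i) = spsum f (shape T) := by
  rw [← spsum_shape (nodup_labs_of_mem_trees hT) f]
  have hp : T.labs.Perm (List.range (N + 1)) := (mem_trees_iff (by omega) T).1 hT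
  rw [(hp.map (fun i => f (T.sp i))).sum_eq]
  rw [← List.sum_toFinset _ List.nodup_range]
  congr 1
  ext i
  simp

/-- from `trees_sum_shape`, `length_trees`, `spsum_shape`, `shsum_spsum`, `U_eq_catalan` -/
theorem spine_law (N : ℕ) (f : List ℕ → ℝ) :
    avg (N + 1) (fun T => ∑ i ∈ Finset.range (N + 1), f (T.sp i)) =
      (N + 1) * wsum N f / U N := by
  rw [avg_congr (fun T hT => SpLaw_sum_range hT f)]
  unfold avg
  rw [trees_sum_shape N (spsum f), length_trees, shsum_spsum, U_eq_catalan]
  have h1 : ((N + 1).factorial : ℝ) ≠ 0 := by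
    exact_mod_cast Nat.factorial_ne_zero _
  have h2 : (catalan N : ℝ) ≠ 0 := by
    have hc : 0 < catalan N := by
      rw [catalan_eq_centralBinom_div]
      exact Nat.div_pos (Nat.le_of_dvd (Nat.centralBinom_pos N) (Nat.succ_dvd_centralBinom N)) (by omega)
    positivity
  have h3 : ((N : ℝ) + 1) ≠ 0 := by positivity
  have h4 : (4 : ℝ) ^ N ≠ 0 := by positivity
  field_simp

end Pool.Agent.ALD
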