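import Pool.Agent.ALD.SpB

/-! Module SPM: multiplicity and restriction of spines -/

namespace Pool.Agent.ALD

open BT

/-- All the leaves below the vertex reached after `p` have the same beginning of the spine.
Induction on `p`, generalizing `T`. -/
theorem sp_mult {T : BT} (hT : T.labs.Nodup) {i : ℕ} (hi : i ∈ T.labs) {p s : List ℕ}
    (h : T.sp i = p ++ s) : ∃ L : Finset ℕ, L.card = 1 + s.sum ∧
      ∀ i' ∈ L, i' ∈ T.labs ∧ ∃ s', T.sp i' = p ++ s' ∧ s'.sum = s.sum := by
  induction p generalizing T with
  | nil =>
    rw [List.nil_append] at h
    refine ⟨T.labs.toFinset, ?_, ?_⟩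
    · rw [List.toFinset_card_of_nodup hT, length_labs, ← sp_sum hi, h]
    · intro i' hi'
      rw [List.mem_toFinset] at hi'
      refine ⟨hi', T.sp i', rfl, ?_⟩
      have h1 := sp_sum hi'
      have h2 := sp_sum hi
      rw [← h]
      omega
  | cons a p ih =>
    cases T with
    | leaf b => simp [BT.sp] at h
    | node l r =>
      rw [BT.labs, List.nodup_append] at hT
      obtain ⟨hl, hr, hd⟩ := hT
      by_cases hil : i ∈ l.labs
      · rw [BT.sp, if_pos hil, List.cons_append, List.cons.injEq] at h
        obtain ⟨L, hL, hL'⟩ := ih hl hil h.2
        refine ⟨L, hL, fun i' hi' => ?_⟩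
        obtain ⟨h1, s', h2, h3⟩ := hL' i' hi'
        refine ⟨?_, s', ?_, h3⟩
        · rw [BT.labs]
          exact List.mem_append_left _ h1
        · rw [BT.sp, if_pos h1, h2, h.1, List.cons_append]
      · rw [BT.labs, List.mem_append] at hi
        have hir := hi.resolve_left hil
        rw [BT.sp, if_neg hil, List.cons_append, List.cons.injEq] at h
        obtain ⟨L, hL, hL'⟩ := ih hr hir h.2
        refine ⟨L, hL, fun i' hi' => ?_⟩
        obtain ⟨h1, s', h2, h3⟩ := hL' i' hi'
        have h4 : i' ∉ l.labs := fun h5 => hd i' h5 i' h1 rfl
        refine ⟨?_, s', ?_, h3⟩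
        · rw [BT.labs]
          exact List.mem_append_right _ h1
        · rw [BT.sp, if_neg h4, h2, h.1, List.cons_append]

private theorem spM_size_le {T R : BT} {p : ℕ → Bool} (h : T.res p = some R) :
    R.size ≤ T.size := by
  rw [← length_labs, ← length_labs, labs_res h]
  exact List.length_filter_le _ _

/-- Induction on `T`: at a node, the sibling subtree is restricted (size decreases) or disappears
(entry dropped). -/
theorem sp_res {T R : BT} (hT : T.labs.Nodup) {p : ℕ → Bool} (h : T.res p = some R) {i : ℕ}
    (hi : i ∈ T.labs) (hp : p i = true) : Dec (T.sp i) (R.sp i) (T.size - R.size) := by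
  induction T generalizing R with
  | leaf a =>
    rw [BT.res] at h
    by_cases ha : p a = true
    · rw [if_pos ha, Option.some.injEq] at h
      subst h
      simpa [BT.sp] using Dec.nil
    · rw [if_neg ha] at h
      exact absurd h (by simp)
  | node l r ihl ihr =>
    rw [BT.labs, List.nodup_append] at hT
    obtain ⟨hl, hr, hd⟩ := hT
    rw [BT.labs, List.mem_append] at hi
    rw [BT.res] at h
    rcases hlx : l.res p with _ | x
    · have hil : i ∉ l.labs := fun h5 => by
        have := (res_eq_none_iff p l).1 hlx i h5
        rw [hp] at this
        exact absurd this (by simp)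
      have hir := hi.resolve_left hil
      rcases hry : r.res p with _ | y
      · rw [hlx, hry] at h
        exact absurd h (by simp)
      · rw [hlx, hry] at h
        have h' : y = R := by simpa using h
        subst h'
        have hy := spM_size_le hry
        rw [BT.sp, if_neg hil, BT.size]
        have e : l.size + r.size - y.size = (r.size - y.size) + l.size := by omega
        rw [e]
        exact Dec.drop _ (ihr hr hry hir)
    · rcases hry : r.res p with _ | y
      · have hir : i ∉ r.labs := fun h5 => by
          have := (res_eq_none_iff p r).1 hry i h5
          rw [hp] at this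
          exact absurd this (by simp)
        have hil := hi.resolve_right hir
        rw [hlx, hry] at h
        have h' : x = R := by simpa using h
        subst h'
        have hx := spM_size_le hlx
        rw [BT.sp, if_pos hil, BT.size]
        have e : l.size + r.size - x.size = (l.size - x.size) + r.size := by omega
        rw [e]
        exact Dec.drop _ (ihl hl hlx hil)
      · rw [hlx, hry] at h
        have h' : node x y = R := by simpa using h
        subst h'
        have hx := spM_size_le hlx
        have hy := spM_size_le hry
        by_cases hil : i ∈ l.labs
        · have hix : i ∈ x.labs := by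
            rw [labs_res hlx, List.mem_filter]
            exact ⟨hil, hp⟩
          rw [BT.sp, if_pos hil, BT.sp, if_pos hix, BT.size, BT.size]
          have e : l.size + r.size - (x.size + y.size) = (l.size - x.size) + (r.size - y.size) := by
            omega
          rw [e]
          exact Dec.keep _ _ (size_pos y) hy (ihl hl hlx hil)
        · have hix : i ∉ x.labs := by
            rw [labs_res hlx, List.mem_filter]
            exact fun h5 => hil h5.1
          rw [BT.sp, if_neg hil, BT.sp, if_neg hix, BT.size, BT.size]
          have e : l.size + r.size - (x.size + y.size) = (r.size - y.size) + (l.size - x.size) := by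
            omega
          rw [e]
          exact Dec.keep _ _ (size_pos x) hx (ihr hr hry (hi.resolve_left hil))

end Pool.Agent.ALD
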