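import Pool.Agent.ALD.NbB
import Pool.Agent.ALD.SpLaw
import Pool.Agent.ALD.SpM

/-! Module GP: general principle bounding hitting probabilities of events on spines -/

noncomputable section

namespace Pool.Agent.ALD

open BT

theorem GP_ind01 {α : Type*} (p : α → Prop) (x : α) : 0 ≤ ind p x ∧ ind p x ≤ 1 := by
  unfold ind
  split_ifs <;> norm_num

theorem GP_ind_of {α : Type*} {p : α → Prop} {x : α} (h : p x) : ind p x = 1 := by
  unfold ind
  rw [if_pos h]

theorem GP_ind_not {α : Type*} {p : α → Prop} {x : α} (h : ¬ p x) : ind p x = 0 := by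
  unfold ind
  rw [if_neg h]

/-- few labels are lost by the restriction -/
theorem GP_size {n : ℕ} {T R : BT} {J : Finset ℕ} (hT : T.labs.Perm (List.range n))
    (h : T.res (fun a => decide (a ∉ J)) = some R) : T.size - R.size ≤ J.card := by
  have h1 : R.labs = T.labs.filter (fun a => decide (a ∉ J)) := labs_res h
  have h2 : T.size = T.labs.length := (length_labs T).symm
  have h3 : R.size = (T.labs.filter (fun a => decide (a ∉ J))).length := by
    rw [← h1]
    exact (length_labs R).symm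
  have hnd : T.labs.Nodup := hT.nodup_iff.2 List.nodup_range
  have h4 : T.labs.length = (T.labs.filter (fun a => decide (a ∉ J))).length +
      (T.labs.filter (fun a => !decide (a ∉ J))).length :=
    List.length_eq_length_filter_add _
  have h5 : (T.labs.filter (fun a => !decide (a ∉ J))).length ≤ J.card := by
    have h6 : (T.labs.filter (fun a => !decide (a ∉ J))).Nodup := hnd.filter _
    rw [← List.toFinset_card_of_nodup h6]
    apply Finset.card_le_card
    intro x hx
    rw [List.mem_toFinset, List.mem_filter] at hx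
    by_contra hc
    simp [hc] at hx
  omega

/-- By `hitP_le_nb` it suffices to bound `avg 1_{nb (r-1) B}` by
`n / (a₀ - (r - 1)) · wsum (n - 1) (ind Bad') / U (n - 1)`.
If `T ∈ nb (r-1) B`, take `T'`, `J` from `nb_common`, and `i, p, s` with `T'.sp i = p ++ s`,
`Bad p s.sum`. By `sp_mult` there is a set `L` of `1 + s.sum ≥ a₀` labels `i'` with
`T'.sp i' = p ++ s'`, `s'.sum = s.sum`. For `i' ∈ L \ J` (at least `a₀ - (r - 1)` labels), `i'`
survives in the common restriction `R`, and by `sp_res` `Dec (p ++ s') (R.sp i') j₁`,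
`Dec (T.sp i') (R.sp i') j₂` with `j₁ = T'.size - R.size ≤ r - 1` and `j₂ ≤ r - 1`
(`labs_res`: only labels in `J` are removed). So `Bad' (T.sp i')` by `rob`. Hence
`(a₀ - (r - 1)) · 1_{nb (r-1) B} (T) ≤ Σ_{i < n} ind Bad' (T.sp i)`; take the average and use
`spine_law`. -/
theorem general_principle {Tm : ℝ} (hTm : 0 ≤ Tm) {n r a₀ : ℕ} (hn : 2 ≤ n) (hr : 1 ≤ r)
    (har : r ≤ a₀) (Bad : List ℕ → ℕ → Prop) (Bad' : List ℕ → Prop)
    (hBad : ∀ p k, Bad p k → a₀ ≤ 1 + k)
    (rob : ∀ (p s l R : List ℕ) (j₁ j₂ : ℕ), Bad p s.sum → Dec (p ++ s) R j₁ → Dec l R j₂ →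
      j₁ ≤ r - 1 → j₂ ≤ r - 1 → Bad' l)
    {a : ℝ} {m : ℕ} {t : Fin m → ℝ} (ha : 0 < a) (ht : Monotone t) (ht' : ∀ i, 0 ≤ t i ∧ t i ≤ Tm) :
    hitP n a m t (fun T => ∃ i < n, ∃ p s : List ℕ, T.sp i = p ++ s ∧ Bad p s.sum) ≤
      Real.exp Tm * (1 + a / (r : ℝ) ^ 2) *
        ((n : ℝ) / ((a₀ : ℝ) - (r - 1)) * (wsum (n - 1) (ind Bad') / U (n - 1))) := by
  set B : BT → Prop := fun T => ∃ i < n, ∃ p s : List ℕ, T.sp i = p ++ s ∧ Bad p s.sum with hB
  have har' : (r : ℝ) ≤ (a₀ : ℝ) := by exact_mod_cast har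
  have hD : (0 : ℝ) < (a₀ : ℝ) - (r - 1) := by linarith
  have key : ∀ T ∈ trees n, ind (nb n (r - 1) B) T ≤
      1 / ((a₀ : ℝ) - (r - 1)) * ∑ i ∈ Finset.range n, ind Bad' (T.sp i) := by
    intro T hT
    have hsum0 : (0 : ℝ) ≤ ∑ i ∈ Finset.range n, ind Bad' (T.sp i) :=
      Finset.sum_nonneg (fun i _ => (GP_ind01 _ _).1)
    by_cases hnb : nb n (r - 1) B T
    · rw [GP_ind_of hnb, one_div, inv_mul_eq_div, le_div_iff₀ hD, one_mul]
      obtain ⟨T', hT', hBT', J, hJ, hres⟩ := nb_common hn hT hnb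
      obtain ⟨i, hi, p, s, hsp, hbad⟩ := hBT'
      have hp : T.labs.Perm (List.range n) := (mem_trees_iff (by omega) T).1 hT
      have hp' : T'.labs.Perm (List.range n) := (mem_trees_iff (by omega) T').1 hT'
      have hnd : T.labs.Nodup := hp.nodup_iff.2 List.nodup_range
      have hnd' : T'.labs.Nodup := hp'.nodup_iff.2 List.nodup_range
      have hi' : i ∈ T'.labs := hp'.mem_iff.2 (List.mem_range.2 hi)
      obtain ⟨L, hLc, hL⟩ := sp_mult hnd' hi' hsp
      have hall : ∀ i' ∈ L \ J, i' ∈ Finset.range n ∧ ind Bad' (T.sp i') = 1 := by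
        intro i' hi1
        rw [Finset.mem_sdiff] at hi1
        obtain ⟨h1, s', hs', hss⟩ := hL i' hi1.1
        have h2 : i' < n := List.mem_range.1 (hp'.mem_iff.1 h1)
        have h3 : i' ∈ T.labs := hp.mem_iff.2 (List.mem_range.2 h2)
        refine ⟨Finset.mem_range.2 h2, GP_ind_of ?_⟩
        have hq : (fun a => decide (a ∉ J)) i' = true := by simpa using hi1.2
        cases hR : T'.res (fun a => decide (a ∉ J)) with
        | none =>
          have := (res_eq_none_iff _ T').1 hR i' h1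
          exact absurd this (by simp [hi1.2])
        | some R =>
          have hR' : T.res (fun a => decide (a ∉ J)) = some R := by rw [hres, hR]
          have hd1 := sp_res hnd' hR h1 hq
          have hd2 := sp_res hnd hR' h3 hq
          rw [hs'] at hd1
          have hb1 : Bad p s'.sum := by rw [hss]; exact hbad
          exact rob p s' (T.sp i') (R.sp i') _ _ hb1 hd1 hd2
            ((GP_size hp' hR).trans hJ) ((GP_size hp hR').trans hJ)
      have hcard : L.card - J.card ≤ (L \ J).card := Finset.le_card_sdiff J L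
      have ha0 : a₀ ≤ 1 + s.sum := hBad p s.sum hbad
      have h5 : (a₀ : ℝ) - (r - 1) ≤ ((L \ J).card : ℝ) := by
        have h6 : a₀ + 1 ≤ (L \ J).card + r := by omega
        have h7 : ((a₀ + 1 : ℕ) : ℝ) ≤ (((L \ J).card + r : ℕ) : ℝ) := by exact_mod_cast h6
        push_cast at h7
        linarith
      calc (a₀ : ℝ) - (r - 1) ≤ ((L \ J).card : ℝ) := h5
        _ = ∑ i' ∈ L \ J, (1 : ℝ) := by simp
        _ = ∑ i' ∈ L \ J, ind Bad' (T.sp i') :=
            Finset.sum_congr rfl (fun i' hi1 => (hall i' hi1).2.symm)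
        _ ≤ ∑ i' ∈ Finset.range n, ind Bad' (T.sp i') :=
            Finset.sum_le_sum_of_subset_of_nonneg (fun i' hi1 => (hall i' hi1).1)
              (fun i' _ _ => (GP_ind01 _ _).1)
    · rw [GP_ind_not hnb]
      exact mul_nonneg (by positivity) hsum0
  have h1 := hitP_le_nb (n := n) (r := r) hn hr hTm ha ht ht' B
  have h2 : avg n (ind (nb n (r - 1) B)) ≤
      (n : ℝ) / ((a₀ : ℝ) - (r - 1)) * (wsum (n - 1) (ind Bad') / U (n - 1)) := by
    refine (avg_mono key).trans (le_of_eq ?_)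
    rw [avg_mul_left]
    obtain ⟨N, rfl⟩ : ∃ N, n = N + 1 := ⟨n - 1, by omega⟩
    rw [spine_law N (ind Bad'), Nat.add_sub_cancel]
    push_cast
    ring
  refine h1.trans (mul_le_mul_of_nonneg_left h2 ?_)
  positivity

end Pool.Agent.ALD
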