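import Pool.Agent.ALD.GM

/-! Module GDA: consequences of goodness for one list (deterministic) -/

noncomputable section

namespace Pool.Agent.ALD

theorem gdA_sum_xi (j : ℕ) (p : List ℕ) :
    ∑ i ∈ Finset.range (j + 1), (p.map (xi (2 ^ i))).sum =
      (p.map (gM 1)).sum - (p.map (gM (2 ^ (j + 1)))).sum := by
  induction p with
  | nil => simp
  | cons b p ih =>
    simp only [List.map_cons, List.sum_cons, Finset.sum_add_distrib, ih]
    have h : ∑ i ∈ Finset.range (j + 1), xi (2 ^ i) b = gM 1 b - gM (2 ^ (j + 1)) b := by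
      have h1 : ∀ i ∈ Finset.range (j + 1), xi (2 ^ i) b = gM (2 ^ i) b - gM (2 ^ (i + 1)) b := by
        intro i _
        unfold xi
        rw [pow_succ, mul_comm 2 (2 ^ i)]
      rw [Finset.sum_congr rfl h1, Finset.sum_range_sub' (fun i => gM (2 ^ i) b)]
      simp
    rw [h]
    ring

theorem gdA_sum_one {p : List ℕ} (hp : ∀ m ∈ p, 1 ≤ m) : (p.map (gM 1)).sum = p.length := by
  induction p with
  | nil => simp
  | cons b p ih =>
    simp only [List.map_cons, List.sum_cons, List.length_cons]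
    rw [ih (fun m hm => hp m (List.mem_cons_of_mem _ hm)),
      gM_one (hp b (List.mem_cons_self ..))]
    push_cast
    ring

/-- `2^{1/8} ≥ 1 + 1/12`: indeed `(13/12)^8 ≤ 2` -/
theorem gdA_two : (13 / 12 : ℝ) ≤ (2 : ℝ) ^ (1 / 8 : ℝ) := by
  have h1 : ((13 / 12 : ℝ) ^ (8 : ℕ)) ≤ 2 := by norm_num
  have h2 : (13 / 12 : ℝ) = ((13 / 12 : ℝ) ^ (8 : ℕ)) ^ (1 / 8 : ℝ) := by
    rw [← Real.rpow_natCast, ← Real.rpow_mul (by norm_num)]
    norm_num
  rw [h2]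
  exact Real.rpow_le_rpow (by positivity) h1 (by norm_num)

theorem gdA_geom {r : ℝ} (hr : 13 / 12 ≤ r) (j : ℕ) :
    ∑ i ∈ Finset.range (j + 1), r ^ i ≤ 13 * r ^ j := by
  induction j with
  | zero => simp
  | succ j ih =>
    rw [Finset.sum_range_succ]
    have hpos : 0 < r ^ j := by positivity
    calc ∑ i ∈ Finset.range (j + 1), r ^ i + r ^ (j + 1) ≤ 13 * r ^ j + r ^ (j + 1) := by linarith
      _ ≤ 13 * r ^ (j + 1) := by
        rw [pow_succ]
        nlinarith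

/-- `gM 1 m = 1` for the entries (all `≥ 1`), and `Σ_{i ≤ j} xi (2^i) = gM 1 - gM (2^(j+1))`
(telescoping); the geometric sum `Σ_{i ≤ j} 2^{i/8} ≤ 13 · 2^{j/8}` (as `1 / (1 - 2^{-1/8}) ≤ 13`). -/
theorem good_length {n : ℕ} (hn : 1 ≤ n) {x0 : ℝ} {l : List ℕ} (hG : GoodL n x0 l)
    (hl : ∀ m ∈ l, 1 ≤ m) {j : ℕ} (hj : (2 : ℝ) ^ j * x0 ≤ n) (hx : 0 ≤ x0) {p s : List ℕ}
    (h : l = p ++ s) (hs : 2 ^ j ≤ 1 + s.sum) :
    |(p.length : ℝ) - (p.map (gM (2 ^ (j + 1)))).sum| ≤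
      13 * (((2 : ℝ) ^ j / n) ^ (1 / 8 : ℝ) * Real.sqrt n) := by
  have hn' : (0 : ℝ) < n := by exact_mod_cast hn
  have hp : ∀ m ∈ p, 1 ≤ m := fun m hm => hl m (by rw [h]; exact List.mem_append_left _ hm)
  rw [← gdA_sum_one hp, ← gdA_sum_xi]
  set r : ℝ := (2 : ℝ) ^ (1 / 8 : ℝ) with hr
  have hkey : ∀ i : ℕ, ((2 : ℝ) ^ i / n) ^ (1 / 8 : ℝ) = r ^ i * ((1 / n : ℝ) ^ (1 / 8 : ℝ)) := by
    intro i
    rw [div_eq_mul_one_div, Real.mul_rpow (by positivity) (by positivity), hr,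
      ← Real.rpow_natCast, ← Real.rpow_mul (by norm_num), ← Real.rpow_natCast,
      ← Real.rpow_mul (by norm_num), mul_comm ((i : ℕ) : ℝ) (1 / 8 : ℝ)]
  have hterm : ∀ i ∈ Finset.range (j + 1), |(p.map (xi (2 ^ i))).sum| ≤
      r ^ i * ((1 / n : ℝ) ^ (1 / 8 : ℝ) * Real.sqrt n) := by
    intro i hi
    rw [Finset.mem_range] at hi
    have hij : i ≤ j := by omega
    have h1 : (2 : ℝ) ^ i ≤ (2 : ℝ) ^ j := pow_le_pow_right₀ (by norm_num) hij
    have h2 : (2 : ℝ) ^ i * x0 ≤ n := (mul_le_mul_of_nonneg_right h1 hx).trans hj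
    have h3 : 2 ^ i ≤ 1 + s.sum := (Nat.pow_le_pow_right (by norm_num) hij).trans hs
    have h4 := (hG i p s h h2 h3).le
    rw [hkey i, mul_assoc] at h4
    exact h4
  calc |∑ i ∈ Finset.range (j + 1), (p.map (xi (2 ^ i))).sum|
      ≤ ∑ i ∈ Finset.range (j + 1), |(p.map (xi (2 ^ i))).sum| :=
        Finset.abs_sum_le_sum_abs _ _
    _ ≤ ∑ i ∈ Finset.range (j + 1), r ^ i * ((1 / n : ℝ) ^ (1 / 8 : ℝ) * Real.sqrt n) :=
        Finset.sum_le_sum hterm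
    _ = (∑ i ∈ Finset.range (j + 1), r ^ i) * ((1 / n : ℝ) ^ (1 / 8 : ℝ) * Real.sqrt n) := by
        rw [Finset.sum_mul]
    _ ≤ (13 * r ^ j) * ((1 / n : ℝ) ^ (1 / 8 : ℝ) * Real.sqrt n) := by
        apply mul_le_mul_of_nonneg_right (gdA_geom gdA_two j)
        positivity
    _ = 13 * (((2 : ℝ) ^ j / n) ^ (1 / 8 : ℝ) * Real.sqrt n) := by
        rw [hkey j]
        ring

/-- difference of two applications of `good_length` -/
theorem good_window {n : ℕ} (hn : 1 ≤ n) {x0 : ℝ} {l : List ℕ} (hG : GoodL n x0 l)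
    (hl : ∀ m ∈ l, 1 ≤ m) {j : ℕ} (hj : (2 : ℝ) ^ j * x0 ≤ n) (hx : 0 ≤ x0) {p w s : List ℕ}
    (h : l = p ++ w ++ s) (hs : 2 ^ j ≤ 1 + s.sum) :
    |(w.length : ℝ) - (w.map (gM (2 ^ (j + 1)))).sum| ≤
      26 * (((2 : ℝ) ^ j / n) ^ (1 / 8 : ℝ) * Real.sqrt n) := by
  have h1 := good_length hn hG hl hj hx h hs
  have h2 := good_length hn hG hl hj hx (p := p) (s := w ++ s) (by rw [h, List.append_assoc])
    (by rw [List.sum_append]; omega)
  simp only [List.length_append, List.map_append, List.sum_append, Nat.cast_add] at h1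
  rw [abs_le] at h1 h2 ⊢
  constructor <;> linarith [h1.1, h1.2, h2.1, h2.2]

/-- `Σ_w gM M ≤ w.sum / √M` by `gM_le_div` -/
theorem sum_gM_le {M : ℕ} (hM : 1 ≤ M) (w : List ℕ) :
    (w.map (gM M)).sum ≤ (w.sum : ℝ) / Real.sqrt M := by
  induction w with
  | nil => simp
  | cons b w ih =>
    simp only [List.map_cons, List.sum_cons, Nat.cast_add, add_div]
    exact add_le_add (gM_le_div hM b) ih

end Pool.Agent.ALD
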