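import Pool.Agent.ALD.GdA

/-! Module GDB: small subtrees have small height (deterministic, one list) -/

noncomputable section

namespace Pool.Agent.ALD

lemma gdB_split (t : ℕ) (s : List ℕ) : ∀ w : List ℕ, 1 + s.sum < t → t ≤ 1 + (w ++ s).sum →
    ∃ (w₁ : List ℕ) (m : ℕ) (w₂ : List ℕ), w = w₁ ++ m :: w₂ ∧ t ≤ 1 + (m :: w₂ ++ s).sum ∧
      1 + (w₂ ++ s).sum < t := by
  intro w
  induction w with
  | nil => intro h1 h2; simp at h2; omega
  | cons a w ih =>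
    intro h1 h2
    by_cases h : t ≤ 1 + (w ++ s).sum
    · obtain ⟨w₁, m, w₂, e, h3, h4⟩ := ih h1 h
      exact ⟨a :: w₁, m, w₂, by rw [e]; rfl, h3, h4⟩
    · exact ⟨[], a, w, rfl, h2, by omega⟩

lemma gdB_sum_zero {s : List ℕ} (hl : ∀ m ∈ s, 1 ≤ m) (h : s.sum = 0) : s = [] := by
  cases s with
  | nil => rfl
  | cons a s =>
    have := hl a (by simp)
    simp at h
    omega

lemma gdB_step (y : ℝ) (hy : 0 ≤ y) : 400 * y ^ (1 / 8 : ℝ) ≤ 371 * (2 * y) ^ (1 / 8 : ℝ) := by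
  have h1 : y ≤ (371 / 400 : ℝ) ^ 8 * (2 * y) := by
    have : (1 : ℝ) ≤ (371 / 400 : ℝ) ^ 8 * 2 := by norm_num
    nlinarith
  have h2 : y ^ (1 / 8 : ℝ) ≤ ((371 / 400 : ℝ) ^ 8 * (2 * y)) ^ (1 / 8 : ℝ) :=
    Real.rpow_le_rpow hy h1 (by norm_num)
  rw [Real.mul_rpow (by positivity) (by positivity), ← Real.rpow_natCast,
    ← Real.rpow_mul (by norm_num)] at h2
  norm_num at h2 ⊢
  linarith

lemma gdB_sqrt_le {n : ℕ} (hn : 1 ≤ n) {x : ℝ} (hx0 : 0 < x) (hx : x ≤ n) :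
    Real.sqrt x ≤ (x / n) ^ (1 / 8 : ℝ) * Real.sqrt n := by
  have hn' : (0 : ℝ) < n := by exact_mod_cast hn
  have h1 : x / n ≤ 1 := by rw [div_le_one hn']; exact hx
  have h0 : 0 < x / n := by positivity
  have h2 : (x / n) ^ (1 / 2 : ℝ) ≤ (x / n) ^ (1 / 8 : ℝ) :=
    Real.rpow_le_rpow_of_exponent_ge h0 h1 (by norm_num)
  have h3 : Real.sqrt x = (x / n) ^ (1 / 2 : ℝ) * Real.sqrt n := by
    rw [← Real.sqrt_eq_rpow, ← Real.sqrt_mul h0.le]
    congr 1
    field_simp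
  rw [h3]
  exact mul_le_mul_of_nonneg_right h2 (Real.sqrt_nonneg _)

/-- Small subtrees have small height. Induction on `k`. If `1 + s.sum < 2^k` use the case `k - 1` (for
`k = 0`: `s = []`). Otherwise `s = w ++ s'` with `w` the longest beginning such that
`2^k ≤ 1 + s'.sum`; by `good_window` and `sum_gM_le` (with `w.sum ≤ 2^(k+1)`)
`w.length ≤ 26 (2^k/n)^(1/8) √n + √(2^(k+1)) ≤ 28 (2^k/n)^(1/8) √n` (as `2^k ≤ n`); `s'` is empty or
`m :: s''` with `1 + s''.sum < 2^k`; `1 ≤ (2^k/n)^(1/8) √n`; so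
`s.length ≤ 29 (2^k/n)^(1/8) √n + 400 (2^(k-1)/n)^(1/8) √n ≤ 400 (2^k/n)^(1/8) √n`. -/
theorem good_height {n : ℕ} (hn : 1 ≤ n) {x0 : ℝ} (hx : 1 ≤ x0) {l : List ℕ} (hG : GoodL n x0 l)
    (hl : ∀ m ∈ l, 1 ≤ m) (k : ℕ) (hk : (2 : ℝ) ^ k * x0 ≤ n) {p s : List ℕ} (h : l = p ++ s)
    (hs : 1 + s.sum < 2 ^ (k + 1)) :
    (s.length : ℝ) ≤ 400 * (((2 : ℝ) ^ k / n) ^ (1 / 8 : ℝ) * Real.sqrt n) := by
  have hn' : (0 : ℝ) < n := by exact_mod_cast hn
  have hsn : 0 ≤ Real.sqrt n := Real.sqrt_nonneg _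
  induction k generalizing p s with
  | zero =>
    have h1 : s.sum = 0 := by
      have : 1 + s.sum < 2 := by simpa using hs
      omega
    have h2 : s = [] := gdB_sum_zero (fun m hm => hl m (by rw [h]; simp [hm])) h1
    rw [h2]
    simp only [List.length_nil, Nat.cast_zero]
    positivity
  | succ k ih =>
    have hk' : (2 : ℝ) ^ k * x0 ≤ n := by
      refine le_trans ?_ hk
      have : (2 : ℝ) ^ k ≤ 2 ^ (k + 1) := by
        rw [pow_succ]; have : (0 : ℝ) < 2 ^ k := by positivity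
        linarith
      exact mul_le_mul_of_nonneg_right this (by linarith)
    have hstep : 400 * (((2 : ℝ) ^ k / n) ^ (1 / 8 : ℝ) * Real.sqrt n) ≤
        371 * (((2 : ℝ) ^ (k + 1) / n) ^ (1 / 8 : ℝ) * Real.sqrt n) := by
      have h1 := gdB_step ((2 : ℝ) ^ k / n) (by positivity)
      have e1 : 2 * ((2 : ℝ) ^ k / n) = (2 : ℝ) ^ (k + 1) / n := by rw [pow_succ]; ring
      rw [e1] at h1
      have h2 := mul_le_mul_of_nonneg_right h1 hsn
      linarith
    have hA : 0 ≤ ((2 : ℝ) ^ (k + 1) / n) ^ (1 / 8 : ℝ) * Real.sqrt n := by positivity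
    by_cases hc : 1 + s.sum < 2 ^ (k + 1)
    · have := ih hk' h hc
      linarith
    · push Not at hc
      have h0 : 1 + ([] : List ℕ).sum < 2 ^ (k + 1) := by
        simp only [List.sum_nil, add_zero]
        exact Nat.one_lt_two_pow (by omega)
      obtain ⟨w, m, s'', e, h3, h4⟩ := gdB_split (2 ^ (k + 1)) [] s h0 (by simpa using hc)
      rw [List.append_nil] at h4
      have h3' : 2 ^ (k + 1) ≤ 1 + (m :: s'').sum := by simpa using h3
      have hs'' := ih hk' (p := p ++ w ++ [m]) (s := s'') (by rw [h, e]; simp) h4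
      have hkn : (2 : ℝ) ^ (k + 1) ≤ n := by
        have : (0 : ℝ) < 2 ^ (k + 1) := by positivity
        nlinarith
      have hsq := gdB_sqrt_le hn (x := (2 : ℝ) ^ (k + 1)) (by positivity) hkn
      have hone : (1 : ℝ) ≤ Real.sqrt ((2 : ℝ) ^ (k + 1)) := by
        rw [Real.one_le_sqrt]
        exact one_le_pow₀ (by norm_num)
      have hwin := good_window hn hG hl (j := k + 1) hk (by linarith) (p := p) (w := w)
        (s := m :: s'') (by rw [h, e]; simp) h3'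
      have hsum := sum_gM_le (M := 2 ^ (k + 1 + 1)) Nat.one_le_two_pow w
      have hws : (w.sum : ℝ) ≤ (2 : ℝ) ^ (k + 2) := by
        have h5 : s.sum = w.sum + (m :: s'').sum := by rw [e]; simp
        have h6 : w.sum ≤ 2 ^ (k + 1 + 1) := by omega
        calc ((w.sum : ℕ) : ℝ) ≤ ((2 ^ (k + 1 + 1) : ℕ) : ℝ) := Nat.cast_le.mpr h6
          _ = (2 : ℝ) ^ (k + 2) := by rw [Nat.cast_pow]; norm_num
      have hdiv : (w.sum : ℝ) / Real.sqrt ((2 ^ (k + 1 + 1) : ℕ) : ℝ) ≤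
          2 * Real.sqrt ((2 : ℝ) ^ (k + 1)) := by
        have e2 : (((2 : ℕ) ^ (k + 1 + 1) : ℕ) : ℝ) = (2 : ℝ) ^ (k + 1) * 2 := by
          push_cast; ring
        rw [e2]
        have hpos : 0 < Real.sqrt ((2 : ℝ) ^ (k + 1) * 2) := Real.sqrt_pos.mpr (by positivity)
        rw [div_le_iff₀ hpos]
        have h8 : Real.sqrt ((2 : ℝ) ^ (k + 1)) ≤ Real.sqrt ((2 : ℝ) ^ (k + 1) * 2) :=
          Real.sqrt_le_sqrt (by nlinarith [show (0 : ℝ) < (2 : ℝ) ^ (k + 1) by positivity])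
        have h9 : Real.sqrt ((2 : ℝ) ^ (k + 1)) * Real.sqrt ((2 : ℝ) ^ (k + 1)) = (2 : ℝ) ^ (k + 1) :=
          Real.mul_self_sqrt (by positivity)
        have h10 : Real.sqrt ((2 : ℝ) ^ (k + 1)) * Real.sqrt ((2 : ℝ) ^ (k + 1)) ≤
            Real.sqrt ((2 : ℝ) ^ (k + 1)) * Real.sqrt ((2 : ℝ) ^ (k + 1) * 2) :=
          mul_le_mul_of_nonneg_left h8 (Real.sqrt_nonneg _)
        have h11 : (2 : ℝ) ^ (k + 2) = 2 * (2 : ℝ) ^ (k + 1) := by ring
        rw [h11] at hws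
        nlinarith
      have hw : (w.length : ℝ) ≤ 28 * (((2 : ℝ) ^ (k + 1) / n) ^ (1 / 8 : ℝ) * Real.sqrt n) := by
        have h12 := (abs_le.mp hwin).2
        have h13 : (w.map (gM (2 ^ (k + 1 + 1)))).sum ≤ 2 * Real.sqrt ((2 : ℝ) ^ (k + 1)) :=
          hsum.trans hdiv
        linarith
      have hlen : (s.length : ℝ) = w.length + 1 + s''.length := by
        rw [e]; push_cast [List.length_append, List.length_cons]; ring
      rw [hlen]
      linarith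

end Pool.Agent.ALD
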