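import Pool.Agent.ALD.Defs

/-! Module GHPA: closeness of rooted weighted metric spaces -/

open MeasureTheory Filter Topology

noncomputable section

namespace Pool.Agent.ALD

/-- Take `Z = X.pt`. -/
theorem ghpClose_refl (X : RWTree) : GHPClose 0 X X := by
  refine ⟨X.pt, inferInstance, id, id, isometry_id, isometry_id, ?_, ?_, ?_, ?_⟩
  · simp
  · simp
  · intro A _
    rw [Set.preimage_id, Set.preimage_id]
    exact (measure_mono (Metric.self_subset_cthickening A)).trans le_self_add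
  · intro A _
    rw [Set.preimage_id, Set.preimage_id]
    exact (measure_mono (Metric.self_subset_cthickening A)).trans le_self_add

theorem ghpClose_symm {r : ℝ} {X Y : RWTree} (h : GHPClose r X Y) : GHPClose r Y X := by
  obtain ⟨Z, _, f, g, hf, hg, h1, h2, h3, h4⟩ := h
  refine ⟨Z, inferInstance, g, f, hg, hf, ?_, ?_, h4, h3⟩
  · rwa [dist_comm]
  · rwa [Metric.hausdorffDist_comm]

/-- monotone in `r`: thickenings grow -/
theorem ghpClose_mono {r s : ℝ} {X Y : RWTree} (hrs : r ≤ s) (h : GHPClose r X Y) :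
    GHPClose s X Y := by
  obtain ⟨Z, _, f, g, hf, hg, h1, h2, h3, h4⟩ := h
  refine ⟨Z, inferInstance, f, g, hf, hg, h1.trans hrs, h2.trans hrs, ?_, ?_⟩
  · intro A hA
    refine (h3 A hA).trans (add_le_add (measure_mono (Set.preimage_mono ?_))
      (ENNReal.ofReal_le_ofReal hrs))
    exact Metric.cthickening_mono hrs A
  · intro A hA
    refine (h4 A hA).trans (add_le_add (measure_mono (Set.preimage_mono ?_))
      (ENNReal.ofReal_le_ofReal hrs))
    exact Metric.cthickening_mono hrs A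

private theorem ghpA_pre {Z Z' : Type} [MetricSpace Z] [MetricSpace Z'] {L : Z → Z'}
    (hL : Isometry L) (r : ℝ) (A : Set Z') :
    Metric.cthickening r (L ⁻¹' A) ⊆ L ⁻¹' (Metric.cthickening r A) := by
  intro z hz
  rw [Set.mem_preimage]
  rw [Metric.mem_cthickening_iff] at hz ⊢
  refine le_trans ?_ hz
  refine le_iInf₂ fun a ha => ?_
  rw [← hL.edist_eq]
  exact Metric.infEDist_le_edist_of_mem ha

private theorem ghpA_half {r s : ℝ} {X Y W : RWTree} (hr : 0 ≤ r) (hs : 0 ≤ s)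
    {Z₁ Z₂ Z : Type} [MetricSpace Z₁] [MetricSpace Z₂] [MetricSpace Z]
    {f₁ : X.pt → Z₁} {g₁ : Y.pt → Z₁} {f₂ : Y.pt → Z₂} {g₂ : W.pt → Z₂} {L : Z₁ → Z} {R : Z₂ → Z}
    (hL : Isometry L) (hR : Isometry R) (hc : L ∘ g₁ = R ∘ f₂)
    (h3 : ∀ A : Set Z₁, IsClosed A →
      X.mass (f₁ ⁻¹' A) ≤ Y.mass (g₁ ⁻¹' (Metric.cthickening r A)) + ENNReal.ofReal r)
    (k3 : ∀ A : Set Z₂, IsClosed A →
      Y.mass (f₂ ⁻¹' A) ≤ W.mass (g₂ ⁻¹' (Metric.cthickening s A)) + ENNReal.ofReal s)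
    (A : Set Z) (hA : IsClosed A) :
    X.mass ((L ∘ f₁) ⁻¹' A) ≤ W.mass ((R ∘ g₂) ⁻¹' (Metric.cthickening (r + s) A)) +
      ENNReal.ofReal (r + s) := by
  have e1 : g₁ ⁻¹' (Metric.cthickening r (L ⁻¹' A)) ⊆ f₂ ⁻¹' (R ⁻¹' (Metric.cthickening r A)) := by
    rw [← Set.preimage_comp, ← hc, Set.preimage_comp]
    exact Set.preimage_mono (ghpA_pre hL r A)
  have e2 : g₂ ⁻¹' (Metric.cthickening s (R ⁻¹' (Metric.cthickening r A))) ⊆
      (R ∘ g₂) ⁻¹' (Metric.cthickening (r + s) A) := by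
    rw [Set.preimage_comp]
    refine Set.preimage_mono ((ghpA_pre hR s _).trans (Set.preimage_mono ?_))
    rw [add_comm]
    exact Metric.cthickening_cthickening_subset hs hr A
  have m1 := h3 (L ⁻¹' A) (hA.preimage hL.continuous)
  have m2 := k3 (R ⁻¹' (Metric.cthickening r A))
    (Metric.isClosed_cthickening.preimage hR.continuous)
  have m3 : Y.mass (g₁ ⁻¹' (Metric.cthickening r (L ⁻¹' A))) ≤
      Y.mass (f₂ ⁻¹' (R ⁻¹' (Metric.cthickening r A))) := measure_mono e1
  have m4 : W.mass (g₂ ⁻¹' (Metric.cthickening s (R ⁻¹' (Metric.cthickening r A)))) ≤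
      W.mass ((R ∘ g₂) ⁻¹' (Metric.cthickening (r + s) A)) := measure_mono e2
  rw [Set.preimage_comp]
  calc X.mass (f₁ ⁻¹' (L ⁻¹' A))
      ≤ Y.mass (g₁ ⁻¹' (Metric.cthickening r (L ⁻¹' A))) + ENNReal.ofReal r := m1
    _ ≤ (W.mass ((R ∘ g₂) ⁻¹' (Metric.cthickening (r + s) A)) + ENNReal.ofReal s) +
        ENNReal.ofReal r := by
      gcongr
      exact m3.trans (m2.trans (by gcongr))
    _ = _ := by
      rw [add_assoc, ← ENNReal.ofReal_add hs hr, add_comm s r]

/-- Glue the two common spaces along the middle space (`Metric.GlueSpace`); Hausdorff distances add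
up (`Metric.hausdorffDist_triangle`), and `cthickening s (cthickening r A) ⊆ cthickening (s + r) A`
(`Metric.cthickening_cthickening_subset`). For the mass inequality: for `A` closed in the glued
space pull back to the first space, apply the first inequality, then the preimage of the
`r`-thickening is contained in the preimage of a closed set of the second space, apply the second
one. -/
theorem ghpClose_triangle {r s : ℝ} {X Y W : RWTree} (hr : 0 ≤ r) (hs : 0 ≤ s)
    (h₁ : GHPClose r X Y) (h₂ : GHPClose s Y W) : GHPClose (r + s) X W := by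
  obtain ⟨Z₁, _, f₁, g₁, hf₁, hg₁, h1, h2, h3, h4⟩ := h₁
  obtain ⟨Z₂, _, f₂, g₂, hf₂, hg₂, k1, k2, k3, k4⟩ := h₂
  have hne : Nonempty Y.pt := ⟨Y.root⟩
  have hc : Metric.toGlueL hg₁ hf₂ ∘ g₁ = Metric.toGlueR hg₁ hf₂ ∘ f₂ :=
    Metric.toGlue_commute hg₁ hf₂
  have hL : Isometry (Metric.toGlueL hg₁ hf₂) := Metric.toGlueL_isometry hg₁ hf₂
  have hR : Isometry (Metric.toGlueR hg₁ hf₂) := Metric.toGlueR_isometry hg₁ hf₂
  refine ⟨Metric.GlueSpace hg₁ hf₂, inferInstance, Metric.toGlueL hg₁ hf₂ ∘ f₁,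
    Metric.toGlueR hg₁ hf₂ ∘ g₂, hL.comp hf₁, hR.comp hg₂, ?_, ?_, ?_, ?_⟩
  · have e : Metric.toGlueL hg₁ hf₂ (g₁ Y.root) = Metric.toGlueR hg₁ hf₂ (f₂ Y.root) :=
      congrFun hc Y.root
    calc dist ((Metric.toGlueL hg₁ hf₂ ∘ f₁) X.root) ((Metric.toGlueR hg₁ hf₂ ∘ g₂) W.root)
        ≤ dist (Metric.toGlueL hg₁ hf₂ (f₁ X.root)) (Metric.toGlueL hg₁ hf₂ (g₁ Y.root)) +
          dist (Metric.toGlueL hg₁ hf₂ (g₁ Y.root)) (Metric.toGlueR hg₁ hf₂ (g₂ W.root)) :=
          dist_triangle _ _ _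
      _ ≤ r + s := by
        rw [hL.dist_eq, e, hR.dist_eq]
        exact add_le_add h1 k1
  · have hX : Nonempty X.pt := ⟨X.root⟩
    have hfin : Metric.hausdorffEDist (Set.range (Metric.toGlueL hg₁ hf₂ ∘ f₁))
        (Set.range (Metric.toGlueL hg₁ hf₂ ∘ g₁)) ≠ ⊤ :=
      Metric.hausdorffEDist_ne_top_of_nonempty_of_bounded (Set.range_nonempty _)
        (Set.range_nonempty _) (isCompact_range (hL.comp hf₁).continuous).isBounded
        (isCompact_range (hL.comp hg₁).continuous).isBounded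
    refine (Metric.hausdorffDist_triangle hfin).trans ?_
    apply add_le_add
    · rw [Set.range_comp, Set.range_comp, Metric.hausdorffDist_image hL]
      exact h2
    · rw [hc, Set.range_comp, Set.range_comp, Metric.hausdorffDist_image hR]
      exact k2
  · intro A hA
    exact ghpA_half hr hs hL hR hc h3 k3 A hA
  · intro A hA
    rw [add_comm r s]
    exact ghpA_half hs hr hR hL hc.symm k4 h4 A hA

end Pool.Agent.ALD
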