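import Pool.Agent.ALD.Base

/-! Module INSB: sizes and labels under insertion (all by structural induction) -/

namespace Pool.Agent.ALD

open BT

theorem size_pos (T : BT) : 0 < T.size := by
  induction T with
  | leaf a => simp [BT.size]
  | node l r ihl ihr => simp only [BT.size]; omega

theorem length_labs (T : BT) : T.labs.length = T.size := by
  induction T with
  | leaf a => simp [BT.labs, BT.size]
  | node l r ihl ihr => simp [BT.labs, BT.size, ihl, ihr]

theorem length_ins (j : ℕ) (T : BT) : (ins j T).length + 2 = 4 * T.size := by
  induction T with
  | leaf a => simp [BT.ins, BT.size]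
  | node l r ihl ihr =>
    simp only [BT.ins, BT.size, List.length_cons, List.length_append, List.length_map]
    omega

theorem size_of_mem_ins {j : ℕ} {T T' : BT} (h : T' ∈ ins j T) : T'.size = T.size + 1 := by
  induction T generalizing T' with
  | leaf a =>
    simp only [BT.ins, List.mem_cons, List.not_mem_nil, or_false] at h
    rcases h with rfl | rfl <;> simp [BT.size]
  | node l r ihl ihr =>
    simp only [BT.ins, List.mem_cons, List.mem_append, List.mem_map] at h
    rcases h with rfl | rfl | ⟨x, hx, rfl⟩ | ⟨x, hx, rfl⟩
    · simp only [BT.size]; omega
    · simp only [BT.size]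
    · simp only [BT.size, ihl hx]; omega
    · simp only [BT.size, ihr hx]; omega

theorem labs_of_mem_ins {j : ℕ} {T T' : BT} (h : T' ∈ ins j T) : T'.labs.Perm (j :: T.labs) := by
  induction T generalizing T' with
  | leaf a =>
    simp only [BT.ins, List.mem_cons, List.not_mem_nil, or_false] at h
    rcases h with rfl | rfl
    · simp [BT.labs]
    · simp only [BT.labs, List.cons_append, List.nil_append]
      exact List.Perm.swap _ _ _
  | node l r ihl ihr =>
    simp only [BT.ins, List.mem_cons, List.mem_append, List.mem_map] at h
    rcases h with rfl | rfl | ⟨x, hx, rfl⟩ | ⟨x, hx, rfl⟩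
    · simp [BT.labs]
    · simp only [BT.labs]
      exact List.perm_append_singleton j _
    · simp only [BT.labs]
      exact (ihl hx).append_right _
    · simp only [BT.labs]
      exact ((ihr hx).append_left _).trans List.perm_middle

theorem length_verts (T : BT) : T.verts.length + 1 = 2 * T.size := by
  induction T with
  | leaf a => simp [BT.verts, BT.size]
  | node l r ihl ihr =>
    simp only [BT.verts, BT.size, List.length_cons, List.length_append, List.length_map]
    omega

theorem length_nus (I : Finset ℕ) (T : BT) : (T.nus I).length + 1 = 2 * T.size := by
  induction T with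
  | leaf a => simp [BT.nus, BT.size]
  | node l r ihl ihr =>
    have hl := size_pos l
    have hr := size_pos r
    simp only [BT.nus, BT.size, List.length_cons, List.length_append]
    split_ifs <;> (try simp only [List.length_replicate]) <;> omega

end Pool.Agent.ALD
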