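import Pool.Agent.ALD.Relb
import Pool.Agent.ALD.DecL

/-! Module SPB: basic properties of spines -/

namespace Pool.Agent.ALD

open BT

theorem sp_pos {T : BT} {i : ℕ} (hi : i ∈ T.labs) : ∀ m ∈ T.sp i, 1 ≤ m := by
  induction T with
  | leaf a => intro m hm; simp [BT.sp] at hm
  | node l r ihl ihr =>
    intro m hm
    by_cases h : i ∈ l.labs
    · rw [BT.sp, if_pos h, List.mem_cons] at hm
      rcases hm with rfl | hm
      · exact size_pos r
      · exact ihl h m hm
    · rw [BT.sp, if_neg h, List.mem_cons] at hm
      rcases hm with rfl | hm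
      · exact size_pos l
      · refine ihr ?_ m hm
        rw [BT.labs, List.mem_append] at hi
        exact hi.resolve_left h

theorem sp_sum {T : BT} {i : ℕ} (hi : i ∈ T.labs) : 1 + (T.sp i).sum = T.size := by
  induction T with
  | leaf a => simp [BT.sp, BT.size]
  | node l r ihl ihr =>
    by_cases h : i ∈ l.labs
    · have := ihl h
      rw [BT.sp, if_pos h, List.sum_cons, BT.size]
      omega
    · rw [BT.labs, List.mem_append] at hi
      have := ihr (hi.resolve_left h)
      rw [BT.sp, if_neg h, List.sum_cons, BT.size]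
      omega

theorem sp_map {σ : ℕ → ℕ} (hσ : Function.Injective σ) (T : BT) (i : ℕ) :
    (T.map σ).sp (σ i) = T.sp i := by
  induction T with
  | leaf a => simp [BT.sp, BT.map]
  | node l r ihl ihr =>
    have hm : σ i ∈ (l.map σ).labs ↔ i ∈ l.labs := by
      rw [labs_map]
      exact List.mem_map_of_injective hσ
    rw [BT.map, BT.sp, BT.sp, ihl, ihr, size_map, size_map]
    by_cases h : i ∈ l.labs
    · rw [if_pos h, if_pos (hm.2 h)]
    · rw [if_neg h, if_neg (fun h' => h (hm.1 h'))]

end Pool.Agent.ALD
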