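import Pool.Agent.ALD.GdA
import Pool.Agent.ALD.SpB
import Pool.Agent.ALD.TrCh

/-! Module KBA: many large subtrees off a short path, in terms of the length at scale M -/

noncomputable section

namespace Pool.Agent.ALD

open BT

/-- the event at scale `M`: `12` hanging subtrees of size `≥ b` in a window of `M`-length `≤ z`, with at
least `a₀` leaves below -/
def KBEvent (n M a₀ b : ℕ) (z : ℝ) (T : BT) : Prop :=
  ∃ i < n, ∃ p w s : List ℕ, T.sp i = p ++ w ++ s ∧ a₀ ≤ 1 + s.sum ∧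
    (w.map (gM M)).sum ≤ z ∧ 12 ≤ (w.filter (fun m => decide (b ≤ m))).length

/-- For a good tree `ManyBig` implies `KBEvent`: with `2^j ≤ δ^8 n < 2^(j+1)`, `M = 2^(j+1)`,
`a₀ = b = ⌈ε n⌉`, `z = 27 δ √n` (`good_window`). -/
theorem kbEvent_of_manyBig {x0 ε δ : ℝ} (hx : 1 ≤ x0) (hε : 0 < ε) (hδ : 0 < δ) (hδ1 : δ ≤ 1)
    (hδx : δ ^ 8 * x0 ≤ 1) (hδε : δ ^ 8 ≤ ε) {n j : ℕ} (hn : 2 ≤ n) (hj : (2 : ℝ) ^ j ≤ δ ^ 8 * n)
    (hj' : δ ^ 8 * n < 2 ^ (j + 1)) {T : BT} (hT : T ∈ trees n) (hG : Good n x0 T)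
    (hM : ManyBig n ε δ T) :
    KBEvent n (2 ^ (j + 1)) ⌈ε * n⌉₊ ⌈ε * n⌉₊ (27 * δ * Real.sqrt n) T := by
  obtain ⟨i, hi, p, w, s, hsp, hs, hw, hc⟩ := hM
  have hn0 : (0 : ℝ) < n := by
    have : 0 < n := by omega
    exact_mod_cast this
  have hsqrt : 0 ≤ Real.sqrt n := Real.sqrt_nonneg _
  have hGL : GoodL n x0 (T.sp i) := fun k p s h1 h2 h3 => hG i hi k p s h1 h2 h3
  have hmem : i ∈ T.labs := (mem_labs_of_mem_trees hT i).2 hi
  have hjx : (2 : ℝ) ^ j * x0 ≤ n := by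
    have h1 : (2 : ℝ) ^ j * x0 ≤ δ ^ 8 * n * x0 := mul_le_mul_of_nonneg_right hj (by linarith)
    have h2 : δ ^ 8 * n * x0 ≤ n := by
      have : δ ^ 8 * x0 * n ≤ 1 * n := mul_le_mul_of_nonneg_right hδx hn0.le
      linarith
    linarith
  have hs2 : 2 ^ j ≤ 1 + s.sum := by
    have h1 : (2 : ℝ) ^ j ≤ 1 + (s.sum : ℝ) := by
      have h2 : δ ^ 8 * n ≤ ε * n := mul_le_mul_of_nonneg_right hδε hn0.le
      linarith
    exact_mod_cast h1
  have hwin := good_window (by omega : 1 ≤ n) hGL (sp_pos hmem) hjx (by linarith) hsp hs2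
  have hrt : ((2 : ℝ) ^ j / n) ^ (1 / 8 : ℝ) ≤ δ := by
    have h1 : (2 : ℝ) ^ j / n ≤ δ ^ 8 := by
      rw [div_le_iff₀ hn0]
      exact hj
    calc ((2 : ℝ) ^ j / n) ^ (1 / 8 : ℝ) ≤ (δ ^ 8) ^ (1 / 8 : ℝ) :=
          Real.rpow_le_rpow (by positivity) h1 (by norm_num)
      _ = δ := by
          rw [← Real.rpow_natCast, ← Real.rpow_mul hδ.le]
          norm_num
  refine ⟨i, hi, p, w, s, hsp, ?_, ?_, ?_⟩
  · rw [Nat.ceil_le, Nat.cast_add, Nat.cast_one]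
    exact hs
  · have h1 := (abs_le.1 hwin).1
    have h2 : ((2 : ℝ) ^ j / n) ^ (1 / 8 : ℝ) * Real.sqrt n ≤ δ * Real.sqrt n :=
      mul_le_mul_of_nonneg_right hrt hsqrt
    linarith
  · refine hc.trans_eq ?_
    congr 1
    apply List.filter_congr
    intro m _
    rw [decide_eq_decide, Nat.ceil_le]

end Pool.Agent.ALD
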