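import Pool.Agent.ALD.GMS

/-! Module WKA: an exponential moment -/

noncomputable section

namespace Pool.Agent.ALD

theorem WKA_exp_neg_le {y : ℝ} (h0 : 0 ≤ y) (h1 : y ≤ 1) : Real.exp (-y) ≤ 1 - y / 2 := by
  have h2 : Real.exp (-y) ≤ 1 / (1 + y) := by
    rw [Real.exp_neg, ← one_div]
    apply one_div_le_one_div_of_le (by linarith)
    linarith [Real.add_one_le_exp y]
  refine h2.trans ?_
  rw [div_le_iff₀ (by linarith)]
  nlinarith

/-- For `y = gM M m / z ∈ [0, 1]`: `e^{-y} ≤ 1 - y / 2`. If `N ≥ M`: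
`Σ q (1 - g / (2z)) = 1 - U N - 1/(2z) + U N / (4 z U M) ≤ 1 - 1/(2z)` as `4 z U M ≥ 2 z / √M ≥ 1`.
If `N < M`: `≤ 1 - U N ≤ 1 - U M ≤ 1 - 1/(2√M) ≤ 1 - 1/(2z)`. -/
theorem sum_exp_neg_le {M N : ℕ} (hM : 1 ≤ M) {z : ℝ} (hz : Real.sqrt M ≤ z) :
    ∑ m ∈ Finset.Icc 1 N, q m * Real.exp (-(gM M m / z)) ≤ 1 - 1 / (2 * z) := by
  have hMp : (0 : ℝ) < M := by exact_mod_cast hM
  have hs : 0 < Real.sqrt M := Real.sqrt_pos.mpr hMp
  have hz0 : 0 < z := lt_of_lt_of_le hs hz
  have hUM := U_pos M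
  have hUN := U_pos N
  have hlow := U_lower hM
  rcases le_or_gt M N with hN | hN
  · have h1 : ∀ m ∈ Finset.Icc 1 N, q m * Real.exp (-(gM M m / z)) ≤
        q m - (1 / (2 * z)) * (q m * gM M m) := by
      intro m _
      have h := WKA_exp_neg_le (y := gM M m / z) (div_nonneg (gM_nonneg M m) hz0.le)
        ((div_le_one hz0).mpr ((gM_le_sqrt hM m).trans hz))
      calc q m * Real.exp (-(gM M m / z)) ≤ q m * (1 - gM M m / z / 2) :=
            mul_le_mul_of_nonneg_left h (q_nonneg m)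
        _ = _ := by field_simp
    refine (Finset.sum_le_sum h1).trans ?_
    rw [Finset.sum_sub_distrib, ← Finset.mul_sum, sum_q, sum_q_gM hM hN]
    have h2 : 1 / (2 * z) * (U N / (2 * U M)) ≤ U N := by
      rw [div_mul_div_comm, one_mul, div_le_iff₀ (by positivity)]
      have h3 : 1 ≤ 2 * z * (2 * U M) := by
        have h4 : 1 / 2 ≤ Real.sqrt M * U M := by
          have := mul_le_mul_of_nonneg_left hlow hs.le
          calc (1 : ℝ) / 2 = Real.sqrt M * (1 / (2 * Real.sqrt M)) := by field_simp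
            _ ≤ _ := this
        have h5 : Real.sqrt M * U M ≤ z * U M := mul_le_mul_of_nonneg_right hz hUM.le
        linarith
      nlinarith
    linarith
  · have h1 : ∀ m ∈ Finset.Icc 1 N, q m * Real.exp (-(gM M m / z)) ≤ q m := by
      intro m _
      have : Real.exp (-(gM M m / z)) ≤ 1 := by
        rw [Real.exp_le_one_iff]
        have := div_nonneg (gM_nonneg M m) hz0.le
        linarith
      calc _ ≤ q m * 1 := mul_le_mul_of_nonneg_left this (q_nonneg m)
        _ = _ := mul_one _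
    refine (Finset.sum_le_sum h1).trans ?_
    rw [sum_q]
    have h2 : U M ≤ U N := U_antitone hN.le
    have h3 : 1 / (2 * z) ≤ 1 / (2 * Real.sqrt M) :=
      one_div_le_one_div_of_le (by positivity) (by linarith)
    linarith

end Pool.Agent.ALD
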