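import Pool.Agent.ALD.WS
import Pool.Agent.ALD.WKA

/-! Module WKB: many large parts in a short window -/

noncomputable section

namespace Pool.Agent.ALD

/-- weights with `k` large parts still to be chosen -/
def WKB_W (M B a' : ℕ) (z : ℝ) : ℕ → List ℕ → ℝ
  | 0, l => if a' ≤ 1 + l.sum then 1 else 0
  | (_ + 1), [] => 0
  | (k + 1), (m :: l) => Real.exp (-(gM M m / z)) *
      (WKB_W M B a' z (k + 1) l + (if B ≤ m then 1 else 0) * WKB_W M B a' z k l)

/-- before the first large part -/
def WKB_V (M B a' K : ℕ) (z : ℝ) : List ℕ → ℝ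
  | [] => 0
  | (m :: l) => WKB_V M B a' K z l + (if B ≤ m then 1 else 0) * WKB_W M B a' z (K - 1) l

theorem WKB_W_nonneg (M B a' : ℕ) (z : ℝ) : ∀ (k : ℕ) (l : List ℕ), 0 ≤ WKB_W M B a' z k l := by
  intro k
  induction k with
  | zero =>
    intro l
    rw [WKB_W]
    split_ifs <;> norm_num
  | succ k ihk =>
    intro l
    induction l with
    | nil => rw [WKB_W]
    | cons m l ih =>
      rw [WKB_W]
      have := ihk l
      apply mul_nonneg (Real.exp_pos _).le
      apply add_nonneg ih
      apply mul_nonneg _ this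
      split_ifs <;> norm_num

theorem WKB_V_nonneg (M B a' K : ℕ) (z : ℝ) (l : List ℕ) : 0 ≤ WKB_V M B a' K z l := by
  induction l with
  | nil => rw [WKB_V]
  | cons m l ih =>
    rw [WKB_V]
    have := WKB_W_nonneg M B a' z (K - 1) l
    apply add_nonneg ih
    apply mul_nonneg _ this
    split_ifs <;> norm_num

theorem WKB_sum_nonneg (M : ℕ) (w : List ℕ) : 0 ≤ (w.map (gM M)).sum := by
  apply List.sum_nonneg
  intro x hx
  obtain ⟨m, _, rfl⟩ := List.mem_map.mp hx
  exact gM_nonneg M m

theorem WKB_lowW {M B a' : ℕ} {z : ℝ} (hz : 0 < z) {s : List ℕ} (hs : a' ≤ 1 + s.sum) :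
    ∀ (w : List ℕ) (k : ℕ), k ≤ (w.filter (fun m => decide (B ≤ m))).length →
      Real.exp (-((w.map (gM M)).sum / z)) ≤ WKB_W M B a' z k (w ++ s) := by
  intro w
  induction w with
  | nil =>
    intro k hk
    simp only [List.filter_nil, List.length_nil, Nat.le_zero] at hk
    subst hk
    rw [WKB_W]
    simp [hs]
  | cons m w ih =>
    intro k hk
    cases k with
    | zero =>
      rw [WKB_W, if_pos, Real.exp_le_one_iff]
      · have := div_nonneg (WKB_sum_nonneg M (m :: w)) hz.le
        linarith
      · rw [List.sum_append]; omega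
    | succ k =>
      rw [List.cons_append, WKB_W, List.map_cons, List.sum_cons, add_div, neg_add, Real.exp_add]
      apply mul_le_mul_of_nonneg_left _ (Real.exp_pos _).le
      by_cases hB : B ≤ m
      · rw [List.filter_cons_of_pos (by simpa using hB), List.length_cons] at hk
        have h1 := ih k (by omega)
        have h2 := WKB_W_nonneg M B a' z (k + 1) (w ++ s)
        rw [if_pos hB]
        linarith
      · rw [List.filter_cons_of_neg (by simpa using hB)] at hk
        have h1 := ih (k + 1) hk
        rw [if_neg hB]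
        linarith

theorem WKB_lowV {M B a' K : ℕ} {z : ℝ} (hz : 0 < z) (hK : 1 ≤ K) {s : List ℕ}
    (hs : a' ≤ 1 + s.sum) : ∀ (w : List ℕ), (w.map (gM M)).sum ≤ z →
      K ≤ (w.filter (fun m => decide (B ≤ m))).length →
      Real.exp (-1) ≤ WKB_V M B a' K z (w ++ s) := by
  intro w
  induction w with
  | nil =>
    intro _ hk
    simp only [List.filter_nil, List.length_nil, Nat.le_zero] at hk
    omega
  | cons m w ih =>
    intro hg hk
    rw [List.map_cons, List.sum_cons] at hg
    have hg' : (w.map (gM M)).sum ≤ z := by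
      have := gM_nonneg M m
      linarith
    rw [List.cons_append, WKB_V]
    by_cases hB : B ≤ m
    · rw [List.filter_cons_of_pos (by simpa using hB), List.length_cons] at hk
      have h1 := WKB_lowW (M := M) (B := B) hz hs w (K - 1) (by omega)
      have h2 := WKB_V_nonneg M B a' K z (w ++ s)
      have h3 : Real.exp (-1) ≤ Real.exp (-((w.map (gM M)).sum / z)) := by
        apply Real.exp_le_exp.mpr
        have : (w.map (gM M)).sum / z ≤ 1 := (div_le_one hz).mpr hg'
        linarith
      rw [if_pos hB]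
      linarith
    · rw [List.filter_cons_of_neg (by simpa using hB)] at hk
      have h1 := ih hg' hk
      rw [if_neg hB]
      linarith

theorem WKB_lowV' {M B a' K : ℕ} {z : ℝ} (p l : List ℕ) :
    WKB_V M B a' K z l ≤ WKB_V M B a' K z (p ++ l) := by
  induction p with
  | nil => rfl
  | cons m p ih =>
    rw [List.cons_append, WKB_V]
    have := WKB_W_nonneg M B a' z (K - 1) (p ++ l)
    have h2 : 0 ≤ (if B ≤ m then (1 : ℝ) else 0) * WKB_W M B a' z (K - 1) (p ++ l) := by
      apply mul_nonneg _ this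
      split_ifs <;> norm_num
    linarith

theorem WKB_tail {B N : ℕ} (hB : 1 ≤ B) :
    ∑ m ∈ Finset.Icc 1 N, q m * (if B ≤ m then (1 : ℝ) else 0) ≤ U (B - 1) := by
  have h : ∑ m ∈ Finset.Icc 1 N, q m * (if B ≤ m then (1 : ℝ) else 0) =
      ∑ m ∈ Finset.Icc B N, q m := by
    simp only [mul_ite, mul_one, mul_zero]
    rw [← Finset.sum_filter]
    congr 1
    ext m; simp only [Finset.mem_filter, Finset.mem_Icc]; omega
  rw [h]
  rcases le_or_gt B (N + 1) with h1 | h1
  · rw [sum_q_Icc hB h1]
    have := (U_pos N).le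
    linarith
  · rw [Finset.Icc_eq_empty (by omega), Finset.sum_empty]
    exact (U_pos _).le

theorem WKB_upW0 {M B a' N : ℕ} (ha' : 1 ≤ a') {z : ℝ} :
    wsum N (WKB_W M B a' z 0) ≤ U (a' - 1) := by
  have h : wsum N (WKB_W M B a' z 0) = wsum N (fun _ => if a' ≤ 1 + N then (1 : ℝ) else 0) := by
    apply wsum_congr
    intro l hl _
    rw [WKB_W, hl]
  rw [h, wsum_const]
  split_ifs with h1
  · rw [one_mul]
    exact U_antitone (by omega)
  · rw [zero_mul]
    exact (U_pos _).le

theorem WKB_upW {M B a' : ℕ} (hM : 1 ≤ M) (hB : 1 ≤ B) (ha' : 1 ≤ a') {z : ℝ}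
    (hz : Real.sqrt M ≤ z) : ∀ (k N : ℕ),
      wsum N (WKB_W M B a' z k) ≤ (2 * z * U (B - 1)) ^ k * U (a' - 1) := by
  have hMp : (0 : ℝ) < M := by exact_mod_cast hM
  have hs : 0 < Real.sqrt M := Real.sqrt_pos.mpr hMp
  have hz0 : 0 < z := lt_of_lt_of_le hs hz
  have hUB := U_pos (B - 1)
  have hUa := U_pos (a' - 1)
  intro k
  induction k with
  | zero =>
    intro N
    rw [pow_zero, one_mul]
    exact WKB_upW0 ha'
  | succ k ihk =>
    intro N
    induction N using Nat.strong_induction_on with
    | _ N ih =>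
      rcases Nat.eq_zero_or_pos N with h0 | h0
      · subst h0
        rw [wsum_zero, WKB_W]
        positivity
      · rw [wsum_eq h0]
        set b := (2 * z * U (B - 1)) ^ k * U (a' - 1) with hb
        have hb0 : 0 ≤ b := by positivity
        have hb1 : (2 * z * U (B - 1)) ^ (k + 1) * U (a' - 1) = 2 * z * U (B - 1) * b := by
          rw [hb, pow_succ]; ring
        rw [hb1] at ih ⊢
        have h1 : ∀ m ∈ Finset.Icc 1 N,
            q m * wsum (N - m) (fun l => WKB_W M B a' z (k + 1) (m :: l)) ≤
            (2 * z * U (B - 1) * b) * (q m * Real.exp (-(gM M m / z))) +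
              b * (q m * (if B ≤ m then (1 : ℝ) else 0)) := by
          intro m hm
          rw [Finset.mem_Icc] at hm
          have h2 : wsum (N - m) (fun l => WKB_W M B a' z (k + 1) (m :: l)) =
              Real.exp (-(gM M m / z)) * (wsum (N - m) (WKB_W M B a' z (k + 1)) +
                (if B ≤ m then 1 else 0) * wsum (N - m) (WKB_W M B a' z k)) := by
            simp only [WKB_W]
            rw [wsum_mul_left, wsum_add, wsum_mul_left]
          rw [h2]
          have h3 := ih (N - m) (by omega)
          have h4 := ihk (N - m)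
          have hE := (Real.exp_pos (-(gM M m / z))).le
          have hE1 : Real.exp (-(gM M m / z)) ≤ 1 := by
            rw [Real.exp_le_one_iff]
            have := div_nonneg (gM_nonneg M m) hz0.le
            linarith
          have hi : 0 ≤ (if B ≤ m then (1 : ℝ) else 0) := by split_ifs <;> norm_num
          have h5 : Real.exp (-(gM M m / z)) * (wsum (N - m) (WKB_W M B a' z (k + 1)) +
                (if B ≤ m then 1 else 0) * wsum (N - m) (WKB_W M B a' z k)) ≤
              Real.exp (-(gM M m / z)) * (2 * z * U (B - 1) * b) +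
                (if B ≤ m then 1 else 0) * b := by
            rw [mul_add]
            apply add_le_add
            · exact mul_le_mul_of_nonneg_left h3 hE
            · calc Real.exp (-(gM M m / z)) * ((if B ≤ m then 1 else 0) *
                    wsum (N - m) (WKB_W M B a' z k)) ≤
                    Real.exp (-(gM M m / z)) * ((if B ≤ m then 1 else 0) * b) :=
                    mul_le_mul_of_nonneg_left (mul_le_mul_of_nonneg_left h4 hi) hE
                _ ≤ 1 * ((if B ≤ m then 1 else 0) * b) :=
                    mul_le_mul_of_nonneg_right hE1 (mul_nonneg hi hb0)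
                _ = _ := one_mul _
          calc _ ≤ q m * (Real.exp (-(gM M m / z)) * (2 * z * U (B - 1) * b) +
                (if B ≤ m then 1 else 0) * b) := mul_le_mul_of_nonneg_left h5 (q_nonneg m)
            _ = _ := by ring
        refine (Finset.sum_le_sum h1).trans ?_
        rw [Finset.sum_add_distrib, ← Finset.mul_sum, ← Finset.mul_sum]
        have h6 := mul_le_mul_of_nonneg_left (sum_exp_neg_le (N := N) hM hz)
          (show 0 ≤ 2 * z * U (B - 1) * b by positivity)
        have h7 := mul_le_mul_of_nonneg_left (WKB_tail (N := N) hB) hb0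
        have h8 : 2 * z * U (B - 1) * b * (1 - 1 / (2 * z)) =
            2 * z * U (B - 1) * b - b * U (B - 1) := by
          field_simp
        linarith

theorem WKB_conv (N : ℕ) :
    ∑ m ∈ Finset.Icc 1 N, q m * ∑ y ∈ Finset.range (N - m + 1), U y =
      ∑ y ∈ Finset.range N, U (y + 1) := by
  induction N with
  | zero => simp
  | succ N ih =>
    rw [Finset.sum_range_succ, ← ih, Finset.sum_Icc_succ_top (by omega), Nat.sub_self,
      renewal (by omega : 1 ≤ N + 1), Finset.sum_Icc_succ_top (by omega), Nat.sub_self]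
    have h : ∀ m ∈ Finset.Icc 1 N, q m * ∑ y ∈ Finset.range (N + 1 - m + 1), U y =
        q m * ∑ y ∈ Finset.range (N - m + 1), U y + q m * U (N + 1 - m) := by
      intro m hm
      rw [Finset.mem_Icc] at hm
      rw [Finset.sum_range_succ, mul_add, show N + 1 - m = N - m + 1 by omega]
    rw [Finset.sum_congr rfl h, Finset.sum_add_distrib]
    simp
    ring

theorem WKB_upV {M B a' K : ℕ} (hM : 1 ≤ M) (hB : 1 ≤ B) (ha' : 1 ≤ a') {z : ℝ}
    (hz : Real.sqrt M ≤ z) (N : ℕ) :
      wsum N (WKB_V M B a' K z) ≤ (U (B - 1) * ((2 * z * U (B - 1)) ^ (K - 1) * U (a' - 1))) *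
        ∑ y ∈ Finset.range (N + 1), U y := by
  have hMp : (0 : ℝ) < M := by exact_mod_cast hM
  have hs : 0 < Real.sqrt M := Real.sqrt_pos.mpr hMp
  have hz0 : 0 < z := lt_of_lt_of_le hs hz
  have hUB := U_pos (B - 1)
  have hUa := U_pos (a' - 1)
  set b := (2 * z * U (B - 1)) ^ (K - 1) * U (a' - 1) with hb
  have hb0 : 0 ≤ b := by positivity
  induction N using Nat.strong_induction_on with
  | _ N ih =>
    rcases Nat.eq_zero_or_pos N with h0 | h0
    · subst h0
      rw [wsum_zero, WKB_V]
      apply mul_nonneg (by positivity)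
      apply Finset.sum_nonneg
      intro y _
      exact (U_pos y).le
    · rw [wsum_eq h0]
      have h1 : ∀ m ∈ Finset.Icc 1 N,
          q m * wsum (N - m) (fun l => WKB_V M B a' K z (m :: l)) ≤
          (U (B - 1) * b) * (q m * ∑ y ∈ Finset.range (N - m + 1), U y) +
            b * (q m * (if B ≤ m then (1 : ℝ) else 0)) := by
        intro m hm
        rw [Finset.mem_Icc] at hm
        have h2 : wsum (N - m) (fun l => WKB_V M B a' K z (m :: l)) =
            wsum (N - m) (WKB_V M B a' K z) +
              (if B ≤ m then 1 else 0) * wsum (N - m) (WKB_W M B a' z (K - 1)) := by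
          simp only [WKB_V]
          rw [wsum_add, wsum_mul_left]
        rw [h2]
        have h3 := ih (N - m) (by omega)
        have h4 := WKB_upW (B := B) hM hB ha' hz (K - 1) (N - m)
        have hi : 0 ≤ (if B ≤ m then (1 : ℝ) else 0) := by split_ifs <;> norm_num
        have h5 := mul_le_mul_of_nonneg_left h4 hi
        calc _ ≤ q m * ((U (B - 1) * b) * ∑ y ∈ Finset.range (N - m + 1), U y +
              (if B ≤ m then 1 else 0) * b) :=
              mul_le_mul_of_nonneg_left (add_le_add h3 h5) (q_nonneg m)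
          _ = _ := by ring
      refine (Finset.sum_le_sum h1).trans ?_
      rw [Finset.sum_add_distrib, ← Finset.mul_sum, ← Finset.mul_sum, WKB_conv]
      have h7 := mul_le_mul_of_nonneg_left (WKB_tail (N := N) hB) hb0
      rw [Finset.sum_range_succ', U_zero]
      linarith

/-- Define `V_K l = 1[a' ≤ 1 + l.sum]`; for `1 ≤ j < K`: `V_j [] = 0`,
`V_j (m :: l) = e^{-g(m)/z} (V_j l + 1[B ≤ m] V_{j+1} l)`; and `V_0 [] = 0`,
`V_0 (m :: l) = V_0 l + 1[B ≤ m] V_1 l`.
The indicator in the statement is at most `e · V_0 l` (choose the window from the first large part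
in `w` to the `K`-th one).
Let `b_K = U (a' - 1)` and `b_j = 2 z U(B - 1) b_{j+1}`. By strong induction on `N`,
`wsum N V_j ≤ b_j` for `1 ≤ j ≤ K`: `wsum_eq`, `sum_exp_neg_le`, `Σ_{m ≥ B} q m ≤ U (B - 1)`.
Then `wsum N V_0 ≤ U (B - 1) b_1 Σ_{y ≤ N} U y` by strong induction, using
`Σ_{m ≤ N} q m Σ_{y ≤ N - m} U y = Σ_{1 ≤ t ≤ N} U t` (`renewal`). -/
theorem wsum_window {M N B a' K : ℕ} (hM : 1 ≤ M) (hB : 1 ≤ B) (ha' : 1 ≤ a') (hK : 1 ≤ K) {z : ℝ}
    (hz : Real.sqrt M ≤ z) :
    wsum N (ind (fun l : List ℕ => ∃ p w s : List ℕ, l = p ++ w ++ s ∧ a' ≤ 1 + s.sum ∧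
      (w.map (gM M)).sum ≤ z ∧ K ≤ (w.filter (fun m => decide (B ≤ m))).length)) ≤
      Real.exp 1 * ((2 * z * U (B - 1)) ^ (K - 1) * U (B - 1) * U (a' - 1)) *
        ∑ y ∈ Finset.range (N + 1), U y := by
  have hMp : (0 : ℝ) < M := by exact_mod_cast hM
  have hs : 0 < Real.sqrt M := Real.sqrt_pos.mpr hMp
  have hz0 : 0 < z := lt_of_lt_of_le hs hz
  have h1 : wsum N (ind (fun l : List ℕ => ∃ p w s : List ℕ, l = p ++ w ++ s ∧ a' ≤ 1 + s.sum ∧
      (w.map (gM M)).sum ≤ z ∧ K ≤ (w.filter (fun m => decide (B ≤ m))).length)) ≤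
      wsum N (fun l => Real.exp 1 * WKB_V M B a' K z l) := by
    apply wsum_mono
    intro l _ _
    unfold ind
    split_ifs with h
    · obtain ⟨p, w, s, rfl, hsum, hg, hk⟩ := h
      have h2 := WKB_lowV (M := M) (B := B) hz0 hK hsum w hg hk
      have h3 := WKB_lowV' (M := M) (B := B) (a' := a') (K := K) (z := z) p (w ++ s)
      rw [List.append_assoc]
      have h4 : Real.exp 1 * Real.exp (-1) = 1 := by
        rw [← Real.exp_add]; norm_num
      exact h4.symm.le.trans (mul_le_mul_of_nonneg_left (h2.trans h3) (Real.exp_pos 1).le)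
    · exact mul_nonneg (Real.exp_pos 1).le (WKB_V_nonneg _ _ _ _ _ _)
  refine h1.trans ?_
  rw [wsum_mul_left]
  have h2 := mul_le_mul_of_nonneg_left (WKB_upV (K := K) (B := B) hM hB ha' hz N)
    (Real.exp_pos 1).le
  refine h2.trans (le_of_eq ?_)
  ring

end Pool.Agent.ALD
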