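import Pool.Agent.ALD.KbA
import Pool.Agent.ALD.GP
import Pool.Agent.ALD.WKB
import Pool.Agent.ALD.HitB

/-! Module KBB: probability of the event KBEvent -/

noncomputable section

namespace Pool.Agent.ALD

open BT

theorem KbB_rob {M r b B : ℕ} {z : ℝ} (hM : 1 ≤ M) (hB : 1 ≤ B) (hBb : B + (r - 1) ≤ b)
    (hrz : 2 * ((r - 1 : ℕ) : ℝ) ≤ z * Real.sqrt M)
    {p s l R : List ℕ} {j₁ j₂ : ℕ}
    (hbad : b ≤ 1 + s.sum ∧ ∃ p₀ w : List ℕ, p = p₀ ++ w ∧ (w.map (gM M)).sum ≤ z ∧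
      12 ≤ (w.filter (fun m => decide (b ≤ m))).length)
    (h1 : Dec (p ++ s) R j₁) (h2 : Dec l R j₂) (hj1 : j₁ ≤ r - 1) (hj2 : j₂ ≤ r - 1) :
    ∃ p w s : List ℕ, l = p ++ w ++ s ∧ B ≤ 1 + s.sum ∧
      (w.map (gM M)).sum ≤ 2 * z ∧ 12 ≤ (w.filter (fun m => decide (B ≤ m))).length := by
  obtain ⟨hb, p₀, w, rfl, hw, hc⟩ := hbad
  obtain ⟨P', S', k₁, k₂, hR, hP, hS, hk⟩ := h1.split_left
  obtain ⟨p₀', w', k₃, k₄, hP', hp₀, hw', hk'⟩ := hP.split_left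
  subst hP'
  subst hR
  obtain ⟨P'', S'', i₁, i₂, hl, hP2, hS2, hi⟩ := h2.split_right
  obtain ⟨p₀'', w'', i₃, i₄, hP3, hp3, hw3, hi'⟩ := hP2.split_right
  subst hP3
  have hMpos : (0 : ℝ) < Real.sqrt M := by
    apply Real.sqrt_pos.2
    have : 0 < M := hM
    exact_mod_cast this
  refine ⟨p₀'', w'', S'', hl, ?_, ?_, ?_⟩
  · have e1 := hS.sum_eq
    have e2 := hS2.sum_eq
    omega
  · have e1 := hw'.lip (gM_zero M) (gM_lip hM)
    have e2 := hw3.lip (gM_zero M) (gM_lip hM)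
    have e3 := (abs_le.1 e1).1
    have e4 := (abs_le.1 e2).2
    have e5 : (1 / Real.sqrt M) * (k₄ : ℝ) ≤ (1 / Real.sqrt M) * ((r - 1 : ℕ) : ℝ) := by
      apply mul_le_mul_of_nonneg_left _ (by positivity)
      have : k₄ ≤ r - 1 := by omega
      exact_mod_cast this
    have e6 : (1 / Real.sqrt M) * (i₄ : ℝ) ≤ (1 / Real.sqrt M) * ((r - 1 : ℕ) : ℝ) := by
      apply mul_le_mul_of_nonneg_left _ (by positivity)
      have : i₄ ≤ r - 1 := by omega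
      exact_mod_cast this
    have e7 : (1 / Real.sqrt M) * ((r - 1 : ℕ) : ℝ) ≤ z / 2 := by
      rw [one_div, inv_mul_le_iff₀ hMpos]
      linarith
    linarith
  · have e1 : (w.filter (fun m => decide (B + (r - 1) ≤ m))).length ≤
        (w'.filter (fun m => decide (B ≤ m))).length := hw'.count_le hB (by omega)
    have e2 : (w'.filter (fun m => decide (B ≤ m))).length ≤
        (w''.filter (fun m => decide (B ≤ m))).length := hw3.count_le'
    have e3 : (w.filter (fun m => decide (b ≤ m))).length ≤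
        (w.filter (fun m => decide (B + (r - 1) ≤ m))).length := by
      rw [← List.countP_eq_length_filter, ← List.countP_eq_length_filter]
      apply List.countP_mono_left
      intro m _ hm
      simp only [decide_eq_true_eq] at hm ⊢
      omega
    omega

theorem KbB_U {n B : ℕ} {ε : ℝ} (hε : 0 < ε) (hn : 1 ≤ n) (hB : ε * n / 2 ≤ B) (hB1 : 1 ≤ B) :
    U (B - 1) ≤ Real.sqrt (2 / ε) / Real.sqrt n := by
  have hn0 : (0 : ℝ) < n := by
    have : 0 < n := hn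
    exact_mod_cast this
  have h1 := U_upper (B - 1)
  have h2 : (((B - 1 : ℕ) : ℝ) + 1) = B := by
    rw [Nat.cast_sub hB1]
    ring
  rw [h2] at h1
  have hBpos : (0 : ℝ) < B := by
    have : 0 < B := hB1
    exact_mod_cast this
  refine h1.trans ?_
  rw [← Real.sqrt_div (by positivity : (0 : ℝ) ≤ 2 / ε), one_div, ← Real.sqrt_inv]
  apply Real.sqrt_le_sqrt
  rw [div_div, inv_eq_one_div, div_le_div_iff₀ hBpos (by positivity)]
  linarith

theorem KbB_sumU {n : ℕ} (hn : 1 ≤ n) : ∑ y ∈ Finset.range n, U y ≤ 2 * Real.sqrt n := by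
  have hn0 : (0 : ℝ) < n := by
    have : 0 < n := hn
    exact_mod_cast this
  rw [sum_U]
  have h1 := U_upper n
  have h2 : 1 / Real.sqrt ((n : ℝ) + 1) ≤ 1 / Real.sqrt n := by
    apply one_div_le_one_div_of_le (Real.sqrt_pos.2 hn0)
    apply Real.sqrt_le_sqrt
    linarith
  have h3 : (n : ℝ) * (1 / Real.sqrt n) = Real.sqrt n := by
    rw [mul_one_div]
    exact Real.div_sqrt
  have h4 : (n : ℝ) * U n ≤ (n : ℝ) * (1 / Real.sqrt n) :=
    mul_le_mul_of_nonneg_left (h1.trans h2) hn0.le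
  rw [h3] at h4
  linarith

theorem KbB_window {n M B : ℕ} {ε δ z : ℝ} (hε : 0 < ε) (hδ : 0 < δ) (hn : 2 ≤ n) (hM : 1 ≤ M)
    (hB : ε * n / 2 ≤ B) (hB1 : 1 ≤ B) (hz : z = 27 * δ * Real.sqrt n)
    (hMz : Real.sqrt M ≤ 2 * z) :
    wsum (n - 1) (ind (fun l : List ℕ => ∃ p w s : List ℕ, l = p ++ w ++ s ∧ B ≤ 1 + s.sum ∧
      (w.map (gM M)).sum ≤ 2 * z ∧ 12 ≤ (w.filter (fun m => decide (B ≤ m))).length)) /
        U (n - 1) ≤
      Real.exp 1 * (108 * Real.sqrt (2 / ε)) ^ 11 * (8 / ε) * δ ^ 11 := by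
  have hn1 : n - 1 + 1 = n := by omega
  have hn0 : (0 : ℝ) < n := by
    have : 0 < n := by omega
    exact_mod_cast this
  have hsn : 0 < Real.sqrt n := Real.sqrt_pos.2 hn0
  have hsq : Real.sqrt n * Real.sqrt n = n := Real.mul_self_sqrt hn0.le
  have hw := wsum_window (M := M) (N := n - 1) (B := B) (a' := B) (K := 12) hM hB1 hB1
    (by norm_num) hMz
  have hU1 : U (B - 1) ≤ Real.sqrt (2 / ε) / Real.sqrt n := KbB_U hε (by omega) hB hB1
  have hU0 : 0 ≤ U (B - 1) := (U_pos _).le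
  have hS : ∑ y ∈ Finset.range (n - 1 + 1), U y ≤ 2 * Real.sqrt n := by
    rw [hn1]
    exact KbB_sumU (by omega)
  have hS0 : 0 ≤ ∑ y ∈ Finset.range (n - 1 + 1), U y :=
    Finset.sum_nonneg (fun y _ => (U_pos y).le)
  have hz0 : 0 ≤ z := by
    rw [hz]
    positivity
  have hA : 2 * (2 * z) * U (B - 1) ≤ 108 * Real.sqrt (2 / ε) * δ := by
    calc 2 * (2 * z) * U (B - 1) ≤ 2 * (2 * z) * (Real.sqrt (2 / ε) / Real.sqrt n) :=
          mul_le_mul_of_nonneg_left hU1 (by positivity)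
      _ = 108 * Real.sqrt (2 / ε) * δ := by
          rw [hz]
          field_simp
          ring
  have hA0 : 0 ≤ 2 * (2 * z) * U (B - 1) := by positivity
  have hA' : (2 * (2 * z) * U (B - 1)) ^ (12 - 1) ≤ (108 * Real.sqrt (2 / ε) * δ) ^ 11 :=
    pow_le_pow_left₀ hA0 hA 11
  have hUn : 1 / (2 * Real.sqrt n) ≤ U (n - 1) := by
    have h1 := U_lower (n := n - 1) (by omega)
    refine le_trans ?_ h1
    have hpos : (0 : ℝ) < ((n - 1 : ℕ) : ℝ) := by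
      have : 0 < n - 1 := by omega
      exact_mod_cast this
    apply one_div_le_one_div_of_le
    · have := Real.sqrt_pos.2 hpos
      positivity
    · have h2 : Real.sqrt ((n - 1 : ℕ) : ℝ) ≤ Real.sqrt n := by
        apply Real.sqrt_le_sqrt
        have : n - 1 ≤ n := by omega
        exact_mod_cast this
      linarith
  have hBB : U (B - 1) * U (B - 1) ≤ (2 / ε) / n := by
    calc U (B - 1) * U (B - 1) ≤ (Real.sqrt (2 / ε) / Real.sqrt n) *
          (Real.sqrt (2 / ε) / Real.sqrt n) := mul_le_mul hU1 hU1 hU0 (by positivity)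
      _ = (2 / ε) / n := by
          rw [div_mul_div_comm, hsq, Real.mul_self_sqrt (by positivity)]
  have hUpos : 0 < U (n - 1) := U_pos _
  rw [div_le_iff₀ hUpos]
  refine hw.trans ?_
  have hstep : Real.exp 1 * ((2 * (2 * z) * U (B - 1)) ^ (12 - 1) * U (B - 1) * U (B - 1)) *
      ∑ y ∈ Finset.range (n - 1 + 1), U y ≤
      Real.exp 1 * ((108 * Real.sqrt (2 / ε) * δ) ^ 11 * ((2 / ε) / n)) * (2 * Real.sqrt n) := by
    apply mul_le_mul _ hS hS0 (by positivity)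
    apply mul_le_mul_of_nonneg_left _ (Real.exp_pos 1).le
    rw [mul_assoc]
    exact mul_le_mul hA' hBB (by positivity) (by positivity)
  refine hstep.trans ?_
  have hfin : Real.exp 1 * ((108 * Real.sqrt (2 / ε) * δ) ^ 11 * ((2 / ε) / n)) *
      (2 * Real.sqrt n) = Real.exp 1 * (108 * Real.sqrt (2 / ε)) ^ 11 * (8 / ε) * δ ^ 11 *
        (1 / (2 * Real.sqrt n)) := by
    rw [mul_pow (108 * Real.sqrt (2 / ε)) δ 11]
    have : Real.sqrt n / n = 1 / Real.sqrt n := by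
      rw [div_eq_div_iff hn0.ne' hsn.ne']
      rw [one_mul, hsq]
    calc Real.exp 1 * ((108 * Real.sqrt (2 / ε)) ^ 11 * δ ^ 11 * ((2 / ε) / n)) *
      (2 * Real.sqrt n) = Real.exp 1 * (108 * Real.sqrt (2 / ε)) ^ 11 * (4 / ε) * δ ^ 11 *
        (Real.sqrt n / n) := by ring
      _ = _ := by
        rw [this]
        ring
  rw [hfin]
  apply mul_le_mul_of_nonneg_left hUn
  positivity

/-- `general_principle` with `a₀ = b = ⌈ε n⌉`,
`Bad p k := a₀ ≤ 1 + k ∧ ∃ p₀ w, p = p₀ ++ w ∧ Σ_w gM M ≤ z ∧ 12 ≤ #{m ∈ w : b ≤ m}`,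
`r = ⌈min (ε n / 4) (z √M / 2)⌉ ≥ 1`,
`Bad' l := ∃ p w s, l = p ++ w ++ s ∧ ⌈ε n / 2⌉ ≤ 1 + s.sum ∧ Σ_w gM M ≤ 2 z ∧ 12 ≤ #{m ∈ w : ⌈ε n / 2⌉ ≤ m}`.
Robustness: split in three parts (`Dec.split_left`, `Dec.split_right`), `Dec.lip` with
`L = 1 / √M`: `2 (r - 1) / √M ≤ z`; `Dec.count_le`, `Dec.count_le'`. Then `wsum_window` with
`K = 12`, `B = a' = ⌈ε n / 2⌉`, `2 z` in place of `z` (`√M ≤ z`), and `U (B - 1) ≤ √(2 / (ε n))`,
`Σ_{y < n} U y = 2 n U n ≤ 2 √n`, `U (n-1) ≥ 1 / (2 √n)`. With `z = 27 δ √n` and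
`δ^8 n < M ≤ 2 δ^8 n` one gets `a / r² ≤ C' δ^{-10}` and
`wsum (n-1) .. / U (n-1) ≤ C'' δ^11`, hence a bound `K₁ · δ` with `K₁` depending on `C, Tm, ε` only. -/
theorem hb_kbEvent (C Tm ε : ℝ) (hC : 0 ≤ C) (hTm : 0 ≤ Tm) (hε : 0 < ε) (hε1 : ε ≤ 1) :
    ∃ K₁ : ℝ, 0 < K₁ ∧ ∀ δ : ℝ, 0 < δ → δ ≤ 1 → ∃ n₀ : ℕ, ∀ n ≥ n₀, ∀ M : ℕ,
      δ ^ 8 * n < M → (M : ℝ) ≤ 2 * δ ^ 8 * n →
        HB C Tm (K₁ * δ) n (KBEvent n M ⌈ε * n⌉₊ ⌈ε * n⌉₊ (27 * δ * Real.sqrt n)) := by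
  refine ⟨Real.exp Tm * (1 + 16 * C / ε ^ 2) * (2 / ε) *
    (Real.exp 1 * (108 * Real.sqrt (2 / ε)) ^ 11 * (8 / ε)), by positivity, ?_⟩
  intro δ hδ hδ1
  refine ⟨max 2 ⌈4 / ε⌉₊, ?_⟩
  intro n hn M hM1 hM2
  have hn2 : 2 ≤ n := (le_max_left _ _).trans hn
  have hn0 : (0 : ℝ) < n := by
    have : 0 < n := by omega
    exact_mod_cast this
  have hεn : 4 ≤ ε * n := by
    have h1 : ⌈4 / ε⌉₊ ≤ n := (le_max_right _ _).trans hn
    have h2 : 4 / ε ≤ n := Nat.ceil_le.1 h1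
    rw [div_le_iff₀ hε] at h2
    linarith
  have hMpos : (0 : ℝ) < M := lt_trans (by positivity) hM1
  have hM : 1 ≤ M := by
    have : 0 < M := by exact_mod_cast hMpos
    exact this
  have hsn : 0 < Real.sqrt n := Real.sqrt_pos.2 hn0
  have hsM : 0 < Real.sqrt M := Real.sqrt_pos.2 hMpos
  have hsq : Real.sqrt n * Real.sqrt n = n := Real.mul_self_sqrt hn0.le
  intro a m t ha haC ht ht'
  set z : ℝ := 27 * δ * Real.sqrt n with hz
  have hz0 : 0 < z := by positivity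
  set b : ℕ := ⌈ε * n⌉₊ with hb
  set B : ℕ := ⌈ε * n / 2⌉₊ with hB
  set x : ℝ := min (ε * n / 4) (z * Real.sqrt M / 2) with hx
  have hx0 : 0 < x := lt_min (by positivity) (by positivity)
  set r : ℕ := ⌈x⌉₊ with hr
  have hr1 : 1 ≤ r := Nat.ceil_pos.2 hx0
  have hxr : x ≤ r := Nat.le_ceil x
  have hrx : (r : ℝ) < x + 1 := Nat.ceil_lt_add_one hx0.le
  have hx1 : x ≤ ε * n / 4 := min_le_left _ _
  have hx2 : x ≤ z * Real.sqrt M / 2 := min_le_right _ _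
  have hbr : ε * n ≤ b := Nat.le_ceil _
  have hBr : ε * n / 2 ≤ B := Nat.le_ceil _
  have hBr' : (B : ℝ) < ε * n / 2 + 1 := Nat.ceil_lt_add_one (by positivity)
  have hB1 : 1 ≤ B := Nat.ceil_pos.2 (by positivity)
  have hcast : ((r - 1 : ℕ) : ℝ) = (r : ℝ) - 1 := by
    rw [Nat.cast_sub hr1, Nat.cast_one]
  have hrb : r ≤ b := by
    have : (r : ℝ) ≤ b := by linarith
    exact_mod_cast this
  have hBb : B + (r - 1) ≤ b := by
    have : ((B + (r - 1) : ℕ) : ℝ) ≤ b := by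
      rw [Nat.cast_add, hcast]
      linarith
    exact_mod_cast this
  have hrz : 2 * ((r - 1 : ℕ) : ℝ) ≤ z * Real.sqrt M := by
    rw [hcast]
    linarith
  -- the two square roots
  have hδ4 : (δ ^ 4) ^ 2 = δ ^ 8 := by ring
  have hsM1 : δ ^ 4 * Real.sqrt n ≤ Real.sqrt M := by
    rw [← Real.sqrt_sq (by positivity : (0 : ℝ) ≤ δ ^ 4), ← Real.sqrt_mul (by positivity), hδ4]
    exact Real.sqrt_le_sqrt hM1.le
  have hδp4 : δ ^ 4 ≤ δ := by
    calc δ ^ 4 ≤ δ ^ 1 := pow_le_pow_of_le_one hδ.le hδ1 (by norm_num)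
      _ = δ := pow_one δ
  have hMz : Real.sqrt M ≤ 2 * z := by
    have h1 : Real.sqrt M ≤ 2 * δ ^ 4 * Real.sqrt n := by
      have h2 : Real.sqrt M ≤ Real.sqrt ((2 * δ ^ 4) ^ 2 * n) := by
        apply Real.sqrt_le_sqrt
        have : 0 ≤ δ ^ 8 * n := by positivity
        calc (M : ℝ) ≤ 2 * δ ^ 8 * n := hM2
          _ ≤ 4 * (δ ^ 8 * n) := by linarith
          _ = (2 * δ ^ 4) ^ 2 * n := by ring
      rw [Real.sqrt_mul (by positivity), Real.sqrt_sq (by positivity)] at h2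
      exact h2
    have h3 : 2 * δ ^ 4 * Real.sqrt n ≤ 2 * δ * Real.sqrt n := by
      apply mul_le_mul_of_nonneg_right _ hsn.le
      linarith
    have h4 : 0 ≤ δ * Real.sqrt n := by positivity
    rw [hz]
    linarith
  -- the comparison of the events
  have hstep1 : hitP n a m t (KBEvent n M b b z) ≤ hitP n a m t
      (fun T => ∃ i < n, ∃ p s : List ℕ, T.sp i = p ++ s ∧ (b ≤ 1 + s.sum ∧
        ∃ p₀ w : List ℕ, p = p₀ ++ w ∧ (w.map (gM M)).sum ≤ z ∧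
          12 ≤ (w.filter (fun m => decide (b ≤ m))).length)) := by
    apply hitP_mono hn2 ha.le ht (fun i => (ht' i).1)
    rintro T _ ⟨i, hi, p, w, s, h1, h2, h3, h4⟩
    exact ⟨i, hi, p ++ w, s, h1, h2, p, w, rfl, h3, h4⟩
  have hgp := general_principle (Tm := Tm) hTm (n := n) (r := r) (a₀ := b) hn2 hr1 hrb
    (fun p k => b ≤ 1 + k ∧ ∃ p₀ w : List ℕ, p = p₀ ++ w ∧ (w.map (gM M)).sum ≤ z ∧
          12 ≤ (w.filter (fun m => decide (b ≤ m))).length)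
    (fun l : List ℕ => ∃ p w s : List ℕ, l = p ++ w ++ s ∧ B ≤ 1 + s.sum ∧
      (w.map (gM M)).sum ≤ 2 * z ∧ 12 ≤ (w.filter (fun m => decide (B ≤ m))).length)
    (fun p k h => h.1)
    (fun p s l R j₁ j₂ hbad h1 h2 h3 h4 => KbB_rob hM hB1 hBb hrz hbad h1 h2 h3 h4)
    (a := a) (m := m) (t := t) ha ht ht'
  refine hstep1.trans (hgp.trans ?_)
  have hwin := KbB_window (n := n) (M := M) (B := B) (ε := ε) (δ := δ) (z := z) hε hδ hn2 hM
    hBr hB1 hz hMz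
  set W : ℝ := wsum (n - 1) (ind (fun l : List ℕ => ∃ p w s : List ℕ, l = p ++ w ++ s ∧
    B ≤ 1 + s.sum ∧ (w.map (gM M)).sum ≤ 2 * z ∧
      12 ≤ (w.filter (fun m => decide (B ≤ m))).length)) / U (n - 1) with hW
  have hW0 : 0 ≤ W := by
    rw [hW]
    apply div_nonneg _ (U_pos _).le
    apply wsum_nonneg
    intro l _ _
    unfold ind
    split_ifs <;> norm_num
  -- the factor `n / (b - (r - 1))`
  have hf1 : (n : ℝ) / ((b : ℝ) - (r - 1)) ≤ 2 / ε := by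
    have h1 : ε * n / 2 ≤ (b : ℝ) - (r - 1) := by linarith
    have h2 : 0 < (b : ℝ) - (r - 1) := by linarith
    rw [div_le_div_iff₀ h2 hε]
    linarith
  have hf10 : 0 ≤ (n : ℝ) / ((b : ℝ) - (r - 1)) := by
    have h2 : 0 < (b : ℝ) - (r - 1) := by linarith
    positivity
  -- the lower bound for `r`
  have hrlow : ε / 4 * δ ^ 5 * n ≤ r := by
    refine le_trans ?_ hxr
    rw [hx]
    apply le_min
    · have h1 : δ ^ 5 ≤ 1 := pow_le_one₀ hδ.le hδ1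
      have h2 : ε / 4 * n * δ ^ 5 ≤ ε / 4 * n * 1 := mul_le_mul_of_nonneg_left h1 (by positivity)
      linarith
    · have h1 : z * (δ ^ 4 * Real.sqrt n) ≤ z * Real.sqrt M := mul_le_mul_of_nonneg_left hsM1 hz0.le
      have h2 : z * (δ ^ 4 * Real.sqrt n) = 27 * δ ^ 5 * n := by
        rw [hz]
        calc 27 * δ * Real.sqrt n * (δ ^ 4 * Real.sqrt n) =
              27 * δ ^ 5 * (Real.sqrt n * Real.sqrt n) := by ring
          _ = 27 * δ ^ 5 * n := by rw [hsq]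
      have h3 : ε * (δ ^ 5 * n) ≤ 1 * (δ ^ 5 * n) :=
        mul_le_mul_of_nonneg_right hε1 (by positivity)
      have h4 : 0 ≤ δ ^ 5 * n := by positivity
      linarith
  have hf2 : 1 + a / (r : ℝ) ^ 2 ≤ (1 + 16 * C / ε ^ 2) / δ ^ 10 := by
    have h1 : (ε / 4 * δ ^ 5 * n) ^ 2 ≤ (r : ℝ) ^ 2 := pow_le_pow_left₀ (by positivity) hrlow 2
    have h2 : a / (r : ℝ) ^ 2 ≤ C * (n : ℝ) ^ 2 / (ε / 4 * δ ^ 5 * n) ^ 2 := by
      apply div_le_div₀ (by positivity) haC (by positivity) h1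
    have h3 : C * (n : ℝ) ^ 2 / (ε / 4 * δ ^ 5 * n) ^ 2 = 16 * C / ε ^ 2 / δ ^ 10 := by
      field_simp
      ring
    have h4 : 1 ≤ 1 / δ ^ 10 := by
      rw [le_div_iff₀ (by positivity), one_mul]
      exact pow_le_one₀ hδ.le hδ1
    rw [h3] at h2
    rw [add_div]
    linarith
  have hf20 : 0 ≤ 1 + a / (r : ℝ) ^ 2 := by positivity
  calc Real.exp Tm * (1 + a / (r : ℝ) ^ 2) * ((n : ℝ) / ((b : ℝ) - (r - 1)) * W)
      ≤ Real.exp Tm * ((1 + 16 * C / ε ^ 2) / δ ^ 10) *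
        (2 / ε * (Real.exp 1 * (108 * Real.sqrt (2 / ε)) ^ 11 * (8 / ε) * δ ^ 11)) := by
        apply mul_le_mul
        · exact mul_le_mul_of_nonneg_left hf2 (Real.exp_pos _).le
        · exact mul_le_mul hf1 hwin hW0 (by positivity)
        · exact mul_nonneg hf10 hW0
        · positivity
    _ = Real.exp Tm * (1 + 16 * C / ε ^ 2) * (2 / ε) *
        (Real.exp 1 * (108 * Real.sqrt (2 / ε)) ^ 11 * (8 / ε)) * δ := by
        have hd : δ ^ 11 / δ ^ 10 = δ := by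
          rw [pow_succ δ 10]
          field_simp
        calc Real.exp Tm * ((1 + 16 * C / ε ^ 2) / δ ^ 10) *
        (2 / ε * (Real.exp 1 * (108 * Real.sqrt (2 / ε)) ^ 11 * (8 / ε) * δ ^ 11)) =
          Real.exp Tm * (1 + 16 * C / ε ^ 2) * (2 / ε) *
        (Real.exp 1 * (108 * Real.sqrt (2 / ε)) ^ 11 * (8 / ε)) * (δ ^ 11 / δ ^ 10) := by ring
          _ = _ := by rw [hd]

end Pool.Agent.ALD
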