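import Pool.Agent.ALD.Defs

/-! Module LCP: elementary facts on lcp and gd -/

namespace Pool.Agent.ALD

theorem lcp_comm (s t : List Bool) : lcp s t = lcp t s := by
  induction s generalizing t with
  | nil => cases t <;> simp [lcp]
  | cons a s ih =>
    cases t with
    | nil => simp [lcp]
    | cons b t =>
      simp only [lcp]
      by_cases h : a = b
      · simp [h, ih t]
      · simp [h, Ne.symm h]

theorem lcp_self (s : List Bool) : lcp s s = s.length := by
  induction s with
  | nil => simp [lcp]
  | cons a s ih => simp [lcp, ih]

theorem lcp_le_left (s t : List Bool) : lcp s t ≤ s.length := by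
  induction s generalizing t with
  | nil => simp [lcp]
  | cons a s ih =>
    cases t with
    | nil => simp [lcp]
    | cons b t =>
      simp only [lcp]
      by_cases h : a = b
      · simp [h, ih t]
      · simp [h]

theorem lcp_le_right (s t : List Bool) : lcp s t ≤ t.length := by
  rw [lcp_comm]
  exact lcp_le_left t s

theorem take_lcp (s t : List Bool) : s.take (lcp s t) = t.take (lcp s t) := by
  induction s generalizing t with
  | nil => simp [lcp]
  | cons a s ih =>
    cases t with
    | nil => simp [lcp]
    | cons b t =>
      simp only [lcp]
      by_cases h : a = b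
      · simp [h, ih t]
      · simp [h]

/-- characterisation: `k ≤ lcp s t` iff the two lists agree on their first `k` entries -/
theorem le_lcp_iff {s t : List Bool} {k : ℕ} (hs : k ≤ s.length) (ht : k ≤ t.length) :
    k ≤ lcp s t ↔ s.take k = t.take k := by
  induction s generalizing t k with
  | nil =>
    have : k = 0 := by simpa using hs
    simp [this]
  | cons a s ih =>
    cases t with
    | nil =>
      have : k = 0 := by simpa using ht
      simp [this]
    | cons b t =>
      cases k with
      | zero => simp
      | succ k =>
        simp only [lcp, List.take_succ_cons, List.cons.injEq]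
        have hs' : k ≤ s.length := by simpa using hs
        have ht' : k ≤ t.length := by simpa using ht
        by_cases h : a = b
        · simp [h, ih hs' ht']
        · simp [h]

/-- the ultrametric inequality -/
theorem min_lcp_le (s t u : List Bool) : min (lcp s t) (lcp t u) ≤ lcp s u := by
  have hk : min (lcp s t) (lcp t u) ≤ s.length := (min_le_left _ _).trans (lcp_le_left s t)
  have hk' : min (lcp s t) (lcp t u) ≤ u.length := (min_le_right _ _).trans (lcp_le_right t u)
  have hk'' : min (lcp s t) (lcp t u) ≤ t.length := (min_le_left _ _).trans (lcp_le_right s t)
  rw [le_lcp_iff hk hk']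
  have h1 := (le_lcp_iff hk hk'').mp (min_le_left _ _)
  have h2 := (le_lcp_iff hk'' hk').mp (min_le_right _ _)
  rw [h1, h2]

theorem gd_self (s : List Bool) : gd s s = 0 := by
  simp [gd, lcp_self]

theorem gd_comm (s t : List Bool) : gd s t = gd t s := by
  simp only [gd, lcp_comm s t]
  omega

theorem gd_triangle (s t u : List Bool) : gd s u ≤ gd s t + gd t u := by
  have h := min_lcp_le s t u
  have h1 := lcp_le_left s t
  have h2 := lcp_le_right s t
  have h3 := lcp_le_left t u
  have h4 := lcp_le_right t u
  have h5 := lcp_le_left s u
  have h6 := lcp_le_right s u
  simp only [gd]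
  omega

theorem eq_of_gd_eq_zero {s t : List Bool} (h : gd s t = 0) : s = t := by
  have h1 := lcp_le_left s t
  have h2 := lcp_le_right s t
  simp only [gd] at h
  have h3 : lcp s t = s.length := by omega
  have h4 : lcp s t = t.length := by omega
  have h5 := take_lcp s t
  rw [List.take_of_length_le (by omega), List.take_of_length_le (by omega)] at h5
  exact h5

end Pool.Agent.ALD
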