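import Pool.Agent.ALD.OpeA

/-! Module OPEB: the sets VSet are open -/

open MeasureTheory Filter Topology

noncomputable section

namespace Pool.Agent.ALD

open BT

private theorem opeB_lt {a b c : ℝ} (h : a < b) : ∀ᶠ r in 𝓝[>] (0 : ℝ), a < b - c * r := by
  have h1 : Tendsto (fun r : ℝ => b - c * r) (𝓝[>] 0) (𝓝 (b - c * 0)) := by
    apply tendsto_nhdsWithin_of_tendsto_nhds
    exact (Continuous.tendsto (by fun_prop) 0)
  rw [mul_zero, sub_zero] at h1
  exact h1.eventually (lt_mem_nhds h)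

private theorem opeB_star {k : ℕ} {ℓ δ : ℝ} {X : RWTree} {x : X.pt} (h : MStar k ℓ δ X x) :
    ∀ᶠ r in 𝓝[>] (0 : ℝ), ∀ (Y : RWTree) (φ : X.pt → Y.pt),
      (∀ p p', |dist (φ p) (φ p') - dist p p'| ≤ 4 * r) → MStar k ℓ δ Y (φ x) := by
  obtain ⟨y, h1, h2⟩ := h
  have e1 : ∀ᶠ r in 𝓝[>] (0 : ℝ), ∀ i, ℓ < dist x (y i) - 4 * r :=
    eventually_all.mpr (fun i => opeB_lt (h1 i))
  have e2 : ∀ᶠ r in 𝓝[>] (0 : ℝ), ∀ i j, i ≠ j →
      0 < (δ - (dist x (y i) + dist x (y j) - dist (y i) (y j))) - 12 * r := by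
    refine eventually_all.mpr (fun i => eventually_all.mpr (fun j => ?_))
    by_cases hij : i = j
    · exact Eventually.of_forall (fun r hr => absurd hij hr)
    · filter_upwards [opeB_lt (c := 12) (sub_pos.mpr (h2 i j hij))] with r hr _
      exact hr
  filter_upwards [e1, e2] with r g1 g2 Y φ hφ
  refine ⟨fun i => φ (y i), fun i => ?_, fun i j hij => ?_⟩
  · have a1 := abs_le.mp (hφ x (y i))
    have a2 := g1 i
    linarith [a1.1]
  · have a1 := abs_le.mp (hφ x (y i))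
    have a2 := abs_le.mp (hφ x (y j))
    have a3 := abs_le.mp (hφ (y i) (y j))
    have a4 := g2 i j hij
    linarith [a1.2, a2.2, a3.1]

/-- finitely many strict inequalities between distances: apply `exists_match` with small `r` -/
theorem isOpen_VSet (ℓ δ : ℝ) : IsOpen (VSet ℓ δ) := by
  rw [Metric.isOpen_iff]
  intro X hX
  have key : ∀ᶠ r in 𝓝[>] (0 : ℝ), ∀ (Y : RWTree) (φ : X.pt → Y.pt),
      (∀ p p', |dist (φ p) (φ p') - dist p p'| ≤ 4 * r) → Y ∈ VSet ℓ δ := by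
    rcases hX with ⟨x, hx⟩ | ⟨x, x', hx, hx', hl⟩
    · filter_upwards [opeB_star hx] with r hr Y φ hφ
      exact Or.inl ⟨φ x, hr Y φ hφ⟩
    · filter_upwards [opeB_star hx, opeB_star hx', opeB_lt (c := 4) hl] with r h1 h2 h3 Y φ hφ
      refine Or.inr ⟨φ x, φ x', h1 Y φ hφ, h2 Y φ hφ, ?_⟩
      have a1 := abs_le.mp (hφ x x')
      linarith [a1.1]
  obtain ⟨r, hr, hr0⟩ := (key.and self_mem_nhdsWithin).exists
  refine ⟨r, hr0, ?_⟩
  intro Y hY
  rw [Metric.mem_ball, dist_comm] at hY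
  obtain ⟨φ, hφ⟩ := exists_match hr0 hY
  exact hr Y φ hφ

end Pool.Agent.ALD
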