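import Pool.Agent.ALD.OpeA
import Pool.Agent.ALD.Base

/-! Module OPEC: stars in the rescaled discrete trees -/

open MeasureTheory Filter Topology

noncomputable section

namespace Pool.Agent.ALD

open BT

theorem opeC_dist (n : ℕ) (T : BT) (x y : Pt T) :
    @dist (toRW n T).pt _ (x : (toRW n T).pt) (y : (toRW n T).pt) =
      scale n * (gd x.1 y.1 : ℝ) := rfl

theorem opeC_scale {n : ℕ} (hn : 1 ≤ n) (c : ℝ) : scale n * c = c / Real.sqrt n := by
  unfold scale
  rw [if_neg (by omega)]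
  rw [div_eq_inv_mul]

theorem opeC_sqrt {n : ℕ} (hn : 1 ≤ n) : 0 < Real.sqrt n := by
  apply Real.sqrt_pos.mpr
  exact_mod_cast hn

theorem opeC_star {n k : ℕ} (hn : 1 ≤ n) {ℓ δ : ℝ} {T : BT} {x : Pt T}
    (h : MStar k ℓ δ (toRW n T) (x : (toRW n T).pt)) : StarAt n k ℓ δ T x.1 := by
  obtain ⟨y, hy, hyy⟩ := h
  have hs := opeC_sqrt hn
  refine ⟨x.2, fun i => (show Pt T from y i).1, fun i => (show Pt T from y i).2, fun i => ?_,
    fun i j hij => ?_⟩
  · have h1 := hy i
    have h2 : @dist (toRW n T).pt _ x (y i) = scale n * (gd x.1 (show Pt T from y i).1 : ℝ) := rfl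
    rw [h2, opeC_scale hn, lt_div_iff₀ hs] at h1
    exact h1
  · have h1 := hyy i j hij
    have h2 : @dist (toRW n T).pt _ x (y i) = scale n * (gd x.1 (show Pt T from y i).1 : ℝ) := rfl
    have h3 : @dist (toRW n T).pt _ x (y j) = scale n * (gd x.1 (show Pt T from y j).1 : ℝ) := rfl
    have h4 : @dist (toRW n T).pt _ (y i) (y j) =
      scale n * (gd (show Pt T from y i).1 (show Pt T from y j).1 : ℝ) := rfl
    rw [h2, h3, h4, opeC_scale hn, opeC_scale hn, opeC_scale hn, ← add_div, ← sub_div,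
      div_lt_iff₀ hs] at h1
    exact h1

/-- unfold: the distances in `toRW n T` are `gd / √n` -/
theorem badTree_of_mem {n : ℕ} (hn : 1 ≤ n) {ℓ δ : ℝ} {T : BT} (h : toRW n T ∈ VSet ℓ δ) :
    BadTree n ℓ δ T := by
  have hs := opeC_sqrt hn
  rcases h with ⟨x, hx⟩ | ⟨x, x', hx, hx', hd⟩
  · exact Or.inl ⟨_, opeC_star hn (x := (show Pt T from x)) hx⟩
  · refine Or.inr ⟨_, _, opeC_star hn (x := (show Pt T from x)) hx,
      opeC_star hn (x := (show Pt T from x')) hx', ?_⟩
    have h2 : @dist (toRW n T).pt _ x x' = scale n * (gd (show Pt T from x).1 (show Pt T from x').1 : ℝ) := rfl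
    rw [h2, opeC_scale hn, lt_div_iff₀ hs] at hd
    exact hd

end Pool.Agent.ALD
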