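import Pool.Agent.ALD.Trans
import Pool.Agent.ALD.Comp
import Pool.Agent.ALD.DMain
import Pool.Agent.ALD.OpeB
import Pool.Agent.ALD.OpeC
import Pool.Agent.ALD.HitB

/-! Module MAIN: the theorem -/

open MeasureTheory Filter Topology
open scoped NNReal

noncomputable section

namespace Pool.Agent.ALD

/-- For `q : ℕ` and `Tm = N + 1`, `κ > 0`: take `δ` from `hb_badTree` with `ℓ = 1 / (q + 1)` (and
`C := max C 0`; note that `C ≥ 0` follows from `0 < a 2 ≤ 4 C`), `badTree_of_mem`, `HB.mono`, `isOpen_VSet`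
and `prob_exists`: `P (∃ t ≤ Tm, ∀ δ > 0, X t ∈ VSet ℓ δ) ≤ κ`, so this event is null. The countable
union over `q` and `N` is null; use `mem_VSet_of_bad`. -/
theorem main_theorem {Ω : Type*} [MeasurableSpace Ω] {P : Measure Ω} [IsProbabilityMeasure P]
    {X : ℝ≥0 → Ω → RWTree} (h : IsAldousDiffusion P X) :
    ∀ᵐ ω ∂P, ∀ t : ℝ≥0, (∀ x : (X t ω).pt, degree (X t ω) x ≤ 4) ∧
      ∀ x x' : (X t ω).pt, degree (X t ω) x = 4 → degree (X t ω) x' = 4 → x = x' := by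
  obtain ⟨a, C, ha, hfdd⟩ := h.fdd
  have hC : 0 ≤ C := by
    have h2 := ha 2 le_rfl
    have h3 : 0 < C * ((2 : ℕ) : ℝ) ^ 2 := lt_of_lt_of_le h2.1 h2.2
    have h4 : (0 : ℝ) < ((2 : ℕ) : ℝ) ^ 2 := by norm_num
    by_contra hneg
    have h5 : C < 0 := lt_of_not_ge hneg
    nlinarith [mul_neg_of_neg_of_pos h5 h4]
  have key : ∀ q N : ℕ, P {ω | ∃ t ≤ ((N : ℝ≥0) + 1), ∀ δ : ℝ, 0 < δ →
      X t ω ∈ VSet (1 / ((q : ℝ) + 1)) δ} = 0 := by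
    intro q N
    have hle : ∀ κ : ℝ≥0, 0 < κ → P {ω | ∃ t ≤ ((N : ℝ≥0) + 1), ∀ δ : ℝ, 0 < δ →
        X t ω ∈ VSet (1 / ((q : ℝ) + 1)) δ} ≤ 0 + (κ : ENNReal) := by
      intro κ hκ
      have hκ' : (0 : ℝ) < (κ : ℝ) := by exact_mod_cast hκ
      have hTm : (0 : ℝ≥0) < (N : ℝ≥0) + 1 := by positivity
      have hℓ : (0 : ℝ) < 1 / ((q : ℝ) + 1) := by positivity
      obtain ⟨δ, hδ, n₀, hn₀⟩ := hb_badTree C (((N : ℝ≥0) + 1 : ℝ≥0) : ℝ) (1 / ((q : ℝ) + 1)) κ hC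
        (by positivity) hℓ hκ'
      have hB : ∀ n ≥ max n₀ 2, HB C (((N : ℝ≥0) + 1 : ℝ≥0) : ℝ) κ n
          (fun T => toRW n T ∈ VSet (1 / ((q : ℝ) + 1)) δ) := by
        intro n hn
        have h1 : n₀ ≤ n := le_trans (le_max_left _ _) hn
        have h2 : 2 ≤ n := le_trans (le_max_right _ _) hn
        exact HB.mono h2 (hn₀ n h1) (fun T _ hT => badTree_of_mem (by omega) hT) le_rfl
      have hP := prob_exists (P := P) (X := X) h.cont h.meas ha hfdd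
        (isOpen_VSet (1 / ((q : ℝ) + 1)) δ) hTm hκ'.le hB
      rw [zero_add]
      calc P {ω | ∃ t ≤ ((N : ℝ≥0) + 1), ∀ δ : ℝ, 0 < δ →
            X t ω ∈ VSet (1 / ((q : ℝ) + 1)) δ}
          ≤ P {ω | ∃ t ≤ ((N : ℝ≥0) + 1), X t ω ∈ VSet (1 / ((q : ℝ) + 1)) δ} := by
            apply measure_mono
            rintro ω ⟨t, ht, h3⟩
            exact ⟨t, ht, h3 δ hδ⟩
        _ ≤ ENNReal.ofReal κ := hP
        _ = (κ : ENNReal) := ENNReal.ofReal_coe_nnreal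
    have h0 : P {ω | ∃ t ≤ ((N : ℝ≥0) + 1), ∀ δ : ℝ, 0 < δ →
        X t ω ∈ VSet (1 / ((q : ℝ) + 1)) δ} ≤ 0 :=
      ENNReal.le_of_forall_pos_le_add (fun κ hκ _ => hle κ hκ)
    exact le_antisymm h0 bot_le
  have hall : ∀ᵐ ω ∂P, ∀ q N : ℕ, ¬ ∃ t ≤ ((N : ℝ≥0) + 1), ∀ δ : ℝ, 0 < δ →
      X t ω ∈ VSet (1 / ((q : ℝ) + 1)) δ := by
    rw [ae_all_iff]
    intro q
    rw [ae_all_iff]
    intro N
    rw [ae_iff]
    simpa only [not_not] using key q N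
  filter_upwards [hall, h.rtree] with ω hω hrt t
  by_contra hcon
  obtain ⟨q, hq⟩ := mem_VSet_of_bad (hrt t) hcon
  obtain ⟨N, hN⟩ := exists_nat_ge t
  exact hω q N ⟨t, le_trans hN (by simp), hq⟩

end Pool.Agent.ALD
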