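import Pool.Agent.ALD.Lcp
import Pool.Agent.ALD.Base

/-! Module MEEA: exceptional index of an approximate star -/

noncomputable section

namespace Pool.Agent.ALD

open BT

theorem meeA_gd (s t : List Bool) :
    (gd s t : ℝ) = (s.length : ℝ) + t.length - 2 * lcp s t := by
  have h1 := lcp_le_left s t
  have h2 := lcp_le_right s t
  have h3 : gd s t + 2 * lcp s t = s.length + t.length := by
    simp only [gd]
    omega
  have h4 : (gd s t : ℝ) + 2 * lcp s t = s.length + t.length := by exact_mod_cast h3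
  linarith

/-- Let `x, y i` be planted addresses as in `StarAt n k ℓ δ T x` and `D = δ √n`, `c i = lcp x (y i)`.
For `i ≠ j`, `gd x (y i) + gd x (y j) - gd (y i) (y j) = 2 (|x| - c i - c j + lcp (y i) (y j)) < D`, and
`min (c i) (c j) ≤ lcp (y i) (y j)`, with equality if `c i ≠ c j`. Hence `|x| - max (c i) (c j) < D / 2`:
at most one index is exceptional, i.e. has `|x| - c i ≥ D / 2`. For two nonexceptional indices
`|x| - D / 2 < lcp (y i) (y j) < |x| + D / 2`. -/
theorem star_lcp {n k : ℕ} {ℓ δ : ℝ} {T : BT} {x : List Bool} {y : Fin k → List Bool}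
    (h : ∀ i j, i ≠ j → (gd x (y i) : ℝ) + gd x (y j) - gd (y i) (y j) < δ * Real.sqrt n) :
    ∃ e : Fin k → Prop, (∀ i j, e i → e j → i = j) ∧
      ∀ i, ¬ e i → ((x.length : ℝ) - δ * Real.sqrt n / 2 < lcp x (y i) ∧
        ∀ j, ¬ e j → i ≠ j → (x.length : ℝ) - δ * Real.sqrt n / 2 < lcp (y i) (y j) ∧
          (lcp (y i) (y j) : ℝ) < x.length + δ * Real.sqrt n / 2) := by
  have key : ∀ i j, i ≠ j → ((x.length : ℝ) - lcp x (y i) - lcp x (y j) + lcp (y i) (y j)) <
      δ * Real.sqrt n / 2 := by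
    intro i j hij
    have h0 := h i j hij
    rw [meeA_gd, meeA_gd, meeA_gd] at h0
    linarith
  have hmin : ∀ i j, min (lcp x (y i) : ℝ) (lcp x (y j)) ≤ lcp (y i) (y j) := by
    intro i j
    have h1 := min_lcp_le (y i) x (y j)
    rw [lcp_comm (y i) x] at h1
    exact_mod_cast h1
  have hle : ∀ i, (lcp x (y i) : ℝ) ≤ x.length := fun i => by exact_mod_cast lcp_le_left x (y i)
  refine ⟨fun i => (lcp x (y i) : ℝ) ≤ x.length - δ * Real.sqrt n / 2, ?_, ?_⟩
  · intro i j hi hj
    by_contra hij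
    have h1 := key i j hij
    have h2 := hmin i j
    rcases min_cases (lcp x (y i) : ℝ) (lcp x (y j)) with ⟨h3, -⟩ | ⟨h3, -⟩ <;>
      rw [h3] at h2 <;> linarith
  · intro i hi
    have hi' : (x.length : ℝ) - δ * Real.sqrt n / 2 < lcp x (y i) := not_le.1 hi
    refine ⟨hi', fun j hj hij => ?_⟩
    have hj' : (x.length : ℝ) - δ * Real.sqrt n / 2 < lcp x (y j) := not_le.1 hj
    exact ⟨(lt_min hi' hj').trans_le (hmin i j), by linarith [key i j hij, hle i, hle j]⟩

end Pool.Agent.ALD
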