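import Pool.Agent.ALD.MeeA
import Pool.Agent.ALD.AtL

/-! Module MEEB: a star with four arms gives a short segment -/

noncomputable section

namespace Pool.Agent.ALD

open BT

/-- the vertex `c` of `T` has a descendant `y` at depth at least `L` below it -/
def Deep (T : BT) (L : ℝ) (c : List Bool) : Prop :=
  ∃ y : List Bool, (∃ S, T.at? y = some S) ∧ c <+: y ∧ L ≤ (y.length : ℝ) - c.length

/-- both children of `v` are deep -/
def DeepBP (T : BT) (L : ℝ) (v : List Bool) : Prop :=
  Deep T L (v ++ [false]) ∧ Deep T L (v ++ [true])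

theorem meeB_split (s t : List Bool) (hs : lcp s t < s.length) (ht : lcp s t < t.length) :
    ∃ (z s' t' : List Bool) (d : Bool), s = z ++ d :: s' ∧ t = z ++ (!d) :: t' ∧
      z.length = lcp s t := by
  induction s generalizing t with
  | nil => simp at hs
  | cons a s ih =>
    cases t with
    | nil => simp at ht
    | cons b t =>
      by_cases hab : a = b
      · subst hab
        have h1 : lcp (a :: s) (a :: t) = lcp s t + 1 := by simp [lcp]
        rw [h1] at hs ht ⊢
        simp only [List.length_cons, add_lt_add_iff_right] at hs ht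
        obtain ⟨z, s', t', d, h2, h3, h4⟩ := ih t hs ht
        exact ⟨a :: z, s', t', d, by rw [h2]; rfl, by rw [h3]; rfl, by simp [h4]⟩
      · refine ⟨[], s, t, a, rfl, ?_, ?_⟩
        · have : b = !a := by
            cases a <;> cases b <;> simp_all
          rw [this]
          rfl
        · simp [lcp, hab]

theorem meeB_prefix {p q : List Bool} (h : p <+: q) : lcp q p = p.length := by
  induction p generalizing q with
  | nil => cases q <;> simp [lcp]
  | cons a p ih =>
    cases q with
    | nil => simp at h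
    | cons b q =>
      rw [List.cons_prefix_cons] at h
      obtain ⟨rfl, h⟩ := h
      simp [lcp, ih h]

theorem meeB_deepBP {T : BT} {L : ℝ} {z a c : List Bool} {d : Bool} {a' c' : List Bool}
    (ha : ∃ S, T.at? a = some S) (hc : ∃ S, T.at? c = some S) (h1 : a = z ++ d :: a')
    (h2 : c = z ++ (!d) :: c') (hL1 : L ≤ (a.length : ℝ) - (z.length + 1))
    (hL2 : L ≤ (c.length : ℝ) - (z.length + 1)) : DeepBP T L z := by
  have ha' : Deep T L (z ++ [d]) := by
    refine ⟨a, ha, ⟨a', by rw [h1]; simp⟩, ?_⟩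
    simpa using hL1
  have hc' : Deep T L (z ++ [!d]) := by
    refine ⟨c, hc, ⟨c', by rw [h2]; simp⟩, ?_⟩
    simpa using hL2
  cases d
  · exact ⟨ha', hc'⟩
  · exact ⟨hc', ha'⟩

theorem meeB_core {T : BT} {L : ℝ} {a b c : List Bool} (ha : ∃ S, T.at? a = some S)
    (hb : ∃ S, T.at? b = some S) (hc : ∃ S, T.at? c = some S) (h : lcp a c < lcp a b)
    (h1 : lcp a b < a.length) (h2 : lcp a b < b.length) (h3 : lcp a c < c.length)
    (hL1 : L ≤ (a.length : ℝ) - (lcp a b + 1)) (hL2 : L ≤ (b.length : ℝ) - (lcp a b + 1))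
    (hL3 : L ≤ (c.length : ℝ) - (lcp a c + 1)) :
    ∃ (z w : List Bool) (d : Bool), DeepBP T L z ∧ DeepBP T L (z ++ d :: w) ∧
      z.length = lcp a c ∧ (z ++ d :: w).length = lcp a b ∧ (z ++ d :: w) <+: a := by
  obtain ⟨z, a1, c1, d, e1, e2, e3⟩ := meeB_split a c (h.trans h1) h3
  obtain ⟨z2, a2, b2, d2, f1, f2, f3⟩ := meeB_split a b h1 h2
  have hw : ∃ w, z2 = z ++ d :: w := by
    have h4 : z <+: z2 := by
      have g1 : z <+: a := ⟨d :: a1, e1.symm⟩
      have g2 : z2 <+: a := ⟨d2 :: a2, f1.symm⟩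
      exact List.prefix_of_prefix_length_le g1 g2 (by omega)
    obtain ⟨e, he⟩ := h4
    cases e with
    | nil =>
      simp only [List.append_nil] at he
      rw [← he] at f3
      omega
    | cons x w =>
      have h5 : z ++ d :: a1 = z ++ x :: (w ++ d2 :: a2) := by
        rw [← e1, f1, ← he]
        simp
      have h6 := List.append_cancel_left h5
      simp only [List.cons.injEq] at h6
      exact ⟨w, by rw [← he, h6.1]⟩
  obtain ⟨w, rfl⟩ := hw
  refine ⟨z, w, d, ?_, ?_, e3, f3, ⟨d2 :: a2, f1.symm⟩⟩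
  · refine meeB_deepBP ha hc e1 e2 ?_ ?_
    · rw [e3]
      have : (lcp a c : ℝ) ≤ lcp a b := by exact_mod_cast h.le
      linarith
    · rw [e3]
      exact hL3
  · refine meeB_deepBP ha hb f1 f2 ?_ ?_
    · rw [f3]
      exact hL1
    · rw [f3]
      exact hL2

theorem meeB_trich {a b c : List Bool} (h1 : lcp a b < a.length) (h2 : lcp a b < b.length)
    (h3 : lcp a c < a.length) (h4 : lcp a c < c.length) (h5 : lcp b c < b.length)
    (h6 : lcp b c < c.length) :
    lcp a c < lcp a b ∨ lcp a b < lcp a c ∨ lcp b a < lcp b c := by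
  by_contra hcon
  push Not at hcon
  obtain ⟨g1, g2, g3⟩ := hcon
  have g4 := min_lcp_le b a c
  rw [lcp_comm b a] at g3 g4
  have e1 : lcp a b = lcp a c := le_antisymm g1 g2
  have e2 : lcp b c = lcp a c := by
    rw [e1, min_self] at g4
    omega
  obtain ⟨z, a1, c1, d, p1, p2, p3⟩ := meeB_split a c h3 h4
  obtain ⟨z2, a2, b2, d2, q1, q2, q3⟩ := meeB_split a b h1 h2
  obtain ⟨z3, b3, c3, d3, r1, r2, r3⟩ := meeB_split b c h5 h6
  have hz2 : z2 = z := by
    have g1 : z <+: a := ⟨d :: a1, p1.symm⟩
    have g2 : z2 <+: a := ⟨d2 :: a2, q1.symm⟩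
    exact (List.prefix_of_prefix_length_le g2 g1 (by omega)).eq_of_length (by omega)
  have hz3 : z3 = z := by
    have g1 : z <+: c := ⟨(!d) :: c1, p2.symm⟩
    have g2 : z3 <+: c := ⟨(!d3) :: c3, r2.symm⟩
    exact (List.prefix_of_prefix_length_le g2 g1 (by omega)).eq_of_length (by omega)
  subst hz2 hz3
  rw [p1] at q1
  rw [q2] at r1
  rw [p2] at r2
  have k1 := List.append_cancel_left q1
  have k2 := List.append_cancel_left r1
  have k3 := List.append_cancel_left r2
  simp only [List.cons.injEq] at k1 k2 k3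
  have m1 := k1.1
  have m2 := k2.1
  have m3 := k3.1
  cases d <;> cases d2 <;> cases d3 <;> simp_all

/-- A star with `k ≥ 4` arms: three nonexceptional indices are at least there; their three pairwise
`lcp` take exactly two values: the two shorter ones are equal. Let `z` be the common beginning of the
three `y`'s and `z₂ = z ++ b :: w` the longest of the three meets. Both lie in the window, and the
children of `z` and `z₂` are deep: below each of them is one of the `y i`, whose length is
`gd x (y i) + 2 lcp x (y i) - |x| > ℓ √n + |x| - δ √n`. All addresses here are planted: since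
`ℓ √n > δ √n` the lengths are `≥ 1` and the first letter is `false`; strip it. The last clause locates
the points: `gd x (false :: z₂) ≤ 2 δ √n`. -/
theorem star_three {n k : ℕ} (hk : 4 ≤ k) {ℓ δ : ℝ} (hδ : 0 < δ) (hδℓ : 4 * δ ≤ ℓ)
    (hn : 4 ≤ ℓ * Real.sqrt n) {T : BT} {x : List Bool} (h : StarAt n k ℓ δ T x) :
    ∃ (z w : List Bool) (b : Bool), DeepBP T (ℓ / 4 * Real.sqrt n) z ∧
      DeepBP T (ℓ / 4 * Real.sqrt n) (z ++ b :: w) ∧
      ((b :: w).length : ℝ) ≤ δ * Real.sqrt n ∧
      (gd x (false :: (z ++ b :: w)) : ℝ) ≤ 2 * (δ * Real.sqrt n) := by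
  obtain ⟨hx, y, hy, hlen, hst⟩ := h
  obtain ⟨e, he, hne⟩ := star_lcp (ℓ := ℓ) (T := T) hst
  have hℓ : 0 < ℓ := by linarith
  have hs : 0 < Real.sqrt n := by
    rcases (Real.sqrt_nonneg (n : ℝ)).lt_or_eq with h0 | h0
    · exact h0
    · rw [← h0] at hn
      linarith
  set D : ℝ := δ * Real.sqrt n with hD
  set E : ℝ := ℓ * Real.sqrt n with hE
  have hD0 : 0 < D := mul_pos hδ hs
  have hDE : 4 * D ≤ E := by
    have := mul_le_mul_of_nonneg_right hδℓ hs.le
    rw [hD, hE]
    linarith
  -- three nonexceptional indices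
  have hthree : ∃ i j l : Fin k, i ≠ j ∧ i ≠ l ∧ j ≠ l ∧ ¬ e i ∧ ¬ e j ∧ ¬ e l := by
    classical
    have hcard : 3 ≤ (Finset.univ.filter (fun i : Fin k => ¬ e i)).card := by
      have h1 : (Finset.univ.filter (fun i : Fin k => e i)).card ≤ 1 := by
        rw [Finset.card_le_one]
        intro i hi j hj
        exact he i j (Finset.mem_filter.1 hi).2 (Finset.mem_filter.1 hj).2
      have h2 := Finset.card_filter_add_card_filter_not (s := (Finset.univ : Finset (Fin k)))
        (fun i => e i)
      rw [Finset.card_univ, Fintype.card_fin] at h2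
      omega
    obtain ⟨t, ht, htc⟩ := Finset.exists_subset_card_eq hcard
    obtain ⟨i, j, l, hij, hil, hjl, rfl⟩ := Finset.card_eq_three.1 htc
    refine ⟨i, j, l, hij, hil, hjl, ?_, ?_, ?_⟩
    · exact (Finset.mem_filter.1 (ht (by simp))).2
    · exact (Finset.mem_filter.1 (ht (by simp))).2
    · exact (Finset.mem_filter.1 (ht (by simp))).2
  obtain ⟨i, j, l, hij, hil, hjl, hi, hj, hl⟩ := hthree
  -- stripped addresses
  have hstrip : ∀ i, ¬ e i → ∃ a : List Bool, y i = false :: a ∧ (∃ S, T.at? a = some S) ∧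
      E + x.length - D - 1 < (a.length : ℝ) := by
    intro i hi
    have h1 := hlen i
    have h2 := (hne i hi).1
    rw [meeA_gd] at h1
    have h3 : E + x.length - D < (y i).length := by linarith
    rcases hy i with h4 | ⟨a, ha, h4⟩
    · exfalso
      rw [h4] at h3
      have h5 : (0 : ℝ) ≤ x.length := Nat.cast_nonneg _
      simp only [List.length_nil, Nat.cast_zero] at h3
      linarith
    · refine ⟨a, h4, (mem_verts_iff T a).1 ha, ?_⟩
      rw [h4] at h3
      simp only [List.length_cons, Nat.cast_add, Nat.cast_one] at h3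
      linarith
  -- the main step for an ordered triple
  have hmain : ∀ i j l : Fin k, i ≠ j → i ≠ l → j ≠ l → ¬ e i → ¬ e j → ¬ e l →
      lcp (y i) (y l) < lcp (y i) (y j) →
      ∃ (z w : List Bool) (b : Bool), DeepBP T (ℓ / 4 * Real.sqrt n) z ∧
        DeepBP T (ℓ / 4 * Real.sqrt n) (z ++ b :: w) ∧
        ((b :: w).length : ℝ) ≤ D ∧ (gd x (false :: (z ++ b :: w)) : ℝ) ≤ 2 * D := by
    intro i j l hij hil hjl hi hj hl hlt
    obtain ⟨a, ha, ha', hal⟩ := hstrip i hi
    obtain ⟨b, hb, hb', hbl⟩ := hstrip j hj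
    obtain ⟨c, hc, hc', hcl⟩ := hstrip l hl
    have hci := (hne i hi).1
    obtain ⟨u1, u2⟩ := (hne i hi).2 j hj hij
    obtain ⟨v1, v2⟩ := (hne i hi).2 l hl hil
    have e1 : lcp (y i) (y j) = lcp a b + 1 := by rw [ha, hb]; simp [lcp]
    have e2 : lcp (y i) (y l) = lcp a c + 1 := by rw [ha, hc]; simp [lcp]
    rw [e1] at u1 u2 hlt
    rw [e2] at v1 v2 hlt
    push_cast at u1 u2 v1 v2
    have q1 : lcp a b < a.length := by
      have : (lcp a b : ℝ) < a.length := by linarith
      exact_mod_cast this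
    have q2 : lcp a b < b.length := by
      have : (lcp a b : ℝ) < b.length := by linarith
      exact_mod_cast this
    have q3 : lcp a c < c.length := by
      have : (lcp a c : ℝ) < c.length := by linarith
      exact_mod_cast this
    have hL : ℓ / 4 * Real.sqrt n = E / 4 := by rw [hE]; ring
    obtain ⟨z, w, d, r1, r2, r3, r4, r5⟩ := meeB_core (L := ℓ / 4 * Real.sqrt n) ha' hb' hc'
      (by omega) q1 q2 q3 (by rw [hL]; linarith) (by rw [hL]; linarith) (by rw [hL]; linarith)
    refine ⟨z, w, d, r1, r2, ?_, ?_⟩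
    · have h1 : ((z ++ d :: w).length : ℝ) = z.length + (d :: w).length := by
        rw [List.length_append]
        push_cast
        ring
      rw [r4, r3] at h1
      linarith
    · rw [meeA_gd]
      have h1 : (false :: (z ++ d :: w)) <+: y i := by
        rw [ha]
        exact List.cons_prefix_cons.2 ⟨rfl, r5⟩
      have h2 := meeB_prefix h1
      have h3 := min_lcp_le x (y i) (false :: (z ++ d :: w))
      rw [h2] at h3
      have h4 : ((false :: (z ++ d :: w)).length : ℝ) = lcp a b + 1 := by
        rw [List.length_cons, r4]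
        push_cast
        ring
      have h5 : min (lcp x (y i) : ℝ) ((false :: (z ++ d :: w)).length : ℝ) ≤
          lcp x (false :: (z ++ d :: w)) := by exact_mod_cast h3
      rw [h4] at h5 ⊢
      have h6 : (x.length : ℝ) - D / 2 < min (lcp x (y i) : ℝ) (lcp a b + 1) := lt_min hci u1
      linarith
  have hlt' : ∀ i j, ¬ e i → ¬ e j → i ≠ j → lcp (y i) (y j) < (y i).length ∧
      lcp (y i) (y j) < (y j).length := by
    intro i j hi hj hij
    obtain ⟨a, ha, -, hal⟩ := hstrip i hi
    obtain ⟨b, hb, -, hbl⟩ := hstrip j hj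
    obtain ⟨-, u2⟩ := (hne i hi).2 j hj hij
    have ha2 : ((y i).length : ℝ) = a.length + 1 := by
      rw [ha, List.length_cons]
      push_cast
      ring
    have hb2 : ((y j).length : ℝ) = b.length + 1 := by
      rw [hb, List.length_cons]
      push_cast
      ring
    constructor
    · have : (lcp (y i) (y j) : ℝ) < (y i).length := by rw [ha2]; linarith
      exact_mod_cast this
    · have : (lcp (y i) (y j) : ℝ) < (y j).length := by rw [hb2]; linarith
      exact_mod_cast this
  obtain ⟨t1, t2⟩ := hlt' i j hi hj hij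
  obtain ⟨t3, t4⟩ := hlt' i l hi hl hil
  obtain ⟨t5, t6⟩ := hlt' j l hj hl hjl
  rcases meeB_trich t1 t2 t3 t4 t5 t6 with g | g | g
  · exact hmain i j l hij hil hjl hi hj hl g
  · exact hmain i l j hil hij hjl.symm hi hl hj g
  · exact hmain j l i hjl hij.symm hil.symm hj hl hi g

end Pool.Agent.ALD
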