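import Pool.Agent.ALD.MeeB

/-! Module MEEC: a star with five arms gives two short segments -/

noncomputable section

namespace Pool.Agent.ALD

open BT

theorem meeC_plant {T : BT} {u : List Bool} (hu : u ∈ PtSet T) (h : u ≠ []) :
    ∃ a, u = false :: a ∧ ∃ S, T.at? a = some S := by
  rcases hu with h0 | ⟨a, ha, rfl⟩
  · exact absurd h0 h
  · exact ⟨a, rfl, (mem_verts_iff T a).mp ha⟩

theorem meeC_letters {u v : List Bool} (hu : lcp u v < u.length) (hv : lcp u v < v.length) :
    ∃ c : Bool, u.take (lcp u v + 1) = u.take (lcp u v) ++ [c] ∧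
      v.take (lcp u v + 1) = u.take (lcp u v) ++ [!c] := by
  have h1 : u.take (lcp u v + 1) = u.take (lcp u v) ++ [u[lcp u v]] := by
    rw [List.take_succ_eq_append_getElem hu]
  have h2 : v.take (lcp u v + 1) = v.take (lcp u v) ++ [v[lcp u v]] := by
    rw [List.take_succ_eq_append_getElem hv]
  refine ⟨u[lcp u v], h1, ?_⟩
  rw [h2, ← take_lcp u v]
  have hne : v[lcp u v] ≠ u[lcp u v] := by
    intro h
    have : u.take (lcp u v + 1) = v.take (lcp u v + 1) := by
      rw [h1, h2, ← take_lcp u v, h]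
    have := (le_lcp_iff (s := u) (t := v) (k := lcp u v + 1) (by omega) (by omega)).mpr this
    omega
  cases h3 : v[lcp u v] <;> cases h4 : u[lcp u v] <;> simp_all

/-- the meet of two long words is a deep branch point -/
theorem meeC_deepBP {T : BT} {u v : List Bool} (hu : u ∈ PtSet T) (hv : v ∈ PtSet T)
    (h1 : 1 ≤ lcp u v) {L : ℝ} (h2 : lcp u v < u.length) (h3 : lcp u v < v.length)
    (hLu : L ≤ (u.length : ℝ) - lcp u v - 1) (hLv : L ≤ (v.length : ℝ) - lcp u v - 1) :
    ∃ z, u.take (lcp u v) = false :: z ∧ DeepBP T L z := by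
  have hu0 : u ≠ [] := by
    rintro rfl
    simp at h2
  have hv0 : v ≠ [] := by
    rintro rfl
    simp at h3
  obtain ⟨a, ha, Sa, hSa⟩ := meeC_plant hu hu0
  obtain ⟨b, hb, Sb, hSb⟩ := meeC_plant hv hv0
  obtain ⟨c, hc1, hc2⟩ := meeC_letters h2 h3
  obtain ⟨m, hm⟩ : ∃ m, lcp u v = m + 1 := ⟨lcp u v - 1, by omega⟩
  have hz : u.take (lcp u v) = false :: a.take m := by
    rw [hm, ha, List.take_succ_cons]
  refine ⟨a.take m, hz, ?_⟩
  have hlen : (a.take m).length = m := by
    rw [List.length_take]
    have : u.length = a.length + 1 := by rw [ha]; simp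
    omega
  have key : ∀ (w d : List Bool) (S : BT) (e : Bool), w = false :: d → T.at? d = some S →
      w.take (lcp u v + 1) = u.take (lcp u v) ++ [e] → L ≤ (w.length : ℝ) - lcp u v - 1 →
      Deep T L (a.take m ++ [e]) := by
    intro w d S e hw hS he hL
    refine ⟨d, ⟨S, hS⟩, ?_, ?_⟩
    · rw [hz, hw, List.cons_append, List.take_succ_cons, List.cons.injEq] at he
      rw [← he.2]
      exact List.take_prefix _ _
    · rw [List.length_append, hlen]
      have : (w.length : ℝ) = d.length + 1 := by rw [hw]; simp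
      rw [this, hm] at hL
      push_cast at hL ⊢
      simp only [List.length_cons, List.length_nil]
      push_cast
      linarith
  have k1 := key u a Sa c ha hSa hc1 hLu
  have k2 := key v b Sb (!c) hb hSb hc2 hLv
  cases c
  · exact ⟨k1, by simpa using k2⟩
  · exact ⟨by simpa using k2, k1⟩

theorem meeC_bool : ∀ {a b c : Bool}, ¬ a = b → ¬ a = c → ¬ b = c → False := by decide

theorem meeC_ext {u : List Bool} {s m : ℕ} (hsm : s < m) (hm : m ≤ u.length) {z z1 : List Bool}
    (h : u.take s = false :: z) (h1 : u.take m = false :: z1) :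
    ∃ b w, z1 = z ++ b :: w ∧ (b :: w).length = m - s := by
  have h2 : u.take m = u.take s ++ (u.drop s).take (m - s) := by
    rw [← List.take_add]
    congr 1
    omega
  rw [h1, h, List.cons_append, List.cons.injEq] at h2
  have h3 : ((u.drop s).take (m - s)).length = m - s := by
    rw [List.length_take, List.length_drop]
    omega
  cases hr : (u.drop s).take (m - s) with
  | nil =>
    rw [hr] at h3
    simp at h3
    omega
  | cons b w => exact ⟨b, w, by rw [h2.2, hr], by rw [← hr, h3]⟩

theorem meeC_letter {u v : List Bool} {s : ℕ} (hu : s < u.length) (hv : s < v.length) :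
    s + 1 ≤ lcp u v ↔ s ≤ lcp u v ∧ u[s] = v[s] := by
  constructor
  · intro h
    refine ⟨by omega, ?_⟩
    have h1 := (le_lcp_iff (s := u) (t := v) (k := s + 1) (by omega) (by omega)).mp h
    rw [List.take_succ_eq_append_getElem hu, List.take_succ_eq_append_getElem hv] at h1
    have := (List.append_inj h1 (by simp; omega)).2
    simpa using this
  · rintro ⟨h, hs⟩
    rw [le_lcp_iff (by omega) (by omega)]
    rw [List.take_succ_eq_append_getElem hu, List.take_succ_eq_append_getElem hv, hs]
    rw [(le_lcp_iff (s := u) (t := v) (k := s) (by omega) (by omega)).mp h]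

/-- A star with five arms: four nonexceptional indices. Let `z` be the common beginning of the four
`y`'s; the next letter splits them in two nonempty groups. If the groups have two elements each, take
the meets of the two groups; if one has three elements, apply the argument for three to it: it gives
two meets `z₂ ≠ z₃` below `z`. In both cases `z₂ = z ++ b :: w ≠ z₃ = z ++ b' :: w'`. -/
theorem star_five {n : ℕ} {ℓ δ : ℝ} (hδ : 0 < δ) (hδℓ : 4 * δ ≤ ℓ)
    (hn : 4 ≤ ℓ * Real.sqrt n) {T : BT} {x : List Bool} (h : StarAt n 5 ℓ δ T x) :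
    ∃ (z w w' : List Bool) (b b' : Bool), z ++ b :: w ≠ z ++ b' :: w' ∧
      DeepBP T (ℓ / 4 * Real.sqrt n) z ∧ DeepBP T (ℓ / 4 * Real.sqrt n) (z ++ b :: w) ∧
      DeepBP T (ℓ / 4 * Real.sqrt n) (z ++ b' :: w') ∧
      ((b :: w).length : ℝ) ≤ δ * Real.sqrt n ∧ ((b' :: w').length : ℝ) ≤ δ * Real.sqrt n := by
  classical
  obtain ⟨_, y, hyP, hyl, hyy⟩ := h
  obtain ⟨e, he1, he2⟩ := star_lcp (ℓ := ℓ) (T := T) hyy
  have hsq : 0 ≤ Real.sqrt n := Real.sqrt_nonneg _
  have hD4 : 4 * (δ * Real.sqrt n) ≤ ℓ * Real.sqrt n := by nlinarith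
  have hℓ : 0 < ℓ := by nlinarith
  have hsq0 : 0 < Real.sqrt n := by
    rcases hsq.lt_or_eq with h | h
    · exact h
    · rw [← h] at hn; linarith
  have hD0 : 0 < δ * Real.sqrt n := mul_pos hδ hsq0
  set D := δ * Real.sqrt n with hD
  set E := ℓ * Real.sqrt n with hE
  have hE4 : ℓ / 4 * Real.sqrt n = E / 4 := by rw [hE]; ring
  rw [hE4]
  -- lengths
  have hlen : ∀ i, ¬ e i → E + x.length - D < (y i).length := by
    intro i hi
    have h1 := (he2 i hi).1
    have h2 := hyl i
    have h3 : (gd x (y i) : ℝ) = x.length + (y i).length - 2 * lcp x (y i) := by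
      have a1 := lcp_le_left x (y i)
      have a2 := lcp_le_right x (y i)
      have : gd x (y i) + 2 * lcp x (y i) = x.length + (y i).length := by
        simp only [gd]; omega
      have : ((gd x (y i) + 2 * lcp x (y i) : ℕ) : ℝ) = ((x.length + (y i).length : ℕ) : ℝ) := by
        rw [this]
      push_cast at this
      linarith
    rw [h3] at h2
    linarith
  have hx0 : (0 : ℝ) ≤ x.length := Nat.cast_nonneg _
  have hlt : ∀ i j, ¬ e i → ¬ e j → i ≠ j → lcp (y i) (y j) < (y i).length := by
    intro i j hi hj hij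
    have h1 := ((he2 i hi).2 j hj hij).2
    have h2 := hlen i hi
    have : (lcp (y i) (y j) : ℝ) < (y i).length := by linarith
    exact_mod_cast this
  have hlt' : ∀ i j, ¬ e i → ¬ e j → i ≠ j → lcp (y i) (y j) < (y j).length := by
    intro i j hi hj hij
    rw [lcp_comm]
    exact hlt j i hj hi (Ne.symm hij)
  have hne : ∀ i, ¬ e i → y i ≠ [] := by
    intro i hi h0
    have h2 := hlen i hi
    rw [h0] at h2
    simp only [List.length_nil, Nat.cast_zero] at h2
    linarith
  have hge1 : ∀ i j, ¬ e i → ¬ e j → 1 ≤ lcp (y i) (y j) := by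
    intro i j hi hj
    obtain ⟨a, ha, _⟩ := meeC_plant (hyP i) (hne i hi)
    obtain ⟨b, hb, _⟩ := meeC_plant (hyP j) (hne j hj)
    rw [ha, hb]
    simp [lcp]
  have hmeet : ∀ i j, ¬ e i → ¬ e j → i ≠ j →
      ∃ z, (y i).take (lcp (y i) (y j)) = false :: z ∧ DeepBP T (E / 4) z := by
    intro i j hi hj hij
    have h1 := ((he2 i hi).2 j hj hij).2
    have h2 := hlen i hi
    have h3 := hlen j hj
    exact meeC_deepBP (hyP i) (hyP j) (hge1 i j hi hj) (hlt i j hi hj hij) (hlt' i j hi hj hij)
      (by linarith) (by linarith)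
  -- the nonexceptional indices
  set N : Finset (Fin 5) := (Finset.univ.filter (fun i => e i))ᶜ with hN
  have hmemN : ∀ i, i ∈ N ↔ ¬ e i := by intro i; simp [hN]
  have hcard : 4 ≤ N.card := by
    have h1 : (Finset.univ.filter (fun i : Fin 5 => e i)).card ≤ 1 := by
      rw [Finset.card_le_one]
      intro a ha b hb
      simp only [Finset.mem_filter, Finset.mem_univ, true_and] at ha hb
      exact he1 a b ha hb
    rw [hN, Finset.card_compl, Fintype.card_fin]
    omega
  -- a pair with the shortest meet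
  have hoff : (N.offDiag).Nonempty := by
    obtain ⟨a, ha, b, hb, hab⟩ := Finset.one_lt_card.mp (by omega : 1 < N.card)
    exact ⟨(a, b), Finset.mem_offDiag.mpr ⟨ha, hb, hab⟩⟩
  obtain ⟨⟨i, j⟩, hij, hmin⟩ := Finset.exists_min_image N.offDiag
    (fun p => lcp (y p.1) (y p.2)) hoff
  rw [Finset.mem_offDiag] at hij
  obtain ⟨hi, hj, hij⟩ := hij
  simp only at hi hj hij hmin
  rw [hmemN] at hi hj
  set s := lcp (y i) (y j) with hs
  have hmin' : ∀ a b, ¬ e a → ¬ e b → a ≠ b → s ≤ lcp (y a) (y b) := by
    intro a b ha hb hab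
    exact hmin (a, b) (Finset.mem_offDiag.mpr ⟨(hmemN a).mpr ha, (hmemN b).mpr hb, hab⟩)
  -- every nonexceptional word is longer than s
  have hslen : ∀ a, ¬ e a → s < (y a).length := by
    intro a ha
    have h1 := ((he2 i hi).2 j hj hij).2
    have h2 := hlen a ha
    have : (s : ℝ) < (y a).length := by linarith
    exact_mod_cast this
  have hsame : ∀ a b, ¬ e a → ¬ e b → (y a).take s = (y b).take s := by
    intro a b ha hb
    by_cases hab : a = b
    · rw [hab]
    · exact (le_lcp_iff (hslen a ha).le (hslen b hb).le).mp (hmin' a b ha hb hab)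
  obtain ⟨z, hz, hzD⟩ := hmeet i j hi hj hij
  let g : Fin 5 → Bool := fun a => (y a).getD s false
  have hg : ∀ a (ha : ¬ e a), g a = (y a)[s]'(hslen a ha) := by
    intro a ha
    simp only [g]
    rw [List.getD_eq_getElem _ _ (hslen a ha)]
  have hgt : ∀ a b, ¬ e a → ¬ e b → a ≠ b → g a = g b → s < lcp (y a) (y b) := by
    intro a b ha hb hab hgab
    rw [hg a ha, hg b hb] at hgab
    exact (meeC_letter (hslen a ha) (hslen b hb)).mpr ⟨hmin' a b ha hb hab, hgab⟩
  have hneq : ∀ a b, ¬ e a → ¬ e b → g a ≠ g b → ¬ (s + 1 ≤ lcp (y a) (y b)) := by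
    intro a b ha hb hgab h
    apply hgab
    rw [hg a ha, hg b hb]
    exact ((meeC_letter (hslen a ha) (hslen b hb)).mp h).2
  -- extension below z
  have hbelow : ∀ a b, ¬ e a → ¬ e b → a ≠ b → g a = g b → ∃ (c : Bool) (w : List Bool),
      (y a).take (lcp (y a) (y b)) = false :: (z ++ c :: w) ∧ DeepBP T (E / 4) (z ++ c :: w) ∧
      ((c :: w).length : ℝ) ≤ D := by
    intro a b ha hb hab hgab
    obtain ⟨z1, hz1, hz1D⟩ := hmeet a b ha hb hab
    have h1 := hgt a b ha hb hab hgab
    have h2 : (y a).take s = false :: z := by rw [hsame a i ha hi, hz]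
    obtain ⟨c, w, hcw, hlen'⟩ := meeC_ext h1 (hlt a b ha hb hab).le h2 hz1
    refine ⟨c, w, by rw [hz1, hcw], by rw [← hcw]; exact hz1D, ?_⟩
    rw [hlen', Nat.cast_sub h1.le]
    have h3 := ((he2 a ha).2 b hb hab).2
    have h4 := ((he2 i hi).2 j hj hij).1
    linarith
  -- two classes
  have hcl := Finset.card_filter_add_card_filter_not (s := N) (fun a => g a = true)
  have hB : ∀ v : Bool, 3 ≤ (N.filter (fun a => g a = v)).card →
      ∃ (z w w' : List Bool) (b b' : Bool), z ++ b :: w ≠ z ++ b' :: w' ∧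
      DeepBP T (E / 4) z ∧ DeepBP T (E / 4) (z ++ b :: w) ∧
      DeepBP T (E / 4) (z ++ b' :: w') ∧
      ((b :: w).length : ℝ) ≤ D ∧ ((b' :: w').length : ℝ) ≤ D := by
    intro v hv
    obtain ⟨a, ha, b, hb, c, hc, hab, hac, hbc⟩ := Finset.two_lt_card.mp (by omega :
      2 < (N.filter (fun a => g a = v)).card)
    simp only [Finset.mem_filter, hmemN] at ha hb hc
    have key : ∀ a b c, ¬ e a → ¬ e b → ¬ e c → g a = v → g b = v → g c = v → a ≠ b → a ≠ c →
        lcp (y a) (y b) ≠ lcp (y a) (y c) → ∃ (z w w' : List Bool) (b b' : Bool),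
        z ++ b :: w ≠ z ++ b' :: w' ∧
        DeepBP T (E / 4) z ∧ DeepBP T (E / 4) (z ++ b :: w) ∧
        DeepBP T (E / 4) (z ++ b' :: w') ∧
        ((b :: w).length : ℝ) ≤ D ∧ ((b' :: w').length : ℝ) ≤ D := by
      intro a b c ha hb hc ga gb gc hab hac hne'
      obtain ⟨k, w, h1, h2, h3⟩ := hbelow a b ha hb hab (by rw [ga, gb])
      obtain ⟨k', w', h1', h2', h3'⟩ := hbelow a c ha hc hac (by rw [ga, gc])
      refine ⟨z, w, w', k, k', ?_, hzD, h2, h2', h3, h3'⟩
      intro heq
      apply hne'
      rw [heq, ← h1'] at h1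
      have := congrArg List.length h1
      rw [List.length_take, List.length_take] at this
      have a1 := hlt a b ha hb hab
      have a2 := hlt a c ha hc hac
      omega
    by_cases h1 : lcp (y a) (y b) = lcp (y a) (y c)
    · by_cases h2 : lcp (y b) (y a) = lcp (y b) (y c)
      · -- all equal: impossible
        exfalso
        have e1 := hlt a b ha.1 hb.1 hab
        have e2 := hlt b a hb.1 ha.1 (Ne.symm hab)
        have e3 : lcp (y a) (y b) < (y c).length := by
          rw [h1]; exact hlt' a c ha.1 hc.1 hac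
        rw [lcp_comm (y b) (y a)] at e2 h2
        have f1 : ¬ ((y a)[lcp (y a) (y b)] = (y b)[lcp (y a) (y b)]) := by
          intro hh
          have := (meeC_letter e1 e2).mpr ⟨le_refl _, hh⟩
          omega
        have f2 : ¬ ((y a)[lcp (y a) (y b)] = (y c)[lcp (y a) (y b)]) := by
          intro hh
          have := (meeC_letter e1 e3).mpr ⟨h1.le, hh⟩
          omega
        have f3 : ¬ ((y b)[lcp (y a) (y b)] = (y c)[lcp (y a) (y b)]) := by
          intro hh
          have := (meeC_letter e2 e3).mpr ⟨h2.le, hh⟩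
          omega
        exact meeC_bool f1 f2 f3
      · exact key b a c hb.1 ha.1 hc.1 hb.2 ha.2 hc.2 (Ne.symm hab) hbc h2
    · exact key a b c ha.1 hb.1 hc.1 ha.2 hb.2 hc.2 hab hac h1
  by_cases h3 : 3 ≤ (N.filter (fun a => g a = true)).card
  · exact hB true h3
  · by_cases h4 : 3 ≤ (N.filter (fun a => g a = false)).card
    · exact hB false h4
    · have hcl' : (N.filter (fun a => ¬ g a = true)).card =
          (N.filter (fun a => g a = false)).card := by
        congr 1
        ext a
        simp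
      rw [hcl'] at hcl
      obtain ⟨a, ha, b, hb, hab⟩ := Finset.one_lt_card.mp (by omega :
        1 < (N.filter (fun a => g a = true)).card)
      obtain ⟨c, hc, d, hd, hcd⟩ := Finset.one_lt_card.mp (by omega :
        1 < (N.filter (fun a => g a = false)).card)
      simp only [Finset.mem_filter, hmemN] at ha hb hc hd
      obtain ⟨k, w, h1, h2, h5⟩ := hbelow a b ha.1 hb.1 hab (by rw [ha.2, hb.2])
      obtain ⟨k', w', h1', h2', h5'⟩ := hbelow c d hc.1 hd.1 hcd (by rw [hc.2, hd.2])
      refine ⟨z, w, w', k, k', ?_, hzD, h2, h2', h5, h5'⟩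
      intro heq
      rw [heq, ← h1'] at h1
      have g1 := hgt a b ha.1 hb.1 hab (by rw [ha.2, hb.2])
      have g2 := hgt c d hc.1 hd.1 hcd (by rw [hc.2, hd.2])
      apply hneq a c ha.1 hc.1 (by rw [ha.2, hc.2]; simp)
      have l1 := hslen a ha.1
      have l2 := hslen c hc.1
      rw [le_lcp_iff (by omega) (by omega)]
      have := congrArg (List.take (s + 1)) h1
      rw [List.take_take, List.take_take, min_eq_left (by omega), min_eq_left (by omega)] at this
      exact this

end Pool.Agent.ALD
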