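import Pool.Agent.ALD.SymA

/-! Module NBHD: two trees that differ by r moves have a common restriction -/

namespace Pool.Agent.ALD

open BT

private theorem nbhd_fun1 (i : ℕ) (J : Finset ℕ) :
    (fun a : ℕ => decide (a ≠ i) && decide (a ∉ J)) = fun a => decide (a ∉ insert i J) := by
  funext a
  by_cases h1 : a = i <;> by_cases h2 : a ∈ J <;> simp [h1, h2]

private theorem nbhd_fun2 (i : ℕ) (J : Finset ℕ) :
    (fun a : ℕ => decide (a ∉ J) && decide (a ≠ i)) = fun a => decide (a ∉ insert i J) := by
  funext a
  by_cases h1 : a = i <;> by_cases h2 : a ∈ J <;> simp [h1, h2]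

/-- Induction on `r`, generalizing `T`: if `T' ∈ T.reins i` then `T.del i = T'.del i`
(`del_eq_of_mem_reins`); take `J ∪ {i}` and use `res_res` and `res_congr`. -/
theorem nb_common {n r : ℕ} {B : BT → Prop} {T : BT} (hn : 2 ≤ n) (hT : T ∈ trees n)
    (h : nb n r B T) : ∃ T' ∈ trees n, B T' ∧ ∃ J : Finset ℕ, J.card ≤ r ∧
      T.res (fun a => decide (a ∉ J)) = T'.res (fun a => decide (a ∉ J)) := by
  induction r generalizing T with
  | zero => exact ⟨T, hT, h, ∅, by simp, rfl⟩
  | succ r ih =>
    rcases h with h | ⟨i, hi, T1, hT1, h⟩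
    · obtain ⟨T', hT', hB, J, hJ, he⟩ := ih hT h
      exact ⟨T', hT', hB, J, by omega, he⟩
    · obtain ⟨T', hT', hB, J, hJ, he⟩ := ih (mem_trees_of_mem_reins hn hT hi hT1) h
      refine ⟨T', hT', hB, insert i J, ?_, ?_⟩
      · exact (Finset.card_insert_le i J).trans (by omega)
      · have hd := del_eq_of_mem_reins hn hT hi hT1
        unfold BT.del at hd
        calc T.res (fun a => decide (a ∉ insert i J))
            = (T.res (fun a => decide (a ≠ i))).bind (BT.res (fun a => decide (a ∉ J))) := by
              rw [res_res, nbhd_fun1]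
          _ = (T1.res (fun a => decide (a ≠ i))).bind (BT.res (fun a => decide (a ∉ J))) := by
              rw [hd]
          _ = T1.res (fun a => decide (a ∉ insert i J)) := by rw [res_res, nbhd_fun1]
          _ = (T1.res (fun a => decide (a ∉ J))).bind (BT.res (fun a => decide (a ≠ i))) := by
              rw [res_res, nbhd_fun2]
          _ = (T'.res (fun a => decide (a ∉ J))).bind (BT.res (fun a => decide (a ≠ i))) := by
              rw [he]
          _ = T'.res (fun a => decide (a ∉ insert i J)) := by rw [res_res, nbhd_fun2]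

end Pool.Agent.ALD
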