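import Pool.Agent.ALD.CapT
import Pool.Agent.ALD.Nbhd

/-! Module NBB: the neighbourhood bound -/

noncomputable section

namespace Pool.Agent.ALD

open BT

private theorem nbB_ind_nonneg {α : Type*} (p : α → Prop) (x : α) : 0 ≤ ind p x := by
  unfold ind
  split_ifs
  · exact zero_le_one
  · exact le_refl _

private theorem nbB_ind_le {α : Type*} (p : α → Prop) (x : α) : ind p x ≤ 1 := by
  unfold ind
  split_ifs
  · exact le_refl _
  · exact zero_le_one

private theorem nbB_ind_true {α : Type*} {p : α → Prop} {x : α} (h : p x) : ind p x = 1 := by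
  unfold ind
  rw [if_pos h]

private theorem nbB_ind_false {α : Type*} {p : α → Prop} {x : α} (h : ¬ p x) : ind p x = 0 := by
  unfold ind
  rw [if_neg h]

private theorem nbB_ind_mono {α β : Type*} {p : α → Prop} {p' : β → Prop} {x : α} {y : β}
    (h : p x → p' y) : ind p x ≤ ind p' y := by
  by_cases hx : p x
  · rw [nbB_ind_true (h hx)]
    exact nbB_ind_le p x
  · rw [nbB_ind_false hx]
    exact nbB_ind_nonneg p' y

private theorem nbB_step_le {n : ℕ} {G1 G2 : BT → ℝ} {T : BT}
    (h : ∀ i < n, ∀ T' ∈ T.reins i, G1 T' ≤ G2 T') : step n G1 T ≤ step n G2 T := by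
  unfold step
  apply div_le_div_of_nonneg_right _ (Nat.cast_nonneg n)
  apply Finset.sum_le_sum
  intro i hi
  apply div_le_div_of_nonneg_right _ (Nat.cast_nonneg _)
  exact List.sum_le_sum (fun T' hT' => h i (Finset.mem_range.mp hi) T' hT')

private theorem nbB_mono_succ {n : ℕ} {B : BT → Prop} (k : ℕ) {T : BT} (h : nb n k B T) :
    nb n (k + 1) B T := Or.inl h

private theorem nbB_mono {n : ℕ} {B : BT → Prop} {k k' : ℕ} (hk : k ≤ k') {T : BT}
    (h : nb n k B T) : nb n k' B T := by
  induction hk with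
  | refl => exact h
  | step _ ih => exact nbB_mono_succ _ ih

private theorem nbB_succ {n : ℕ} {B : BT → Prop} (k : ℕ) {T T' : BT} {i : ℕ} (hi : i < n)
    (hT' : T' ∈ T.reins i) (h : nb n k B T') : nb n (k + 1) B T := Or.inr ⟨i, hi, T', hT', h⟩

private theorem nbB_sum_le {n r : ℕ} {B : BT → Prop} {T T' : BT}
    (h : ∀ k, nb n k B T' → nb n (k + 1) B T) :
    ∑ k ∈ Finset.range r, ind (nb n k B) T' ≤ ∑ k ∈ Finset.range r, ind (nb n k B) T + 1 := by
  have h1 : ∑ k ∈ Finset.range r, ind (nb n k B) T' ≤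
      ∑ k ∈ Finset.range r, ind (nb n (k + 1) B) T :=
    Finset.sum_le_sum (fun k _ => nbB_ind_mono (h k))
  have h2 := Finset.sum_range_succ (fun k => ind (nb n k B) T) r
  have h3 := Finset.sum_range_succ' (fun k => ind (nb n k B) T) r
  have h4 := nbB_ind_le (nb n r B) T
  have h5 := nbB_ind_nonneg (nb n 0 B) T
  linarith

/-- Apply `hitP_le` to `F T = (1 / r) · #{i < r : T ∈ nb n i B}`. The sets `nb n i B` increase with `i`,
so `F = 1` on `B`, `0 ≤ F ≤ 1`, and `F T > 0` only if `T ∈ nb n (r - 1) B`: `avg F² ≤ avg 1_{nb (r-1)}`.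
If `T' ∈ T.reins i` (`i < n`, `T ∈ trees n`) then also `T ∈ T'.reins i` (`mem_reins_symm`), so
`T' ∈ nb k B` implies `T ∈ nb (k+1) B` and conversely: `|F T - F T'| ≤ 1 / r`, and the difference
vanishes unless `T` or `T'` is in `nb (r - 1) B`. Hence `Dir F ≤ 2 / r² · avg 1_{nb (r-1)}` by
`sum_reins_symm`. -/
theorem hitP_le_nb {n r : ℕ} (hn : 2 ≤ n) (hr : 1 ≤ r) {a Tm : ℝ} (hTm : 0 ≤ Tm) {m : ℕ}
    {t : Fin m → ℝ} (ha : 0 < a) (ht : Monotone t) (ht' : ∀ i, 0 ≤ t i ∧ t i ≤ Tm)
    (B : BT → Prop) :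
    hitP n a m t B ≤ Real.exp Tm * (1 + a / (r : ℝ) ^ 2) * avg n (ind (nb n (r - 1) B)) := by
  have hr0 : (0 : ℝ) < r := by exact_mod_cast hr
  set g : BT → ℝ := ind (nb n (r - 1) B) with hg
  set F : BT → ℝ := fun T => (∑ k ∈ Finset.range r, ind (nb n k B) T) / r with hF
  have hg0 : ∀ T, 0 ≤ g T := fun T => nbB_ind_nonneg _ _
  have hF0 : ∀ T, 0 ≤ F T := fun T =>
    div_nonneg (Finset.sum_nonneg (fun k _ => nbB_ind_nonneg _ _)) hr0.le
  have hFg : ∀ T, F T ≤ g T := by
    intro T
    simp only [hF]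
    rw [div_le_iff₀ hr0]
    have h1 : ∑ k ∈ Finset.range r, ind (nb n k B) T ≤ ∑ _k ∈ Finset.range r, g T := by
      apply Finset.sum_le_sum
      intro k hk
      have hk' := Finset.mem_range.mp hk
      exact nbB_ind_mono (fun h => nbB_mono (by omega) h)
    rw [Finset.sum_const, Finset.card_range, nsmul_eq_mul] at h1
    linarith
  have hF1 : ∀ T, F T ≤ 1 := fun T => (hFg T).trans (nbB_ind_le _ _)
  have hFB : ∀ T ∈ trees n, B T → 1 ≤ F T := by
    intro T _ hB
    have h1 : ∀ k ∈ Finset.range r, ind (nb n k B) T = 1 := fun k _ =>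
      nbB_ind_true (nbB_mono (Nat.zero_le k) (show nb n 0 B T from hB))
    simp only [hF]
    rw [Finset.sum_congr rfl h1, Finset.sum_const, Finset.card_range, nsmul_eq_mul, mul_one,
      div_self hr0.ne']
  have h1 := hitP_le hn hTm ha ht ht' (B := B) (F := F) hFB
  have h2 : avg n (fun T => F T ^ 2) ≤ avg n g := by
    apply avg_mono
    intro T _
    have h3 := hF0 T
    have h4 := hF1 T
    have h5 := hFg T
    nlinarith
  have hnbr : ∀ T ∈ trees n, ∀ i < n, ∀ T' ∈ T.reins i,
      (F T - F T') ^ 2 ≤ 1 / (r : ℝ) ^ 2 * (g T + g T') := by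
    intro T hT i hi T' hT'
    have hsym := mem_reins_symm hn hT hi hT'
    by_cases h0 : nb n (r - 1) B T ∨ nb n (r - 1) B T'
    · have e1 : ∑ k ∈ Finset.range r, ind (nb n k B) T' ≤
          ∑ k ∈ Finset.range r, ind (nb n k B) T + 1 :=
        nbB_sum_le (fun k h => nbB_succ k hi hT' h)
      have e2 : ∑ k ∈ Finset.range r, ind (nb n k B) T ≤
          ∑ k ∈ Finset.range r, ind (nb n k B) T' + 1 :=
        nbB_sum_le (fun k h => nbB_succ k hi hsym h)
      have e3 : |F T - F T'| ≤ 1 / r := by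
        simp only [hF]
        rw [← sub_div, abs_div, abs_of_pos hr0]
        apply div_le_div_of_nonneg_right _ hr0.le
        rw [abs_le]
        constructor <;> linarith
      have e4 : (F T - F T') ^ 2 ≤ (1 / (r : ℝ)) ^ 2 := by
        rw [← sq_abs]
        exact pow_le_pow_left₀ (abs_nonneg _) e3 2
      have e5 : 1 ≤ g T + g T' := by
        rcases h0 with h0 | h0
        · have := nbB_ind_true h0
          have h6 := hg0 T'
          simp only [hg] at h6 ⊢
          linarith
        · have := nbB_ind_true h0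
          have h6 := hg0 T
          simp only [hg] at h6 ⊢
          linarith
      have e6 : (0 : ℝ) ≤ 1 / (r : ℝ) ^ 2 := by positivity
      rw [div_pow, one_pow] at e4
      nlinarith
    · push Not at h0
      have e1 : g T = 0 := nbB_ind_false h0.1
      have e2 : g T' = 0 := nbB_ind_false h0.2
      have e3 : F T = 0 := le_antisymm (by rw [← e1]; exact hFg T) (hF0 T)
      have e4 : F T' = 0 := le_antisymm (by rw [← e2]; exact hFg T') (hF0 T')
      rw [e1, e2, e3, e4]
      simp
  have h3 : Dir n F ≤ 1 / (r : ℝ) ^ 2 * (2 * avg n g) := by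
    have e1 : Dir n F = avg n (fun T => step n (fun T' => (F T - F T') ^ 2) T) := rfl
    have e2 : avg n (fun T => step n (fun T' => (F T - F T') ^ 2) T) ≤
        avg n (fun T => 1 / (r : ℝ) ^ 2 * (g T + step n g T)) := by
      apply avg_mono
      intro T hT
      refine (nbB_step_le (hnbr T hT)).trans ?_
      rw [step_mul_left, step_add (fun _ => g T) g T, step_const hn (g T) T hT]
    rw [e1]
    refine e2.trans ?_
    rw [avg_mul_left, avg_add g (step n g), avg_step hn]
    apply le_of_eq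
    ring
  have hexp := Real.exp_pos Tm
  refine h1.trans ?_
  rw [mul_assoc]
  apply mul_le_mul_of_nonneg_left _ hexp.le
  have h4 : a / 2 * Dir n F ≤ a / 2 * (1 / (r : ℝ) ^ 2 * (2 * avg n g)) :=
    mul_le_mul_of_nonneg_left h3 (by positivity)
  have h5 : a / 2 * (1 / (r : ℝ) ^ 2 * (2 * avg n g)) = a / (r : ℝ) ^ 2 * avg n g := by
    field_simp
  rw [h5] at h4
  linarith

end Pool.Agent.ALD
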