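import Pool.Agent.ALD.PoiF

/-! Module POIC: the operator chainExp: bounds, monotonicity, linearity (induction on m) -/

noncomputable section

namespace Pool.Agent.ALD

open BT

theorem poiC_pois_congr {n : ℕ} (hn : 2 ≤ n) {a t : ℝ} {F G : BT → ℝ}
    (h : ∀ T ∈ trees n, F T = G T) : ∀ T ∈ trees n, pois n a t F T = pois n a t G T := by
  have hit : ∀ k : ℕ, ∀ T ∈ trees n, ((step n)^[k] F) T = ((step n)^[k] G) T := by
    intro k
    induction k with
    | zero => exact h
    | succ k ih =>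
      intro T hT
      rw [Function.iterate_succ_apply', Function.iterate_succ_apply']
      exact step_congr hn ih T hT
  intro T hT
  unfold pois
  refine tsum_congr (fun k => ?_)
  rw [hit k T hT]

theorem poiC_tail_mono {m : ℕ} {t : Fin (m + 1) → ℝ} (ht : Monotone t) :
    Monotone (Fin.tail t) := by
  intro i j hij
  exact ht (Fin.succ_le_succ_iff.2 hij)

theorem poiC_cons_mem {m n : ℕ} {S : BT} {z : Fin m → BT} (hS : S ∈ trees n)
    (hz : ∀ i, z i ∈ trees n) : ∀ i, (Fin.cons S z : Fin (m + 1) → BT) i ∈ trees n := by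
  intro i
  refine Fin.cases ?_ (fun j => ?_) i
  · simpa using hS
  · simpa using hz j

/-- the chain stays in `trees n` -/
theorem chainExp_bound {n : ℕ} (hn : 2 ≤ n) {a : ℝ} (ha : 0 ≤ a) {K : ℝ} (m : ℕ) (t : Fin m → ℝ)
    (ht : Monotone t) (f : (Fin m → BT) → ℝ) (hf : ∀ z, (∀ i, z i ∈ trees n) → |f z| ≤ K)
    (hK : 0 ≤ K) (u : ℝ) (hu : ∀ i, u ≤ t i) : ∀ T ∈ trees n, |chainExp n a m t f u T| ≤ K := by
  induction m generalizing u with
  | zero =>
    intro T _
    exact hf _ (fun i => i.elim0)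
  | succ m ih =>
    intro T hT
    unfold chainExp
    refine pois_bound hn ha (sub_nonneg.2 (hu 0)) (fun S hS => ?_) T hT
    exact ih (Fin.tail t) (poiC_tail_mono ht) (fun z => f (Fin.cons S z))
      (fun z hz => hf _ (poiC_cons_mem hS hz)) (t 0) (fun i => ht (Fin.zero_le _)) S hS

theorem chainExp_mono {n : ℕ} (hn : 2 ≤ n) {a : ℝ} (ha : 0 ≤ a) {K : ℝ} (m : ℕ) (t : Fin m → ℝ)
    (ht : Monotone t) (f g : (Fin m → BT) → ℝ) (hf : ∀ z, (∀ i, z i ∈ trees n) → |f z| ≤ K)
    (hg : ∀ z, (∀ i, z i ∈ trees n) → |g z| ≤ K)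
    (hfg : ∀ z, (∀ i, z i ∈ trees n) → f z ≤ g z) (u : ℝ) (hu : ∀ i, u ≤ t i) :
    ∀ T ∈ trees n, chainExp n a m t f u T ≤ chainExp n a m t g u T := by
  induction m generalizing u with
  | zero =>
    intro T _
    exact hfg _ (fun i => i.elim0)
  | succ m ih =>
    intro T hT
    have hK : 0 ≤ K := by
      have := hf (fun _ => T) (fun _ => hT)
      exact le_trans (abs_nonneg _) this
    unfold chainExp
    refine pois_mono (K := K) hn ha (sub_nonneg.2 (hu 0)) (fun S hS => ?_) (fun S hS => ?_)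
      (fun S hS => ?_) T hT
    · exact chainExp_bound hn ha m (Fin.tail t) (poiC_tail_mono ht) (fun z => f (Fin.cons S z))
        (fun z hz => hf _ (poiC_cons_mem hS hz)) hK (t 0) (fun i => ht (Fin.zero_le _)) S hS
    · exact chainExp_bound hn ha m (Fin.tail t) (poiC_tail_mono ht) (fun z => g (Fin.cons S z))
        (fun z hz => hg _ (poiC_cons_mem hS hz)) hK (t 0) (fun i => ht (Fin.zero_le _)) S hS
    · exact ih (Fin.tail t) (poiC_tail_mono ht) (fun z => f (Fin.cons S z))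
        (fun z => g (Fin.cons S z))
        (fun z hz => hf _ (poiC_cons_mem hS hz)) (fun z hz => hg _ (poiC_cons_mem hS hz))
        (fun z hz => hfg _ (poiC_cons_mem hS hz)) (t 0) (fun i => ht (Fin.zero_le _)) S hS

theorem chainExp_add {n : ℕ} (hn : 2 ≤ n) {a : ℝ} (ha : 0 ≤ a) {K : ℝ} (m : ℕ) (t : Fin m → ℝ)
    (ht : Monotone t) (f g : (Fin m → BT) → ℝ) (hf : ∀ z, (∀ i, z i ∈ trees n) → |f z| ≤ K)
    (hg : ∀ z, (∀ i, z i ∈ trees n) → |g z| ≤ K) (u : ℝ) (hu : ∀ i, u ≤ t i) :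
    ∀ T ∈ trees n, chainExp n a m t (fun z => f z + g z) u T =
      chainExp n a m t f u T + chainExp n a m t g u T := by
  induction m generalizing u with
  | zero =>
    intro T _
    rfl
  | succ m ih =>
    intro T hT
    have hK : 0 ≤ K := by
      have := hf (fun _ => T) (fun _ => hT)
      exact le_trans (abs_nonneg _) this
    unfold chainExp
    rw [← pois_add (K := K) hn ha (sub_nonneg.2 (hu 0)) (fun S hS => ?_) (fun S hS => ?_) T hT]
    · refine poiC_pois_congr hn (fun S hS => ?_) T hT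
      exact ih (Fin.tail t) (poiC_tail_mono ht) (fun z => f (Fin.cons S z))
        (fun z => g (Fin.cons S z))
        (fun z hz => hf _ (poiC_cons_mem hS hz)) (fun z hz => hg _ (poiC_cons_mem hS hz))
        (t 0) (fun i => ht (Fin.zero_le _)) S hS
    · exact chainExp_bound hn ha m (Fin.tail t) (poiC_tail_mono ht) (fun z => f (Fin.cons S z))
        (fun z hz => hf _ (poiC_cons_mem hS hz)) hK (t 0) (fun i => ht (Fin.zero_le _)) S hS
    · exact chainExp_bound hn ha m (Fin.tail t) (poiC_tail_mono ht) (fun z => g (Fin.cons S z))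
        (fun z hz => hg _ (poiC_cons_mem hS hz)) hK (t 0) (fun i => ht (Fin.zero_le _)) S hS

theorem fddExp_mono {n : ℕ} (hn : 2 ≤ n) {a : ℝ} (ha : 0 ≤ a) {K : ℝ} (m : ℕ) (t : Fin m → ℝ)
    (ht : Monotone t) (ht0 : ∀ i, 0 ≤ t i) (f g : (Fin m → BT) → ℝ)
    (hf : ∀ z, (∀ i, z i ∈ trees n) → |f z| ≤ K) (hg : ∀ z, (∀ i, z i ∈ trees n) → |g z| ≤ K)
    (hfg : ∀ z, (∀ i, z i ∈ trees n) → f z ≤ g z) :
    fddExp n a m t f ≤ fddExp n a m t g := by
  unfold fddExp
  exact avg_mono (fun T hT => chainExp_mono hn ha m t ht f g hf hg hfg 0 ht0 T hT)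

end Pool.Agent.ALD
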