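import Pool.Agent.ALD.StepF

/-! Module POIF: the operator pois: bounds, monotonicity, linearity -/

noncomputable section

namespace Pool.Agent.ALD

open BT

/-- iterates of `step` of a function bounded by `K` on `trees n` are bounded by `K` on `trees n` -/
theorem iter_bound {n : ℕ} (hn : 2 ≤ n) {F : BT → ℝ} {K : ℝ} (hF : ∀ T ∈ trees n, |F T| ≤ K)
    (k : ℕ) : ∀ T ∈ trees n, |((step n)^[k] F) T| ≤ K := by
  induction k with
  | zero => exact hF
  | succ k ih =>
    intro T hT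
    rw [Function.iterate_succ_apply']
    have h1 := step_mono hn (F := (step n)^[k] F) (G := fun _ => K)
      (fun S hS => (abs_le.1 (ih S hS)).2) T hT
    have h2 := step_mono hn (F := fun _ => -K) (G := (step n)^[k] F)
      (fun S hS => (abs_le.1 (ih S hS)).1) T hT
    rw [step_const hn K T hT] at h1
    rw [step_const hn (-K) T hT] at h2
    exact abs_le.2 ⟨h2, h1⟩

theorem iter_mono {n : ℕ} (hn : 2 ≤ n) {F G : BT → ℝ} (h : ∀ T ∈ trees n, F T ≤ G T)
    (k : ℕ) : ∀ T ∈ trees n, ((step n)^[k] F) T ≤ ((step n)^[k] G) T := by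
  induction k with
  | zero => exact h
  | succ k ih =>
    intro T hT
    rw [Function.iterate_succ_apply', Function.iterate_succ_apply']
    exact step_mono hn ih T hT

theorem iter_add {n : ℕ} (F G : BT → ℝ) (k : ℕ) (T : BT) :
    ((step n)^[k] (fun S => F S + G S)) T = ((step n)^[k] F) T + ((step n)^[k] G) T := by
  induction k generalizing T with
  | zero => rfl
  | succ k ih =>
    rw [Function.iterate_succ_apply', Function.iterate_succ_apply', Function.iterate_succ_apply']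
    have : ((step n)^[k] (fun S => F S + G S)) = fun S => ((step n)^[k] F) S + ((step n)^[k] G) S :=
      funext ih
    rw [this, step_add]

theorem poiF_hasSum {x : ℝ} : HasSum (fun k : ℕ => Real.exp (-x) * x ^ k / (k.factorial : ℝ)) 1 := by
  have h := (NormedSpace.expSeries_div_hasSum_exp (𝔸 := ℝ) x).mul_left (Real.exp (-x))
  have e : Real.exp (-x) * NormedSpace.exp x = 1 := by
    rw [← Real.exp_eq_exp_ℝ, ← Real.exp_add]
    simp
  rw [e] at h
  have e2 : (fun k : ℕ => Real.exp (-x) * x ^ k / (k.factorial : ℝ)) =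
      fun i => Real.exp (-x) * (x ^ i / (i.factorial : ℝ)) := by
    funext k
    rw [mul_div_assoc]
  rw [e2]
  exact h

theorem poiF_term_nonneg {x : ℝ} (hx : 0 ≤ x) (k : ℕ) :
    0 ≤ Real.exp (-x) * x ^ k / (k.factorial : ℝ) := by positivity

theorem pois_summable {n : ℕ} (hn : 2 ≤ n) {a t : ℝ} (ha : 0 ≤ a) (ht : 0 ≤ t) {F : BT → ℝ} {K : ℝ}
    (hF : ∀ T ∈ trees n, |F T| ≤ K) {T : BT} (hT : T ∈ trees n) :
    Summable (fun k : ℕ => Real.exp (-(a * t)) * (a * t) ^ k / (k.factorial : ℝ) *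
      ((step n)^[k] F) T) := by
  have hx : 0 ≤ a * t := mul_nonneg ha ht
  refine Summable.of_norm_bounded (g := fun k : ℕ =>
    Real.exp (-(a * t)) * (a * t) ^ k / (k.factorial : ℝ) * K) ?_ ?_
  · exact (poiF_hasSum (x := a * t)).summable.mul_right K
  · intro k
    rw [Real.norm_eq_abs, abs_mul, abs_of_nonneg (poiF_term_nonneg hx k)]
    exact mul_le_mul_of_nonneg_left (iter_bound hn hF k T hT) (poiF_term_nonneg hx k)

theorem pois_mono {n : ℕ} (hn : 2 ≤ n) {a t : ℝ} (ha : 0 ≤ a) (ht : 0 ≤ t) {F G : BT → ℝ} {K : ℝ}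
    (hF : ∀ T ∈ trees n, |F T| ≤ K) (hG : ∀ T ∈ trees n, |G T| ≤ K)
    (h : ∀ T ∈ trees n, F T ≤ G T) : ∀ T ∈ trees n, pois n a t F T ≤ pois n a t G T := by
  intro T hT
  unfold pois
  have hx : 0 ≤ a * t := mul_nonneg ha ht
  refine Summable.tsum_le_tsum (fun k => ?_) (pois_summable hn ha ht hF hT)
    (pois_summable hn ha ht hG hT)
  exact mul_le_mul_of_nonneg_left (iter_mono hn h k T hT) (poiF_term_nonneg hx k)

theorem pois_add {n : ℕ} (hn : 2 ≤ n) {a t : ℝ} (ha : 0 ≤ a) (ht : 0 ≤ t) {F G : BT → ℝ} {K : ℝ}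
    (hF : ∀ T ∈ trees n, |F T| ≤ K) (hG : ∀ T ∈ trees n, |G T| ≤ K) :
    ∀ T ∈ trees n, pois n a t (fun S => F S + G S) T = pois n a t F T + pois n a t G T := by
  intro T hT
  unfold pois
  rw [← Summable.tsum_add (pois_summable hn ha ht hF hT) (pois_summable hn ha ht hG hT)]
  refine tsum_congr (fun k => ?_)
  rw [iter_add, mul_add]

theorem poiF_iter_const {n : ℕ} (hn : 2 ≤ n) (c : ℝ) (k : ℕ) :
    ∀ T ∈ trees n, ((step n)^[k] (fun _ => c)) T = c := by
  induction k with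
  | zero => intro T _; rfl
  | succ k ih =>
    intro T hT
    rw [Function.iterate_succ_apply']
    rw [step_congr hn (G := fun _ => c) ih T hT, step_const hn c T hT]

theorem poiF_pois_const {n : ℕ} (hn : 2 ≤ n) {a t : ℝ} (c : ℝ) :
    ∀ T ∈ trees n, pois n a t (fun _ => c) T = c := by
  intro T hT
  unfold pois
  have h1 : (fun k : ℕ => Real.exp (-(a * t)) * (a * t) ^ k / (k.factorial : ℝ) *
      ((step n)^[k] (fun _ => c)) T) =
      fun k : ℕ => Real.exp (-(a * t)) * (a * t) ^ k / (k.factorial : ℝ) * c := by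
    funext k
    rw [poiF_iter_const hn c k T hT]
  rw [h1]
  have h2 := (poiF_hasSum (x := a * t)).mul_right c
  rw [one_mul] at h2
  exact h2.tsum_eq

theorem pois_bound {n : ℕ} (hn : 2 ≤ n) {a t : ℝ} (ha : 0 ≤ a) (ht : 0 ≤ t) {F : BT → ℝ} {K : ℝ}
    (hF : ∀ T ∈ trees n, |F T| ≤ K) : ∀ T ∈ trees n, |pois n a t F T| ≤ K := by
  intro T hT
  have hK : 0 ≤ K := le_trans (abs_nonneg _) (hF T hT)
  have hc : ∀ c : ℝ, |c| ≤ K → ∀ S ∈ trees n, |(fun _ : BT => c) S| ≤ K := fun c hc _ _ => hc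
  have h1 := pois_mono hn ha ht hF (hc K (by rw [abs_of_nonneg hK]))
    (fun S hS => (abs_le.1 (hF S hS)).2) T hT
  have h2 := pois_mono hn ha ht (hc (-K) (by rw [abs_neg, abs_of_nonneg hK])) hF
    (fun S hS => (abs_le.1 (hF S hS)).1) T hT
  rw [poiF_pois_const hn K T hT] at h1
  rw [poiF_pois_const hn (-K) T hT] at h2
  exact abs_le.2 ⟨h2, h1⟩

end Pool.Agent.ALD
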