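import Pool.Agent.ALD.PolF
import Pool.Agent.ALD.PolV
import Pool.Agent.ALD.StepF

/-! Module POLA: second moment of the averaged test function -/

noncomputable section

namespace Pool.Agent.ALD

open BT

theorem polA_avg_zero (n : ℕ) : avg n (fun _ => (0 : ℝ)) = 0 := by
  have h := avg_mul_left (n := n) (0 : ℝ) (fun _ => (0 : ℝ))
  simpa using h

theorem polA_avg_sum {ι : Type*} (n : ℕ) (s : Finset ι) (F : ι → BT → ℝ) :
    avg n (fun T => ∑ i ∈ s, F i T) = ∑ i ∈ s, avg n (F i) := by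
  classical
  induction s using Finset.induction_on with
  | empty => simpa using polA_avg_zero n
  | insert a s ha ih =>
    rw [Finset.sum_insert ha, ← ih, ← avg_add]
    congr 1
    funext T
    rw [Finset.sum_insert ha]

/-- `(Σ_I f_I)² ≤ n^k Σ_I f_I²` (Cauchy-Schwarz, at most `n^k` tuples) and `avg_fT_sq` -/
theorem avg_FT_sq {k n m : ℕ} {ε : ℝ} (hε : 0 < ε) (hk : 3 ≤ k) (hkn : k ≤ n) (hm : 1 ≤ m)
    (hL : 1 ≤ Real.log ((n : ℝ) / (2 * m))) {A A' : Finset (Fin k)} (hA : A.Nonempty)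
    (hA' : A'.Nonempty) (hAA : A ≠ A') :
    avg n (fun T => FT n m k ε A A' T ^ 2) ≤
      (ε ^ (2 * k))⁻¹ * (128 * k / Real.log ((n : ℝ) / (2 * m)) ^ 2) := by
  have hn : (0 : ℝ) < n := by
    have : 0 < n := by omega
    exact_mod_cast this
  have hεn : 0 < ε * n := mul_pos hε hn
  set P : Finset (Fin k → ℕ) := Fintype.piFinset (fun _ : Fin k => Finset.range n) with hP
  set g : (Fin k → ℕ) → BT → ℝ := fun I T =>
    ind (fun I : Fin k → ℕ => Function.Injective I) I * fT n m k I A A' T with hg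
  set D : ℝ := 128 * k / Real.log ((n : ℝ) / (2 * m)) ^ 2 with hD
  have hD0 : 0 ≤ D := by positivity
  have hcard : (P.card : ℝ) = (n : ℝ) ^ k := by
    rw [hP, Fintype.card_piFinset]
    simp
  have h1 : ∀ I ∈ P, avg n (fun T => g I T ^ 2) ≤ D := by
    intro I hI
    have hIn : ∀ j, I j < n := fun j => Finset.mem_range.1 (Fintype.mem_piFinset.1 hI j)
    by_cases hinj : Function.Injective I
    · have h2 : (fun T => g I T ^ 2) = fun T => fT n m k I A A' T ^ 2 := by
        funext T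
        simp only [hg, ind, if_pos hinj, one_mul]
      rw [h2]
      exact avg_fT_sq hk hkn hm hL hA hA' hAA hinj hIn
    · have h2 : (fun T => g I T ^ 2) = fun _ => (0 : ℝ) := by
        funext T
        simp only [hg, ind, if_neg hinj, zero_mul]
        norm_num
      rw [h2, polA_avg_zero]
      exact hD0
  have h3 : avg n (fun T => FT n m k ε A A' T ^ 2) ≤
      avg n (fun T => (((ε * n) ^ k)⁻¹ ^ 2 * (n : ℝ) ^ k) * ∑ I ∈ P, g I T ^ 2) := by
    apply avg_mono
    intro T _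
    have h4 : FT n m k ε A A' T = ((ε * n) ^ k)⁻¹ * ∑ I ∈ P, g I T := rfl
    rw [h4, mul_pow, mul_assoc]
    apply mul_le_mul_of_nonneg_left _ (by positivity)
    rw [← hcard]
    exact sq_sum_le_card_mul_sum_sq
  refine h3.trans ?_
  rw [avg_mul_left, polA_avg_sum]
  have h5 : ∑ I ∈ P, avg n (fun T => g I T ^ 2) ≤ (n : ℝ) ^ k * D := by
    have h6 := Finset.sum_le_card_nsmul P _ D h1
    rw [nsmul_eq_mul, hcard] at h6
    exact h6
  calc (((ε * n) ^ k)⁻¹ ^ 2 * (n : ℝ) ^ k) * ∑ I ∈ P, avg n (fun T => g I T ^ 2)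
      ≤ (((ε * n) ^ k)⁻¹ ^ 2 * (n : ℝ) ^ k) * ((n : ℝ) ^ k * D) :=
        mul_le_mul_of_nonneg_left h5 (by positivity)
    _ = (ε ^ (2 * k))⁻¹ * D := by
        rw [mul_pow, mul_comm 2 k, pow_mul]
        field_simp

end Pool.Agent.ALD
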