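import Mathlib

/-! Module POLL: the logarithmic test function -/

noncomputable section

namespace Pool.Agent.ALD

/-- `1` for `y ≤ m`, decreasing like a logarithm, `0` for `y ≥ n - m` -/
def Lam (n m y : ℕ) : ℝ :=
  max 0 (min 1 (Real.log ((n : ℝ) / (y + m)) / Real.log ((n : ℝ) / (2 * m))))

theorem Lam_nonneg (n m y : ℕ) : 0 ≤ Lam n m y := le_max_left _ _

theorem Lam_le_one (n m y : ℕ) : Lam n m y ≤ 1 := max_le zero_le_one (min_le_left _ _)

theorem Lam_eq_one {n m y : ℕ} (hm : 1 ≤ m) (hn : 2 * m < n) (hy : y ≤ m) : Lam n m y = 1 := by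
  have hm' : (1 : ℝ) ≤ m := by exact_mod_cast hm
  have hn' : 2 * (m : ℝ) < n := by exact_mod_cast hn
  have hy' : (y : ℝ) ≤ m := by exact_mod_cast hy
  have hy0 : (0 : ℝ) ≤ y := Nat.cast_nonneg y
  have hL : 0 < Real.log ((n : ℝ) / (2 * m)) := by
    apply Real.log_pos
    rw [lt_div_iff₀ (by linarith)]
    linarith
  have h1 : Real.log ((n : ℝ) / (2 * m)) ≤ Real.log ((n : ℝ) / (y + m)) := by
    apply Real.log_le_log
    · apply div_pos <;> linarith
    · apply div_le_div_of_nonneg_left <;> linarith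
  have h2 : 1 ≤ Real.log ((n : ℝ) / (y + m)) / Real.log ((n : ℝ) / (2 * m)) := by
    rw [le_div_iff₀ hL]
    linarith
  unfold Lam
  rw [min_eq_left h2]
  exact max_eq_right zero_le_one

theorem polL_lip (a b : ℝ) : |max 0 (min 1 a) - max 0 (min 1 b)| ≤ |a - b| := by
  refine (abs_max_sub_max_le_max 0 (min 1 a) 0 (min 1 b)).trans ?_
  rw [sub_zero, abs_zero]
  refine max_le (abs_nonneg _) ?_
  refine (abs_min_sub_min_le_max 1 a 1 b).trans ?_
  rw [sub_self, abs_zero]
  exact max_le (abs_nonneg _) le_rfl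

theorem polL_harm {m : ℕ} (hm : 1 ≤ m) (n : ℕ) :
    ∑ y ∈ Finset.range (n + 1), 1 / ((y : ℝ) + m) ≤ 1 + Real.log (((n : ℝ) + m) / m) := by
  have hm' : (1 : ℝ) ≤ m := by exact_mod_cast hm
  have hm0 : (m : ℝ) ≠ 0 := by linarith
  induction n with
  | zero =>
    simp only [zero_add, Finset.range_one, Finset.sum_singleton, Nat.cast_zero]
    rw [div_self hm0, Real.log_one, add_zero]
    rw [div_le_one (by linarith)]
    exact hm'
  | succ n ih =>
    rw [Finset.sum_range_succ]
    have hn0 : (0 : ℝ) ≤ n := Nat.cast_nonneg n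
    have hx : (0 : ℝ) < ((n : ℝ) + 1 + m) / (n + m) := by apply div_pos <;> linarith
    have h1 := Real.one_sub_inv_le_log_of_pos hx
    have h2 : 1 - (((n : ℝ) + 1 + m) / (n + m))⁻¹ = 1 / ((n : ℝ) + 1 + m) := by
      have ha : (n : ℝ) + 1 + m ≠ 0 := by linarith
      have hb : (n : ℝ) + m ≠ 0 := by linarith
      field_simp
      ring
    have h3 : Real.log (((n : ℝ) + 1 + m) / m) =
        Real.log (((n : ℝ) + m) / m) + Real.log (((n : ℝ) + 1 + m) / (n + m)) := by
      rw [← Real.log_mul]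
      · congr 1
        have hb : (n : ℝ) + m ≠ 0 := by linarith
        field_simp
      · apply ne_of_gt
        apply div_pos <;> linarith
      · exact ne_of_gt hx
    push_cast
    rw [h3]
    rw [h2] at h1
    linarith

/-- with `L = log (n / (2m))`: `|Lam (y+1) - Lam y| ≤ log ((y+1+m)/(y+m)) / L ≤ 1 / ((y + m) L)`;
`(y + 1) / (y + m)² ≤ 1 / (y + m)` and `Σ_{y ≤ n} 1/(y+m) ≤ 1/m + log ((n + m)/m) ≤ 1 + L + log 3`;
use `1 ≤ L`. -/
theorem sum_Lam_diff {n m : ℕ} (hm : 1 ≤ m) (hL : 1 ≤ Real.log ((n : ℝ) / (2 * m))) :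
    ∑ y ∈ Finset.range (n + 1), ((y : ℝ) + 1) * (Lam n m (y + 1) - Lam n m y) ^ 2 ≤
      4 / Real.log ((n : ℝ) / (2 * m)) := by
  set L := Real.log ((n : ℝ) / (2 * m)) with hLdef
  have hm' : (1 : ℝ) ≤ m := by exact_mod_cast hm
  have hn : (2 * (m : ℝ)) < n := by
    by_contra hcon
    push Not at hcon
    have h1 : (n : ℝ) / (2 * m) ≤ 1 := by
      rw [div_le_one (by linarith)]
      exact hcon
    have h2 : L ≤ 0 := by
      apply Real.log_nonpos _ h1
      apply div_nonneg (Nat.cast_nonneg n) (by linarith)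
    linarith
  have hterm : ∀ y ∈ Finset.range (n + 1),
      ((y : ℝ) + 1) * (Lam n m (y + 1) - Lam n m y) ^ 2 ≤ 1 / L ^ 2 * (1 / ((y : ℝ) + m)) := by
    intro y _
    have hy0 : (0 : ℝ) ≤ y := Nat.cast_nonneg y
    have hym : (0 : ℝ) < (y : ℝ) + m := by linarith
    have hym1 : (0 : ℝ) < (y : ℝ) + 1 + m := by linarith
    have h1 : |Lam n m (y + 1) - Lam n m y| ≤ 1 / ((y : ℝ) + m) / L := by
      unfold Lam
      refine (polL_lip _ _).trans ?_
      rw [← hLdef, ← sub_div, abs_div, abs_of_pos (by linarith : (0 : ℝ) < L)]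
      apply div_le_div_of_nonneg_right _ (by linarith)
      have e1 : Real.log ((n : ℝ) / (((y + 1 : ℕ) : ℝ) + m)) - Real.log ((n : ℝ) / (y + m)) =
          - Real.log (((y : ℝ) + 1 + m) / (y + m)) := by
        push_cast
        rw [Real.log_div (by linarith) (by linarith), Real.log_div (by linarith) (by linarith),
          Real.log_div (by linarith) (by linarith)]
        ring
      rw [e1, abs_neg]
      have h2 : 0 ≤ Real.log (((y : ℝ) + 1 + m) / (y + m)) := by
        apply Real.log_nonneg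
        rw [le_div_iff₀ hym]
        linarith
      rw [abs_of_nonneg h2]
      have h3 := Real.log_le_sub_one_of_pos (div_pos hym1 hym)
      have h4 : ((y : ℝ) + 1 + m) / (y + m) - 1 = 1 / ((y : ℝ) + m) := by
        field_simp
        ring
      linarith
    have h5 : (Lam n m (y + 1) - Lam n m y) ^ 2 ≤ (1 / ((y : ℝ) + m) / L) ^ 2 := by
      rw [← sq_abs]
      exact pow_le_pow_left₀ (abs_nonneg _) h1 2
    calc ((y : ℝ) + 1) * (Lam n m (y + 1) - Lam n m y) ^ 2
        ≤ ((y : ℝ) + m) * (1 / ((y : ℝ) + m) / L) ^ 2 := by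
          apply mul_le_mul _ h5 (sq_nonneg _) (by linarith)
          linarith
      _ = 1 / L ^ 2 * (1 / ((y : ℝ) + m)) := by
          have : L ≠ 0 := by linarith
          field_simp
  have hsum := Finset.sum_le_sum hterm
  rw [← Finset.mul_sum] at hsum
  refine hsum.trans ?_
  have hh := polL_harm hm n
  have hlog : Real.log (((n : ℝ) + m) / m) ≤ L + 2 := by
    have e1 : Real.log (((n : ℝ) + m) / m) ≤ Real.log ((n : ℝ) / (2 * m) * 3) := by
      apply Real.log_le_log
      · apply div_pos <;> linarith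
      · rw [div_mul_eq_mul_div, div_le_div_iff₀ (by linarith) (by linarith)]
        nlinarith
    have e2 : Real.log ((n : ℝ) / (2 * m) * 3) = L + Real.log 3 := by
      rw [Real.log_mul _ (by norm_num)]
      apply ne_of_gt
      apply div_pos <;> linarith
    have e3 : Real.log 3 ≤ 2 := by
      have := Real.log_le_sub_one_of_pos (by norm_num : (0 : ℝ) < 3)
      linarith
    linarith
  have hfin : ∑ y ∈ Finset.range (n + 1), 1 / ((y : ℝ) + m) ≤ 4 * L := by
    linarith
  calc 1 / L ^ 2 * ∑ y ∈ Finset.range (n + 1), 1 / ((y : ℝ) + m)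
      ≤ 1 / L ^ 2 * (4 * L) := by
        apply mul_le_mul_of_nonneg_left hfin
        positivity
    _ = 4 / L := by
        have : L ≠ 0 := by linarith
        field_simp

end Pool.Agent.ALD
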