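import Pool.Agent.ALD.PolL

/-! Module POLQ: the logarithmic test function, sum of squares -/

noncomputable section

namespace Pool.Agent.ALD

theorem polQ_sqrt_sum (n : ℕ) :
    ∑ y ∈ Finset.range (n + 1), 1 / Real.sqrt ((y : ℝ) + 1) ≤ 2 * Real.sqrt ((n : ℝ) + 1) := by
  induction n with
  | zero => simp
  | succ n ih =>
    rw [Finset.sum_range_succ]
    have hn0 : (0 : ℝ) ≤ n := Nat.cast_nonneg n
    push_cast
    set a := Real.sqrt ((n : ℝ) + 1) with ha
    set b := Real.sqrt ((n : ℝ) + 1 + 1) with hb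
    have ha2 : a ^ 2 = (n : ℝ) + 1 := Real.sq_sqrt (by linarith)
    have hb2 : b ^ 2 = (n : ℝ) + 1 + 1 := Real.sq_sqrt (by linarith)
    have hb0 : 0 < b := Real.sqrt_pos.mpr (by linarith)
    have ha0 : 0 ≤ a := Real.sqrt_nonneg _
    have h1 : 1 / b ≤ 2 * (b - a) := by
      rw [div_le_iff₀ hb0]
      nlinarith [sq_nonneg (b - a)]
    linarith

theorem polQ_log {x : ℝ} (hx : 1 ≤ x) : Real.log x ^ 2 ≤ 16 * Real.sqrt x := by
  have hx0 : 0 < x := by linarith
  set s := Real.sqrt (Real.sqrt x) with hs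
  have hs1 : 0 < s := Real.sqrt_pos.mpr (Real.sqrt_pos.mpr hx0)
  have hs2 : s ^ 2 = Real.sqrt x := Real.sq_sqrt (Real.sqrt_nonneg _)
  have hs4 : s ^ 4 = x := by
    have : s ^ 4 = (s ^ 2) ^ 2 := by ring
    rw [this, hs2, Real.sq_sqrt hx0.le]
  have hl : Real.log x = 4 * Real.log s := by
    rw [← hs4, Real.log_pow]
    norm_num
  have h1 := Real.log_le_sub_one_of_pos hs1
  have h2 : 0 ≤ Real.log x := Real.log_nonneg hx
  have h3 : 0 ≤ Real.log s := by linarith
  have h4 : Real.log s ≤ s := by linarith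
  rw [hl, ← hs2]
  nlinarith

/-- `Lam n m y ≤ max 0 (log (n / (y + m))) / L` and `log x ≤ 4 x^{1/4}`, so for `y ≤ n`
`Lam² ≤ 16 √(n / (y + m)) / L²`; `Σ_{y ≤ n} 1 / √(y + 1) ≤ 2 √(n + 1)`. -/
theorem sum_Lam_sq {n m : ℕ} (hm : 1 ≤ m) (hL : 1 ≤ Real.log ((n : ℝ) / (2 * m))) :
    ∑ y ∈ Finset.range (n + 1), Lam n m y ^ 2 ≤ 64 * n / Real.log ((n : ℝ) / (2 * m)) ^ 2 := by
  set L := Real.log ((n : ℝ) / (2 * m)) with hLdef
  have hm' : (1 : ℝ) ≤ m := by exact_mod_cast hm
  have hL0 : 0 < L := by linarith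
  have hn : (2 * (m : ℝ)) < n := by
    by_contra hcon
    push Not at hcon
    have h1 : (n : ℝ) / (2 * m) ≤ 1 := by
      rw [div_le_one (by linarith)]
      exact hcon
    have h2 : L ≤ 0 := by
      apply Real.log_nonpos _ h1
      apply div_nonneg (Nat.cast_nonneg n) (by linarith)
    linarith
  have hn0 : (0 : ℝ) < n := by linarith
  have hterm : ∀ y ∈ Finset.range (n + 1),
      Lam n m y ^ 2 ≤ 16 * Real.sqrt n / L ^ 2 * (1 / Real.sqrt ((y : ℝ) + 1)) := by
    intro y _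
    have hy0 : (0 : ℝ) ≤ y := Nat.cast_nonneg y
    have hym : (0 : ℝ) < (y : ℝ) + m := by linarith
    have hs1 : 0 < Real.sqrt ((y : ℝ) + 1) := Real.sqrt_pos.mpr (by linarith)
    rcases le_or_gt 1 ((n : ℝ) / (y + m)) with hx | hx
    · have hlog0 : 0 ≤ Real.log ((n : ℝ) / (y + m)) := Real.log_nonneg hx
      have h1 : Lam n m y ≤ Real.log ((n : ℝ) / (y + m)) / L := by
        unfold Lam
        apply max_le
        · exact div_nonneg hlog0 hL0.le
        · exact min_le_right _ _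
      have h2 : Lam n m y ^ 2 ≤ (Real.log ((n : ℝ) / (y + m)) / L) ^ 2 :=
        pow_le_pow_left₀ (Lam_nonneg n m y) h1 2
      refine h2.trans ?_
      rw [div_pow]
      have h3 := polQ_log hx
      have h4 : Real.sqrt ((n : ℝ) / (y + m)) ≤ Real.sqrt n * (1 / Real.sqrt ((y : ℝ) + 1)) := by
        rw [Real.sqrt_div hn0.le, mul_one_div]
        apply div_le_div_of_nonneg_left (Real.sqrt_nonneg _) hs1
        apply Real.sqrt_le_sqrt
        linarith
      calc Real.log ((n : ℝ) / (y + m)) ^ 2 / L ^ 2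
          ≤ 16 * (Real.sqrt n * (1 / Real.sqrt ((y : ℝ) + 1))) / L ^ 2 := by
            apply div_le_div_of_nonneg_right _ (by positivity)
            linarith
        _ = 16 * Real.sqrt n / L ^ 2 * (1 / Real.sqrt ((y : ℝ) + 1)) := by
            ring
    · have hlog0 : Real.log ((n : ℝ) / (y + m)) ≤ 0 := by
        apply Real.log_nonpos
        · apply div_nonneg hn0.le hym.le
        · exact hx.le
      have h1 : Lam n m y = 0 := by
        unfold Lam
        apply max_eq_left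
        apply (min_le_right _ _).trans
        exact div_nonpos_of_nonpos_of_nonneg hlog0 hL0.le
      rw [h1]
      have : (0 : ℝ) ^ 2 = 0 := by norm_num
      rw [this]
      positivity
  have hsum := Finset.sum_le_sum hterm
  rw [← Finset.mul_sum] at hsum
  refine hsum.trans ?_
  have h5 := polQ_sqrt_sum n
  have h6 : Real.sqrt ((n : ℝ) + 1) ≤ 2 * Real.sqrt n := by
    have : (n : ℝ) + 1 ≤ 2 ^ 2 * n := by linarith
    calc Real.sqrt ((n : ℝ) + 1) ≤ Real.sqrt (2 ^ 2 * n) := Real.sqrt_le_sqrt this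
      _ = 2 * Real.sqrt n := by
        rw [Real.sqrt_mul (by norm_num), Real.sqrt_sq (by norm_num)]
  have h7 : Real.sqrt (n : ℝ) * Real.sqrt n = n := Real.mul_self_sqrt hn0.le
  calc 16 * Real.sqrt n / L ^ 2 * ∑ y ∈ Finset.range (n + 1), 1 / Real.sqrt ((y : ℝ) + 1)
      ≤ 16 * Real.sqrt n / L ^ 2 * (4 * Real.sqrt n) := by
        apply mul_le_mul_of_nonneg_left _ (by positivity)
        linarith
    _ = 64 * (Real.sqrt n * Real.sqrt n) / L ^ 2 := by ring
    _ = 64 * n / L ^ 2 := by rw [h7]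

end Pool.Agent.ALD
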