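import Pool.Agent.ALD.PolG
import Pool.Agent.ALD.PolL
import Pool.Agent.ALD.PolQ

/-! Module POLE: second moment of the test function for the labels 0, ..., k - 1 -/

noncomputable section

namespace Pool.Agent.ALD

open BT

/-- the test function for the marked labels `I` and the two edges with traces `A`, `A'` -/
def fPol (n m : ℕ) (I A A' : Finset ℕ) (T : BT) : ℝ :=
  ind (fun T => HasTr I A T ∧ HasTr I A' T) T * Lam n m (Y I A T + Y I A' T)

theorem polE_avg_sum {ι : Type*} (n : ℕ) (s : Finset ι) (F : ι → BT → ℝ) :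
    avg n (fun T => ∑ i ∈ s, F i T) = ∑ i ∈ s, avg n (F i) := by
  classical
  induction s using Finset.induction_on with
  | empty =>
    simp only [Finset.sum_empty]
    unfold avg
    simp
  | insert a s ha ih =>
    simp only [Finset.sum_insert ha]
    rw [avg_add, ih]

/-- expand a function of the total mass over the values of the mass -/
theorem polE_expand {k n : ℕ} (g : ℕ → ℝ) {A A' : Finset ℕ} {T : BT}
    (hT : Y (Finset.range k) A T + Y (Finset.range k) A' T ≤ n) :
    ind (fun T => HasTr (Finset.range k) A T ∧ HasTr (Finset.range k) A' T) T *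
        g (Y (Finset.range k) A T + Y (Finset.range k) A' T) =
      ∑ y ∈ Finset.range (n + 1), g y * ind (polGPr k A A' y) T := by
  by_cases h : HasTr (Finset.range k) A T ∧ HasTr (Finset.range k) A' T
  · rw [polG_ind_pos (p := fun T => HasTr (Finset.range k) A T ∧ HasTr (Finset.range k) A' T) h,
      one_mul]
    rw [Finset.sum_eq_single (Y (Finset.range k) A T + Y (Finset.range k) A' T)]
    · rw [polG_ind_pos (show polGPr k A A' _ T from ⟨h.1, h.2, rfl⟩), mul_one]
    · intro b _ hb
      rw [polG_ind_neg (show ¬ polGPr k A A' b T from fun hh => hb hh.2.2.symm), mul_zero]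
    · intro hh
      exfalso
      apply hh
      simp only [Finset.mem_range]
      omega
  · rw [polG_ind_neg (p := fun T => HasTr (Finset.range k) A T ∧ HasTr (Finset.range k) A' T) h,
      zero_mul]
    symm
    apply Finset.sum_eq_zero
    intro y _
    rw [polG_ind_neg (show ¬ polGPr k A A' y T from fun hh => h ⟨hh.1, hh.2.1⟩), mul_zero]

/-- sum over the possible values `y ≤ n` of `Y + Y'` (`pair_le`), `pair_law`, `sum_Lam_sq`; note
`(2k - 3) / (2n - 3) ≤ 2 k / n` -/
theorem avg_fPol_sq {k n m : ℕ} (hk : 3 ≤ k) (hkn : k ≤ n) (hm : 1 ≤ m)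
    (hL : 1 ≤ Real.log ((n : ℝ) / (2 * m))) {A A' : Finset ℕ} (hA : A.Nonempty)
    (hA' : A'.Nonempty) (hAA : A ≠ A') :
    avg n (fun T => fPol n m (Finset.range k) A A' T ^ 2) ≤
      128 * k / Real.log ((n : ℝ) / (2 * m)) ^ 2 := by
  have hk' : (3 : ℝ) ≤ k := by exact_mod_cast hk
  have hkn' : (k : ℝ) ≤ n := by exact_mod_cast hkn
  have h1 : avg n (fun T => fPol n m (Finset.range k) A A' T ^ 2) =
      avg n (fun T => ∑ y ∈ Finset.range (n + 1), Lam n m y ^ 2 * ind (polGPr k A A' y) T) := by
    apply avg_congr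
    intro T hT
    have hle := pair_le hT hA hA' hAA (I := Finset.range k) (by
      intro a ha
      simp only [Finset.mem_range] at ha ⊢
      omega)
    have h2 := polE_expand (k := k) (n := n) (fun y => Lam n m y ^ 2) (A := A) (A' := A') (T := T)
      (by omega)
    rw [← h2]
    unfold fPol
    rw [mul_pow]
    congr 1
    by_cases h : HasTr (Finset.range k) A T ∧ HasTr (Finset.range k) A' T
    · rw [polG_ind_pos (p := fun T => HasTr (Finset.range k) A T ∧ HasTr (Finset.range k) A' T) h,
        one_pow]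
    · rw [polG_ind_neg (p := fun T => HasTr (Finset.range k) A T ∧ HasTr (Finset.range k) A' T) h]
      norm_num
  rw [h1, polE_avg_sum]
  have h3 : ∀ y ∈ Finset.range (n + 1),
      avg n (fun T => Lam n m y ^ 2 * ind (polGPr k A A' y) T) ≤
        Lam n m y ^ 2 * ((2 * (k : ℝ) - 3) / (2 * (n : ℝ) - 3)) := by
    intro y _
    rw [avg_mul_left]
    exact mul_le_mul_of_nonneg_left (pair_law hk hkn hA hA' hAA y) (sq_nonneg _)
  refine (Finset.sum_le_sum h3).trans ?_
  rw [← Finset.sum_mul]
  have h4 := sum_Lam_sq hm hL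
  have h5 : (2 * (k : ℝ) - 3) / (2 * (n : ℝ) - 3) ≤ 2 * k / n := by
    rw [div_le_div_iff₀ (by linarith) (by linarith)]
    nlinarith
  have h6 : (0 : ℝ) ≤ (2 * (k : ℝ) - 3) / (2 * (n : ℝ) - 3) := by
    apply div_nonneg <;> linarith
  have hL0 : 0 < Real.log ((n : ℝ) / (2 * m)) := by linarith
  calc (∑ y ∈ Finset.range (n + 1), Lam n m y ^ 2) * ((2 * (k : ℝ) - 3) / (2 * (n : ℝ) - 3))
      ≤ (64 * n / Real.log ((n : ℝ) / (2 * m)) ^ 2) * (2 * k / n) := by
        apply mul_le_mul h4 h5 h6
        positivity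
    _ = 128 * k / Real.log ((n : ℝ) / (2 * m)) ^ 2 := by
        have : (n : ℝ) ≠ 0 := by linarith
        field_simp
        ring

end Pool.Agent.ALD
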