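import Pool.Agent.ALD.PolM

/-! Module POLF: the event that many tuples of labels see two light edges, and its test function -/

noncomputable section

namespace Pool.Agent.ALD

open BT

/-- the tuple `I` of distinct labels sees two edges, given by the sets of indices `A` and `A'`, with total
mass at most `m` -/
def Sees (m k : ℕ) (A A' : Finset (Fin k)) (T : BT) (I : Fin k → ℕ) : Prop :=
  Function.Injective I ∧ HasTr (Finset.univ.image I) (A.image I) T ∧
    HasTr (Finset.univ.image I) (A'.image I) T ∧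
    Y (Finset.univ.image I) (A.image I) T + Y (Finset.univ.image I) (A'.image I) T ≤ m

/-- at least `(ε n)^k` tuples see two such edges -/
def ManyTup (n m k : ℕ) (ε : ℝ) (A A' : Finset (Fin k)) (T : BT) : Prop :=
  ∃ S : Finset (Fin k → ℕ), (∀ I ∈ S, (∀ j, I j < n) ∧ Sees m k A A' T I) ∧
    (ε * n) ^ k ≤ (S.card : ℝ)

/-- the averaged test function: sum over the injective tuples with values in `range n` -/
def FT (n m k : ℕ) (ε : ℝ) (A A' : Finset (Fin k)) (T : BT) : ℝ :=
  ((ε * n) ^ k)⁻¹ * ∑ I ∈ Fintype.piFinset (fun _ : Fin k => Finset.range n),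
    ind (fun I : Fin k → ℕ => Function.Injective I) I * fT n m k I A A' T

/-- `fT = 1` for the tuples of `S` (`Lam_eq_one`) and `fT ≥ 0` -/
theorem one_le_FT {n m k : ℕ} {ε : ℝ} (hε : 0 < ε) (hn : 1 ≤ n) (hm : 1 ≤ m) (hmn : 2 * m < n)
    {A A' : Finset (Fin k)} {T : BT} (h : ManyTup n m k ε A A' T) : 1 ≤ FT n m k ε A A' T := by
  obtain ⟨S, hS, hcard⟩ := h
  have hn' : (0 : ℝ) < n := by exact_mod_cast hn
  have hεn : 0 < (ε * n) ^ k := pow_pos (mul_pos hε hn') k
  have hval : ∀ I ∈ S, ind (fun I : Fin k → ℕ => Function.Injective I) I * fT n m k I A A' T = 1 := by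
    intro I hI
    obtain ⟨_, hinj, hA, hA', hY⟩ := hS I hI
    simp only [ind, fT, fPol, if_pos hinj, if_pos (And.intro hA hA'), Lam_eq_one hm hmn hY, mul_one]
  have hsub : S ⊆ Fintype.piFinset (fun _ : Fin k => Finset.range n) := by
    intro I hI
    rw [Fintype.mem_piFinset]
    intro j
    exact Finset.mem_range.2 ((hS I hI).1 j)
  have hnonneg : ∀ I : Fin k → ℕ,
      0 ≤ ind (fun I : Fin k → ℕ => Function.Injective I) I * fT n m k I A A' T := by
    intro I
    apply mul_nonneg _ (fT_nonneg n m k I A A' T)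
    unfold ind
    split_ifs <;> norm_num
  have h1 : (S.card : ℝ) ≤ ∑ I ∈ Fintype.piFinset (fun _ : Fin k => Finset.range n),
      ind (fun I : Fin k → ℕ => Function.Injective I) I * fT n m k I A A' T := by
    calc (S.card : ℝ) = ∑ I ∈ S,
          ind (fun I : Fin k → ℕ => Function.Injective I) I * fT n m k I A A' T := by
          rw [Finset.sum_congr rfl hval]
          simp
      _ ≤ _ := Finset.sum_le_sum_of_subset_of_nonneg hsub (fun I _ _ => hnonneg I)
  unfold FT
  rw [inv_mul_eq_div, le_div_iff₀ hεn, one_mul]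
  exact hcard.trans h1

end Pool.Agent.ALD
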