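import Pool.Agent.ALD.PolY
import Pool.Agent.ALD.TrCh

/-! Module POLH: the sum of two masses -/

noncomputable section

namespace Pool.Agent.ALD

open BT

theorem polH_Y_zero {I A : Finset ℕ} {T : BT} (hA : A.Nonempty) (h : tr I T = ∅) :
    Y I A T = 0 := by
  apply Y_eq_zero hA
  intro hh
  have h1 := hasTr_subset hh
  rw [h] at h1
  exact hA.ne_empty (Finset.subset_empty.1 h1)

theorem polH_aux {I A A' : Finset ℕ} (hA : A.Nonempty) (hA' : A'.Nonempty) (hAA : A ≠ A') (T : BT)
    (hT : T.labs.Nodup) : Y I A T + Y I A' T + (tr I T).card ≤ T.size := by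
  induction T with
  | leaf a =>
    have h1 : (tr I (leaf a)).card ≤ 1 := by
      have h2 : tr I (leaf a) ⊆ {a} := by
        intro x hx
        simp only [tr, BT.labs, List.mem_singleton, Finset.mem_filter] at hx
        simp [hx.2]
      simpa using Finset.card_le_card h2
    show 0 + 0 + (tr I (leaf a)).card ≤ 1
    omega
  | node l r ihl ihr =>
    have hd := tr_disjoint (I := I) hT
    have hT' : (l.labs ++ r.labs).Nodup := hT
    have hl := ihl (List.Nodup.of_append_left hT')
    have hr := ihr (List.Nodup.of_append_right hT')
    have hc : (tr I (node l r)).card = (tr I l).card + (tr I r).card := by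
      rw [tr_node, Finset.card_union_of_disjoint hd]
    have hY : ∀ B : Finset ℕ, Y I B (node l r) =
        (if tr I l = B ∧ tr I r = ∅ then r.size else 0) +
        (if tr I r = B ∧ tr I l = ∅ then l.size else 0) + Y I B l + Y I B r := fun B => rfl
    have hsz : (node l r).size = l.size + r.size := rfl
    rw [hY, hY, hc, hsz]
    have e1 : ∀ {B : Finset ℕ}, B.Nonempty → ¬ ((∅ : Finset ℕ) = B) := fun hB h =>
      hB.ne_empty h.symm
    by_cases h1 : tr I r = ∅
    · have z1 := polH_Y_zero hA h1
      have z2 := polH_Y_zero hA' h1
      simp only [h1, e1 hA, e1 hA', false_and, if_false, and_true, Finset.card_empty, z1, z2]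
      by_cases h2 : tr I l = A
      · have h3 : ¬ tr I l = A' := fun h => hAA (h2.symm.trans h)
        rw [if_pos h2, if_neg h3]
        omega
      · rw [if_neg h2]
        split_ifs <;> omega
    · by_cases h2 : tr I l = ∅
      · have z1 := polH_Y_zero hA h2
        have z2 := polH_Y_zero hA' h2
        simp only [h1, h2, and_false, if_false, and_true, Finset.card_empty, z1, z2]
        by_cases h4 : tr I r = A
        · have h3 : ¬ tr I r = A' := fun h => hAA (h4.symm.trans h)
          rw [if_pos h4, if_neg h3]
          omega
        · rw [if_neg h4]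
          split_ifs <;> omega
      · simp only [h1, h2, and_false, if_false]
        omega

/-- the masses of two different edges have sum at most `n - k` (they count disjoint sets of leaves
outside `I`); a weaker bound `≤ n` is enough for the sequel -/
theorem pair_le {n : ℕ} {I A A' : Finset ℕ} {T : BT} (hT : T ∈ trees n) (hA : A.Nonempty)
    (hA' : A'.Nonempty) (hAA : A ≠ A') (hI : I ⊆ Finset.range n) :
    Y I A T + Y I A' T + I.card ≤ n := by
  have h1 := polH_aux (I := I) hA hA' hAA T (nodup_labs_of_mem_trees hT)
  rw [size_of_mem_trees hT] at h1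
  have h2 : tr I T = I := by
    unfold tr
    apply Finset.filter_true_of_mem
    intro i hi
    exact (mem_labs_of_mem_trees hT i).2 (Finset.mem_range.1 (hI hi))
  rw [h2] at h1
  exact h1

end Pool.Agent.ALD
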