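import Pool.Agent.ALD.PolP
import Pool.Agent.ALD.StepF
import Pool.Agent.ALD.PolH

/-! Module POLG: the total mass of two edges of the restricted tree has an almost flat law -/

noncomputable section

namespace Pool.Agent.ALD

open BT

theorem polG_ind_pos {α : Type*} {p : α → Prop} {x : α} (h : p x) : ind p x = 1 := by
  unfold ind
  exact if_pos h

theorem polG_ind_neg {α : Type*} {p : α → Prop} {x : α} (h : ¬ p x) : ind p x = 0 := by
  unfold ind
  exact if_neg h

theorem polG_ind_nonneg {α : Type*} (p : α → Prop) (x : α) : 0 ≤ ind p x := by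
  by_cases h : p x
  · rw [polG_ind_pos h]
    exact zero_le_one
  · rw [polG_ind_neg h]

theorem polG_ind_le_one {α : Type*} (p : α → Prop) (x : α) : ind p x ≤ 1 := by
  by_cases h : p x
  · rw [polG_ind_pos h]
  · rw [polG_ind_neg h]
    exact zero_le_one

theorem polG_flatMap {α β : Type*} (l : List α) (f : α → List β) (g : β → ℝ) :
    ((l.flatMap f).map g).sum = (l.map (fun a => ((f a).map g).sum)).sum := by
  induction l with
  | nil => simp
  | cons a l ih => simp [List.flatMap_cons, ih]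

/-- both traces are present and the total mass is `y` -/
def polGPr (k : ℕ) (A A' : Finset ℕ) (y : ℕ) (T : BT) : Prop :=
  HasTr (Finset.range k) A T ∧ HasTr (Finset.range k) A' T ∧
      Y (Finset.range k) A T + Y (Finset.range k) A' T = y

/-- both traces are present and the total mass is `y - 1` -/
def polGRe (k : ℕ) (A A' : Finset ℕ) (y : ℕ) (T : BT) : Prop :=
  HasTr (Finset.range k) A T ∧ HasTr (Finset.range k) A' T ∧
      Y (Finset.range k) A T + Y (Finset.range k) A' T + 1 = y

theorem polG_ins {k n : ℕ} (hkn : k ≤ n) {A A' : Finset ℕ} (hA : A.Nonempty)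
    (hA' : A'.Nonempty) (hAA : A ≠ A') (y : ℕ) {S : BT} (hS : S.labs.Nodup) (hs : S.size = n) :
    ((ins n S).map (ind (polGPr k A A' y))).sum =
      4 * (y : ℝ) * ind (polGRe k A A' y) S +
        (4 * (n : ℝ) - 2 - 4 * ((y : ℝ) + 1)) * ind (polGPr k A A' y) S := by
  have hj : n ∉ Finset.range k := by simp [hkn]
  by_cases hb : HasTr (Finset.range k) A S ∧ HasTr (Finset.range k) A' S
  · have h1 : ((ins n S).map (ind (polGPr k A A' y))) =
        ((ins n S).map (fun T' => (fun z : ℕ => if z = y then (1 : ℝ) else 0)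
          (Y (Finset.range k) A T' + Y (Finset.range k) A' T'))) := by
      apply List.map_congr_left
      intro T' hT'
      by_cases hy : Y (Finset.range k) A T' + Y (Finset.range k) A' T' = y
      · rw [polG_ind_pos ⟨(hasTr_of_mem_ins hj hA hT').2 hb.1, (hasTr_of_mem_ins hj hA' hT').2 hb.2,
          hy⟩]
        simp [hy]
      · rw [polG_ind_neg (fun h => hy h.2.2)]
        simp [hy]
    rw [h1]
    refine (sum_ins_pair hS hj hA hA' hAA hb.1 hb.2
      (fun z : ℕ => if z = y then (1 : ℝ) else 0)).trans ?_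
    rw [hs]
    set W := Y (Finset.range k) A S + Y (Finset.range k) A' S with hW
    have e1 : ((if W + 1 = y then (1 : ℝ) else 0)) = ind (polGRe k A A' y) S := by
      by_cases h : W + 1 = y
      · rw [if_pos h, polG_ind_pos (show polGRe k A A' y S from ⟨hb.1, hb.2, h⟩)]
      · rw [if_neg h, polG_ind_neg (show ¬ polGRe k A A' y S from fun hh => h hh.2.2)]
    have e2 : ((if W = y then (1 : ℝ) else 0)) = ind (polGPr k A A' y) S := by
      by_cases h : W = y
      · rw [if_pos h, polG_ind_pos (show polGPr k A A' y S from ⟨hb.1, hb.2, h⟩)]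
      · rw [if_neg h, polG_ind_neg (show ¬ polGPr k A A' y S from fun hh => h hh.2.2)]
    simp only [← e1, ← e2]
    by_cases h : W + 1 = y
    · have h' : W ≠ y := by omega
      have h'' : (y : ℝ) = (W : ℝ) + 1 := by rw [← h]; push_cast; ring
      simp [h, h', h'']
    · by_cases h' : W = y
      · simp [h']
      · simp [h, h']
  · have h1 : ∀ T' ∈ ins n S, ind (polGPr k A A' y) T' = 0 := by
      intro T' hT'
      apply polG_ind_neg
      intro h
      exact hb ⟨(hasTr_of_mem_ins hj hA hT').1 h.1, (hasTr_of_mem_ins hj hA' hT').1 h.2.1⟩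
    have h2 : ((ins n S).map (ind (polGPr k A A' y))) = (ins n S).map (fun _ => (0 : ℝ)) :=
      List.map_congr_left h1
    rw [h2, polG_ind_neg (fun h => hb ⟨h.1, h.2.1⟩), polG_ind_neg (fun h => hb ⟨h.1, h.2.1⟩)]
    simp

theorem polG_sum_le {l : List BT} {F G : BT → ℝ} (h : ∀ T ∈ l, F T ≤ G T) :
    (l.map F).sum ≤ (l.map G).sum := by
  apply List.sum_le_sum
  exact h

theorem polG_sum_lin (l : List BT) (a b : ℝ) (F G : BT → ℝ) :
    (l.map (fun T => a * F T + b * G T)).sum = a * (l.map F).sum + b * (l.map G).sum := by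
  induction l with
  | nil => simp
  | cons x l ih =>
    simp only [List.map_cons, List.sum_cons, ih]
    ring

theorem polG_count {k : ℕ} (hk : 3 ≤ k) {A A' : Finset ℕ} (hA : A.Nonempty)
    (hA' : A'.Nonempty) (hAA : A ≠ A') (d : ℕ) : ∀ y : ℕ,
    (2 * ((k + d : ℕ) : ℝ) - 3) * ((trees (k + d)).map (ind (polGPr k A A' y))).sum ≤
      (2 * (k : ℝ) - 3) * (trees (k + d)).length := by
  have hk' : (3 : ℝ) ≤ k := by exact_mod_cast hk
  induction d with
  | zero =>
    intro y
    have h1 : ((trees (k + 0)).map (ind (polGPr k A A' y))).sum ≤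
        ((trees (k + 0)).map (fun _ => (1 : ℝ))).sum := by
      apply polG_sum_le
      intro T _
      exact polG_ind_le_one _ _
    have h2 : ((trees (k + 0)).map (fun _ => (1 : ℝ))).sum = (trees (k + 0)).length := by simp
    rw [h2] at h1
    have h3 : (0 : ℝ) ≤ 2 * (k : ℝ) - 3 := by linarith
    simpa using mul_le_mul_of_nonneg_left h1 h3
  | succ d ih =>
    intro y
    obtain ⟨n, hn⟩ : ∃ n, k + d = n + 1 := ⟨k + d - 1, by omega⟩
    have hn2 : k + (d + 1) = n + 2 := by omega
    rw [hn] at ih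
    rw [hn2]
    have hkn : k ≤ n + 1 := by omega
    have hkn' : (k : ℝ) ≤ (n : ℝ) + 1 := by exact_mod_cast hkn
    set N : ℕ → ℝ := fun z => ((trees (n + 1)).map (ind (polGPr k A A' z))).sum with hN
    set R : ℝ := ((trees (n + 1)).map (ind (polGRe k A A' y))).sum with hR
    set L : ℝ := ((trees (n + 1)).length : ℝ) with hLd
    have hL0 : 0 ≤ L := Nat.cast_nonneg _
    have hstep : ((trees (n + 2)).map (ind (polGPr k A A' y))).sum =
        4 * (y : ℝ) * R + (4 * ((n + 1 : ℕ) : ℝ) - 2 - 4 * ((y : ℝ) + 1)) * N y := by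
      have e1 : trees (n + 2) = (trees (n + 1)).flatMap (ins (n + 1)) := rfl
      rw [e1, polG_flatMap, hR, hN, ← polG_sum_lin]
      congr 1
      apply List.map_congr_left
      intro S hS
      exact polG_ins hkn hA hA' hAA y (nodup_labs_of_mem_trees hS) (size_of_mem_trees hS)
    have hlen : ((trees (n + 2)).length : ℝ) = (4 * (n : ℝ) + 2) * L := by
      rw [length_trees_succ]
      push_cast
      ring
    have hzero : ∀ z, n ≤ z + 1 → N z = 0 := by
      intro z hz
      have : ∀ T ∈ trees (n + 1), ind (polGPr k A A' z) T = 0 := by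
        intro T hT
        apply polG_ind_neg
        intro h
        have h1 := pair_le hT hA hA' hAA (I := Finset.range k) (by
          intro a ha
          simp only [Finset.mem_range] at ha ⊢
          omega)
        rw [h.2.2, Finset.card_range] at h1
        omega
      have h2 : ((trees (n + 1)).map (ind (polGPr k A A' z))) =
          (trees (n + 1)).map (fun _ => (0 : ℝ)) := List.map_congr_left this
      rw [hN]
      simp only [h2]
      simp
    have hRz : ∀ z, y = z + 1 → R = N z := by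
      intro z hz
      rw [hR, hN]
      simp only
      congr 1
      apply List.map_congr_left
      intro T _
      by_cases h : polGPr k A A' z T
      · rw [polG_ind_pos h, polG_ind_pos (show polGRe k A A' y T from ⟨h.1, h.2.1, by
          rw [h.2.2]; exact hz.symm⟩)]
      · rw [polG_ind_neg h, polG_ind_neg (show ¬ polGRe k A A' y T from fun hh => h ⟨hh.1, hh.2.1, by
          have := hh.2.2
          omega⟩)]
    rw [hstep, hlen]
    push_cast at ih ⊢
    -- the main inequality
    have hn1 : (2 : ℝ) ≤ n := by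
      have : 2 ≤ n := by omega
      exact_mod_cast this
    have hc : (0 : ℝ) < 2 * ((n : ℝ) + 1) - 3 := by linarith
    rcases Nat.lt_or_ge y n with hyn | hyn
    · have hyn' : (y : ℝ) + 1 ≤ n := by exact_mod_cast hyn
      have hy0 : (0 : ℝ) ≤ y := Nat.cast_nonneg y
      have b1 : (2 * ((n : ℝ) + 1) - 3) * N y ≤ (2 * (k : ℝ) - 3) * L := ih y
      have b2 : (y : ℝ) * ((2 * ((n : ℝ) + 1) - 3) * R) ≤ (y : ℝ) * ((2 * (k : ℝ) - 3) * L) := by
        rcases Nat.eq_zero_or_pos y with hy | hy
        · rw [hy]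
          simp
        · obtain ⟨z, hz⟩ : ∃ z, y = z + 1 := ⟨y - 1, by omega⟩
          rw [hRz z hz]
          exact mul_le_mul_of_nonneg_left (ih z) hy0
      have b3 : (4 * ((n : ℝ) + 1) - 2 - 4 * ((y : ℝ) + 1)) * ((2 * ((n : ℝ) + 1) - 3) * N y) ≤
          (4 * ((n : ℝ) + 1) - 2 - 4 * ((y : ℝ) + 1)) * ((2 * (k : ℝ) - 3) * L) := by
        apply mul_le_mul_of_nonneg_left b1
        linarith
      have b4 : (2 * ((n : ℝ) + 1) - 3) * (4 * (y : ℝ) * R +
          (4 * ((n : ℝ) + 1) - 2 - 4 * ((y : ℝ) + 1)) * N y) ≤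
          (4 * ((n : ℝ) + 1) - 6) * ((2 * (k : ℝ) - 3) * L) := by
        nlinarith
      have b5 : (4 * ((n : ℝ) + 1) - 6) * ((2 * (k : ℝ) - 3) * L) =
          (2 * ((n : ℝ) + 1) - 3) * (2 * ((2 * (k : ℝ) - 3) * L)) := by ring
      rw [b5] at b4
      have b6 := le_of_mul_le_mul_left b4 hc
      have b7 : (0 : ℝ) ≤ 2 * ((n : ℝ) + 2) - 3 := by linarith
      calc (2 * ((n : ℝ) + 2) - 3) * (4 * (y : ℝ) * R +
          (4 * ((n : ℝ) + 1) - 2 - 4 * ((y : ℝ) + 1)) * N y)
          ≤ (2 * ((n : ℝ) + 2) - 3) * (2 * ((2 * (k : ℝ) - 3) * L)) :=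
            mul_le_mul_of_nonneg_left b6 b7
        _ = (2 * (k : ℝ) - 3) * ((4 * (n : ℝ) + 2) * L) := by ring
    · have h1 : N y = 0 := hzero y (by omega)
      have h2 : R = 0 := by
        obtain ⟨z, hz⟩ : ∃ z, y = z + 1 := ⟨y - 1, by omega⟩
        rw [hRz z hz]
        exact hzero z (by omega)
      rw [h1, h2]
      have : (0 : ℝ) ≤ (2 * (k : ℝ) - 3) * ((4 * (n : ℝ) + 2) * L) := by
        apply mul_nonneg (by linarith)
        apply mul_nonneg (by linarith) hL0
      linarith

/-- Let `N_n(y)` be the number of `T ∈ trees n` with both traces and total mass `y`. By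
`trees (n+1) = flatMap` and `sum_ins_pair` (with `φ` the indicator of `y`),
`N_{n+1}(y) = 4 y N_n(y-1) + (4 n - 2 - 4 (y + 1)) N_n(y)`. Claim
`(2 n - 3) N_n(y) ≤ (2 k - 3) |trees n|` by induction on `n ≥ k`; also `N_n(y) = 0` for `y > n - k`
(or simply: if `4 n - 2 - 4 (y + 1) < 0` then, because `Y + Y' ≤ n - k` and `k ≥ 3`, `N_n(y) = 0`).
For `y ≤ n - k + 1` the recursion gives
`N_{n+1}(y) ≤ (2k-3)/(2n-3) |trees n| (4 n - 6)` and `|trees (n+1)| = (4 n - 2) |trees n|`,
`(4n - 6) / (4n - 2) = (2n - 3) / (2n - 1)`. -/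
theorem pair_law {k n : ℕ} (hk : 3 ≤ k) (hkn : k ≤ n) {A A' : Finset ℕ} (hA : A.Nonempty)
    (hA' : A'.Nonempty) (hAA : A ≠ A') (y : ℕ) :
    avg n (ind (fun T => HasTr (Finset.range k) A T ∧ HasTr (Finset.range k) A' T ∧
      Y (Finset.range k) A T + Y (Finset.range k) A' T = y)) ≤
      (2 * (k : ℝ) - 3) / (2 * (n : ℝ) - 3) := by
  obtain ⟨d, rfl⟩ := Nat.exists_eq_add_of_le hkn
  have hk' : (3 : ℝ) ≤ k := by exact_mod_cast hk
  have hd : (0 : ℝ) ≤ d := Nat.cast_nonneg d
  have h := polG_count hk hA hA' hAA d y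
  have hlen : (0 : ℝ) < ((trees (k + d)).length : ℝ) := by
    have := length_trees_pos (n := k + d) (by omega)
    exact_mod_cast this
  have hc : (0 : ℝ) < 2 * ((k + d : ℕ) : ℝ) - 3 := by
    push_cast
    linarith
  unfold avg
  rw [div_le_div_iff₀ hlen hc]
  have e : (fun T => HasTr (Finset.range k) A T ∧ HasTr (Finset.range k) A' T ∧
      Y (Finset.range k) A T + Y (Finset.range k) A' T = y) = polGPr k A A' y := rfl
  rw [e]
  linarith

end Pool.Agent.ALD
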