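import Pool.Agent.ALD.PolY

/-! Module POLI: one insertion increases exactly one of the masses -/

namespace Pool.Agent.ALD

open BT

private theorem PolI_leaf_left {I A : Finset ℕ} {j : ℕ} (hj : j ∉ I) (hA : ¬ A = ∅) (T : BT)
    (hne : tr I T ≠ ∅) :
    Y I A (node (leaf j) T) = Y I A T + (if A = tr I T then 1 else 0) := by
  have h0 : tr I (leaf j) = ∅ := PolY_tr_leaf hj
  have h1 : ¬ (tr I (leaf j) = A ∧ tr I T = ∅) := fun h => hne h.2
  have h2 : (tr I T = A ∧ tr I (leaf j) = ∅) ↔ A = tr I T := by
    rw [h0]
    constructor
    · intro h
      exact h.1.symm
    · intro h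
      exact ⟨h.symm, rfl⟩
  simp only [Y, if_neg h1, h2, BT.size]
  omega

private theorem PolI_leaf_right {I A : Finset ℕ} {j : ℕ} (hj : j ∉ I) (hA : ¬ A = ∅) (T : BT)
    (hne : tr I T ≠ ∅) :
    Y I A (node T (leaf j)) = Y I A T + (if A = tr I T then 1 else 0) := by
  have h0 : tr I (leaf j) = ∅ := PolY_tr_leaf hj
  have h1 : ¬ (tr I (leaf j) = A ∧ tr I T = ∅) := fun h => hne h.2
  have h2 : (tr I T = A ∧ tr I (leaf j) = ∅) ↔ A = tr I T := by
    rw [h0]
    constructor
    · intro h
      exact h.1.symm
    · intro h
      exact ⟨h.symm, rfl⟩
  simp only [Y, if_neg h1, h2, BT.size]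
  omega

/-- Insertion of a label `j ∉ I`: exactly one of the masses increases by one. `G` is any function of
the family of masses `A ↦ Y I A T`. Induction on `T`, generalizing `G`. In the case where one of the
children has empty trace, use that `Y` is identically zero on it and that all its insertions have
size increased by one (`size_of_mem_ins`, `length_ins`). -/
theorem sum_ins_Y {I : Finset ℕ} {j : ℕ} {T : BT} (hT : T.labs.Nodup) (hj : j ∉ I)
    (hne : tr I T ≠ ∅) (G : (Finset ℕ → ℕ) → ℝ) :
    ((ins j T).map (fun T' => G (fun A => if A = ∅ then 0 else Y I A T'))).sum =
      2 * ((T.nus I).map (fun B => G (fun A => if A = ∅ then 0 else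
        Y I A T + (if A = B then 1 else 0)))).sum := by
  induction T generalizing G with
  | leaf a =>
    have e1 : (fun A => if A = ∅ then 0 else Y I A (node (leaf j) (leaf a))) =
        (fun A => if A = ∅ then 0 else Y I A (leaf a) + (if A = tr I (leaf a) then 1 else 0)) := by
      funext A
      by_cases hA : A = ∅
      · rw [if_pos hA, if_pos hA]
      · rw [if_neg hA, if_neg hA, PolI_leaf_left hj hA _ hne]
    have e2 : (fun A => if A = ∅ then 0 else Y I A (node (leaf a) (leaf j))) =
        (fun A => if A = ∅ then 0 else Y I A (leaf a) + (if A = tr I (leaf a) then 1 else 0)) := by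
      funext A
      by_cases hA : A = ∅
      · rw [if_pos hA, if_pos hA]
      · rw [if_neg hA, if_neg hA, PolI_leaf_right hj hA _ hne]
    simp only [ins, nus, List.map_cons, List.map_nil, List.sum_cons, List.sum_nil, e1, e2]
    ring
  | node l r ihl ihr =>
    have hTl : l.labs.Nodup := by
      simp only [BT.labs] at hT
      exact (List.nodup_append'.mp hT).1
    have hTr : r.labs.Nodup := by
      simp only [BT.labs] at hT
      exact (List.nodup_append'.mp hT).2.1
    have hsl := size_pos l
    have hsr := size_pos r
    have e1 : (fun A => if A = ∅ then 0 else Y I A (node (leaf j) (node l r))) =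
        (fun A => if A = ∅ then 0 else Y I A (node l r) +
          (if A = tr I (node l r) then 1 else 0)) := by
      funext A
      by_cases hA : A = ∅
      · rw [if_pos hA, if_pos hA]
      · rw [if_neg hA, if_neg hA, PolI_leaf_left hj hA _ hne]
    have e2 : (fun A => if A = ∅ then 0 else Y I A (node (node l r) (leaf j))) =
        (fun A => if A = ∅ then 0 else Y I A (node l r) +
          (if A = tr I (node l r) then 1 else 0)) := by
      funext A
      by_cases hA : A = ∅
      · rw [if_pos hA, if_pos hA]
      · rw [if_neg hA, if_neg hA, PolI_leaf_right hj hA _ hne]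
    -- the two halves
    have hL : ((ins j l).map (fun x => G (fun A => if A = ∅ then 0 else Y I A (node x r)))).sum =
        2 * (((if tr I l = ∅ then List.replicate (2 * l.size - 1) (tr I r) else l.nus I)).map
          (fun B => G (fun A => if A = ∅ then 0 else
            Y I A (node l r) + (if A = B then 1 else 0)))).sum := by
      by_cases ha : tr I l = ∅
      · rw [if_pos ha]
        have e3 : ∀ x ∈ ins j l, (fun A => if A = ∅ then 0 else Y I A (node x r)) =
            (fun A => if A = ∅ then 0 else Y I A (node l r) +
              (if A = tr I r then 1 else 0)) := by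
          intro x hx
          funext A
          by_cases hA : A = ∅
          · rw [if_pos hA, if_pos hA]
          · rw [if_neg hA, if_neg hA]
            have htx : tr I x = ∅ := by rw [tr_of_mem_ins hj hx, ha]
            have hA' : A.Nonempty := Finset.nonempty_iff_ne_empty.mpr hA
            have hx0 : Y I A x = 0 := Y_eq_zero hA' (fun h => by
              have := hasTr_subset h
              rw [htx] at this
              exact hA (Finset.subset_empty.mp this))
            have hl0 : Y I A l = 0 := Y_eq_zero hA' (fun h => by
              have := hasTr_subset h
              rw [ha] at this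
              exact hA (Finset.subset_empty.mp this))
            have hsx := size_of_mem_ins hx
            have c1 : ¬ (tr I x = A ∧ tr I r = ∅) := fun h => hA (by rw [← h.1, htx])
            have c2 : ¬ (tr I l = A ∧ tr I r = ∅) := fun h => hA (by rw [← h.1, ha])
            have c3 : (tr I r = A ∧ tr I x = ∅) ↔ A = tr I r := by
              rw [htx]; exact ⟨fun h => h.1.symm, fun h => ⟨h.symm, rfl⟩⟩
            have c4 : (tr I r = A ∧ tr I l = ∅) ↔ A = tr I r := by
              rw [ha]; exact ⟨fun h => h.1.symm, fun h => ⟨h.symm, rfl⟩⟩
            simp only [Y, if_neg c1, if_neg c2, c3, c4, hx0, hl0, hsx]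
            by_cases hAr : A = tr I r
            · simp only [if_pos hAr]; omega
            · simp only [if_neg hAr]; omega
        rw [List.map_congr_left (g := fun _ => G (fun A => if A = ∅ then 0 else Y I A (node l r) +
              (if A = tr I r then 1 else 0))) (fun x hx => by rw [e3 x hx])]
        rw [List.map_const', List.sum_replicate, List.map_replicate, List.sum_replicate]
        have hlen := length_ins j l
        have e4 : (ins j l).length = 2 * (2 * l.size - 1) := by omega
        rw [e4, nsmul_eq_mul, nsmul_eq_mul]
        push_cast
        ring
      · rw [if_neg ha]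
        have h := ihl hTl ha (fun f => G (fun A => if A = ∅ then 0 else
          (if tr I l = A ∧ tr I r = ∅ then r.size else 0) + f A + Y I A r))
        have e3 : ∀ x ∈ ins j l, (fun A => if A = ∅ then 0 else Y I A (node x r)) =
            (fun A => if A = ∅ then 0 else
              (if tr I l = A ∧ tr I r = ∅ then r.size else 0) +
                (if A = ∅ then 0 else Y I A x) + Y I A r) := by
          intro x hx
          funext A
          by_cases hA : A = ∅
          · rw [if_pos hA, if_pos hA]
          · rw [if_neg hA, if_neg hA, if_neg hA]
            have htx : tr I x = tr I l := tr_of_mem_ins hj hx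
            have c1 : ¬ (tr I r = A ∧ tr I l = ∅) := fun h => ha h.2
            simp only [Y, htx, if_neg c1]
            omega
        have e5 : ∀ B : Finset ℕ, (fun A => if A = ∅ then 0 else
              (if tr I l = A ∧ tr I r = ∅ then r.size else 0) +
                (if A = ∅ then 0 else Y I A l + (if A = B then 1 else 0)) + Y I A r) =
            (fun A => if A = ∅ then 0 else Y I A (node l r) + (if A = B then 1 else 0)) := by
          intro B
          funext A
          by_cases hA : A = ∅
          · rw [if_pos hA, if_pos hA]
          · rw [if_neg hA, if_neg hA, if_neg hA]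
            have c1 : ¬ (tr I r = A ∧ tr I l = ∅) := fun h => ha h.2
            simp only [Y, if_neg c1]
            omega
        rw [List.map_congr_left (g := fun x => G (fun A => if A = ∅ then 0 else
              (if tr I l = A ∧ tr I r = ∅ then r.size else 0) +
                (if A = ∅ then 0 else Y I A x) + Y I A r)) (fun x hx => by rw [e3 x hx])]
        rw [h]
        simp only [e5]
    have hR : ((ins j r).map (fun x => G (fun A => if A = ∅ then 0 else Y I A (node l x)))).sum =
        2 * (((if tr I r = ∅ then List.replicate (2 * r.size - 1) (tr I l) else r.nus I)).map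
          (fun B => G (fun A => if A = ∅ then 0 else
            Y I A (node l r) + (if A = B then 1 else 0)))).sum := by
      by_cases ha : tr I r = ∅
      · rw [if_pos ha]
        have e3 : ∀ x ∈ ins j r, (fun A => if A = ∅ then 0 else Y I A (node l x)) =
            (fun A => if A = ∅ then 0 else Y I A (node l r) +
              (if A = tr I l then 1 else 0)) := by
          intro x hx
          funext A
          by_cases hA : A = ∅
          · rw [if_pos hA, if_pos hA]
          · rw [if_neg hA, if_neg hA]
            have htx : tr I x = ∅ := by rw [tr_of_mem_ins hj hx, ha]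
            have hA' : A.Nonempty := Finset.nonempty_iff_ne_empty.mpr hA
            have hx0 : Y I A x = 0 := Y_eq_zero hA' (fun h => by
              have := hasTr_subset h
              rw [htx] at this
              exact hA (Finset.subset_empty.mp this))
            have hl0 : Y I A r = 0 := Y_eq_zero hA' (fun h => by
              have := hasTr_subset h
              rw [ha] at this
              exact hA (Finset.subset_empty.mp this))
            have hsx := size_of_mem_ins hx
            have c1 : ¬ (tr I x = A ∧ tr I l = ∅) := fun h => hA (by rw [← h.1, htx])
            have c2 : ¬ (tr I r = A ∧ tr I l = ∅) := fun h => hA (by rw [← h.1, ha])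
            have c3 : (tr I l = A ∧ tr I x = ∅) ↔ A = tr I l := by
              rw [htx]; exact ⟨fun h => h.1.symm, fun h => ⟨h.symm, rfl⟩⟩
            have c4 : (tr I l = A ∧ tr I r = ∅) ↔ A = tr I l := by
              rw [ha]; exact ⟨fun h => h.1.symm, fun h => ⟨h.symm, rfl⟩⟩
            simp only [Y, if_neg c1, if_neg c2, c3, c4, hx0, hl0, hsx]
            by_cases hAr : A = tr I l
            · simp only [if_pos hAr]; omega
            · simp only [if_neg hAr]
        rw [List.map_congr_left (g := fun _ => G (fun A => if A = ∅ then 0 else Y I A (node l r) +
              (if A = tr I l then 1 else 0))) (fun x hx => by rw [e3 x hx])]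
        rw [List.map_const', List.sum_replicate, List.map_replicate, List.sum_replicate]
        have hlen := length_ins j r
        have e4 : (ins j r).length = 2 * (2 * r.size - 1) := by omega
        rw [e4, nsmul_eq_mul, nsmul_eq_mul]
        push_cast
        ring
      · rw [if_neg ha]
        have h := ihr hTr ha (fun f => G (fun A => if A = ∅ then 0 else
          (if tr I r = A ∧ tr I l = ∅ then l.size else 0) + f A + Y I A l))
        have e3 : ∀ x ∈ ins j r, (fun A => if A = ∅ then 0 else Y I A (node l x)) =
            (fun A => if A = ∅ then 0 else
              (if tr I r = A ∧ tr I l = ∅ then l.size else 0) +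
                (if A = ∅ then 0 else Y I A x) + Y I A l) := by
          intro x hx
          funext A
          by_cases hA : A = ∅
          · rw [if_pos hA, if_pos hA]
          · rw [if_neg hA, if_neg hA, if_neg hA]
            have htx : tr I x = tr I r := tr_of_mem_ins hj hx
            have c1 : ¬ (tr I l = A ∧ tr I r = ∅) := fun h => ha h.2
            simp only [Y, htx, if_neg c1]
            omega
        have e5 : ∀ B : Finset ℕ, (fun A => if A = ∅ then 0 else
              (if tr I r = A ∧ tr I l = ∅ then l.size else 0) +
                (if A = ∅ then 0 else Y I A r + (if A = B then 1 else 0)) + Y I A l) =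
            (fun A => if A = ∅ then 0 else Y I A (node l r) + (if A = B then 1 else 0)) := by
          intro B
          funext A
          by_cases hA : A = ∅
          · rw [if_pos hA, if_pos hA]
          · rw [if_neg hA, if_neg hA, if_neg hA]
            have c1 : ¬ (tr I l = A ∧ tr I r = ∅) := fun h => ha h.2
            simp only [Y, if_neg c1]
            omega
        rw [List.map_congr_left (g := fun x => G (fun A => if A = ∅ then 0 else
              (if tr I r = A ∧ tr I l = ∅ then l.size else 0) +
                (if A = ∅ then 0 else Y I A x) + Y I A l)) (fun x hx => by rw [e3 x hx])]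
        rw [h]
        simp only [e5]
    simp only [ins, nus, List.map_cons, List.map_append, List.map_map, List.sum_cons,
      List.sum_append, Function.comp_def, e1, e2]
    rw [hL, hR]
    ring

end Pool.Agent.ALD
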