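import Pool.Agent.ALD.Relb
import Pool.Agent.ALD.TrCh

/-! Module RELP: invariance of the uniform law under relabelling -/

namespace Pool.Agent.ALD

open BT

private theorem relP_range {n : ℕ} (σ : Equiv.Perm ℕ) (hσ : ∀ i, i < n ↔ σ i < n) :
    ((List.range n).map σ).Perm (List.range n) := by
  rw [List.perm_ext_iff_of_nodup (List.nodup_range.map σ.injective) List.nodup_range]
  intro a
  simp only [List.mem_map, List.mem_range]
  constructor
  · rintro ⟨b, hb, rfl⟩
    exact (hσ b).mp hb
  · intro ha
    refine ⟨σ.symm a, ?_, by simp⟩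
    rw [hσ]
    simpa using ha

private theorem relP_mem {n : ℕ} (σ : Equiv.Perm ℕ) (hσ : ∀ i, i < n ↔ σ i < n) {T : BT}
    (hT : T ∈ trees n) : T.map σ ∈ trees n := by
  cases n with
  | zero => simp [trees] at hT
  | succ n =>
    rw [mem_trees_iff (by omega)] at hT ⊢
    rw [labs_map]
    exact (hT.map σ).trans (relP_range σ hσ)

private theorem relP_comp (σ : Equiv.Perm ℕ) (T : BT) : (T.map σ.symm).map σ = T := by
  induction T with
  | leaf a => simp [BT.map]
  | node l r hl hr => simp [BT.map, hl, hr]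

/-- both lists are without repetition and have the same elements by `mem_trees_iff` -/
theorem trees_map_perm {n : ℕ} (σ : Equiv.Perm ℕ) (hσ : ∀ i, i < n ↔ σ i < n) :
    ((trees n).map (BT.map σ)).Perm (trees n) := by
  rw [List.perm_ext_iff_of_nodup ((nodup_trees n).map (map_injective σ.injective)) (nodup_trees n)]
  intro T
  simp only [List.mem_map]
  constructor
  · rintro ⟨S, hS, rfl⟩
    exact relP_mem σ hσ hS
  · intro hT
    refine ⟨T.map σ.symm, relP_mem σ.symm ?_ hT, relP_comp σ T⟩
    intro i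
    rw [hσ (σ.symm i)]
    simp

theorem sum_trees_map {n : ℕ} (σ : Equiv.Perm ℕ) (hσ : ∀ i, i < n ↔ σ i < n) (F : BT → ℝ) :
    ((trees n).map (fun T => F (T.map σ))).sum = ((trees n).map F).sum := by
  have := ((trees_map_perm σ hσ).map F).sum_eq
  rw [List.map_map] at this
  exact this

theorem avg_map {n : ℕ} (σ : Equiv.Perm ℕ) (hσ : ∀ i, i < n ↔ σ i < n) (F : BT → ℝ) :
    avg n (fun T => F (T.map σ)) = avg n F := by
  unfold avg
  rw [sum_trees_map σ hσ]

end Pool.Agent.ALD
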