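import Pool.Agent.ALD.PolE
import Pool.Agent.ALD.RelP

/-! Module POLM: relabelling of the test function -/

noncomputable section

namespace Pool.Agent.ALD

open BT

theorem tr_map {σ : ℕ → ℕ} (hσ : Function.Injective σ) (I : Finset ℕ) (T : BT) :
    tr (I.image σ) (T.map σ) = (tr I T).image σ := by
  ext a
  simp only [tr, Finset.mem_filter, Finset.mem_image, labs_map, List.mem_map]
  constructor
  · rintro ⟨⟨x, hx, rfl⟩, y, hy, hxy⟩
    have := hσ hxy
    subst this
    exact ⟨y, ⟨hx, hy⟩, rfl⟩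
  · rintro ⟨x, ⟨hx, hx'⟩, rfl⟩
    exact ⟨⟨x, hx, rfl⟩, x, hx', rfl⟩

theorem hasTr_map {σ : ℕ → ℕ} (hσ : Function.Injective σ) (I A : Finset ℕ) (T : BT) :
    HasTr (I.image σ) (A.image σ) (T.map σ) ↔ HasTr I A T := by
  have himg : ∀ B C : Finset ℕ, B.image σ = C.image σ ↔ B = C := fun B C =>
    ⟨fun h => Finset.image_injective hσ h, fun h => by rw [h]⟩
  induction T with
  | leaf a =>
    show tr (I.image σ) ((leaf a).map σ) = A.image σ ↔ tr I (leaf a) = A
    rw [tr_map hσ, himg]
  | node l r ihl ihr =>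
    show (tr (I.image σ) ((node l r).map σ) = A.image σ ∨ HasTr (I.image σ) (A.image σ) (l.map σ) ∨
      HasTr (I.image σ) (A.image σ) (r.map σ)) ↔ (tr I (node l r) = A ∨ HasTr I A l ∨ HasTr I A r)
    rw [tr_map hσ]
    exact or_congr (himg _ _) (or_congr ihl ihr)

theorem Y_map {σ : ℕ → ℕ} (hσ : Function.Injective σ) (I A : Finset ℕ) (T : BT) :
    Y (I.image σ) (A.image σ) (T.map σ) = Y I A T := by
  have himg : ∀ B C : Finset ℕ, B.image σ = C.image σ ↔ B = C := fun B C =>
    ⟨fun h => Finset.image_injective hσ h, fun h => by rw [h]⟩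
  induction T with
  | leaf a => rfl
  | node l r ihl ihr =>
    show (if tr (I.image σ) (l.map σ) = A.image σ ∧ tr (I.image σ) (r.map σ) = ∅
        then (r.map σ).size else 0) +
      (if tr (I.image σ) (r.map σ) = A.image σ ∧ tr (I.image σ) (l.map σ) = ∅
        then (l.map σ).size else 0) + Y (I.image σ) (A.image σ) (l.map σ) +
        Y (I.image σ) (A.image σ) (r.map σ) =
      (if tr I l = A ∧ tr I r = ∅ then r.size else 0) +
      (if tr I r = A ∧ tr I l = ∅ then l.size else 0) + Y I A l + Y I A r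
    simp only [ihl, ihr, tr_map hσ, himg, Finset.image_eq_empty, size_map]

/-- the test function for a tuple `I` of marked labels; `A`, `A'` are sets of indices -/
def fT (n m k : ℕ) (I : Fin k → ℕ) (A A' : Finset (Fin k)) (T : BT) : ℝ :=
  fPol n m (Finset.univ.image I) (A.image I) (A'.image I) T

theorem fT_nonneg (n m k : ℕ) (I : Fin k → ℕ) (A A' : Finset (Fin k)) (T : BT) :
    0 ≤ fT n m k I A A' T := by
  unfold fT fPol ind
  refine mul_nonneg ?_ (Lam_nonneg _ _ _)
  split_ifs
  · exact zero_le_one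
  · exact le_rfl

theorem fT_le_one (n m k : ℕ) (I : Fin k → ℕ) (A A' : Finset (Fin k)) (T : BT) :
    fT n m k I A A' T ≤ 1 := by
  unfold fT fPol ind
  refine mul_le_one₀ ?_ (Lam_nonneg _ _ _) (Lam_le_one _ _ _)
  split_ifs
  · exact le_rfl
  · exact zero_le_one

end Pool.Agent.ALD
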