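import Pool.Agent.ALD.PolY

/-! Module POLN: the number of edges in each region -/

namespace Pool.Agent.ALD

open BT

private theorem PolN_aux {I A : Finset ℕ} {T : BT} (hT : T.labs.Nodup) (hA : A.Nonempty)
    (hne : tr I T ≠ ∅) :
    (HasTr I A T → (T.nus I).count A = 2 * Y I A T + 1) ∧
      (¬ HasTr I A T → (T.nus I).count A = 0) := by
  induction T with
  | leaf a =>
    constructor
    · intro h
      have h' : tr I (leaf a) = A := h
      simp [nus, Y, h']
    · intro h
      have h' : ¬ tr I (leaf a) = A := h
      simp [nus, List.count_singleton, h']
  | node l r ihl ihr =>
    have hd := tr_disjoint (I := I) hT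
    have hTl : l.labs.Nodup := by
      simp only [BT.labs] at hT
      exact (List.nodup_append'.mp hT).1
    have hTr : r.labs.Nodup := by
      simp only [BT.labs] at hT
      exact (List.nodup_append'.mp hT).2.1
    have hsl := size_pos l
    have hsr := size_pos r
    have hAne : A ≠ ∅ := hA.ne_empty
    by_cases ha : tr I l = ∅
    · have hnl : ¬ HasTr I A l := by
        intro h
        have := hasTr_subset h
        rw [ha] at this
        exact hAne (Finset.subset_empty.mp this)
      have hb : tr I r ≠ ∅ := by
        intro hb
        apply hne
        rw [tr_node, ha, hb, Finset.empty_union]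
      have hY0 : Y I A l = 0 := Y_eq_zero hA hnl
      have hih := ihr hTr hb
      have htr : tr I (node l r) = tr I r := by rw [tr_node, ha, Finset.empty_union]
      have h1 : ¬ (tr I l = A ∧ tr I r = ∅) := fun h => hb h.2
      have e1 : (node l r).nus I =
          tr I r :: (List.replicate (2 * l.size - 1) (tr I r) ++ r.nus I) := by
        simp only [nus, htr, if_pos ha, if_neg hb]
      rw [e1, List.count_cons, List.count_append, List.count_replicate]
      have e2 : Y I A (node l r) = (if tr I r = A then l.size else 0) + Y I A r := by
        have h5 : (tr I r = A ∧ tr I l = ∅) ↔ tr I r = A := by simp [ha]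
        simp only [Y, if_neg h1, hY0, h5]
        omega
      rw [e2]
      by_cases hrA : tr I r = A
      · have hH : HasTr I A r := PolY_hasTr_self hrA
        have h3 := hih.1 hH
        constructor
        · intro _
          rw [h3]
          simp only [hrA, beq_self_eq_true, if_true]
          omega
        · intro h
          exact absurd (Or.inr (Or.inr hH)) h
      · have hbeq : ¬ ((tr I r == A) = true) := by
          simpa using hrA
        constructor
        · intro h
          have hH : HasTr I A r := by
            rcases h with h | h | h
            · rw [htr] at h
              exact absurd h hrA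
            · exact absurd h hnl
            · exact h
          rw [hih.1 hH, if_neg hbeq, if_neg hrA, if_neg hbeq]
          omega
        · intro h
          have hH : ¬ HasTr I A r := fun h' => h (Or.inr (Or.inr h'))
          rw [hih.2 hH, if_neg hbeq, if_neg hbeq]
    · by_cases hb : tr I r = ∅
      · have hnr : ¬ HasTr I A r := by
          intro h
          have := hasTr_subset h
          rw [hb] at this
          exact hAne (Finset.subset_empty.mp this)
        have hY0 : Y I A r = 0 := Y_eq_zero hA hnr
        have hih := ihl hTl ha
        have htr : tr I (node l r) = tr I l := by rw [tr_node, hb, Finset.union_empty]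
        have h1 : ¬ (tr I r = A ∧ tr I l = ∅) := fun h => ha h.2
        have e1 : (node l r).nus I =
            tr I l :: (l.nus I ++ List.replicate (2 * r.size - 1) (tr I l)) := by
          simp only [nus, htr, if_pos hb, if_neg ha]
        rw [e1, List.count_cons, List.count_append, List.count_replicate]
        have e2 : Y I A (node l r) = (if tr I l = A then r.size else 0) + Y I A l := by
          have h5 : (tr I l = A ∧ tr I r = ∅) ↔ tr I l = A := by simp [hb]
          simp only [Y, if_neg h1, hY0, h5]
          omega
        rw [e2]
        by_cases hlA : tr I l = A
        · have hH : HasTr I A l := PolY_hasTr_self hlA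
          have h3 := hih.1 hH
          constructor
          · intro _
            rw [h3]
            simp only [hlA, beq_self_eq_true, if_true]
            omega
          · intro h
            exact absurd (Or.inr (Or.inl hH)) h
        · have hbeq : ¬ ((tr I l == A) = true) := by
            simpa using hlA
          constructor
          · intro h
            have hH : HasTr I A l := by
              rcases h with h | h | h
              · rw [htr] at h
                exact absurd h hlA
              · exact h
              · exact absurd h hnr
            rw [hih.1 hH, if_neg hbeq, if_neg hlA, if_neg hbeq]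
            omega
          · intro h
            have hH : ¬ HasTr I A l := fun h' => h (Or.inr (Or.inl h'))
            rw [hih.2 hH, if_neg hbeq, if_neg hbeq]
      · have hihl := ihl hTl ha
        have hihr := ihr hTr hb
        have e1 : (node l r).nus I = tr I (node l r) :: (l.nus I ++ r.nus I) := by
          simp only [nus, if_neg ha, if_neg hb]
        have h1 : ¬ (tr I l = A ∧ tr I r = ∅) := fun h => hb h.2
        have h2 : ¬ (tr I r = A ∧ tr I l = ∅) := fun h => ha h.2
        have e2 : Y I A (node l r) = Y I A l + Y I A r := by
          simp only [Y, if_neg h1, if_neg h2]
          omega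
        rw [e1, e2, List.count_cons, List.count_append]
        have hlr : HasTr I A l → ¬ HasTr I A r := by
          intro h3 h4
          obtain ⟨x, hx⟩ := hA
          exact Finset.disjoint_left.mp hd (hasTr_subset h3 hx) (hasTr_subset h4 hx)
        have hnl : tr I (node l r) = A → ¬ HasTr I A l := by
          intro h3 h4
          obtain ⟨x, hx⟩ := Finset.nonempty_iff_ne_empty.mpr hb
          have hx' : x ∈ A := by
            rw [← h3, tr_node]
            exact Finset.mem_union_right _ hx
          exact Finset.disjoint_left.mp hd (hasTr_subset h4 hx') hx
        have hnr : tr I (node l r) = A → ¬ HasTr I A r := by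
          intro h3 h4
          obtain ⟨x, hx⟩ := Finset.nonempty_iff_ne_empty.mpr ha
          have hx' : x ∈ A := by
            rw [← h3, tr_node]
            exact Finset.mem_union_left _ hx
          exact Finset.disjoint_left.mp hd hx (hasTr_subset h4 hx')
        constructor
        · intro h
          by_cases hr : tr I (node l r) = A
          · rw [hihl.2 (hnl hr), hihr.2 (hnr hr), Y_eq_zero hA (hnl hr), Y_eq_zero hA (hnr hr)]
            simp [hr]
          · have hbeq : ¬ ((tr I (node l r) == A) = true) := by
              simpa using hr
            rcases h with h | h | h
            · exact absurd h hr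
            · rw [hihl.1 h, hihr.2 (hlr h), Y_eq_zero hA (hlr h), if_neg hbeq]
              omega
            · have h' : ¬ HasTr I A l := fun h3 => hlr h3 h
              rw [hihr.1 h, hihl.2 h', Y_eq_zero hA h', if_neg hbeq]
              omega
        · intro h
          have hr : ¬ tr I (node l r) = A := fun h' => h (Or.inl h')
          have hbeq : ¬ ((tr I (node l r) == A) = true) := by
            simpa using hr
          rw [hihl.2 (fun h' => h (Or.inr (Or.inl h'))),
            hihr.2 (fun h' => h (Or.inr (Or.inr h'))), if_neg hbeq]

/-- The number of vertices (edges) of `T` in the region of `A` is `2 Y + 1` if `A` is a trace, and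
zero otherwise. Induction on `T`; `length_nus`/`length_verts` are not needed, only
`List.count_replicate`. The hypothesis `Nodup` gives disjoint traces of the children. -/
theorem count_nus {I A : Finset ℕ} {T : BT} (hT : T.labs.Nodup) (hA : A.Nonempty)
    (hne : tr I T ≠ ∅) (h : HasTr I A T) : (T.nus I).count A = 2 * Y I A T + 1 :=
  (PolN_aux hT hA hne).1 h

theorem count_nus_zero {I A : Finset ℕ} {T : BT} (hT : T.labs.Nodup) (hA : A.Nonempty)
    (hne : tr I T ≠ ∅) (h : ¬ HasTr I A T) : (T.nus I).count A = 0 :=
  (PolN_aux hT hA hne).2 h

end Pool.Agent.ALD
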