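import Pool.Agent.ALD.PolN
import Pool.Agent.ALD.PolI

/-! Module POLP: insertions and the sum of two masses -/

namespace Pool.Agent.ALD

open BT

private theorem PolP_list {A A' : Finset ℕ} (hAA : A ≠ A') (φ : ℕ → ℝ) (W : ℕ)
    (L : List (Finset ℕ)) :
    (L.map (fun B => φ (W + ((if A = B then 1 else 0) + (if A' = B then 1 else 0))))).sum =
      ((L.count A : ℝ) + L.count A') * φ (W + 1) +
        ((L.length : ℝ) - L.count A - L.count A') * φ W := by
  induction L with
  | nil => simp
  | cons B L ih =>
    rw [List.map_cons, List.sum_cons, ih, List.count_cons, List.count_cons, List.length_cons]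
    by_cases h1 : A = B
    · have h2 : ¬ A' = B := fun h => hAA (h1.trans h.symm)
      have h3 : ¬ ((B == A') = true) := by
        simp only [beq_iff_eq]
        exact fun h => h2 h.symm
      have h4 : ((B == A) = true) := by
        simp only [beq_iff_eq]
        exact h1.symm
      rw [if_pos h1, if_neg h2, if_pos h4, if_neg h3]
      push_cast
      ring
    · have h4 : ¬ ((B == A) = true) := by
        simp only [beq_iff_eq]
        exact fun h => h1 h.symm
      by_cases h2 : A' = B
      · have h3 : ((B == A') = true) := by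
          simp only [beq_iff_eq]
          exact h2.symm
        rw [if_neg h1, if_pos h2, if_neg h4, if_pos h3]
        push_cast
        ring
      · have h3 : ¬ ((B == A') = true) := by
          simp only [beq_iff_eq]
          exact fun h => h2 h.symm
        rw [if_neg h1, if_neg h2, if_neg h4, if_neg h3]
        push_cast
        ring

/-- Consequence for the sum of two masses: `2 (2 W + 2)` of the `4 m - 2` insertions increase
`W = Y I A T + Y I A' T` by one and the others do not change it. -/
theorem sum_ins_pair {I A A' : Finset ℕ} {j : ℕ} {T : BT} (hT : T.labs.Nodup) (hj : j ∉ I)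
    (hA : A.Nonempty) (hA' : A'.Nonempty) (hAA : A ≠ A') (h : HasTr I A T) (h' : HasTr I A' T)
    (φ : ℕ → ℝ) :
    ((ins j T).map (fun T' => φ (Y I A T' + Y I A' T'))).sum =
      4 * ((Y I A T + Y I A' T : ℕ) + 1) * φ (Y I A T + Y I A' T + 1) +
        (4 * (T.size : ℝ) - 2 - 4 * ((Y I A T + Y I A' T : ℕ) + 1)) *
          φ (Y I A T + Y I A' T) := by
  have hAe : ¬ A = ∅ := hA.ne_empty
  have hAe' : ¬ A' = ∅ := hA'.ne_empty
  have hne : tr I T ≠ ∅ := by
    intro h0
    have h1 := hasTr_subset h
    rw [h0] at h1
    exact hAe (Finset.subset_empty.mp h1)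
  have key := sum_ins_Y hT hj hne (fun f => φ (f A + f A'))
  simp only [if_neg hAe, if_neg hAe'] at key
  rw [key]
  have e1 : ∀ B : Finset ℕ, Y I A T + (if A = B then 1 else 0) +
      (Y I A' T + (if A' = B then 1 else 0)) =
      (Y I A T + Y I A' T) + ((if A = B then 1 else 0) + (if A' = B then 1 else 0)) := by
    intro B
    omega
  simp only [e1]
  rw [PolP_list hAA, count_nus hT hA hne h, count_nus hT hA' hne h']
  have hlen : ((T.nus I).length : ℝ) = 2 * (T.size : ℝ) - 1 := by
    have := length_nus I T
    have h2 : (((T.nus I).length + 1 : ℕ) : ℝ) = ((2 * T.size : ℕ) : ℝ) := by rw [this]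
    push_cast at h2
    linarith
  rw [hlen]
  push_cast
  ring_nf

end Pool.Agent.ALD
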