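import Pool.Agent.ALD.InsB

/-! Module POLY: traces and the masses Y -/

namespace Pool.Agent.ALD

open BT

theorem tr_node (I : Finset ℕ) (l r : BT) : tr I (node l r) = tr I l ∪ tr I r := by
  ext i
  simp only [tr, BT.labs, Finset.mem_filter, Finset.mem_union, List.mem_append]
  tauto

theorem tr_disjoint {I : Finset ℕ} {l r : BT} (h : (node l r).labs.Nodup) :
    Disjoint (tr I l) (tr I r) := by
  rw [Finset.disjoint_left]
  intro i hl hr
  simp only [tr, Finset.mem_filter] at hl hr
  simp only [BT.labs] at h
  exact (List.nodup_append'.mp h).2.2 hl.2 hr.2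

theorem hasTr_subset {I A : Finset ℕ} {T : BT} (h : HasTr I A T) : A ⊆ tr I T := by
  induction T with
  | leaf a =>
    have h' : tr I (leaf a) = A := h
    rw [h']
  | node l r ihl ihr =>
    rcases h with h | h | h
    · rw [h]
    · rw [tr_node]
      exact (ihl h).trans Finset.subset_union_left
    · rw [tr_node]
      exact (ihr h).trans Finset.subset_union_right

theorem PolY_hasTr_self {I A : Finset ℕ} {T : BT} (h : tr I T = A) : HasTr I A T := by
  cases T with
  | leaf a => exact h
  | node l r => exact Or.inl h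

/-- if `A` is not contained in the trace of `T`, or `A` has a label outside, nothing hangs on it -/
theorem Y_eq_zero {I A : Finset ℕ} {T : BT} (hA : A.Nonempty) (h : ¬ HasTr I A T) :
    Y I A T = 0 := by
  induction T with
  | leaf a => rfl
  | node l r ihl ihr =>
    have h1 : ¬ HasTr I A l := fun h' => h (Or.inr (Or.inl h'))
    have h2 : ¬ HasTr I A r := fun h' => h (Or.inr (Or.inr h'))
    have h3 : ¬ (tr I l = A ∧ tr I r = ∅) := fun h' => h1 (PolY_hasTr_self h'.1)
    have h4 : ¬ (tr I r = A ∧ tr I l = ∅) := fun h' => h2 (PolY_hasTr_self h'.1)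
    simp only [Y, if_neg h3, if_neg h4, ihl h1, ihr h2]

/-- traces are not changed by the insertion of a label outside `I` -/
theorem tr_of_mem_ins {I : Finset ℕ} {j : ℕ} {T T' : BT} (hj : j ∉ I) (h : T' ∈ ins j T) :
    tr I T' = tr I T := by
  ext i
  simp only [tr, Finset.mem_filter]
  have hp := (labs_of_mem_ins h).mem_iff (a := i)
  rw [hp, List.mem_cons]
  constructor
  · rintro ⟨h1, h2 | h2⟩
    · subst h2
      exact absurd h1 hj
    · exact ⟨h1, h2⟩
  · rintro ⟨h1, h2⟩
    exact ⟨h1, Or.inr h2⟩

theorem PolY_tr_leaf {I : Finset ℕ} {j : ℕ} (hj : j ∉ I) : tr I (leaf j) = ∅ := by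
  ext i
  simp only [tr, BT.labs, Finset.mem_filter, List.mem_singleton]
  constructor
  · rintro ⟨h1, h2⟩
    subst h2
    exact absurd h1 hj
  · intro h
    exact absurd h (Finset.notMem_empty _)

theorem PolY_hasTr_left {I A : Finset ℕ} {j : ℕ} (hj : j ∉ I) (hA : A.Nonempty) (T : BT) :
    HasTr I A (node (leaf j) T) ↔ HasTr I A T := by
  have h0 : tr I (leaf j) = ∅ := PolY_tr_leaf hj
  constructor
  · rintro (h | h | h)
    · rw [tr_node, h0, Finset.empty_union] at h
      exact PolY_hasTr_self h
    · have h' : tr I (leaf j) = A := h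
      rw [h0] at h'
      rw [← h'] at hA
      exact absurd hA Finset.not_nonempty_empty
    · exact h
  · intro h
    exact Or.inr (Or.inr h)

theorem PolY_hasTr_right {I A : Finset ℕ} {j : ℕ} (hj : j ∉ I) (hA : A.Nonempty) (T : BT) :
    HasTr I A (node T (leaf j)) ↔ HasTr I A T := by
  have h0 : tr I (leaf j) = ∅ := PolY_tr_leaf hj
  constructor
  · rintro (h | h | h)
    · rw [tr_node, h0, Finset.union_empty] at h
      exact PolY_hasTr_self h
    · exact h
    · have h' : tr I (leaf j) = A := h
      rw [h0] at h'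
      rw [← h'] at hA
      exact absurd hA Finset.not_nonempty_empty
  · intro h
    exact Or.inr (Or.inl h)

theorem hasTr_of_mem_ins {I A : Finset ℕ} {j : ℕ} {T T' : BT} (hj : j ∉ I) (hA : A.Nonempty)
    (h : T' ∈ ins j T) : HasTr I A T' ↔ HasTr I A T := by
  induction T generalizing T' with
  | leaf a =>
    simp only [ins, List.mem_cons, List.not_mem_nil, or_false] at h
    rcases h with h | h
    · rw [h]
      exact PolY_hasTr_left hj hA _
    · rw [h]
      exact PolY_hasTr_right hj hA _
  | node l r ihl ihr =>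
    simp only [ins, List.mem_cons, List.mem_append, List.mem_map] at h
    rcases h with h | h | ⟨x, hx, h⟩ | ⟨x, hx, h⟩
    · rw [h]
      exact PolY_hasTr_left hj hA _
    · rw [h]
      exact PolY_hasTr_right hj hA _
    · subst h
      have h1 := ihl hx
      have h2 : tr I (node x r) = tr I (node l r) := by
        rw [tr_node, tr_node, tr_of_mem_ins hj hx]
      show (tr I (node x r) = A ∨ HasTr I A x ∨ HasTr I A r) ↔
        (tr I (node l r) = A ∨ HasTr I A l ∨ HasTr I A r)
      rw [h1, h2]
    · subst h
      have h1 := ihr hx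
      have h2 : tr I (node l x) = tr I (node l r) := by
        rw [tr_node, tr_node, tr_of_mem_ins hj hx]
      show (tr I (node l x) = A ∨ HasTr I A l ∨ HasTr I A x) ↔
        (tr I (node l r) = A ∨ HasTr I A l ∨ HasTr I A r)
      rw [h1, h2]

end Pool.Agent.ALD
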