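import Pool.Agent.ALD.AtL
import Pool.Agent.ALD.PolY

/-! Module YBD: the mass Y of an edge of the restricted tree is at most the mass of the segment containing it -/

namespace Pool.Agent.ALD

open BT

theorem YBd_tr_mono {I : Finset ℕ} {T S : BT} {a : List Bool} (h : T.at? a = some S) :
    tr I S ⊆ tr I T := by
  intro i hi
  simp only [BT.tr, Finset.mem_filter] at hi ⊢
  exact ⟨hi.1, at_labs h i hi.2⟩

theorem YBd_Y_node (I A : Finset ℕ) (l r : BT) : Y I A (node l r) =
    (if tr I l = A ∧ tr I r = ∅ then r.size else 0) +
      (if tr I r = A ∧ tr I l = ∅ then l.size else 0) + Y I A l + Y I A r := rfl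

theorem YBd_no_sub {A B C : Finset ℕ} (hd : Disjoint B C) (hA : A.Nonempty) (hB : A ⊆ B) :
    ¬ A ⊆ C := by
  intro hC
  obtain ⟨x, hx⟩ := hA
  exact Finset.disjoint_left.1 hd (hB hx) (hC hx)

/-- if both children of the vertex `v` have nonempty trace and `A` is the trace of `v`, then inside `v`
nothing is attached to the edge of `A` -/
theorem Y_node_zero {I : Finset ℕ} {l r : BT} (h : (node l r).labs.Nodup) (hl : tr I l ≠ ∅)
    (hr : tr I r ≠ ∅) : Y I (tr I (node l r)) (node l r) = 0 := by
  have hd : Disjoint (tr I l) (tr I r) := tr_disjoint h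
  have hn := tr_node I l r
  have hAl : tr I l ⊆ tr I (node l r) := by rw [hn]; exact Finset.subset_union_left
  have hAr : tr I r ⊆ tr I (node l r) := by rw [hn]; exact Finset.subset_union_right
  have hA : (tr I (node l r)).Nonempty :=
    (Finset.nonempty_iff_ne_empty.2 hl).mono hAl
  have h1 : Y I (tr I (node l r)) l = 0 := by
    apply Y_eq_zero hA
    intro hc
    have h2 := hasTr_subset hc
    exact YBd_no_sub hd.symm (Finset.nonempty_iff_ne_empty.2 hr) (Finset.Subset.refl _)
      (hAr.trans h2)
  have h3 : Y I (tr I (node l r)) r = 0 := by
    apply Y_eq_zero hA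
    intro hc
    have h2 := hasTr_subset hc
    exact YBd_no_sub hd (Finset.nonempty_iff_ne_empty.2 hl) (Finset.Subset.refl _)
      (hAl.trans h2)
  rw [YBd_Y_node, if_neg (fun hc => hr hc.2), if_neg (fun hc => hl hc.2), h1, h3]

theorem YBd_node_nonempty {I : Finset ℕ} {l r : BT} (hl : tr I l ≠ ∅) :
    (tr I (node l r)).Nonempty := by
  rw [tr_node]
  exact (Finset.nonempty_iff_ne_empty.2 hl).mono Finset.subset_union_left

/-- Induction on `w` (for all `T`): if `T = node l r` and the address goes to `l`, then `Y I A T` is
`Y I A l` plus `r.size` if `tr I l = A` and `tr I r = ∅`; and `Y I A r = 0` because `A` is not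
contained in the trace of `r`. -/
theorem Y_le_sub {I : Finset ℕ} {T : BT} (hT : T.labs.Nodup) {w : List Bool} {l r : BT}
    (h : T.at? w = some (node l r)) (hl : tr I l ≠ ∅) (hr : tr I r ≠ ∅) :
    Y I (tr I (node l r)) T + T.sz w ≤ T.size := by
  induction w generalizing T with
  | nil =>
    rw [at_nil, Option.some.injEq] at h
    subst h
    rw [Y_node_zero hT hl hr, sz_nil, zero_add]
  | cons c w ih =>
    cases T with
    | leaf x => rw [AtL_leaf] at h; cases h
    | node a b =>
      have hd : Disjoint (tr I a) (tr I b) := tr_disjoint hT
      have hne := YBd_node_nonempty (r := r) hl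
      simp only [BT.labs] at hT
      have hT2 := List.nodup_append.1 hT
      cases c with
      | false =>
        have h' : a.at? w = some (node l r) := h
        have h1 := ih hT2.1 h'
        have h2 := YBd_tr_mono (I := I) h'
        have h3 : Y I (tr I (node l r)) b = 0 :=
          Y_eq_zero hne (fun hc => YBd_no_sub hd hne h2 (hasTr_subset hc))
        have h4 : tr I a ≠ ∅ := by
          intro h0
          rw [h0] at h2
          exact hne.ne_empty (Finset.subset_empty.1 h2)
        have h5 : (node a b).sz (false :: w) = a.sz w := rfl
        rw [YBd_Y_node, if_neg (fun hc : _ ∧ tr I a = ∅ => h4 hc.2), h3, h5]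
        simp only [BT.size]
        split_ifs <;> omega
      | true =>
        have h' : b.at? w = some (node l r) := h
        have h1 := ih hT2.2.1 h'
        have h2 := YBd_tr_mono (I := I) h'
        have h3 : Y I (tr I (node l r)) a = 0 :=
          Y_eq_zero hne (fun hc => YBd_no_sub hd.symm hne h2 (hasTr_subset hc))
        have h4 : tr I b ≠ ∅ := by
          intro h0
          rw [h0] at h2
          exact hne.ne_empty (Finset.subset_empty.1 h2)
        have h5 : (node a b).sz (true :: w) = b.sz w := rfl
        rw [YBd_Y_node, if_neg (fun hc : _ ∧ tr I b = ∅ => h4 hc.2), h3, h5]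
        simp only [BT.size]
        split_ifs <;> omega

/-- If moreover the sibling `p ++ [!b]` of the child `p ++ [b]` has nonempty trace, only the vertices
below `p ++ [b]` count: `Y I A T = Y I A (T.at? (p ++ [b]))`; then `Y_le_sub`. Induction on `p`. -/
theorem Y_le_segment {I : Finset ℕ} {T : BT} (hT : T.labs.Nodup) {p w : List Bool} {b : Bool}
    {l r : BT} (h : T.at? (p ++ b :: w) = some (node l r)) (hl : tr I l ≠ ∅) (hr : tr I r ≠ ∅)
    {S : BT} (hS : T.at? (p ++ [!b]) = some S) (hSI : tr I S ≠ ∅) :
    Y I (tr I (node l r)) T + T.sz (p ++ b :: w) ≤ T.sz (p ++ [b]) := by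
  have hne := YBd_node_nonempty (r := r) hl
  induction p generalizing T with
  | nil =>
    rw [List.nil_append] at h hS ⊢
    rw [List.nil_append]
    cases T with
    | leaf x => rw [AtL_leaf] at h; cases h
    | node a c =>
      have hd : Disjoint (tr I a) (tr I c) := tr_disjoint hT
      simp only [BT.labs] at hT
      have hT2 := List.nodup_append.1 hT
      cases b with
      | false =>
        have h' : a.at? w = some (node l r) := h
        have hS' : c.at? [] = some S := hS
        rw [at_nil, Option.some.injEq] at hS'
        subst hS'
        have h1 := Y_le_sub hT2.1 h' hl hr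
        have h2 := YBd_tr_mono (I := I) h'
        have h3 : Y I (tr I (node l r)) c = 0 :=
          Y_eq_zero hne (fun hc => YBd_no_sub hd hne h2 (hasTr_subset hc))
        have h4 : tr I a ≠ ∅ := by
          intro h0
          rw [h0] at h2
          exact hne.ne_empty (Finset.subset_empty.1 h2)
        have h5 : (node a c).sz (false :: w) = a.sz w := rfl
        have h6 : (node a c).sz [false] = a.sz [] := rfl
        rw [YBd_Y_node, if_neg (fun hc : _ ∧ tr I c = ∅ => hSI hc.2),
          if_neg (fun hc : _ ∧ tr I a = ∅ => h4 hc.2), h3, h5, h6, sz_nil]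
        omega
      | true =>
        have h' : c.at? w = some (node l r) := h
        have hS' : a.at? [] = some S := hS
        rw [at_nil, Option.some.injEq] at hS'
        subst hS'
        have h1 := Y_le_sub hT2.2.1 h' hl hr
        have h2 := YBd_tr_mono (I := I) h'
        have h3 : Y I (tr I (node l r)) a = 0 :=
          Y_eq_zero hne (fun hc => YBd_no_sub hd.symm hne h2 (hasTr_subset hc))
        have h4 : tr I c ≠ ∅ := by
          intro h0
          rw [h0] at h2
          exact hne.ne_empty (Finset.subset_empty.1 h2)
        have h5 : (node a c).sz (true :: w) = c.sz w := rfl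
        have h6 : (node a c).sz [true] = c.sz [] := rfl
        rw [YBd_Y_node, if_neg (fun hc : _ ∧ tr I c = ∅ => h4 hc.2),
          if_neg (fun hc : _ ∧ tr I a = ∅ => hSI hc.2), h3, h5, h6, sz_nil]
        omega
  | cons d p ih =>
    cases T with
    | leaf x => rw [List.cons_append, AtL_leaf] at h; cases h
    | node a c =>
      have hd : Disjoint (tr I a) (tr I c) := tr_disjoint hT
      have hdis : Disjoint (tr I S) (tr I (node l r)) := by
        have h0 := at_disjoint hT hS h ?_ ?_
        · rw [Finset.disjoint_left]
          intro x hx hx'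
          simp only [BT.tr, Finset.mem_filter] at hx hx'
          exact h0 hx.2 hx'.2
        · intro hc
          rw [List.prefix_append_right_inj] at hc
          rw [List.cons_prefix_cons] at hc
          cases b <;> simp at hc
        · intro hc
          rw [List.prefix_append_right_inj] at hc
          rw [List.cons_prefix_cons] at hc
          cases b <;> simp at hc
      simp only [BT.labs] at hT
      have hT2 := List.nodup_append.1 hT
      rw [List.cons_append] at h hS ⊢
      rw [List.cons_append]
      cases d with
      | false =>
        have h' : a.at? (p ++ b :: w) = some (node l r) := h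
        have hS' : a.at? (p ++ [!b]) = some S := hS
        have h1 := ih hT2.1 h' hS'
        have h2 := YBd_tr_mono (I := I) h'
        have h2' := YBd_tr_mono (I := I) hS'
        have h3 : Y I (tr I (node l r)) c = 0 :=
          Y_eq_zero hne (fun hc => YBd_no_sub hd hne h2 (hasTr_subset hc))
        have h4 : tr I a ≠ ∅ := by
          intro h0
          rw [h0] at h2
          exact hne.ne_empty (Finset.subset_empty.1 h2)
        have h5 : (node a c).sz (false :: (p ++ b :: w)) = a.sz (p ++ b :: w) := rfl
        have h6 : (node a c).sz (false :: (p ++ [b])) = a.sz (p ++ [b]) := rfl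
        have h7 : tr I a ≠ tr I (node l r) := by
          intro h0
          rw [h0] at h2'
          exact YBd_no_sub hdis (Finset.nonempty_iff_ne_empty.2 hSI) (Finset.Subset.refl _) h2'
        rw [YBd_Y_node, if_neg (fun hc : tr I a = _ ∧ _ => h7 hc.1),
          if_neg (fun hc : _ ∧ tr I a = ∅ => h4 hc.2), h3, h5, h6]
        omega
      | true =>
        have h' : c.at? (p ++ b :: w) = some (node l r) := h
        have hS' : c.at? (p ++ [!b]) = some S := hS
        have h1 := ih hT2.2.1 h' hS'
        have h2 := YBd_tr_mono (I := I) h'
        have h2' := YBd_tr_mono (I := I) hS'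
        have h3 : Y I (tr I (node l r)) a = 0 :=
          Y_eq_zero hne (fun hc => YBd_no_sub hd.symm hne h2 (hasTr_subset hc))
        have h4 : tr I c ≠ ∅ := by
          intro h0
          rw [h0] at h2
          exact hne.ne_empty (Finset.subset_empty.1 h2)
        have h5 : (node a c).sz (true :: (p ++ b :: w)) = c.sz (p ++ b :: w) := rfl
        have h6 : (node a c).sz (true :: (p ++ [b])) = c.sz (p ++ [b]) := rfl
        have h7 : tr I c ≠ tr I (node l r) := by
          intro h0
          rw [h0] at h2'
          exact YBd_no_sub hdis (Finset.nonempty_iff_ne_empty.2 hSI) (Finset.Subset.refl _) h2'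
        rw [YBd_Y_node, if_neg (fun hc : _ ∧ tr I c = ∅ => h4 hc.2),
          if_neg (fun hc : tr I c = _ ∧ _ => h7 hc.1), h3, h5, h6]
        omega

theorem hasTr_of_at {I : Finset ℕ} {T S : BT} {a : List Bool} (h : T.at? a = some S) :
    HasTr I (tr I S) T := by
  induction a generalizing T with
  | nil =>
    rw [at_nil, Option.some.injEq] at h
    subst h
    cases T with
    | leaf x => exact (rfl : tr I (leaf x) = tr I (leaf x))
    | node l r => exact Or.inl rfl
  | cons c a ih =>
    cases T with
    | leaf x => rw [AtL_leaf] at h; cases h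
    | node l r =>
      cases c with
      | false => exact Or.inr (Or.inl (ih (T := l) h))
      | true => exact Or.inr (Or.inr (ih (T := r) h))

end Pool.Agent.ALD
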