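import Pool.Agent.ALD.Slot
import Pool.Agent.ALD.YBd
import Pool.Agent.ALD.PolF

/-! Module POLS: two light internal segments between large branch points are seen by many tuples (deterministic) -/

noncomputable section

namespace Pool.Agent.ALD

open BT

theorem polS_eq_of_len {a b c : List Bool} (ha : a <+: c) (hb : b <+: c)
    (h : a.length = b.length) : a = b := by
  obtain ⟨t, ht⟩ := ha
  obtain ⟨u, hu⟩ := hb
  exact (List.append_inj (ht.trans hu.symm) h).1

theorem polS_comparable {a b c : List Bool} (ha : a <+: c) (hb : b <+: c) :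
    a <+: b ∨ b <+: a := by
  obtain ⟨t, ht⟩ := ha
  obtain ⟨u, hu⟩ := hb
  rcases List.append_eq_append_iff.mp (ht.trans hu.symm) with ⟨a', h1, _⟩ | ⟨c', h1, _⟩
  · exact Or.inl ⟨a', h1.symm⟩
  · exact Or.inr ⟨c', h1.symm⟩

theorem polS_sib {p c : List Bool} {b b' : Bool} (h : p ++ [b] <+: c) (h' : p ++ [b'] <+: c) :
    b = b' := by
  have := polS_eq_of_len h h' (by simp)
  simpa using this

theorem polS_mem_of_below {T : BT} {a c : List Bool} {R S : BT} (hR : T.at? a = some R)
    (hS : T.at? c = some S) (hac : a <+: c) {i : ℕ} (hi : i ∈ S.labs) : i ∈ R.labs := by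
  obtain ⟨u, rfl⟩ := hac
  rw [at_append, hR] at hS
  exact at_labs hS i hi

theorem polS_tr_ne {T : BT} {k : ℕ} {I : Fin k → ℕ} {e : Fin k → List Bool} {S : Fin k → BT}
    (hS : ∀ j, T.at? (e j) = some (S j)) (hI : ∀ j, I j ∈ (S j).labs) {a : List Bool} {R : BT}
    (hR : T.at? a = some R) {j : Fin k} (hj : a <+: e j) :
    tr (Finset.univ.image I) R ≠ ∅ := by
  have h1 : I j ∈ R.labs := polS_mem_of_below hR (hS j) hj (hI j)
  intro h2
  have h3 : I j ∈ tr (Finset.univ.image I) R := by
    unfold tr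
    rw [Finset.mem_filter]
    exact ⟨Finset.mem_image_of_mem _ (Finset.mem_univ j), h1⟩
  rw [h2] at h3
  simp at h3

theorem polS_segment {T : BT} (hT : T.labs.Nodup) {k : ℕ} {I : Fin k → ℕ}
    {e : Fin k → List Bool} {S : Fin k → BT}
    (hS : ∀ j, T.at? (e j) = some (S j)) (hI : ∀ j, I j ∈ (S j).labs)
    {V : Finset (List Bool)} (he : ∀ j, e j ∈ slots V) (hsurj : ∀ c ∈ slots V, ∃ j, e j = c)
    {p w : List Bool} {b : Bool} (hp : p ∈ V) (hp2 : p ++ b :: w ∈ V)
    (hp0 : 0 < T.sz (p ++ [!b])) (h0 : 0 < T.sz (p ++ b :: w ++ [false])) :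
    HasTr (Finset.univ.image I)
      ((Finset.univ.filter (fun j => (p ++ b :: w) <+: e j)).image I) T ∧
    Y (Finset.univ.image I) ((Finset.univ.filter (fun j => (p ++ b :: w) <+: e j)).image I) T +
      T.sz (p ++ b :: w) ≤ T.sz (p ++ [b]) := by
  obtain ⟨S1, hS1⟩ := sz_pos_iff.mp h0
  obtain ⟨l, r, hlr⟩ := exists_node hS1
  obtain ⟨hl, hr⟩ := at_children hlr
  obtain ⟨Sib, hSib⟩ := sz_pos_iff.mp hp0
  -- the trace of the lower end
  have htr : tr (Finset.univ.image I) (node l r) =
      (Finset.univ.filter (fun j => (p ++ b :: w) <+: e j)).image I := by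
    ext x
    unfold tr
    simp only [Finset.mem_filter, Finset.mem_image, Finset.mem_univ, true_and]
    constructor
    · rintro ⟨⟨j, rfl⟩, hx⟩
      refine ⟨j, ?_, rfl⟩
      by_contra hcon
      have h2 : ¬ e j <+: p ++ b :: w := by
        have h3 := he j
        unfold slots at h3
        rw [Finset.mem_filter] at h3
        exact h3.2 _ hp2
      exact at_disjoint hT hlr (hS j) hcon h2 hx (hI j)
    · rintro ⟨j, hj, rfl⟩
      exact ⟨⟨j, rfl⟩, polS_mem_of_below hlr (hS j) hj (hI j)⟩
  rw [← htr]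
  refine ⟨hasTr_of_at hlr, ?_⟩
  -- slots below the two children and below the sibling
  obtain ⟨c1, hc1, hc1'⟩ := exists_slot hp2 false
  obtain ⟨c2, hc2, hc2'⟩ := exists_slot hp2 true
  obtain ⟨c3, hc3, hc3'⟩ := exists_slot hp (!b)
  obtain ⟨j1, rfl⟩ := hsurj c1 hc1
  obtain ⟨j2, rfl⟩ := hsurj c2 hc2
  obtain ⟨j3, rfl⟩ := hsurj c3 hc3
  exact Y_le_segment hT hlr (polS_tr_ne hS hI hl hc1') (polS_tr_ne hS hI hr hc2') hSib
    (polS_tr_ne hS hI hSib hc3')

/-- two different vertices of `V` whose children contain slots have different sets of slots -/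
theorem polS_ne {V : Finset (List Bool)} {k : ℕ} {e : Fin k → List Bool}
    (hsurj : ∀ c ∈ slots V, ∃ j, e j = c) {a a' : List Bool} (ha : a ∈ V) (hne : a ≠ a')
    (h : a <+: a') :
    Finset.univ.filter (fun j => a <+: e j) ≠ Finset.univ.filter (fun j => a' <+: e j) := by
  intro heq
  obtain ⟨u, rfl⟩ := h
  cases u with
  | nil => simp at hne
  | cons c u =>
    obtain ⟨s, hs, hs'⟩ := exists_slot ha (!c)
    obtain ⟨j, rfl⟩ := hsurj s hs
    have h1 : j ∈ Finset.univ.filter (fun j => a <+: e j) := by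
      rw [Finset.mem_filter]
      refine ⟨Finset.mem_univ _, ?_⟩
      exact List.IsPrefix.trans ⟨[!c], rfl⟩ hs'
    rw [heq, Finset.mem_filter] at h1
    have h2 : a ++ [c] <+: e j := by
      refine List.IsPrefix.trans ?_ h1.2
      exact ⟨u, by simp⟩
    have h3 := polS_sib h2 hs'
    cases c <;> simp at h3

/-- Let `p₂ = p ++ b :: w`, `p₂' = p' ++ b' :: w'`, `V = {p, p', p₂, p₂'}`, and suppose that the total mass
of the two segments is at most `η n ≤ m`. Let `k = (slots V).card` and `e : Fin k ≃ slots V`. Then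
`3 ≤ k` (the two children of `p₂` and the other child of `p` contain three different slots) and
`k ≤ 8`. Each slot `c` is a child of a branch point, so its subtree `S_c` has size `≥ ε n`. Let
`A = {j : p₂ <+: e j}` and `A' = {j : p₂' <+: e j}` and let `𝒮` be the set of the tuples with
`I j ∈ S_{e j}.labs` for all `j` (`Fintype.piFinset`): it has `Π |S_c| ≥ (ε n)^k` elements. For `I ∈ 𝒮`:
* `I` is injective (`at_disjoint`, `slots_incomparable`), with values `< n`;
* `tr (image I) (T.at? p₂) = A.image I`: if `p₂ <+: e j` then `I j` is a label below `p₂`; otherwise `e j`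
  and `p₂` are not comparable (`e j <+: p₂` is excluded by the definition of slots) so it is not;
  same for `A'`. Hence `HasTr` (`hasTr_of_at`);
* `Y_le_segment` applies to both (the children of `p₂`, and the child `p ++ [!b]` of `p`, contain slots):
  `Y + Y' ≤ (sz (p ++ [b]) - sz p₂) + (sz (p' ++ [b']) - sz p₂') ≤ η n ≤ m`.
`A ≠ A'`: if `p₂`, `p₂'` are not comparable, `A` and `A'` are disjoint and nonempty; if (say) `p₂` is a
proper beginning of `p₂'` there is a slot below the child of `p₂` that does not contain `p₂'`. -/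
theorem polar_of_not_manyTup {n m : ℕ} {ε η : ℝ} (hε : 0 < ε) (hn : 2 ≤ n) (hηm : η * n ≤ m)
    {T : BT} (hT : T ∈ trees n)
    (h : ∀ k ∈ Finset.Icc 3 8, ∀ A A' : Finset (Fin k), A.Nonempty → A'.Nonempty → A ≠ A' →
      ¬ ManyTup n m k ε A A' T) : Polar n ε η T := by
  intro p p' w w' b b' hne hp hp' hp2 hp2'
  by_contra hcon
  push Not at hcon
  have hT' := nodup_labs_of_mem_trees hT
  have hnpos : (0 : ℝ) < n := by
    have : (2 : ℝ) ≤ n := by exact_mod_cast hn
    linarith
  have hεn : 0 < ε * n := mul_pos hε hnpos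
  have hpos : ∀ {a : List Bool} (c : Bool), IsBP n ε T a → 0 < T.sz (a ++ [c]) := by
    intro a c ha
    have h1 : (0 : ℝ) < T.sz (a ++ [c]) := by
      cases c
      · exact hεn.trans_le ha.1
      · exact hεn.trans_le ha.2
    exact_mod_cast h1
  -- the slots
  set V : Finset (List Bool) := {p, p', p ++ b :: w, p' ++ b' :: w'} with hV
  have hpV : p ∈ V := by simp [hV]
  have hp'V : p' ∈ V := by simp [hV]
  have hp2V : p ++ b :: w ∈ V := by simp [hV]
  have hp2'V : p' ++ b' :: w' ∈ V := by simp [hV]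
  have hVBP : ∀ v ∈ V, IsBP n ε T v := by
    intro v hv
    simp only [hV, Finset.mem_insert, Finset.mem_singleton] at hv
    rcases hv with rfl | rfl | rfl | rfl
    · exact hp
    · exact hp'
    · exact hp2
    · exact hp2'
  obtain ⟨k, hk⟩ : ∃ k, k = (slots V).card := ⟨_, rfl⟩
  let e0 : Fin k ≃ slots V := (finCongr hk).trans (slots V).equivFin.symm
  let e : Fin k → List Bool := fun j => (e0 j : List Bool)
  have he : ∀ j, e j ∈ slots V := fun j => (e0 j).2
  have hinj : Function.Injective e := fun i j hij => e0.injective (Subtype.ext hij)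
  have hsurj : ∀ c ∈ slots V, ∃ j, e j = c := by
    intro c hc
    refine ⟨e0.symm ⟨c, hc⟩, ?_⟩
    simp [e]
  have hslot : ∀ c ∈ slots V, ε * n ≤ (T.sz c : ℝ) := by
    intro c hc
    unfold slots at hc
    rw [Finset.mem_filter, Finset.mem_union, Finset.mem_image, Finset.mem_image] at hc
    rcases hc.1 with ⟨v, hv, rfl⟩ | ⟨v, hv, rfl⟩
    · exact (hVBP v hv).1
    · exact (hVBP v hv).2
  have hex : ∀ j, ∃ S, T.at? (e j) = some S := by
    intro j
    apply sz_pos_iff.mp
    have h1 : (0 : ℝ) < T.sz (e j) := hεn.trans_le (hslot _ (he j))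
    exact_mod_cast h1
  choose S hS using hex
  -- bounds on the number of slots
  have hk8 : k ≤ 8 := by
    have h1 := card_slots_le V
    have h2 : V.card ≤ 4 := by
      rw [hV]
      exact Finset.card_le_four
    omega
  obtain ⟨c1, hc1, hc1'⟩ := exists_slot hp2V false
  obtain ⟨c2, hc2, hc2'⟩ := exists_slot hp2V true
  obtain ⟨c3, hc3, hc3'⟩ := exists_slot hpV (!b)
  have hk3 : 3 ≤ k := by
    have h12 : c1 ≠ c2 := by
      rintro rfl
      have := polS_sib hc1' hc2'
      simp at this
    have hb : ∀ c : Bool, p ++ [b] <+: p ++ b :: w ++ [c] := fun c => ⟨w ++ [c], by simp⟩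
    have h13 : c1 ≠ c3 := by
      rintro rfl
      have := polS_sib ((hb false).trans hc1') hc3'
      cases b <;> simp at this
    have h23 : c2 ≠ c3 := by
      rintro rfl
      have := polS_sib ((hb true).trans hc2') hc3'
      cases b <;> simp at this
    have h4 : ({c1, c2, c3} : Finset (List Bool)).card = 3 := by
      rw [Finset.card_eq_three]
      exact ⟨c1, c2, c3, h12, h13, h23, rfl⟩
    have h5 : ({c1, c2, c3} : Finset (List Bool)) ⊆ slots V := by
      intro x hx
      simp only [Finset.mem_insert, Finset.mem_singleton] at hx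
      rcases hx with rfl | rfl | rfl <;> assumption
    have h6 := Finset.card_le_card h5
    omega
  obtain ⟨c4, hc4, hc4'⟩ := exists_slot hp2'V false
  -- the two sets of indices
  have hA : (Finset.univ.filter (fun j => (p ++ b :: w) <+: e j)).Nonempty := by
    obtain ⟨j, rfl⟩ := hsurj c1 hc1
    refine ⟨j, ?_⟩
    rw [Finset.mem_filter]
    exact ⟨Finset.mem_univ _, List.IsPrefix.trans ⟨[false], rfl⟩ hc1'⟩
  have hA' : (Finset.univ.filter (fun j => (p' ++ b' :: w') <+: e j)).Nonempty := by
    obtain ⟨j, rfl⟩ := hsurj c4 hc4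
    refine ⟨j, ?_⟩
    rw [Finset.mem_filter]
    exact ⟨Finset.mem_univ _, List.IsPrefix.trans ⟨[false], rfl⟩ hc4'⟩
  have hAA' : Finset.univ.filter (fun j => (p ++ b :: w) <+: e j) ≠
      Finset.univ.filter (fun j => (p' ++ b' :: w') <+: e j) := by
    intro heq
    obtain ⟨j, hj⟩ := hA
    have hj' := hj
    rw [heq] at hj'
    rw [Finset.mem_filter] at hj hj'
    rcases polS_comparable hj.2 hj'.2 with h1 | h1
    · exact polS_ne hsurj hp2V hne h1 heq
    · exact polS_ne hsurj hp2'V hne.symm h1 heq.symm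
  refine h k (Finset.mem_Icc.mpr ⟨hk3, hk8⟩) _ _ hA hA' hAA' ?_
  refine ⟨Fintype.piFinset (fun j => (S j).labs.toFinset), ?_, ?_⟩
  · intro I hI
    rw [Fintype.mem_piFinset] at hI
    have hI' : ∀ j, I j ∈ (S j).labs := fun j => List.mem_toFinset.mp (hI j)
    refine ⟨fun j => ?_, ?_, ?_, ?_, ?_⟩
    · exact (mem_labs_of_mem_trees hT _).mp (at_labs (hS j) _ (hI' j))
    · intro i j hij
      by_contra hij'
      have h1 : e i ≠ e j := fun h2 => hij' (hinj h2)
      have h2 := at_disjoint hT' (hS i) (hS j) (slots_incomparable (he i) (he j) h1)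
        (slots_incomparable (he j) (he i) h1.symm)
      have h3 := hI' j
      rw [← hij] at h3
      exact h2 (hI' i) h3
    · exact (polS_segment hT' hS hI' he hsurj hpV hp2V (hpos _ hp) (hpos _ hp2)).1
    · exact (polS_segment hT' hS hI' he hsurj hp'V hp2'V (hpos _ hp') (hpos _ hp2')).1
    · have h1 := (polS_segment hT' hS hI' he hsurj hpV hp2V (hpos _ hp) (hpos _ hp2)).2
      have h2 := (polS_segment hT' hS hI' he hsurj hp'V hp2'V (hpos _ hp') (hpos _ hp2')).2
      have h1' : ((Y (Finset.univ.image I)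
          ((Finset.univ.filter (fun j => (p ++ b :: w) <+: e j)).image I) T : ℕ) : ℝ) +
          T.sz (p ++ b :: w) ≤ T.sz (p ++ [b]) := by exact_mod_cast h1
      have h2' : ((Y (Finset.univ.image I)
          ((Finset.univ.filter (fun j => (p' ++ b' :: w') <+: e j)).image I) T : ℕ) : ℝ) +
          T.sz (p' ++ b' :: w') ≤ T.sz (p' ++ [b']) := by exact_mod_cast h2
      have h3 : ((Y (Finset.univ.image I)
          ((Finset.univ.filter (fun j => (p ++ b :: w) <+: e j)).image I) T : ℕ) : ℝ) +
          ((Y (Finset.univ.image I)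
          ((Finset.univ.filter (fun j => (p' ++ b' :: w') <+: e j)).image I) T : ℕ) : ℝ) ≤ m := by
        linarith
      exact_mod_cast h3
  · rw [Fintype.card_piFinset]
    push_cast
    calc (ε * n) ^ k = ∏ _j : Fin k, (ε * n) := by simp
      _ ≤ ∏ j : Fin k, (((S j).labs.toFinset.card : ℕ) : ℝ) := by
        apply Finset.prod_le_prod
        · intro j _
          exact hεn.le
        · intro j _
          rw [List.toFinset_card_of_nodup (at_nodup hT' (hS j)), length_labs, ← sz_of_at (hS j)]
          exact hslot _ (he j)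

end Pool.Agent.ALD
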