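import Pool.Agent.ALD.ResL

/-! Module RELB: relabelling commutes with everything (structural induction) -/

namespace Pool.Agent.ALD

open BT

theorem size_map (σ : ℕ → ℕ) (T : BT) : (T.map σ).size = T.size := by
  induction T with
  | leaf a => simp [BT.map, BT.size]
  | node l r hl hr => simp [BT.map, BT.size, hl, hr]

theorem labs_map (σ : ℕ → ℕ) (T : BT) : (T.map σ).labs = T.labs.map σ := by
  induction T with
  | leaf a => simp [BT.map, BT.labs]
  | node l r hl hr => simp [BT.map, BT.labs, hl, hr]

theorem ins_map (σ : ℕ → ℕ) (j : ℕ) (T : BT) :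
    ins (σ j) (T.map σ) = (ins j T).map (BT.map σ) := by
  induction T with
  | leaf a => simp [BT.map, BT.ins]
  | node l r hl hr =>
    simp only [BT.map, BT.ins, hl, hr, List.map_cons, List.map_append, List.map_map]
    rfl

theorem res_map (σ : ℕ → ℕ) (p : ℕ → Bool) (T : BT) :
    (T.map σ).res p = (T.res (fun a => p (σ a))).map (BT.map σ) := by
  induction T with
  | leaf a =>
    by_cases h : p (σ a) = true
    · simp [BT.map, BT.res, h]
    · simp [BT.map, BT.res, h]
  | node l r hl hr =>
    simp only [BT.map, BT.res, hl, hr]
    cases hl' : l.res (fun a => p (σ a)) <;> cases hr' : r.res (fun a => p (σ a)) <;>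
      simp [BT.map]

theorem del_map {σ : ℕ → ℕ} (hσ : Function.Injective σ) (j : ℕ) (T : BT) :
    (T.map σ).del (σ j) = (T.del j).map (BT.map σ) := by
  unfold BT.del
  rw [res_map]
  congr 1
  apply res_congr
  intro a _
  simp [hσ.eq_iff]

theorem reins_map {σ : ℕ → ℕ} (hσ : Function.Injective σ) (j : ℕ) (T : BT) :
    (T.map σ).reins (σ j) = (T.reins j).map (BT.map σ) := by
  unfold BT.reins
  rw [del_map hσ]
  cases h : T.del j with
  | none => simp
  | some S => simp [ins_map]

theorem map_injective {σ : ℕ → ℕ} (hσ : Function.Injective σ) : Function.Injective (BT.map σ) := by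
  intro T
  induction T with
  | leaf a =>
    intro T' h
    cases T' with
    | leaf b =>
      simp only [BT.map, BT.leaf.injEq] at h
      rw [hσ h]
    | node l r => simp [BT.map] at h
  | node l r hl hr =>
    intro T' h
    cases T' with
    | leaf b => simp [BT.map] at h
    | node l' r' =>
      simp only [BT.map, BT.node.injEq] at h
      rw [hl h.1, hr h.2]

end Pool.Agent.ALD
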