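import Pool.Agent.ALD.ShS
import Pool.Agent.ALD.Relb

/-! Module REMY: the identity of Remy -/

noncomputable section

namespace Pool.Agent.ALD

open BT

/-- the sum over trees with subtrees of prescribed sizes -/
private def remyB (F : BT → ℝ) (N k : ℕ) : ℝ :=
  shsum k (fun l => shsum (N + 1 - k) (fun r => F (node l r)))

private theorem remy_first (N : ℕ) (F : BT → ℝ) :
    shsum (N + 1) (fun S => F (node (leaf 0) S)) = remyB F N 0 := by
  unfold remyB
  rw [shsum_zero]
  rfl

private theorem remy_second (N : ℕ) (F : BT → ℝ) :
    shsum (N + 1) (fun S => F (node S (leaf 0))) = remyB F N (N + 1) := by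
  unfold remyB
  have h : N + 1 - (N + 1) = 0 := by omega
  rw [h]
  simp only [shsum_zero]

private theorem remy_ins (F : BT → ℝ) (l r : BT) :
    ((ins 0 (node l r)).map F).sum = F (node (leaf 0) (node l r)) + F (node (node l r) (leaf 0)) +
      (((ins 0 l).map (fun x => F (node x r))).sum + ((ins 0 r).map (fun x => F (node l x))).sum) := by
  simp only [ins, List.map_cons, List.map_append, List.map_map, List.sum_cons, List.sum_append]
  have h1 : (F ∘ fun x => node x r) = fun x => F (node x r) := rfl
  have h2 : (F ∘ fun x => node l x) = fun x => F (node l x) := rfl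
  rw [h1, h2]
  ring

/-- Strong induction on `N`. For `S = node l r` with `i + 1` and `j + 1` leaves (`i + j + 1 = N`) the
list `ins 0 S` consists of `node (leaf 0) S`, `node S (leaf 0)`, the `node l' r` with `l' ∈ ins 0 l`
and the `node l r'`; by the induction hypothesis the sum of the last two kinds is
`(i + 2) · Σ_{l' of size i + 2}` resp. `(j + 2) · Σ_{r'}`. Collect for each pair of sizes `(a, b)` of
the two subtrees of the result: total coefficient `a + b = N + 2`. -/
theorem remy (N : ℕ) (F : BT → ℝ) :
    shsum N (fun S => ((ins 0 S).map F).sum) = (N + 2) * shsum (N + 1) F := by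
  induction N using Nat.strong_induction_on generalizing F with
  | _ N ih =>
  rcases N with _ | N
  · rw [shsum_zero, shsum_succ]
    simp [ins, shsum_zero]
    ring
  · have hB : shsum (N + 1 + 1) F = ∑ k ∈ Finset.range (N + 2), remyB F N k := by
      rw [shsum_succ]
      exact Fin.sum_univ_eq_sum_range (fun k => remyB F N k) (N + 2)
    have key : ∀ i ∈ Finset.range (N + 1),
        shsum i (fun l => shsum (N - i) (fun r => ((ins 0 (node l r)).map F).sum)) =
          (shsum i (fun l => shsum (N - i) (fun r => F (node (leaf 0) (node l r)))) +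
            shsum i (fun l => shsum (N - i) (fun r => F (node (node l r) (leaf 0))))) +
          (((i : ℝ) + 2) * remyB F N (i + 1) + ((N : ℝ) - i + 2) * remyB F N i) := by
      intro i hi
      have hiN : i ≤ N := by
        have := Finset.mem_range.mp hi
        omega
      have h3 : shsum i (fun l => shsum (N - i) (fun r =>
          ((ins 0 l).map (fun x => F (node x r))).sum)) = ((i : ℝ) + 2) * remyB F N (i + 1) := by
        rw [shsum_comm]
        have e1 : ∀ r : BT, shsum i (fun l => ((ins 0 l).map (fun x => F (node x r))).sum) =
            ((i : ℝ) + 2) * shsum (i + 1) (fun x => F (node x r)) := fun r =>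
          ih i (by omega) (fun x => F (node x r))
        simp only [e1]
        rw [shsum_mul_left, shsum_comm]
        unfold remyB
        have e2 : N + 1 - (i + 1) = N - i := by omega
        rw [e2]
      have h4 : shsum i (fun l => shsum (N - i) (fun r =>
          ((ins 0 r).map (fun x => F (node l x))).sum)) = ((N : ℝ) - i + 2) * remyB F N i := by
        have e1 : ∀ l : BT, shsum (N - i) (fun r => ((ins 0 r).map (fun x => F (node l x))).sum) =
            (((N - i : ℕ) : ℝ) + 2) * shsum (N - i + 1) (fun x => F (node l x)) := fun l =>
          ih (N - i) (by omega) (fun x => F (node l x))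
        simp only [e1]
        rw [shsum_mul_left]
        unfold remyB
        have e2 : N + 1 - i = N - i + 1 := by omega
        rw [e2, Nat.cast_sub hiN]
      simp only [remy_ins, shsum_add]
      rw [h3, h4]
    have e0 : shsum (N + 1) (fun S => ((ins 0 S).map F).sum) =
        ∑ i ∈ Finset.range (N + 1),
          shsum i (fun l => shsum (N - i) (fun r => ((ins 0 (node l r)).map F).sum)) := by
      rw [shsum_succ]
      exact Fin.sum_univ_eq_sum_range
        (fun i => shsum i (fun l => shsum (N - i) (fun r => ((ins 0 (node l r)).map F).sum))) (N + 1)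
    have e1 : ∑ i ∈ Finset.range (N + 1),
        shsum i (fun l => shsum (N - i) (fun r => F (node (leaf 0) (node l r)))) = remyB F N 0 := by
      rw [← remy_first, shsum_succ]
      exact (Fin.sum_univ_eq_sum_range
        (fun i => shsum i (fun l => shsum (N - i) (fun r => F (node (leaf 0) (node l r)))))
        (N + 1)).symm
    have e2 : ∑ i ∈ Finset.range (N + 1),
        shsum i (fun l => shsum (N - i) (fun r => F (node (node l r) (leaf 0)))) =
          remyB F N (N + 1) := by
      rw [← remy_second, shsum_succ]
      exact (Fin.sum_univ_eq_sum_range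
        (fun i => shsum i (fun l => shsum (N - i) (fun r => F (node (node l r) (leaf 0)))))
        (N + 1)).symm
    rw [e0, Finset.sum_congr rfl key, Finset.sum_add_distrib, Finset.sum_add_distrib,
      Finset.sum_add_distrib, e1, e2, hB, Finset.mul_sum]
    have s1 : ∑ k ∈ Finset.range (N + 2), (((N + 1 : ℕ) : ℝ) + 2) * remyB F N k =
        ∑ k ∈ Finset.range (N + 2), ((k : ℝ) + 1) * remyB F N k +
          ∑ k ∈ Finset.range (N + 2), ((N : ℝ) - k + 2) * remyB F N k := by
      rw [← Finset.sum_add_distrib]
      refine Finset.sum_congr rfl fun k _ => ?_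
      push_cast
      ring
    rw [s1, Finset.sum_range_succ' (fun k => ((k : ℝ) + 1) * remyB F N k) (N + 1),
      Finset.sum_range_succ (fun k => ((N : ℝ) - k + 2) * remyB F N k) (N + 1)]
    have s2 : ∑ k ∈ Finset.range (N + 1), (((k + 1 : ℕ) : ℝ) + 1) * remyB F N (k + 1) =
        ∑ k ∈ Finset.range (N + 1), ((k : ℝ) + 2) * remyB F N (k + 1) := by
      refine Finset.sum_congr rfl fun k _ => ?_
      push_cast
      ring
    rw [s2]
    push_cast
    ring

end Pool.Agent.ALD
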