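import Pool.Agent.ALD.InsB

/-! Module RESL: restriction (all by structural induction) -/

namespace Pool.Agent.ALD

open BT

theorem res_eq_none_iff (p : ℕ → Bool) (T : BT) : T.res p = none ↔ ∀ a ∈ T.labs, p a = false := by
  induction T with
  | leaf a =>
    by_cases h : p a = true
    · simp [BT.res, BT.labs, h]
    · simp [BT.res, BT.labs, h]
  | node l r ihl ihr =>
    simp only [BT.res, BT.labs, List.mem_append]
    constructor
    · intro h
      have h1 : l.res p = none := by
        cases hl : l.res p <;> cases hr : r.res p <;> simp_all
      have h2 : r.res p = none := by
        cases hl : l.res p <;> cases hr : r.res p <;> simp_all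
      rintro a (ha | ha)
      · exact ihl.mp h1 a ha
      · exact ihr.mp h2 a ha
    · intro h
      rw [ihl.mpr (fun a ha => h a (Or.inl ha)), ihr.mpr (fun a ha => h a (Or.inr ha))]

theorem labs_res {p : ℕ → Bool} {T S : BT} (h : T.res p = some S) : S.labs = T.labs.filter p := by
  induction T generalizing S with
  | leaf a =>
    by_cases hp : p a = true
    · simp only [BT.res, hp, if_true, Option.some.injEq] at h
      subst h
      simp [BT.labs, hp]
    · simp [BT.res, hp] at h
  | node l r ihl ihr =>
    simp only [BT.res] at h
    simp only [BT.labs, List.filter_append]
    cases hl : l.res p with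
    | none =>
      have h0 : l.labs.filter p = [] := by
        rw [List.filter_eq_nil_iff]
        intro a ha
        rw [(res_eq_none_iff p l).mp hl a ha]
        simp
      cases hr : r.res p with
      | none => simp [hl, hr] at h
      | some y =>
        simp only [hl, hr, Option.some.injEq] at h
        subst h
        rw [h0, ihr hr, List.nil_append]
    | some x =>
      cases hr : r.res p with
      | none =>
        have h0 : r.labs.filter p = [] := by
          rw [List.filter_eq_nil_iff]
          intro a ha
          rw [(res_eq_none_iff p r).mp hr a ha]
          simp
        simp only [hl, hr, Option.some.injEq] at h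
        subst h
        rw [h0, ihl hl, List.append_nil]
      | some y =>
        simp only [hl, hr, Option.some.injEq] at h
        subst h
        simp only [BT.labs]
        rw [ihl hl, ihr hr]

theorem res_congr {p p' : ℕ → Bool} {T : BT} (h : ∀ a ∈ T.labs, p a = p' a) :
    T.res p = T.res p' := by
  induction T with
  | leaf a =>
    have := h a (by simp [BT.labs])
    simp [BT.res, this]
  | node l r ihl ihr =>
    simp only [BT.labs, List.mem_append] at h
    simp only [BT.res]
    rw [ihl (fun a ha => h a (Or.inl ha)), ihr (fun a ha => h a (Or.inr ha))]

theorem res_all {p : ℕ → Bool} {T : BT} (h : ∀ a ∈ T.labs, p a = true) : T.res p = some T := by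
  induction T with
  | leaf a =>
    have := h a (by simp [BT.labs])
    simp [BT.res, this]
  | node l r ihl ihr =>
    simp only [BT.labs, List.mem_append] at h
    simp only [BT.res]
    rw [ihl (fun a ha => h a (Or.inl ha)), ihr (fun a ha => h a (Or.inr ha))]

theorem res_res (p p' : ℕ → Bool) (T : BT) :
    (T.res p).bind (BT.res p') = T.res (fun a => p a && p' a) := by
  induction T with
  | leaf a =>
    by_cases hp : p a = true
    · simp [BT.res, hp]
    · simp [BT.res, hp]
  | node l r ihl ihr =>
    simp only [BT.res]
    rw [← ihl, ← ihr]
    cases hl : l.res p with
    | none =>
      cases hr : r.res p with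
      | none => simp
      | some y => simp only [Option.bind_some, Option.bind_none]; cases y.res p' <;> rfl
    | some x =>
      cases hr : r.res p with
      | none => simp only [Option.bind_some, Option.bind_none]; cases x.res p' <;> rfl
      | some y => simp only [Option.bind_some, BT.res]

end Pool.Agent.ALD
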