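import Pool.Agent.ALD.Base

/-! Module SHS: the sum over shapes -/

noncomputable section

namespace Pool.Agent.ALD

open BT

theorem shsum_zero (F : BT → ℝ) : shsum 0 F = F (leaf 0) := by
  rw [shsum]

theorem shsum_succ (N : ℕ) (F : BT → ℝ) :
    shsum (N + 1) F = ∑ i : Fin (N + 1), shsum i (fun l => shsum (N - i) (fun r => F (node l r))) := by
  rw [shsum]

/-- only shapes with `N + 1` leaves, all labelled `0`, matter -/
theorem shsum_congr {N : ℕ} {F G : BT → ℝ} (h : ∀ S : BT, S.size = N + 1 → S.shape = S → F S = G S) :
    shsum N F = shsum N G := by
  induction N using Nat.strong_induction_on generalizing F G with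
  | _ N ih =>
    match N with
    | 0 => rw [shsum_zero, shsum_zero]; exact h _ rfl rfl
    | N + 1 =>
      rw [shsum_succ, shsum_succ]
      refine Finset.sum_congr rfl (fun i _ => ?_)
      have hi := i.2
      refine ih i (by omega) (fun l hl hl' => ?_)
      refine ih (N - i) (by omega) (fun r hr hr' => ?_)
      refine h _ ?_ ?_
      · simp only [BT.size, hl, hr]; omega
      · simp only [BT.shape, BT.map] at hl' hr' ⊢
        rw [hl', hr']

theorem shsum_add (N : ℕ) (F G : BT → ℝ) :
    shsum N (fun S => F S + G S) = shsum N F + shsum N G := by
  induction N using Nat.strong_induction_on generalizing F G with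
  | _ N ih =>
    match N with
    | 0 => rw [shsum_zero, shsum_zero, shsum_zero]
    | N + 1 =>
      rw [shsum_succ, shsum_succ, shsum_succ, ← Finset.sum_add_distrib]
      refine Finset.sum_congr rfl (fun i _ => ?_)
      have hi := i.2
      rw [← ih i (by omega)]
      congr 1
      funext l
      rw [ih (N - i) (by omega)]

theorem shsum_mul_left (N : ℕ) (c : ℝ) (F : BT → ℝ) :
    shsum N (fun S => c * F S) = c * shsum N F := by
  induction N using Nat.strong_induction_on generalizing F with
  | _ N ih =>
    match N with
    | 0 => rw [shsum_zero, shsum_zero]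
    | N + 1 =>
      rw [shsum_succ, shsum_succ, Finset.mul_sum]
      refine Finset.sum_congr rfl (fun i _ => ?_)
      have hi := i.2
      rw [← ih i (by omega)]
      congr 1
      funext l
      rw [ih (N - i) (by omega)]

private theorem shS_zero_fun (N : ℕ) : shsum N (fun _ => (0 : ℝ)) = 0 := by
  have := shsum_mul_left N 0 (fun _ => (0 : ℝ))
  simpa using this

private theorem shS_sum {ι : Type*} (s : Finset ι) (N : ℕ) (F : ι → BT → ℝ) :
    shsum N (fun S => ∑ i ∈ s, F i S) = ∑ i ∈ s, shsum N (F i) := by
  classical
  induction s using Finset.induction_on with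
  | empty => simpa using shS_zero_fun N
  | insert a s ha ih =>
    simp only [Finset.sum_insert ha]
    rw [shsum_add, ih]

/-- the order of two such sums can be exchanged -/
theorem shsum_comm (N M : ℕ) (F : BT → BT → ℝ) :
    shsum N (fun S => shsum M (fun R => F S R)) = shsum M (fun R => shsum N (fun S => F S R)) := by
  induction N using Nat.strong_induction_on generalizing F with
  | _ N ih =>
    match N with
    | 0 => simp only [shsum_zero]
    | N + 1 =>
      simp only [shsum_succ]
      rw [shS_sum]
      refine Finset.sum_congr rfl (fun i _ => ?_)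
      have hi := i.2
      rw [← ih i (by omega)]
      congr 1
      funext l
      rw [ih (N - i) (by omega)]

/-- the recursion of the Catalan numbers (`catalan_succ`) -/
theorem shsum_const (N : ℕ) (c : ℝ) : shsum N (fun _ => c) = c * catalan N := by
  induction N using Nat.strong_induction_on generalizing c with
  | _ N ih =>
    match N with
    | 0 => rw [shsum_zero]; simp
    | N + 1 =>
      rw [shsum_succ, catalan_succ]
      push_cast
      rw [Finset.mul_sum]
      refine Finset.sum_congr rfl (fun i _ => ?_)
      have hi := i.2
      rw [ih (N - i) (by omega), ih i (by omega)]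
      ring

end Pool.Agent.ALD
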