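import Mathlib

/-! Module SLOT: slots of a finite set of vertices -/

noncomputable section

namespace Pool.Agent.ALD

/-- the slots of a finite set `V` of vertices: the children of elements of `V` whose subtree contains no
element of `V` -/
def slots (V : Finset (List Bool)) : Finset (List Bool) :=
  Finset.filter (fun c => ∀ v ∈ V, ¬ c <+: v)
    (V.image (fun a => a ++ [false]) ∪ V.image (fun a => a ++ [true]))

theorem card_slots_le (V : Finset (List Bool)) : (slots V).card ≤ 2 * V.card := by
  unfold slots
  refine (Finset.card_filter_le _ _).trans ((Finset.card_union_le _ _).trans ?_)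
  have h1 : (V.image (fun a => a ++ [false])).card ≤ V.card := Finset.card_image_le
  have h2 : (V.image (fun a => a ++ [true])).card ≤ V.card := Finset.card_image_le
  omega

/-- the slots are children of elements of `V` -/
private theorem slot_aux1 {V : Finset (List Bool)} {c : List Bool} (hc : c ∈ slots V) :
    (∃ v ∈ V, ∃ b, c = v ++ [b]) ∧ ∀ v ∈ V, ¬ c <+: v := by
  unfold slots at hc
  rw [Finset.mem_filter, Finset.mem_union, Finset.mem_image, Finset.mem_image] at hc
  obtain ⟨h1, h2⟩ := hc
  refine ⟨?_, h2⟩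
  rcases h1 with ⟨v, hv, h⟩ | ⟨v, hv, h⟩
  · exact ⟨v, hv, false, h.symm⟩
  · exact ⟨v, hv, true, h.symm⟩

private theorem slot_aux2 {V : Finset (List Bool)} {v : List Bool} (hv : v ∈ V) (b : Bool)
    (h : ∀ w ∈ V, ¬ (v ++ [b]) <+: w) : v ++ [b] ∈ slots V := by
  unfold slots
  rw [Finset.mem_filter, Finset.mem_union, Finset.mem_image, Finset.mem_image]
  refine ⟨?_, h⟩
  cases b
  · exact Or.inl ⟨v, hv, rfl⟩
  · exact Or.inr ⟨v, hv, rfl⟩

/-- different slots are not comparable: if `c` is a proper beginning of the slot `c' = v ++ [b]` then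
it is a beginning of `v ∈ V` -/
theorem slots_incomparable {V : Finset (List Bool)} {c c' : List Bool} (hc : c ∈ slots V)
    (hc' : c' ∈ slots V) (h : c ≠ c') : ¬ c <+: c' := by
  intro hcc
  obtain ⟨⟨v, hv, b, rfl⟩, -⟩ := slot_aux1 hc'
  obtain ⟨-, h2⟩ := slot_aux1 hc
  rcases List.prefix_concat_iff.1 hcc with h3 | h3
  · exact h h3
  · exact h2 v hv h3

/-- every child of an element of `V` contains a slot: take the longest element of `V` below it, if there
is one -/
theorem exists_slot {V : Finset (List Bool)} {v : List Bool} (hv : v ∈ V) (b : Bool) :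
    ∃ c ∈ slots V, (v ++ [b]) <+: c := by
  classical
  by_cases h : ∃ w ∈ V, (v ++ [b]) <+: w
  · obtain ⟨w0, hw0, hw0'⟩ := h
    obtain ⟨w, hw, hmax⟩ := Finset.exists_max_image (V.filter (fun w => (v ++ [b]) <+: w))
      List.length ⟨w0, Finset.mem_filter.2 ⟨hw0, hw0'⟩⟩
    obtain ⟨hw1, hw2⟩ := Finset.mem_filter.1 hw
    refine ⟨w ++ [false], slot_aux2 hw1 false ?_, hw2.trans (List.prefix_append _ _)⟩
    intro u hu huw
    have h3 : (v ++ [b]) <+: u := (hw2.trans (List.prefix_append _ _)).trans huw
    have h4 := hmax u (Finset.mem_filter.2 ⟨hu, h3⟩)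
    have h5 := huw.length_le
    rw [List.length_append, List.length_singleton] at h5
    omega
  · push Not at h
    exact ⟨v ++ [b], slot_aux2 hv b h, List.prefix_rfl⟩

end Pool.Agent.ALD
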