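import Pool.Agent.ALD.RelP

/-! Module SYMA: basic facts on the moves of the chain -/

namespace Pool.Agent.ALD

open BT

private theorem symA_aux {n i : ℕ} {T : BT} (hn : 2 ≤ n) (hT : T ∈ trees n) (hi : i < n) :
    ∃ S : BT, T.del i = some S ∧ T.reins i = ins i S ∧ i ∉ S.labs ∧ (i :: S.labs).Perm T.labs := by
  have hnd := nodup_labs_of_mem_trees hT
  have hmem : i ∈ T.labs := (mem_labs_of_mem_trees hT i).mpr hi
  obtain ⟨S, hS⟩ := exists_del (j := i) hnd (by rw [size_of_mem_trees hT]; exact hn)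
  have hl : S.labs = T.labs.filter (fun a => decide (a ≠ i)) := labs_res hS
  refine ⟨S, hS, ?_, ?_, ?_⟩
  · unfold BT.reins
    rw [hS]
  · rw [hl]
    simp
  · rw [hl]
    have h1 : T.labs.filter (fun a => decide (a ≠ i)) = T.labs.erase i := by
      rw [hnd.erase_eq_filter]
      apply List.filter_congr
      intro a _
      simp [bne]
      rfl
    rw [h1]
    exact (List.perm_cons_erase hmem).symm

theorem length_reins {n i : ℕ} {T : BT} (hn : 2 ≤ n) (hT : T ∈ trees n) (hi : i < n) :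
    (T.reins i).length + 6 = 4 * n := by
  obtain ⟨S, h1, h2, h3, h4⟩ := symA_aux hn hT hi
  have h5 := length_ins i S
  have h6 := h4.length_eq
  rw [List.length_cons, length_labs, length_labs, size_of_mem_trees hT] at h6
  rw [h2]
  omega

theorem mem_trees_of_mem_reins {n i : ℕ} {T T' : BT} (hn : 2 ≤ n) (hT : T ∈ trees n) (hi : i < n)
    (h : T' ∈ T.reins i) : T' ∈ trees n := by
  obtain ⟨S, h1, h2, h3, h4⟩ := symA_aux hn hT hi
  rw [h2] at h
  rw [mem_trees_iff (by omega)]
  exact ((labs_of_mem_ins h).trans h4).trans ((mem_trees_iff (by omega) T).mp hT)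

theorem del_eq_of_mem_reins {n i : ℕ} {T T' : BT} (hn : 2 ≤ n) (hT : T ∈ trees n) (hi : i < n)
    (h : T' ∈ T.reins i) : T'.del i = T.del i := by
  obtain ⟨S, h1, h2, h3, h4⟩ := symA_aux hn hT hi
  rw [h2] at h
  rw [h1]
  exact del_of_mem_ins h3 h

theorem mem_reins_symm {n i : ℕ} {T T' : BT} (hn : 2 ≤ n) (hT : T ∈ trees n) (hi : i < n)
    (h : T' ∈ T.reins i) : T ∈ T'.reins i := by
  obtain ⟨S, h1, h2, h3, h4⟩ := symA_aux hn hT hi
  have h5 := del_eq_of_mem_reins hn hT hi h
  rw [h1] at h5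
  have h6 : T'.reins i = ins i S := by
    unfold BT.reins
    rw [h5]
  rw [h6]
  exact mem_ins_of_del (nodup_labs_of_mem_trees hT) ((mem_labs_of_mem_trees hT i).mpr hi) h1

end Pool.Agent.ALD
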