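import Pool.Agent.ALD.Remy
import Pool.Agent.ALD.TrCh

/-! Module TRS: from labelled trees to shapes -/

noncomputable section

namespace Pool.Agent.ALD

open BT

private theorem trS_sum_flatMap {α : Type*} (l : List α) (g : α → List ℝ) :
    (l.flatMap g).sum = (l.map (fun x => (g x).sum)).sum := by
  induction l with
  | nil => simp
  | cons a l ih => simp [List.flatMap_cons, ih]

/-- Induction on `N`: `(ins (N + 1) T).map shape = ins 0 (shape T)` (`ins_map`), induction hypothesis
for the function `S ↦ ((ins 0 S).map F).sum`, then `remy`. -/
theorem trees_sum_shape (N : ℕ) (F : BT → ℝ) :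
    ((trees (N + 1)).map (fun T => F (shape T))).sum = ((N + 1).factorial : ℝ) * shsum N F := by
  induction N generalizing F with
  | zero => rw [shsum_zero]; simp [trees, BT.shape, BT.map]
  | succ N ih =>
    have h1 : trees (N + 1 + 1) = (trees (N + 1)).flatMap (ins (N + 1)) := rfl
    rw [h1, List.map_flatMap, trS_sum_flatMap]
    have h2 : ∀ T : BT, ((ins (N + 1) T).map (fun T => F (shape T))).sum =
        ((ins 0 (shape T)).map F).sum := by
      intro T
      have h3 := ins_map (fun _ => 0) (N + 1) T
      have h4 : ins 0 (shape T) = (ins (N + 1) T).map (BT.map (fun _ => 0)) := h3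
      rw [h4, List.map_map]
      rfl
    simp only [h2]
    rw [ih (fun S => ((ins 0 S).map F).sum), remy, Nat.factorial_succ (N + 1)]
    push_cast
    ring

theorem length_trees (N : ℕ) :
    ((trees (N + 1)).length : ℝ) = ((N + 1).factorial : ℝ) * catalan N := by
  have h := trees_sum_shape N (fun _ => 1)
  rw [shsum_const] at h
  simpa using h

end Pool.Agent.ALD
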