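import Pool.Agent.ALD.Disc
import Pool.Agent.ALD.PoiC

/-! Module TRAA: passage to the limit for open sets, finitely many times -/

open MeasureTheory Filter Topology
open scoped NNReal

noncomputable section

namespace Pool.Agent.ALD

/-- For a finite set of times. If `Vᶜ` is empty the assumption gives `1 ≤ κ` (or `m = 0`). Otherwise let
`g_k X = min 1 (k · infDist X Vᶜ)`, a bounded continuous function, and
`f_k z = max_i g_k (z i)` (or `1 - ∏ (1 - g_k (z i))`): `0 ≤ f_k ≤ 1_{∃ i, z i ∈ V}` and `f_k z → 1`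
if some `z i ∈ V` (`V` open: `infDist > 0`). By `hfdd`, `fddExp_mono` and the assumption,
`∫ f_k (X) = lim ≤ κ`; then dominated (or monotone) convergence. The event is measurable by `hmeas`:
`{z | ∃ i, z i ∈ V}` is open. -/
theorem prob_finite {Ω : Type*} [MeasurableSpace Ω] {P : Measure Ω} [IsProbabilityMeasure P]
    {X : ℝ≥0 → Ω → RWTree}
    (hmeas : ∀ (m : ℕ) (t : Fin m → ℝ≥0),
      @Measurable Ω (Fin m → RWTree) _ (borel (Fin m → RWTree)) (fun ω i => X (t i) ω))
    {a : ℕ → ℝ} {C : ℝ} (ha : ∀ n, 2 ≤ n → 0 < a n ∧ a n ≤ C * (n : ℝ) ^ 2)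
    (hfdd : ∀ (m : ℕ) (t : Fin m → ℝ≥0), StrictMono t →
      ∀ f : BoundedContinuousFunction (Fin m → RWTree) ℝ,
        Tendsto (fun n => fddExp n (a n) m (fun i => (t i : ℝ))
          (fun z => f (fun i => toRW n (z i)))) atTop (𝓝 (∫ ω, f (fun i => X (t i) ω) ∂P)))
    {V : Set RWTree} (hV : IsOpen V) {Tm : ℝ≥0} {κ : ℝ} (hκ : 0 ≤ κ) {n₀ : ℕ}
    (hB : ∀ n ≥ n₀, HB C Tm κ n (fun T => toRW n T ∈ V))
    (m : ℕ) (t : Fin m → ℝ≥0) (ht : StrictMono t) (htm : ∀ i, t i ≤ Tm) :
    P {ω | ∃ i, X (t i) ω ∈ V} ≤ ENNReal.ofReal κ := by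
  classical
  let _ : MeasurableSpace (Fin m → RWTree) := borel _
  have : BorelSpace (Fin m → RWTree) := ⟨rfl⟩
  set Φ : Ω → (Fin m → RWTree) := fun ω i => X (t i) ω with hΦ
  have hΦm : Measurable Φ := hmeas m t
  have hVc : IsClosed Vᶜ := hV.isClosed_compl
  set A : ℕ → RWTree → ℝ := fun k x => ((hVc.apprSeq k x : ℝ≥0) : ℝ) with hA
  have hA0 : ∀ k x, 0 ≤ A k x := fun k x => (hVc.apprSeq k x).coe_nonneg
  have hA1 : ∀ k x, A k x ≤ 1 := fun k x => by
    have := HasOuterApproxClosed.apprSeq_apply_le_one hVc k x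
    exact_mod_cast this
  have hAc : ∀ k, Continuous (A k) := fun k => NNReal.continuous_coe.comp (hVc.apprSeq k).continuous
  have hAV : ∀ k x, x ∉ V → A k x = 1 := fun k x hx => by
    have := HasOuterApproxClosed.apprSeq_apply_eq_one hVc k (x := x) hx
    rw [hA]
    simp only
    rw [this]
    rfl
  have hAl : ∀ x ∈ V, Tendsto (fun k => A k x) atTop (𝓝 0) := fun x hx => by
    have h1 := tendsto_pi_nhds.mp (HasOuterApproxClosed.tendsto_apprSeq hVc) x
    rw [Set.indicator_of_notMem (by simpa using hx)] at h1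
    have h2 := (NNReal.continuous_coe.tendsto _).comp h1
    rw [NNReal.coe_zero] at h2
    exact h2
  have hp0 : ∀ k (z : Fin m → RWTree), 0 ≤ ∏ i, A k (z i) :=
    fun k z => Finset.prod_nonneg (fun i _ => hA0 k (z i))
  have hp1 : ∀ k (z : Fin m → RWTree), ∏ i, A k (z i) ≤ 1 :=
    fun k z => Finset.prod_le_one (fun i _ => hA0 _ _) (fun i _ => hA1 _ _)
  set fk : ℕ → (Fin m → RWTree) → ℝ := fun k z => 1 - ∏ i, A k (z i) with hfk
  have hfc : ∀ k, Continuous (fk k) := fun k => by
    refine continuous_const.sub (continuous_finsetProd _ (fun i _ => ?_))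
    exact (hAc k).comp (continuous_apply i)
  have hf0 : ∀ k z, 0 ≤ fk k z := fun k z => sub_nonneg.mpr (hp1 k z)
  have hf1 : ∀ k z, fk k z ≤ 1 := fun k z => by
    have := hp0 k z
    simp only [hfk]
    linarith
  have hfabs : ∀ k z, |fk k z| ≤ 1 := fun k z => abs_le.mpr ⟨by linarith [hf0 k z], hf1 k z⟩
  have hfz : ∀ k z, (∀ i, z i ∉ V) → fk k z = 0 := fun k z hz => by
    simp only [hfk]
    rw [Finset.prod_eq_one (fun i _ => hAV k _ (hz i)), sub_self]
  set F : ℕ → BoundedContinuousFunction (Fin m → RWTree) ℝ := fun k =>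
    BoundedContinuousFunction.ofNormedAddCommGroup (fk k) (hfc k) 1
      (fun z => by rw [Real.norm_eq_abs]; exact hfabs k z) with hF
  have hFf : ∀ k z, F k z = fk k z := fun k z => rfl
  have hFle : ∀ k, ∫ ω, F k (Φ ω) ∂P ≤ κ := by
    intro k
    refine le_of_tendsto (hfdd m t ht (F k)) ?_
    filter_upwards [eventually_ge_atTop (max n₀ 2)] with n hn
    have hn2 : 2 ≤ n := le_trans (le_max_right _ _) hn
    obtain ⟨ha1, ha2⟩ := ha n hn2
    have hmono : Monotone (fun i => (t i : ℝ)) := fun i j hij => by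
      have := ht.monotone hij
      exact_mod_cast this
    refine le_trans ?_ (hB n (le_trans (le_max_left _ _) hn) (a n) m (fun i => (t i : ℝ)) ha1 ha2 hmono
      (fun i => ⟨(t i).coe_nonneg, by exact_mod_cast htm i⟩))
    unfold hitP
    refine fddExp_mono (K := 1) hn2 ha1.le m _ hmono (fun i => (t i).coe_nonneg) _ _ ?_ ?_ ?_
    · intro z _
      rw [hFf]
      exact hfabs k _
    · intro z _
      unfold ind
      split_ifs
      · simp
      · simp
    · intro z _
      rw [hFf]
      unfold ind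
      split_ifs with h
      · exact hf1 k _
      · push Not at h
        rw [hfz k _ (fun i => h i)]
  set E : Set (Fin m → RWTree) := {z | ∃ i, z i ∈ V} with hE
  have hEo : IsOpen E := by
    have : E = ⋃ i, (fun z : Fin m → RWTree => z i) ⁻¹' V := by
      ext z
      simp [hE]
    rw [this]
    exact isOpen_iUnion (fun i => hV.preimage (continuous_apply i))
  have hEm : MeasurableSet (Φ ⁻¹' E) := hΦm hEo.measurableSet
  have hlim : Tendsto (fun k => ∫ ω, F k (Φ ω) ∂P) atTop
      (𝓝 (∫ ω, (Φ ⁻¹' E).indicator (1 : Ω → ℝ) ω ∂P)) := by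
    refine tendsto_integral_of_dominated_convergence (fun _ => (1 : ℝ)) ?_ (integrable_const _) ?_ ?_
    · intro k
      exact ((hfc k).measurable.comp hΦm).aestronglyMeasurable
    · intro k
      refine Eventually.of_forall (fun ω => ?_)
      rw [Real.norm_eq_abs]
      exact hfabs k _
    · refine Eventually.of_forall (fun ω => ?_)
      by_cases hω : ∃ i, X (t i) ω ∈ V
      · have hω' : ω ∈ Φ ⁻¹' E := hω
        rw [Set.indicator_of_mem hω']
        obtain ⟨i, hi⟩ := hω
        have h1 : Tendsto (fun k => ∏ j, A k (Φ ω j)) atTop (𝓝 0) := by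
          refine squeeze_zero (fun k => hp0 k _) (fun k => ?_) (hAl _ hi)
          rw [← Finset.mul_prod_erase _ _ (Finset.mem_univ i)]
          refine mul_le_of_le_one_right (hA0 _ _) (Finset.prod_le_one (fun j _ => hA0 _ _)
            (fun j _ => hA1 _ _))
        have h2 := h1.const_sub 1
        rw [sub_zero] at h2
        exact h2
      · have hω' : ω ∉ Φ ⁻¹' E := hω
        rw [Set.indicator_of_notMem hω']
        push Not at hω
        have : ∀ k, F k (Φ ω) = 0 := fun k => hfz k _ hω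
        simp only [this]
        exact tendsto_const_nhds
  have hfin := le_of_tendsto' hlim hFle
  rw [integral_indicator_one hEm] at hfin
  exact (ENNReal.le_ofReal_iff_toReal_le (measure_ne_top _ _) hκ).mpr hfin

end Pool.Agent.ALD
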