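import Pool.Agent.ALD.TraA

/-! Module TRANS: passage to the limit for open sets, all times -/

open MeasureTheory Filter Topology
open scoped NNReal

noncomputable section

namespace Pool.Agent.ALD

/-- Let `D` be a countable dense subset of `[0, Tm]`, written as an increasing union of finite sets
(each listed in increasing order): by `prob_finite` and continuity of the measure along increasing
unions `P (∃ t ∈ D, X t ∈ V) ≤ κ`. If the path is continuous and `X t ω ∈ V` for some `t ≤ Tm`, then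
`X s ω ∈ V` for some `s ∈ D`, because `V` is open. -/
theorem prob_exists {Ω : Type*} [MeasurableSpace Ω] {P : Measure Ω} [IsProbabilityMeasure P]
    {X : ℝ≥0 → Ω → RWTree} (hcont : ∀ᵐ ω ∂P, Continuous fun t => X t ω)
    (hmeas : ∀ (m : ℕ) (t : Fin m → ℝ≥0),
      @Measurable Ω (Fin m → RWTree) _ (borel (Fin m → RWTree)) (fun ω i => X (t i) ω))
    {a : ℕ → ℝ} {C : ℝ} (ha : ∀ n, 2 ≤ n → 0 < a n ∧ a n ≤ C * (n : ℝ) ^ 2)
    (hfdd : ∀ (m : ℕ) (t : Fin m → ℝ≥0), StrictMono t →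
      ∀ f : BoundedContinuousFunction (Fin m → RWTree) ℝ,
        Tendsto (fun n => fddExp n (a n) m (fun i => (t i : ℝ))
          (fun z => f (fun i => toRW n (z i)))) atTop (𝓝 (∫ ω, f (fun i => X (t i) ω) ∂P)))
    {V : Set RWTree} (hV : IsOpen V) {Tm : ℝ≥0} (hTm : 0 < Tm) {κ : ℝ} (hκ : 0 ≤ κ) {n₀ : ℕ}
    (hB : ∀ n ≥ n₀, HB C Tm κ n (fun T => toRW n T ∈ V)) :
    P {ω | ∃ t ≤ Tm, X t ω ∈ V} ≤ ENNReal.ofReal κ := by
  classical
  have hne : Nonempty (Set.Iic Tm) := ⟨⟨Tm, le_refl Tm⟩⟩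
  set d : ℕ → Set.Iic Tm := TopologicalSpace.denseSeq (Set.Iic Tm) with hd
  set E : ℕ → Set Ω := fun N => {ω | ∃ k < N, X (d k : ℝ≥0) ω ∈ V} with hE
  have hEmono : Monotone E := by
    intro N N' hN ω hω
    obtain ⟨k, hk, hk'⟩ := hω
    exact ⟨k, lt_of_lt_of_le hk hN, hk'⟩
  have hEle : ∀ N, P (E N) ≤ ENNReal.ofReal κ := by
    intro N
    set S : Finset ℝ≥0 := (Finset.range N).image (fun k => (d k : ℝ≥0)) with hS
    have h1 := prob_finite hmeas ha hfdd hV hκ hB S.card (S.orderEmbOfFin rfl)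
      (S.orderEmbOfFin rfl).strictMono (fun i => by
        have h2 := S.orderEmbOfFin_mem rfl i
        obtain ⟨k, _, hk⟩ := Finset.mem_image.mp h2
        rw [← hk]
        exact (d k).2)
    refine le_trans (measure_mono ?_) h1
    rintro ω ⟨k, hk, hk'⟩
    have h3 : (d k : ℝ≥0) ∈ Set.range (S.orderEmbOfFin rfl) := by
      rw [Finset.range_orderEmbOfFin]
      exact Finset.mem_coe.mpr (Finset.mem_image.mpr ⟨k, Finset.mem_range.mpr hk, rfl⟩)
    obtain ⟨i, hi⟩ := h3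
    exact ⟨i, by rw [hi]; exact hk'⟩
  have hU : P (⋃ N, E N) ≤ ENNReal.ofReal κ := by
    rw [hEmono.measure_iUnion]
    exact iSup_le hEle
  refine le_trans (measure_mono_ae ?_) hU
  filter_upwards [hcont] with ω hω
  rintro ⟨t, ht, htV⟩
  have h1 : IsOpen {s : Set.Iic Tm | X (s : ℝ≥0) ω ∈ V} :=
    hV.preimage (hω.comp continuous_subtype_val)
  obtain ⟨k, hk⟩ := (TopologicalSpace.denseRange_denseSeq (Set.Iic Tm)).exists_mem_open h1
    ⟨⟨t, ht⟩, htV⟩
  exact Set.mem_iUnion.mpr ⟨k + 1, k, Nat.lt_succ_self k, hk⟩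

end Pool.Agent.ALD
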