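import Pool.Agent.ALD.Base

/-! Module UQ: the numbers U n = C(2n, n) / 4^n and q m = U (m - 1) - U m -/

noncomputable section

namespace Pool.Agent.ALD

theorem U_zero : U 0 = 1 := by
  simp [U]

theorem U_pos (n : ℕ) : 0 < U n := by
  unfold U
  have : 0 < n.centralBinom := Nat.centralBinom_pos n
  positivity

theorem U_succ (n : ℕ) : U (n + 1) = U n * ((2 * n + 1) / (2 * n + 2)) := by
  have h := Nat.succ_mul_centralBinom_succ n
  have h' : ((n:ℝ) + 1) * ((n + 1).centralBinom : ℝ) = 2 * (2 * n + 1) * (n.centralBinom : ℝ) := by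
    exact_mod_cast h
  have h1 : ((n:ℝ) + 1) ≠ 0 := by positivity
  have h2 : ((n + 1).centralBinom : ℝ) = 2 * (2 * n + 1) * (n.centralBinom : ℝ) / (n + 1) := by
    rw [eq_div_iff h1, ← h']
    ring
  unfold U
  rw [h2]
  have h3 : (2 * (n:ℝ) + 2) ≠ 0 := by positivity
  field_simp
  ring

theorem U_antitone : Antitone U := by
  apply antitone_nat_of_succ_le
  intro n
  rw [U_succ]
  have h1 : (2 * (n:ℝ) + 1) / (2 * n + 2) ≤ 1 := by
    rw [div_le_one (by positivity)]
    linarith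
  have h2 := U_pos n
  nlinarith

theorem U_le_one (n : ℕ) : U n ≤ 1 := by
  rw [← U_zero]
  exact U_antitone (Nat.zero_le n)

/-- induction: `U (n+1)² / U n² = ((2n+1)/(2n+2))² ≥ n / (n + 1)` -/
theorem U_lower {n : ℕ} (hn : 1 ≤ n) : 1 / (2 * Real.sqrt n) ≤ U n := by
  induction n, hn using Nat.le_induction with
  | base =>
    rw [U_succ, U_zero]
    norm_num
  | succ n hn ih =>
    rw [U_succ]
    have hn0 : (0:ℝ) < n := by exact_mod_cast hn
    have hs : 0 < Real.sqrt n := Real.sqrt_pos.mpr hn0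
    have hs1 : 0 < Real.sqrt ((n + 1 : ℕ) : ℝ) := Real.sqrt_pos.mpr (by positivity)
    have h1 : Real.sqrt n * (2 * n + 2) ≤ Real.sqrt ((n + 1 : ℕ) : ℝ) * (2 * n + 1) := by
      have e1 : Real.sqrt n * (2 * n + 2) = Real.sqrt (n * (2 * n + 2) ^ 2) := by
        rw [Real.sqrt_mul hn0.le, Real.sqrt_sq (by positivity)]
      have e2 : Real.sqrt ((n + 1 : ℕ) : ℝ) * (2 * n + 1) =
          Real.sqrt (((n + 1 : ℕ) : ℝ) * (2 * n + 1) ^ 2) := by
        rw [Real.sqrt_mul (by positivity), Real.sqrt_sq (by positivity)]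
      rw [e1, e2]
      apply Real.sqrt_le_sqrt
      push_cast
      nlinarith
    calc 1 / (2 * Real.sqrt ((n + 1 : ℕ) : ℝ)) ≤ 1 / (2 * Real.sqrt n) * ((2 * n + 1) / (2 * n + 2)) := by
          rw [div_mul_div_comm, one_mul, div_le_div_iff₀ (by positivity) (by positivity)]
          nlinarith
      _ ≤ U n * ((2 * n + 1) / (2 * n + 2)) := mul_le_mul_of_nonneg_right ih (by positivity)

/-- induction: `((2n+1)/(2n+2))² ≤ (n + 1) / (n + 2)` -/
theorem U_upper (n : ℕ) : U n ≤ 1 / Real.sqrt (n + 1) := by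
  induction n with
  | zero => rw [U_zero]; norm_num
  | succ n ih =>
    rw [U_succ]
    have hs : 0 < Real.sqrt ((n:ℝ) + 1) := Real.sqrt_pos.mpr (by positivity)
    have hs1 : 0 < Real.sqrt (((n + 1 : ℕ) : ℝ) + 1) := Real.sqrt_pos.mpr (by positivity)
    have h1 : Real.sqrt (((n + 1 : ℕ) : ℝ) + 1) * (2 * n + 1) ≤ Real.sqrt ((n:ℝ) + 1) * (2 * n + 2) := by
      have e1 : Real.sqrt ((n:ℝ) + 1) * (2 * n + 2) = Real.sqrt (((n:ℝ) + 1) * (2 * n + 2) ^ 2) := by
        rw [Real.sqrt_mul (by positivity), Real.sqrt_sq (by positivity)]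
      have e2 : Real.sqrt (((n + 1 : ℕ) : ℝ) + 1) * (2 * n + 1) =
          Real.sqrt ((((n + 1 : ℕ) : ℝ) + 1) * (2 * n + 1) ^ 2) := by
        rw [Real.sqrt_mul (by positivity), Real.sqrt_sq (by positivity)]
      rw [e1, e2]
      apply Real.sqrt_le_sqrt
      push_cast
      have : (0:ℝ) ≤ n := by positivity
      nlinarith
    calc U n * ((2 * n + 1) / (2 * n + 2)) ≤ 1 / Real.sqrt (n + 1) * ((2 * n + 1) / (2 * n + 2)) :=
          mul_le_mul_of_nonneg_right ih (by positivity)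
      _ ≤ 1 / Real.sqrt (((n + 1 : ℕ) : ℝ) + 1) := by
          rw [div_mul_div_comm, one_mul, div_le_div_iff₀ (by positivity) (by positivity)]
          nlinarith

theorem q_nonneg (m : ℕ) : 0 ≤ q m := by
  unfold q
  have := U_antitone (Nat.sub_le m 1)
  linarith

theorem q_zero : q 0 = 0 := by
  simp [q]

/-- `q (m + 1) = U m / (2 (m + 1))` -/
theorem q_succ (m : ℕ) : q (m + 1) = U m / (2 * (m + 1)) := by
  unfold q
  rw [Nat.add_sub_cancel, U_succ]
  have : (2 * (m:ℝ) + 2) ≠ 0 := by positivity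
  have h2 : ((m:ℝ) + 1) ≠ 0 := by positivity
  field_simp
  ring

theorem sum_q_Icc {B N : ℕ} (hB : 1 ≤ B) (hBN : B ≤ N + 1) :
    ∑ m ∈ Finset.Icc B N, q m = U (B - 1) - U N := by
  obtain ⟨k, hk⟩ := Nat.exists_eq_add_of_le hBN
  induction k generalizing N with
  | zero =>
    have hN : N = B - 1 := by omega
    subst hN
    rw [Finset.Icc_eq_empty (by omega), Finset.sum_empty, sub_self]
  | succ k ih =>
    obtain ⟨M, rfl⟩ : ∃ M, N = M + 1 := ⟨N - 1, by omega⟩
    rw [Finset.sum_Icc_succ_top (by omega), ih (by omega) (by omega)]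
    simp only [q, Nat.add_sub_cancel]
    ring

/-- telescoping -/
theorem sum_q (N : ℕ) : ∑ m ∈ Finset.Icc 1 N, q m = 1 - U N := by
  rw [sum_q_Icc le_rfl (by omega)]
  simp [U_zero]

theorem sum_U (M : ℕ) : ∑ j ∈ Finset.range M, U j = 2 * M * U M := by
  induction M with
  | zero => simp
  | succ M ih =>
    rw [Finset.sum_range_succ, ih, U_succ]
    push_cast
    have : (2 * (M:ℝ) + 2) ≠ 0 := by positivity
    field_simp

end Pool.Agent.ALD
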