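import Pool.Agent.ALD.UQ

/-! Module UR: Catalan numbers and the renewal equation -/

noncomputable section

namespace Pool.Agent.ALD

theorem U_eq_catalan (n : ℕ) : U n = (n + 1) * (catalan n : ℝ) / 4 ^ n := by
  have h : ((n:ℝ) + 1) * (catalan n : ℝ) = (n.centralBinom : ℝ) := by
    exact_mod_cast succ_mul_catalan_eq_centralBinom n
  rw [U, h]

theorem q_succ_catalan (m : ℕ) : q (m + 1) = 2 * (catalan m : ℝ) / 4 ^ (m + 1) := by
  rw [q_succ, U_eq_catalan]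
  have h1 : ((m:ℝ) + 1) ≠ 0 := by positivity
  field_simp
  ring

theorem uR_sum (k : ℕ) (f : ℕ → ℝ) :
    ∑ m ∈ Finset.Icc 1 (k + 1), f m = ∑ j ∈ Finset.range (k + 1), f (j + 1) := by
  induction k with
  | zero => simp
  | succ k ih =>
    rw [Finset.sum_Icc_succ_top (by omega), ih, Finset.sum_range_succ _ (k + 1)]

/-- renewal equation; from `(N + 1) Cat N = Σ_{i + j = N - 1} (i + j + 2) Cat i Cat j
= 2 Σ Cat i (j + 1) Cat j` -/
theorem renewal {N : ℕ} (hN : 1 ≤ N) : U N = ∑ m ∈ Finset.Icc 1 N, q m * U (N - m) := by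
  obtain ⟨k, rfl⟩ : ∃ k, N = k + 1 := ⟨N - 1, by omega⟩
  rw [uR_sum]
  have h1 : ∀ j ∈ Finset.range (k + 1), q (j + 1) * U (k + 1 - (j + 1)) =
      2 / 4 ^ (k + 1) * ((catalan j : ℝ) * (((k - j : ℕ) : ℝ) + 1) * (catalan (k - j) : ℝ)) := by
    intro j hj
    have hj' : j ≤ k := by
      have := Finset.mem_range.mp hj
      omega
    rw [q_succ_catalan, U_eq_catalan, Nat.add_sub_add_right]
    have e : (4:ℝ) ^ (k + 1) = 4 ^ (j + 1) * 4 ^ (k - j) := by
      rw [← pow_add]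
      congr 1
      omega
    rw [e]
    field_simp
  rw [Finset.sum_congr rfl h1, ← Finset.mul_sum]
  have h2 : ∑ j ∈ Finset.range (k + 1),
      ((catalan j : ℝ) * (((k - j : ℕ) : ℝ) + 1) * (catalan (k - j) : ℝ)) =
      ∑ ij ∈ Finset.HasAntidiagonal.antidiagonal k, (catalan ij.1 : ℝ) * ((ij.2 : ℝ) + 1) * (catalan ij.2 : ℝ) :=
    (Finset.Nat.sum_antidiagonal_eq_sum_range_succ
      (fun i j => (catalan i : ℝ) * ((j : ℝ) + 1) * (catalan j : ℝ)) k).symm
  have h3 : ∑ ij ∈ Finset.HasAntidiagonal.antidiagonal k, (catalan ij.1 : ℝ) * ((ij.2 : ℝ) + 1) * (catalan ij.2 : ℝ)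
      = ∑ ij ∈ Finset.HasAntidiagonal.antidiagonal k, (catalan ij.1 : ℝ) * ((ij.1 : ℝ) + 1) * (catalan ij.2 : ℝ) := by
    rw [← Finset.Nat.sum_antidiagonal_swap]
    refine Finset.sum_congr rfl fun ij _ => ?_
    simp only [Prod.fst_swap, Prod.snd_swap]
    ring
  have h4 : (catalan (k + 1) : ℝ) = ∑ ij ∈ Finset.HasAntidiagonal.antidiagonal k, (catalan ij.1 : ℝ) * (catalan ij.2 : ℝ) := by
    rw [catalan_succ']
    push_cast
    rfl
  have h5 : 2 * ∑ ij ∈ Finset.HasAntidiagonal.antidiagonal k, (catalan ij.1 : ℝ) * ((ij.2 : ℝ) + 1) * (catalan ij.2 : ℝ)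
      = ((k:ℝ) + 2) * (catalan (k + 1) : ℝ) := by
    rw [two_mul]
    nth_rewrite 2 [h3]
    rw [← Finset.sum_add_distrib, h4, Finset.mul_sum]
    refine Finset.sum_congr rfl fun ij hij => ?_
    have h6 : (ij.1 : ℝ) + ij.2 = k := by
      have := Finset.HasAntidiagonal.mem_antidiagonal.mp hij
      exact_mod_cast this
    have h7 : (k:ℝ) + 2 = (ij.1 : ℝ) + ij.2 + 2 := by rw [h6]
    rw [h7]
    ring
  rw [h2, U_eq_catalan]
  rw [div_mul_eq_mul_div, h5]
  push_cast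
  ring

end Pool.Agent.ALD
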